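import Pool.Agent.H561.E3.U4

set_option autoImplicit false

/-! Several linear forms: the sifted sum with `g_i ∣ L_i (n)`, `g_i` large. -/

namespace Pool.Agent.H561.E3

open Finset
open Pool.Agent.H373R2.T7
open Pool.Agent.H561.E2 (LFo LFo_mod xg xg_nonneg QJ QJ_perA QJ_per rho bigc classes_le yi yi_nonneg rough rough_nonneg rough_le)

/-- some form is divisible by `p` -/
def QA {k : ℕ} (c h : Fin k → ℤ) (p n : ℕ) : Prop := ∃ i, (p : ℤ) ∣ LFo c h i n

lemma QA_perA {k : ℕ} (c h : Fin k → ℤ) (hc : ∀ i, c i ≠ 0) : PerA (QA c h) (bigc c) := by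
  classical
  refine ⟨fun p n => ?_, fun p hp => ?_⟩
  · unfold QA
    exact exists_congr fun i => LFo_mod c h i p n
  · unfold rhoA
    apply classes_le c h hc p hp
    rintro r ⟨h1, h2⟩
    exact ⟨h1, h2⟩

lemma rhoA_QA {k : ℕ} (c h : Fin k → ℤ) (p : ℕ) : rhoA (QA c h) p = rho c h p := by
  classical
  unfold rhoA rho QA
  congr

lemma EfA_mono (Q Q' : ℕ → ℕ → Prop) (hQ : ∀ p n, Q p n → Q' p n) (N z r d : ℕ) : EfA Q N z r d ≤ EfA Q' N z r d := by
  classical
  unfold EfA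
  apply sum_le_sum_of_subset_of_nonneg
  · intro b hb
    unfold LSA at hb ⊢
    split_ifs at hb ⊢ with h1
    · rw [mem_filter] at hb ⊢
      exact ⟨hb.1, fun p hp => ⟨(hb.2 p hp).1, hQ p b (hb.2 p hp).2⟩⟩
    · exact hb
  · intro _ _ _
    exact abs_nonneg _

lemma QJ_QA {k : ℕ} (c h : Fin k → ℤ) (z : ℕ) (g : Fin k → ℕ) (p n : ℕ) (hQ : QJ c h z g univ p n) : QA c h p n := by
  rcases hQ with ⟨_, h1⟩ | ⟨i, _, _, h1⟩
  · exact h1
  · exact ⟨i, h1⟩

lemma rhoA_g {k : ℕ} (c h : Fin k → ℤ) (z : ℕ) (g : Fin k → ℕ) (hinj : Function.Injective g) (i : Fin k) (hg : (g i).Prime) (hz : z < g i)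
    (hc : ¬ (g i : ℤ) ∣ c i) (hh : ¬ (g i : ℤ) ∣ h i) : rhoA (QJ c h z g univ) (g i) = 1 := by
  classical
  rw [← rho_big (c i) (h i) (g i) hg hc hh]
  unfold rhoA
  congr 1
  apply filter_congr
  intro r _
  apply and_congr_right
  intro _
  unfold QJ Q1
  constructor
  · rintro (⟨h1, _⟩ | ⟨l, _, h1, h2⟩)
    · omega
    · rw [← hinj h1] at h2
      exact h2
  · intro h1
    exact Or.inr ⟨i, mem_univ i, rfl, h1⟩

/-- the sifted sum with the conditions modulo the `g_i` -/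
noncomputable def Wt {k : ℕ} (c h : Fin k → ℤ) (N z : ℕ) (g : Fin k → ℕ) : ℝ := by
  classical exact ∑ n ∈ Icc 1 N, if (∀ p ∈ pz z, ¬ p ∣ n ∧ ¬ QA c h p n) ∧ (∀ i, (g i : ℤ) ∣ LFo c h i n) then
    ArithmeticFunction.vonMangoldt n else 0

open Classical in
theorem sieve_t {k : ℕ} (hk0 : 0 < k) (c h : Fin k → ℤ) (hc : ∀ i, c i ≠ 0) (N z r P : ℕ) (g : Fin k → ℕ) (hinj : Function.Injective g)
    (hg : ∀ i, (g i).Prime ∧ z < g i ∧ g i ≤ P ∧ ¬ (g i : ℤ) ∣ c i) (hgh : ∀ i, ¬ (g i : ℤ) ∣ h i) :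
    |Wt c h N z g - lam1 N * (∏ i, 1 / ((g i : ℝ) - 1)) * ∏ p ∈ pz z, (1 - (rho c h p : ℝ) / (p - 1 : ℝ))| ≤
      ((z : ℝ) + 1) ^ r * (z * ((Nat.log 2 N + 1 : ℝ) * Real.log N)) +
      ∑ j ∈ range (r + 1), ∑ S ∈ (pz z).powersetCard j, EfA (QA c h) N P (r + k) ((∏ i, g i) * ∏ p ∈ S, p) +
      2 * (lam1 N * (∏ i, 1 / ((g i : ℝ) - 1))) * Real.exp (3 * ((2 * bigc c : ℕ) * (1 + Real.log z)) - r) := by
  have hQ := QA_perA c h hc
  have hQJ := QJ_perA c h hc z g univ
  have hg2 : ∀ i, (2 : ℝ) ≤ g i := fun i => by exact_mod_cast (hg i).1.two_le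
  have hlN : 0 ≤ (Nat.log 2 N + 1 : ℝ) * Real.log N := by
    have := Real.log_natCast_nonneg N
    positivity
  have hψ : 0 ≤ lam1 N := sum_nonneg fun _ _ => ArithmeticFunction.vonMangoldt_nonneg
  have hG0 : 0 ≤ ∏ i, 1 / ((g i : ℝ) - 1) := prod_nonneg fun i _ => div_nonneg zero_le_one (by have := hg2 i; linarith)
  have hψg : 0 ≤ lam1 N * ∏ i, 1 / ((g i : ℝ) - 1) := mul_nonneg hψ hG0
  have hgn : ∀ n, ∀ i, (g i : ℤ) ∣ LFo c h i n → ¬ g i ∣ n := by
    intro n i hn hd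
    apply hgh i
    unfold LFo at hn
    have h1 : (g i : ℤ) ∣ c i * n := Dvd.dvd.mul_left (Int.natCast_dvd_natCast.2 hd) (c i)
    exact (Int.dvd_iff_dvd_of_dvd_add hn).1 h1
  have key := sieve_gen' ((Icc 1 N).filter (fun n => ∀ p ∈ pz z, ¬ p ∣ n))
    (fun n => if ∀ i, (g i : ℤ) ∣ LFo c h i n then ArithmeticFunction.vonMangoldt n else 0)
    (fun n _ => by
      split_ifs
      · exact ArithmeticFunction.vonMangoldt_nonneg
      · exact le_rfl) (fun p n => QA c h p n) (pz z)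
    (fun p => (rho c h p : ℝ) / (p - 1 : ℝ)) (fun p hp => by
      have h1 := E2.fac_mem c h p (mem_pz.1 hp).2
      constructor
      · have hp2 : (2 : ℝ) ≤ p := by exact_mod_cast (mem_pz.1 hp).2.two_le
        apply div_nonneg (Nat.cast_nonneg _); linarith
      · linarith [h1.1]) (lam1 N * ∏ i, 1 / ((g i : ℝ) - 1)) hψg
    (fun S => z * ((Nat.log 2 N + 1 : ℝ) * Real.log N) + EfA (QA c h) N P (r + k) ((∏ i, g i) * ∏ p ∈ S, p)) r (by
      intro S hS hr
      have hgS : Disjoint S (univ.image g) := by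
        rw [Finset.disjoint_left]
        intro p hp hp'
        rw [mem_image] at hp'
        obtain ⟨i, _, hi⟩ := hp'
        have h1 := (mem_pz.1 (hS hp)).1
        have h2 := (hg i).2.1
        omega
      have hzP : ∀ p ∈ S, ∀ _i : Fin k, p ≤ P := by
        intro p hp i
        have h1 := (mem_pz.1 (hS hp)).1
        have h2 := hg i
        omega
      have hS'P : S ∪ univ.image g ⊆ pz P := by
        intro p hp
        rw [mem_union, mem_image] at hp
        rcases hp with hp | ⟨i, _, rfl⟩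
        · exact mem_pz.2 ⟨hzP p hp ⟨0, hk0⟩, (mem_pz.1 (hS hp)).2⟩
        · exact mem_pz.2 ⟨(hg i).2.2.1, (hg i).1⟩
      have himg : (univ.image g).card ≤ k := card_image_le.trans (by rw [card_univ, Fintype.card_fin])
      have hS'r : (S ∪ univ.image g).card ≤ r + k := (card_union_le _ _).trans (by omega)
      have h3 := ap_sum (QJ c h z g univ) hQJ N P (r + k) (S ∪ univ.image g) hS'P hS'r
      rw [prod_union hgS, prod_union hgS, prod_image (fun x _ y _ hxy => hinj hxy), prod_image (fun x _ y _ hxy => hinj hxy)] at h3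
      have e1 : ∏ p ∈ S, ((rhoA (QJ c h z g univ) p : ℝ) / (p - 1 : ℝ)) = ∏ p ∈ S, ((rho c h p : ℝ) / (p - 1 : ℝ)) := by
        apply prod_congr rfl
        intro p hp
        rw [E2.rhoA_small c h z g univ (fun i => (hg i).2.1) p (mem_pz.1 (hS hp)).1]
      have e2 : ∏ i, ((rhoA (QJ c h z g univ) (g i) : ℝ) / ((g i : ℝ) - 1)) = ∏ i, 1 / ((g i : ℝ) - 1) := by
        apply prod_congr rfl
        intro i _
        rw [rhoA_g c h z g hinj i (hg i).1 (hg i).2.1 (hg i).2.2.2 (hgh i), Nat.cast_one]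
      rw [e1, e2] at h3
      have h3' := h3.trans (EfA_mono _ (QA c h) (QJ_QA c h z g) N P (r + k) _)
      obtain ⟨CP, hCP⟩ : ∃ CP : ℕ → Prop, ∀ n, CP n ↔ ∀ p ∈ S ∪ univ.image g, ¬ p ∣ n ∧ QJ c h z g univ p n := ⟨_, fun _ => Iff.rfl⟩
      obtain ⟨W', hW'⟩ : ∃ W' : ℝ, W' = ∑ n ∈ Icc 1 N, if CP n then ArithmeticFunction.vonMangoldt n else 0 := ⟨_, rfl⟩
      have h3'' : |W' - lam1 N * ((∏ p ∈ S, ((rho c h p : ℝ) / (p - 1 : ℝ))) * ∏ i, 1 / ((g i : ℝ) - 1))| ≤
          EfA (QA c h) N P (r + k) ((∏ p ∈ S, p) * ∏ i, g i) := by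
        refine le_trans (le_of_eq ?_) h3'
        congr 2
        rw [hW', sum_filter]
        apply sum_congr rfl
        intro n _
        by_cases hcp : CP n
        · rw [if_pos hcp, if_pos ((hCP n).1 hcp)]
        · rw [if_neg hcp, if_neg (fun h0 => hcp ((hCP n).2 h0))]
      set W : ℝ := ∑ n ∈ ((Icc 1 N).filter (fun n : ℕ => ∀ p ∈ pz z, ¬ p ∣ n)).filter
        (fun n : ℕ => ∀ p ∈ S, QA c h p n), (if ∀ i, (g i : ℤ) ∣ LFo c h i n then ArithmeticFunction.vonMangoldt n else 0) with hW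
      have h4 : |W - W'| ≤ z * ((Nat.log 2 N + 1 : ℝ) * Real.log N) := by
        have h5 : W = ∑ n ∈ Icc 1 N, if (∀ p ∈ pz z, ¬ p ∣ n) ∧ (∀ p ∈ S, QA c h p n) then
            (if ∀ i, (g i : ℤ) ∣ LFo c h i n then ArithmeticFunction.vonMangoldt n else 0) else 0 := by
          rw [hW, filter_filter, sum_filter]
        have hcond : ∀ n, (∀ p ∈ S ∪ univ.image g, ¬ p ∣ n ∧ QJ c h z g univ p n) →
            (∀ p ∈ S, QA c h p n) ∧ ∀ i, (g i : ℤ) ∣ LFo c h i n := by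
          intro n hn
          refine ⟨fun p hp => QJ_QA c h z g p n (hn p (mem_union_left _ hp)).2, fun i => ?_⟩
          have h7 := (hn (g i) (mem_union_right _ (mem_image_of_mem g (mem_univ i)))).2
          rcases h7 with ⟨h8, _⟩ | ⟨l, _, h8, h9⟩
          · have := (hg i).2.1
            omega
          · rw [← hinj h8] at h9
            exact h9
        have hcond2 : ∀ n, (∀ p ∈ pz z, ¬ p ∣ n) → (∀ p ∈ S, QA c h p n) → (∀ i, (g i : ℤ) ∣ LFo c h i n) →
            ∀ p ∈ S ∪ univ.image g, ¬ p ∣ n ∧ QJ c h z g univ p n := by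
          intro n hn1 hn2 hn3 p hp
          rw [mem_union, mem_image] at hp
          rcases hp with hp | ⟨i, _, rfl⟩
          · exact ⟨hn1 p (hS hp), Or.inl ⟨(mem_pz.1 (hS hp)).1, hn2 p hp⟩⟩
          · exact ⟨hgn n i (hn3 i), Or.inr ⟨i, mem_univ i, rfl, hn3 i⟩⟩
        rw [h5, hW', ← sum_sub_distrib]
        refine (abs_sum_le_sum_abs _ _).trans ?_
        have h7 : ∀ n ∈ Icc 1 N, |(if (∀ p ∈ pz z, ¬ p ∣ n) ∧ (∀ p ∈ S, QA c h p n) then
            (if ∀ i, (g i : ℤ) ∣ LFo c h i n then ArithmeticFunction.vonMangoldt n else 0) else 0) -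
            (if CP n then ArithmeticFunction.vonMangoldt n else 0)| ≤ ∑ p ∈ pz z, if p ∣ n then ArithmeticFunction.vonMangoldt n else 0 := by
          intro n _
          have h8 : (0 : ℝ) ≤ ArithmeticFunction.vonMangoldt n := ArithmeticFunction.vonMangoldt_nonneg
          have h9 : 0 ≤ ∑ p ∈ pz z, if p ∣ n then ArithmeticFunction.vonMangoldt n else 0 :=
            sum_nonneg fun p _ => by split_ifs <;> simp [h8]
          by_cases h10 : ∀ p ∈ pz z, ¬ p ∣ n
          · by_cases h11 : (∀ p ∈ S, QA c h p n) ∧ ∀ i, (g i : ℤ) ∣ LFo c h i n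
            · rw [if_pos ⟨h10, h11.1⟩, if_pos h11.2, if_pos ((hCP n).2 (hcond2 n h10 h11.1 h11.2)), sub_self, abs_zero]
              exact h9
            · have h12 : ¬ CP n := fun hcon => h11 (hcond n ((hCP n).1 hcon))
              rw [if_neg h12]
              have h13 : (if (∀ p ∈ pz z, ¬ p ∣ n) ∧ (∀ p ∈ S, QA c h p n) then
                  (if ∀ i, (g i : ℤ) ∣ LFo c h i n then ArithmeticFunction.vonMangoldt n else 0) else 0) = 0 := by
                by_cases h14 : ∀ p ∈ S, QA c h p n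
                · rw [if_pos ⟨h10, h14⟩, if_neg (fun h15 => h11 ⟨h14, h15⟩)]
                · rw [if_neg (fun h15 => h14 h15.2)]
              rw [h13, sub_self, abs_zero]
              exact h9
          · rw [if_neg (fun h => h10 h.1), zero_sub, abs_neg]
            push Not at h10
            obtain ⟨p, hp, hpn⟩ := h10
            have h11 : |(if CP n then ArithmeticFunction.vonMangoldt n else 0)| ≤ ArithmeticFunction.vonMangoldt n := by
              split_ifs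
              · rw [abs_of_nonneg h8]
              · rw [abs_zero]; exact h8
            refine h11.trans ?_
            have h12 := single_le_sum (f := fun p => if p ∣ n then ArithmeticFunction.vonMangoldt n else (0 : ℝ))
              (s := pz z) (fun p _ => by split_ifs <;> simp [h8]) hp
            simp only [if_pos hpn] at h12
            exact h12
        refine (sum_le_sum h7).trans ?_
        rw [sum_comm]
        have h8 : ∀ p ∈ pz z, ∑ n ∈ Icc 1 N, (if p ∣ n then ArithmeticFunction.vonMangoldt n else 0) ≤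
            (Nat.log 2 N + 1 : ℝ) * Real.log N := by
          intro p hp
          rw [← sum_filter]
          exact lam_mult_prime N p (mem_pz.1 hp).2
        refine (sum_le_sum h8).trans ?_
        rw [sum_const, nsmul_eq_mul]
        apply mul_le_mul_of_nonneg_right _ hlN
        exact_mod_cast card_pz_le z
      have e5 : lam1 N * (∏ i, 1 / ((g i : ℝ) - 1)) * ∏ p ∈ S, ((rho c h p : ℝ) / (p - 1 : ℝ)) =
          lam1 N * ((∏ p ∈ S, ((rho c h p : ℝ) / (p - 1 : ℝ))) * ∏ i, 1 / ((g i : ℝ) - 1)) := by ring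
      have h5 : W - lam1 N * (∏ i, 1 / ((g i : ℝ) - 1)) * ∏ p ∈ S, ((rho c h p : ℝ) / (p - 1 : ℝ)) =
          (W - W') + (W' - lam1 N * ((∏ p ∈ S, ((rho c h p : ℝ) / (p - 1 : ℝ))) * ∏ i, 1 / ((g i : ℝ) - 1))) := by
        rw [e5]
        ring
      rw [h5, mul_comm (∏ i, g i)]
      exact (abs_add_le _ _).trans (add_le_add h4 h3''))
  have e0 : ∑ n ∈ ((Icc 1 N).filter (fun n : ℕ => ∀ p ∈ pz z, ¬ p ∣ n)).filter
        (fun n : ℕ => ∀ p ∈ pz z, ¬ QA c h p n), (if ∀ i, (g i : ℤ) ∣ LFo c h i n then ArithmeticFunction.vonMangoldt n else 0) =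
        Wt c h N z g := by
    unfold Wt
    rw [filter_filter, sum_filter]
    apply sum_congr rfl
    intro n _
    by_cases h1 : (∀ p ∈ pz z, ¬ p ∣ n) ∧ (∀ p ∈ pz z, ¬ QA c h p n)
    · have h2 : ∀ p ∈ pz z, ¬ p ∣ n ∧ ¬ QA c h p n := fun p hp => ⟨h1.1 p hp, h1.2 p hp⟩
      rw [if_pos h1]
      by_cases h3 : ∀ i, (g i : ℤ) ∣ LFo c h i n
      · rw [if_pos h3, if_pos ⟨h2, h3⟩]
      · rw [if_neg h3, if_neg (fun h4 => h3 h4.2)]
    · rw [if_neg h1, if_neg (fun h4 => h1 ⟨fun p hp => (h4.1 p hp).1, fun p hp => (h4.1 p hp).2⟩)]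
  rw [e0] at key
  refine key.trans ?_
  have e1 : ∑ j ∈ range (r + 1), ∑ S ∈ (pz z).powersetCard j, (z * ((Nat.log 2 N + 1 : ℝ) * Real.log N) +
      EfA (QA c h) N P (r + k) ((∏ i, g i) * ∏ p ∈ S, p)) =
      ((∑ j ∈ range (r + 1), ((pz z).powersetCard j).card : ℕ) : ℝ) * (z * ((Nat.log 2 N + 1 : ℝ) * Real.log N)) +
      ∑ j ∈ range (r + 1), ∑ S ∈ (pz z).powersetCard j, EfA (QA c h) N P (r + k) ((∏ i, g i) * ∏ p ∈ S, p) := by
    push_cast
    rw [sum_mul, ← sum_add_distrib]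
    apply sum_congr rfl
    intro j _
    rw [sum_add_distrib, sum_const, nsmul_eq_mul]
  rw [e1]
  have h1 := card_small (pz z) r
  have h2 : (((pz z).card : ℝ) + 1) ^ r ≤ ((z : ℝ) + 1) ^ r := by
    have : ((pz z).card : ℝ) ≤ z := by exact_mod_cast card_pz_le z
    gcongr
  have h3 : ((∑ j ∈ range (r + 1), ((pz z).powersetCard j).card : ℕ) : ℝ) * (z * ((Nat.log 2 N + 1 : ℝ) * Real.log N)) ≤
      ((z : ℝ) + 1) ^ r * (z * ((Nat.log 2 N + 1 : ℝ) * Real.log N)) :=
    mul_le_mul_of_nonneg_right (h1.trans h2) (by positivity)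
  have h5 : es (fun p => (rho c h p : ℝ) / (p - 1 : ℝ)) (pz z) r ≤ Real.exp (3 * ((2 * bigc c : ℕ) * (1 + Real.log z)) - r) := by
    have hg : ∀ p ∈ pz z, (rho c h p : ℝ) / (p - 1 : ℝ) ≤ (2 * bigc c : ℕ) * (1 / (p : ℝ)) := by
      intro p hp
      have hp2 : (2 : ℝ) ≤ p := by exact_mod_cast (mem_pz.1 hp).2.two_le
      have h6 : (rho c h p : ℝ) ≤ bigc c := by
        have h7 := hQ.few p (mem_pz.1 hp).2
        rw [rhoA_QA] at h7
        exact_mod_cast h7
      have hk : (0 : ℝ) ≤ (bigc c : ℝ) := Nat.cast_nonneg _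
      rw [mul_one_div, div_le_div_iff₀ (by linarith) (by linarith), Nat.cast_mul, Nat.cast_ofNat]
      nlinarith
    refine (es_le (fun p hp => by
      have hp2 : (2 : ℝ) ≤ p := by exact_mod_cast (mem_pz.1 hp).2.two_le
      apply div_nonneg (Nat.cast_nonneg _); linarith) r).trans ?_
    apply Real.exp_le_exp.2
    have h6 := sum_le_sum hg
    rw [← mul_sum] at h6
    have h7 := sum_pz_le z
    have h8 : ((2 * bigc c : ℕ) : ℝ) * ∑ p ∈ pz z, 1 / (p : ℝ) ≤ ((2 * bigc c : ℕ) : ℝ) * (1 + Real.log z) :=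
      mul_le_mul_of_nonneg_left h7 (Nat.cast_nonneg _)
    linarith
  have h6 : 2 * (lam1 N * ∏ i, 1 / ((g i : ℝ) - 1)) * es (fun p => (rho c h p : ℝ) / (p - 1 : ℝ)) (pz z) r ≤
      2 * (lam1 N * ∏ i, 1 / ((g i : ℝ) - 1)) * Real.exp (3 * ((2 * bigc c : ℕ) * (1 + Real.log z)) - r) :=
    mul_le_mul_of_nonneg_left h5 (by positivity)
  linarith

end Pool.Agent.H561.E3
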