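import Pool.Agent.H561.E3.U16

set_option autoImplicit false

/-! Goldbach representations with a prime and a product of two primes. -/

namespace Pool.Agent.H561.E3

open Finset Filter Topology
open Pool.Agent.helper24_UT hiding om
open Pool.Agent.H561.E2

/-- the product of the local factors of a nondegenerate system converges -/
lemma mult_all {k : ℕ} (c h : Fin k → ℤ) (hc : ∀ i, c i ≠ 0) (hnd : NDeg c h) :
    Multipliable (fun p : ℕ => if p.Prime then lf c h p else 1) := by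
  classical
  obtain ⟨X, hX⟩ : ∃ X : ℕ, X = ∑ i, (h i).natAbs + ∑ i, ∑ j, (DD c h i j).natAbs + 1 := ⟨_, rfl⟩
  have hX1 : 1 ≤ X := by omega
  have hX3 : X ≤ X ^ 3 := Nat.le_self_pow (by norm_num) X
  have b1 : ∀ i, |h i| ≤ (X : ℤ) ^ 3 := by
    intro i
    have h1 := single_le_sum (f := fun i => (h i).natAbs) (fun _ _ => Nat.zero_le _) (mem_univ i)
    have h2 : (h i).natAbs ≤ X ^ 3 := by
      refine le_trans ?_ hX3
      rw [hX]
      have : (h i).natAbs ≤ ∑ i, (h i).natAbs := h1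
      omega
    rw [Int.abs_eq_natAbs]
    exact_mod_cast h2
  have b2 : ∀ i j, |DD c h i j| ≤ (X : ℤ) ^ 3 := by
    intro i j
    have h1 := single_le_sum (f := fun j => (DD c h i j).natAbs) (fun _ _ => Nat.zero_le _) (mem_univ j)
    have h2 := single_le_sum (f := fun i => ∑ j, (DD c h i j).natAbs) (fun _ _ => Nat.zero_le _) (mem_univ i)
    have h3 : (DD c h i j).natAbs ≤ X ^ 3 := by
      refine le_trans ?_ hX3
      rw [hX]
      have h4 : (DD c h i j).natAbs ≤ ∑ j, (DD c h i j).natAbs := h1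
      have h5 : ∑ j, (DD c h i j).natAbs ≤ ∑ i, ∑ j, (DD c h i j).natAbs := h2
      omega
    rw [Int.abs_eq_natAbs]
    exact_mod_cast h3
  have hX1r : (1 : ℝ) ≤ X := by exact_mod_cast hX1
  exact (tail c hc (2 + ∏ i, (c i).natAbs) (by omega) (fun i => by
    have := natAbs_le_bigc c hc i
    omega) h ((k + k ^ 2) * (6 * Real.log X))
    (fun y => bad_primes c h (2 + ∏ i, (c i).natAbs) (Real.log X) X rfl (Real.log_nonneg hX1r) (fun i => ⟨hnd.1 i, b1 i⟩)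
      (fun i j hij => ⟨hnd.2 i j hij, b2 i j⟩) y)).1

/-- `m` is the product of two primes -/
def IsE2 (m : ℕ) : Prop := ∃ q₁ q₂ : ℕ, q₁.Prime ∧ q₂.Prime ∧ m = q₁ * q₂

open Classical in
/-- the representations `N = p + q₁ q₂` with `α N < p ≤ β N` -/
noncomputable def RG (α β : ℝ) (N : ℕ) : ℕ :=
  ((range N).filter (fun p : ℕ => p.Prime ∧ α * N < p ∧ (p : ℝ) ≤ β * N ∧ IsE2 (N - p))).card

/-- the singular series -/
noncomputable def SG (N : ℕ) : ℝ :=
  ∏' p : Nat.Primes, (1 - 1 / ((p : ℕ) : ℝ))⁻¹ ^ 2 * (1 - (if (p : ℕ) ∣ N then 1 else 2) / ((p : ℕ) : ℝ))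

/-- the expected number -/
noncomputable def WG (α β : ℝ) (N : ℕ) : ℝ := SG N * ((β - α) * N) * Real.log (Real.log N) / (Real.log N) ^ 2

lemma omg_gold (N p : ℕ) (hp : p.Prime) : omg (fun _ : Fin 1 => (-1 : ℤ)) (fun _ => (N : ℤ)) p = if p ∣ N then 1 else 2 := by
  classical
  have hpI := Nat.prime_iff_prime_int.1 hp
  unfold omg
  have e : (range p).filter (fun n : ℕ => (p : ℤ) ∣ (n : ℤ) * ∏ _i : Fin 1, ((-1 : ℤ) * (n : ℤ) + (N : ℤ))) = {0, N % p} := by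
    ext n
    rw [mem_filter, mem_range, mem_insert, mem_singleton, Fin.prod_univ_one]
    constructor
    · rintro ⟨h1, h2⟩
      rcases hpI.dvd_or_dvd h2 with h3 | h3
      · left
        have h4 : p ∣ n := Int.natCast_dvd_natCast.1 h3
        exact Nat.eq_zero_of_dvd_of_lt h4 h1
      · right
        have h4 : (n : ℤ) ≡ N [ZMOD p] := by
          rw [Int.modEq_iff_dvd]
          have : (-1 : ℤ) * n + N = N - n := by ring
          rwa [this] at h3
        have h5 := Int.natCast_modEq_iff.1 h4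
        unfold Nat.ModEq at h5
        rwa [Nat.mod_eq_of_lt h1] at h5
    · rintro (h0 | h0)
      · rw [h0]
        exact ⟨hp.pos, by simp⟩
      · refine ⟨by rw [h0]; exact Nat.mod_lt _ hp.pos, ?_⟩
        apply Dvd.dvd.mul_left
        have h4 : (n : ℤ) ≡ N [ZMOD p] := by
          rw [h0]
          exact Int.natCast_modEq_iff.2 (Nat.mod_modEq _ _)
        have := Int.modEq_iff_dvd.1 h4
        have e2 : (-1 : ℤ) * n + N = N - n := by ring
        rwa [e2]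
  rw [e]
  split_ifs with hd
  · rw [Nat.mod_eq_zero_of_dvd hd]
    rfl
  · rw [card_insert_of_notMem, card_singleton]
    rw [mem_singleton]
    intro h0
    exact hd (Nat.dvd_of_mod_eq_zero h0.symm)

lemma SG_eq (N : ℕ) : SG N = singT (fun _ : Fin 1 => (-1 : ℤ)) (fun _ => (N : ℤ)) := by
  rw [← singD_eq]
  unfold SG singD
  apply tprod_congr
  intro p
  rw [omg_gold N p p.2]
  push_cast
  rfl

lemma adm_gold (N : ℕ) (h : Even N) : Adm (fun _ : Fin 1 => (-1 : ℤ)) (fun _ => (N : ℤ)) := by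
  rw [adm_iff]
  intro p hp
  rw [omg_gold N p hp]
  split_ifs with hd
  · exact hp.one_lt
  · have h2 : p ≠ 2 := by
      rintro rfl
      exact hd h.two_dvd
    have := hp.two_le
    omega

open Classical in
lemma gold_point (α β : ℝ) (m H₀ N N₁ N₂ : ℕ) (hα : 0 ≤ α) (hαβ : α < β) (hβ : β ≤ 1) (hm : 1 ≤ m)
    (hmN : m ≤ N) (hN : N < m + H₀) (hN₁ : N₁ = ⌊α * ((m : ℝ) - 1)⌋₊) (hN₂ : N₂ = ⌊β * ((m : ℝ) - 1)⌋₊) :
    |(RG α β N : ℝ) - cE (-1) N N₁ N₂| ≤ H₀ + 2 ∧ |((N₂ : ℝ) - N₁) - (β - α) * N| ≤ H₀ + 2 := by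
  have hmr : (1 : ℝ) ≤ m := by exact_mod_cast hm
  have hm0 : (0 : ℝ) ≤ (m : ℝ) - 1 := by linarith
  have hβ0 : 0 ≤ β := by linarith
  have hα1 : α ≤ 1 := by linarith
  have hNr : (m : ℝ) ≤ N := by exact_mod_cast hmN
  have hNr2 : (N : ℝ) + 1 ≤ m + H₀ := by exact_mod_cast hN
  have hN0 : (0 : ℝ) ≤ N := Nat.cast_nonneg _
  have a1 : (N₁ : ℝ) ≤ α * ((m : ℝ) - 1) := by rw [hN₁]; exact Nat.floor_le (by positivity)
  have a2 : α * ((m : ℝ) - 1) ≤ N₁ + 1 := by rw [hN₁]; exact (Nat.lt_floor_add_one _).le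
  have b1 : (N₂ : ℝ) ≤ β * ((m : ℝ) - 1) := by rw [hN₂]; exact Nat.floor_le (by positivity)
  have b2 : β * ((m : ℝ) - 1) ≤ N₂ + 1 := by rw [hN₂]; exact (Nat.lt_floor_add_one _).le
  have hαN : α * N ≤ α * ((m : ℝ) - 1) + H₀ := by
    have h1 : α * (N - ((m : ℝ) - 1)) ≤ 1 * (N - ((m : ℝ) - 1)) := mul_le_mul_of_nonneg_right hα1 (by linarith)
    linarith
  have hβN : β * N ≤ β * ((m : ℝ) - 1) + H₀ := by
    have h1 : β * (N - ((m : ℝ) - 1)) ≤ 1 * (N - ((m : ℝ) - 1)) := mul_le_mul_of_nonneg_right hβ (by linarith)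
    linarith
  have hαN' : α * ((m : ℝ) - 1) ≤ α * N := mul_le_mul_of_nonneg_left (by linarith) hα
  have hβN' : β * ((m : ℝ) - 1) ≤ β * N := mul_le_mul_of_nonneg_left (by linarith) hβ0
  have hE : ∀ p : ℕ, p < N → (IsE2 (N - p) ↔ ∃ q₁ q₂ : ℕ, q₁.Prime ∧ q₂.Prime ∧ (-1 : ℤ) * (p : ℤ) + (N : ℤ) = q₁ * q₂) := by
    intro p hp
    unfold IsE2
    apply exists_congr
    intro q₁
    apply exists_congr
    intro q₂
    apply and_congr_right
    intro _
    apply and_congr_right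
    intro _
    have h1 : (-1 : ℤ) * (p : ℤ) + (N : ℤ) = ((N - p : ℕ) : ℤ) := by
      rw [Nat.cast_sub hp.le]
      ring
    rw [h1]
    constructor
    · intro h2
      rw [h2]
      push_cast
      rfl
    · intro h2
      exact_mod_cast h2
  have hcard : ∀ x : ℝ, ∀ K : ℕ, 0 ≤ x → ((Ioc K ⌊x⌋₊).card : ℝ) ≤ max (x - K) 0 := by
    intro x K hx
    rw [Nat.card_Ioc]
    rcases le_total K ⌊x⌋₊ with h1 | h1
    · rw [Nat.cast_sub h1]
      have := Nat.floor_le hx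
      exact (by linarith : _ ≤ x - K).trans (le_max_left _ _)
    · rw [Nat.sub_eq_zero_of_le h1, Nat.cast_zero]
      exact le_max_right _ _
  constructor
  · have h1 : RG α β N ≤ cE (-1) N N₁ N₂ + (Ioc N₂ ⌊β * N⌋₊).card := by
      unfold RG cE
      refine le_trans (card_le_card ?_) (card_union_le _ _)
      intro p hp
      rw [mem_filter, mem_range] at hp
      obtain ⟨hpN, hpp, h2, h3, h4⟩ := hp
      rw [mem_union]
      by_cases h5 : p ≤ N₂
      · left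
        rw [mem_filter, mem_Ioc]
        refine ⟨⟨?_, h5⟩, hpp, (hE p hpN).1 h4⟩
        have : (N₁ : ℝ) < p := by linarith
        exact_mod_cast this
      · right
        rw [mem_Ioc]
        exact ⟨by omega, Nat.le_floor h3⟩
    have h2 : cE (-1) N N₁ N₂ ≤ RG α β N + (Ioc N₁ ⌊α * N⌋₊).card := by
      unfold RG cE
      refine le_trans (card_le_card ?_) (card_union_le _ _)
      intro p hp
      rw [mem_filter, mem_Ioc] at hp
      obtain ⟨⟨hp1, hp2⟩, hpp, h3⟩ := hp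
      have hp2r : (p : ℝ) ≤ N₂ := by exact_mod_cast hp2
      have hβm : β * ((m : ℝ) - 1) ≤ (m : ℝ) - 1 := by
        have := mul_le_mul_of_nonneg_right hβ hm0
        linarith
      have hpN : p < N := by
        have : (p : ℝ) < N := by linarith
        exact_mod_cast this
      rw [mem_union]
      by_cases h5 : α * N < p
      · left
        rw [mem_filter, mem_range]
        exact ⟨hpN, hpp, h5, by linarith, (hE p hpN).2 h3⟩
      · right
        rw [mem_Ioc]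
        exact ⟨hp1, Nat.le_floor (by push Not at h5; exact h5)⟩
    have h3 := hcard (β * N) N₂ (by positivity)
    have h4 := hcard (α * N) N₁ (by positivity)
    have h5 : max (β * N - N₂) 0 ≤ (H₀ : ℝ) + 2 := max_le (by linarith) (by positivity)
    have h6 : max (α * N - N₁) 0 ≤ (H₀ : ℝ) + 2 := max_le (by linarith) (by positivity)
    have h1r : (RG α β N : ℝ) ≤ cE (-1) N N₁ N₂ + ((Ioc N₂ ⌊β * N⌋₊).card : ℝ) := by exact_mod_cast h1
    have h2r : (cE (-1) N N₁ N₂ : ℝ) ≤ RG α β N + ((Ioc N₁ ⌊α * N⌋₊).card : ℝ) := by exact_mod_cast h2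
    rw [abs_le]
    constructor <;> linarith
  · have e1 : (β - α) * (N : ℝ) = (β - α) * ((m : ℝ) - 1) + (β - α) * (N - ((m : ℝ) - 1)) := by ring
    have h1 : (β - α) * (N - ((m : ℝ) - 1)) ≤ 1 * (N - ((m : ℝ) - 1)) := mul_le_mul_of_nonneg_right (by linarith) (by linarith)
    have h2 : 0 ≤ (β - α) * (N - ((m : ℝ) - 1)) := mul_nonneg (by linarith) (by linarith)
    have e2 : (β - α) * ((m : ℝ) - 1) = β * ((m : ℝ) - 1) - α * ((m : ℝ) - 1) := by ring
    rw [abs_le]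
    constructor <;> linarith

open Classical in
theorem goldbach (ε : ℝ) (hε : 0 < ε) : ∃ η : ℝ, 0 < η ∧ η ≤ 1 / 2 ∧ ∀ A B : ℕ, ∃ M₀ : ℕ, ∀ M : ℕ, M₀ ≤ M → ∀ H : ℕ,
    Real.exp ((Real.log M) ^ (1 - η)) ≤ H → H ≤ M → ∀ α β : ℝ, 0 ≤ α → β ≤ 1 → 1 / (Real.log M) ^ B ≤ β - α →
    (((Ico M (M + H)).filter (fun N => Even N ∧ ¬ |(RG α β N : ℝ) - WG α β N| ≤ ε * WG α β N)).card : ℝ) ≤ H / (Real.log M) ^ A := by
  obtain ⟨δ, hδ⟩ : ∃ δ : ℝ, δ = min ε 1 / 16 := ⟨_, rfl⟩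
  have hm0 : 0 < min ε 1 := lt_min hε one_pos
  have hδ0 : 0 < δ := by rw [hδ]; positivity
  have hδ1 : 16 * δ ≤ ε := by rw [hδ]; linarith [min_le_left ε 1]
  have hδ2 : 16 * δ ≤ 1 := by rw [hδ]; linarith [min_le_right ε 1]
  obtain ⟨η, hη0, hη1, he2⟩ := e2w (-1) (by norm_num) δ hδ0
  refine ⟨η / 2, by positivity, by linarith, fun A B => ?_⟩
  obtain ⟨X₀, he2⟩ := he2 (A + 1) (B + 1)
  obtain ⟨T, hT3, hlogs⟩ := logs δ hδ0
  obtain ⟨κ, hκ, hsl⟩ := sing_lower (fun _ : Fin 1 => (-1 : ℤ)) (fun _ => by norm_num)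
  obtain ⟨κ', hκ'⟩ : ∃ κ' : ℝ, κ' = min κ 1 := ⟨_, rfl⟩
  have hκ'0 : 0 < κ' := by rw [hκ']; exact lt_min hκ one_pos
  have hκ'1 : κ' ≤ κ := by rw [hκ']; exact min_le_left _ _
  have hκ'2 : κ' ≤ 1 := by rw [hκ']; exact min_le_right _ _
  obtain ⟨X₂, hX₂⟩ := ev_exp η hη0 (by linarith) (1 / 4) (by norm_num)
  have hlogt : Tendsto (fun X : ℕ => Real.log (X : ℝ)) atTop atTop := Real.tendsto_log_atTop.comp tendsto_natCast_atTop_atTop
  have hpow3 : ∀ᶠ x : ℝ in atTop, (3 : ℝ) ≤ x ^ (η / 2) := (tendsto_rpow_atTop (show 0 < η / 2 by positivity)).eventually (eventually_ge_atTop 3)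
  obtain ⟨X₃, hX₃⟩ := Filter.eventually_atTop.1 ((hlogt.eventually (eventually_ge_atTop (max T 1000))).and ((hlogt.eventually hpow3).and
    (Sil2.ev_pow (B + 3) (1 / 4) (1000 / (δ * κ')) (by norm_num))))
  refine ⟨max (max X₀ X₂) (max X₃ 3), fun M hM H hH hHM α β hα hβ hαβ => ?_⟩
  have hM0 : X₀ ≤ M := ((le_max_left _ _).trans (le_max_left _ _)).trans hM
  have hM2 : X₂ ≤ M := ((le_max_right _ _).trans (le_max_left _ _)).trans hM
  have hM3 : X₃ ≤ M := ((le_max_left _ _).trans (le_max_right _ _)).trans hM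
  have hM3' : 3 ≤ M := ((le_max_right _ _).trans (le_max_right _ _)).trans hM
  obtain ⟨X, hX⟩ : ∃ X : ℕ, X = 3 * M := ⟨_, rfl⟩
  have hexpX := hX₂ X (by omega)
  obtain ⟨u1, u2, -⟩ := hX₃ M hM3
  obtain ⟨-, -, u3⟩ := hX₃ X (by omega)
  have he2 := he2 X (by omega)
  have hMr : (3 : ℝ) ≤ M := by exact_mod_cast hM3'
  have hMr0 : (0 : ℝ) < M := by linarith
  have hXr : (X : ℝ) = 3 * M := by rw [hX]; push_cast; ring
  have hXr0 : (0 : ℝ) < X := by rw [hXr]; linarith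
  obtain ⟨s, hs⟩ : ∃ s, s = Real.log (M : ℝ) := ⟨_, rfl⟩
  obtain ⟨L, hL⟩ : ∃ L, L = Real.log (X : ℝ) := ⟨_, rfl⟩
  rw [← hs] at u1 u2 hH hαβ ⊢
  rw [← hL] at u3 hexpX he2
  have hsT : T ≤ s := (le_max_left _ _).trans u1
  have hs1000 : 1000 ≤ s := (le_max_right _ _).trans u1
  have hsL : s ≤ L := by
    rw [hs, hL]
    apply Real.log_le_log hMr0
    rw [hXr]
    linarith
  have hLs : L ≤ s + 2 := by
    rw [hL, hs, hXr, Real.log_mul (by norm_num) hMr0.ne']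
    have := Real.log_le_sub_one_of_pos (show (0 : ℝ) < 3 by norm_num)
    linarith
  have hs0 : 0 < s := by linarith
  have hL0 : 0 < L := by linarith
  have hL1 : 1 ≤ L := by linarith
  obtain ⟨V, hV⟩ : ∃ V : ℝ, V = (X : ℝ) ^ (1 / 4 : ℝ) := ⟨_, rfl⟩
  have hV0 : 0 < V := by rw [hV]; positivity
  have hV4 : V ^ 4 = X := by
    rw [hV, ← Real.rpow_natCast ((X : ℝ) ^ (1 / 4 : ℝ)) 4, ← Real.rpow_mul hXr0.le]
    norm_num
  rw [← hV] at u3
  have hδκ : 0 < δ * κ' := by positivity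
  have u3' : 1000 * L ^ (B + 3) ≤ V * (δ * κ') := by
    rw [div_mul_eq_mul_div, div_le_iff₀ hδκ] at u3
    exact u3
  have hLB3 : 1 ≤ L ^ (B + 3) := one_le_pow₀ hL1
  have hδκ1 : δ * κ' ≤ 1 := by
    calc δ * κ' ≤ 1 * 1 := mul_le_mul (by linarith) hκ'2 hκ'0.le zero_le_one
      _ = 1 := one_mul _
  have hV1000 : 1000 ≤ V := by
    have h1 : V * (δ * κ') ≤ V * 1 := mul_le_mul_of_nonneg_left hδκ1 hV0.le
    linarith
  -- the short windows
  obtain ⟨H₀, hH₀⟩ : ∃ H₀ : ℕ, H₀ = ⌈Real.exp (L ^ (1 - η))⌉₊ := ⟨_, rfl⟩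
  have hH0e : Real.exp (L ^ (1 - η)) ≤ H₀ := by rw [hH₀]; exact Nat.le_ceil _
  have hexpV : Real.exp (L ^ (1 - η)) ≤ V := by
    have h1 : V = Real.exp (1 / 4 * L) := by
      rw [hV, Real.rpow_def_of_pos hXr0, ← hL]
      congr 1
      ring
    rw [h1]
    exact Real.exp_le_exp.2 hexpX
  have hH0V : (H₀ : ℝ) ≤ V + 1 := by
    have := (Nat.ceil_lt_add_one (Real.exp_pos (L ^ (1 - η))).le).le
    rw [← hH₀] at this
    linarith
  have hH0H : H₀ ≤ H := by
    rw [hH₀]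
    apply Nat.ceil_le.2
    refine le_trans ?_ hH
    apply Real.exp_le_exp.2
    have h1 : L ≤ 2 * s := by linarith
    calc L ^ (1 - η) ≤ (2 * s) ^ (1 - η) := Real.rpow_le_rpow hL0.le h1 (by linarith)
      _ = (2 : ℝ) ^ (1 - η) * s ^ (1 - η) := Real.mul_rpow (by norm_num) hs0.le
      _ ≤ (2 : ℝ) ^ (1 : ℝ) * s ^ (1 - η) := by
          apply mul_le_mul_of_nonneg_right _ (by positivity)
          exact Real.rpow_le_rpow_of_exponent_le (by norm_num) (by linarith)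
      _ ≤ s ^ (η / 2) * s ^ (1 - η) := by
          apply mul_le_mul_of_nonneg_right _ (by positivity)
          rw [Real.rpow_one]
          linarith
      _ = s ^ (1 - η / 2) := by
          rw [← Real.rpow_add hs0]
          congr 1
          ring
  have hH01 : 1 ≤ H₀ := by
    have h1 : (1 : ℝ) ≤ H₀ := by
      have := Real.one_le_exp (show 0 ≤ L ^ (1 - η) by positivity)
      linarith
    exact_mod_cast h1
  have hsB : 0 < s ^ B := by positivity
  have hLB : 0 < L ^ B := by positivity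
  have hαβ' : 1 / L ^ B ≤ β - α := by
    refine le_trans ?_ hαβ
    apply one_div_le_one_div_of_le hsB
    exact pow_le_pow_left₀ hs0.le hsL B
  have hαβ0 : α < β := by
    have : 0 < 1 / L ^ B := by positivity
    linarith
  -- smallness
  have hsm : ∀ N : ℕ, M ≤ N → (H₀ : ℝ) + 2 ≤ δ * (κ' * (((β - α) * N) / L ^ 2)) := by
    intro N hN
    have hNr : (M : ℝ) ≤ N := by exact_mod_cast hN
    have h1 : V ^ 4 / (3 * L ^ B) ≤ (β - α) * N := by
      rw [hV4, hXr]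
      calc 3 * (M : ℝ) / (3 * L ^ B) = 1 / L ^ B * M := by field_simp
        _ ≤ (β - α) * N := mul_le_mul hαβ' hNr hMr0.le (by linarith)
    have h2 : δ * (κ' * ((V ^ 4 / (3 * L ^ B)) / L ^ 2)) ≤ δ * (κ' * (((β - α) * N) / L ^ 2)) := by gcongr
    refine le_trans ?_ h2
    have h3 : δ * (κ' * ((V ^ 4 / (3 * L ^ B)) / L ^ 2)) = (V * (δ * κ')) * (V ^ 3 / (3 * L ^ (B + 2))) := by
      rw [pow_add]
      field_simp
    rw [h3]
    have h4 : 1000 * L ^ (B + 3) * (V ^ 3 / (3 * L ^ (B + 2))) ≤ (V * (δ * κ')) * (V ^ 3 / (3 * L ^ (B + 2))) :=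
      mul_le_mul_of_nonneg_right u3' (by positivity)
    refine le_trans ?_ h4
    have h5 : 1000 * L ^ (B + 3) * (V ^ 3 / (3 * L ^ (B + 2))) = 1000 / 3 * (L * V ^ 3) := by
      rw [show B + 3 = (B + 2) + 1 by ring, pow_succ L (B + 2)]
      field_simp
    rw [h5]
    have h6 : V ≤ V ^ 3 := le_self_pow₀ (by linarith) (by norm_num)
    have h7 : V ^ 3 ≤ L * V ^ 3 := le_mul_of_one_le_left (by positivity) hL1
    linarith
  obtain ⟨BD, hBD⟩ : ∃ BD : ℤ → Prop, ∀ h, BD h ↔ (Even h.toNat ∧ ¬ |(RG α β h.toNat : ℝ) - WG α β h.toNat| ≤ ε * WG α β h.toNat) :=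
    ⟨_, fun _ => Iff.rfl⟩
  have hbox : ∀ b' : ℤ, (M : ℤ) ≤ b' → b' + H₀ ≤ (M : ℤ) + H → (((Ico b' (b' + H₀)).filter BD).card : ℝ) ≤ H₀ / L ^ (A + 1) := by
    intro b' hb1 hb2
    obtain ⟨m, hm⟩ : ∃ m : ℕ, (m : ℤ) = b' := ⟨b'.toNat, Int.toNat_of_nonneg (by omega)⟩
    rw [← hm] at hb1 hb2 ⊢
    have hMm : M ≤ m := by exact_mod_cast hb1
    have hm2 : m + H₀ ≤ M + H := by exact_mod_cast hb2
    have hmr : (M : ℝ) ≤ m := by exact_mod_cast hMm
    obtain ⟨N₁, hN₁⟩ : ∃ N₁ : ℕ, N₁ = ⌊α * ((m : ℝ) - 1)⌋₊ := ⟨_, rfl⟩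
    obtain ⟨N₂, hN₂⟩ : ∃ N₂ : ℕ, N₂ = ⌊β * ((m : ℝ) - 1)⌋₊ := ⟨_, rfl⟩
    have hpt : ∀ N : ℕ, m ≤ N → N < m + H₀ → _ := fun N h1 h2 => gold_point α β m H₀ N N₁ N₂ hα hαβ0 hβ (by omega) h1 h2 hN₁ hN₂
    have hsm1 : ∀ N : ℕ, M ≤ N → (H₀ : ℝ) + 2 ≤ δ * ((β - α) * N) := by
      intro N hN
      refine (hsm N hN).trans ?_
      apply mul_le_mul_of_nonneg_left _ hδ0.le
      have hN0 : (0 : ℝ) ≤ N := Nat.cast_nonneg _
      have h1 : 0 ≤ (β - α) * N := mul_nonneg (by linarith) hN0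
      have h2 : ((β - α) * N) / L ^ 2 ≤ (β - α) * N := div_le_self h1 (one_le_pow₀ hL1)
      have h3 : 0 ≤ ((β - α) * N) / L ^ 2 := by positivity
      calc κ' * (((β - α) * N) / L ^ 2) ≤ 1 * (((β - α) * N) / L ^ 2) := mul_le_mul_of_nonneg_right hκ'2 h3
        _ ≤ _ := by rw [one_mul]; exact h2
    obtain ⟨D, hD⟩ : ∃ D : ℝ, D = (N₂ : ℝ) - N₁ := ⟨_, rfl⟩
    have hDN : ∀ N : ℕ, m ≤ N → N < m + H₀ → (1 - δ) * ((β - α) * N) ≤ D ∧ D ≤ (1 + δ) * ((β - α) * N) := by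
      intro N h1 h2
      have h3 := (hpt N h1 h2).2
      rw [← hD] at h3
      have h4 := hsm1 N (hMm.trans h1)
      obtain ⟨h5, h6⟩ := abs_le.1 h3
      constructor <;> linarith
    have hDlow : X / L ^ (B + 1) ≤ D := by
      have h1 := (hDN m le_rfl (by omega)).1
      refine le_trans ?_ h1
      have h2 : 1 / L ^ B * M ≤ (β - α) * m := mul_le_mul hαβ' hmr hMr0.le (by linarith)
      have h3 : (1 / 2 : ℝ) * (1 / L ^ B * M) ≤ (1 - δ) * ((β - α) * m) :=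
        mul_le_mul (by linarith) h2 (by positivity) (by linarith)
      refine le_trans ?_ h3
      rw [hXr, pow_succ, div_le_iff₀ (by positivity)]
      have e : 1 / 2 * (1 / L ^ B * (M : ℝ)) * (L ^ B * L) = 1 / 2 * M * L := by field_simp
      rw [e]
      nlinarith
    have hD0 : 0 < D := lt_of_lt_of_le (by positivity) hDlow
    have hN12 : N₁ < N₂ := by
      have : (N₁ : ℝ) < N₂ := by linarith
      exact_mod_cast this
    have hN2m : N₂ + 1 ≤ m := by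
      have h1 : (N₂ : ℝ) ≤ β * ((m : ℝ) - 1) := by rw [hN₂]; exact Nat.floor_le (mul_nonneg (by linarith) (by linarith))
      have h2 : β * ((m : ℝ) - 1) ≤ 1 * ((m : ℝ) - 1) := mul_le_mul_of_nonneg_right hβ (by linarith)
      have h3 : (N₂ : ℝ) + 1 ≤ m := by linarith
      exact_mod_cast h3
    have key := he2 N₁ N₂ hN12 (by omega) (by rw [← hD]; exact hDlow) (m : ℤ) H₀ hH0e (by
      intro n hn
      rw [mem_Ioc] at hn
      constructor
      · have : (n : ℤ) + 1 ≤ m := by exact_mod_cast (by omega : n + 1 ≤ m)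
        linarith
      · have h1 : (m : ℤ) + H₀ ≤ X := by exact_mod_cast (by omega : m + H₀ ≤ X)
        have : (0 : ℤ) ≤ n := Int.natCast_nonneg _
        linarith)
    refine le_trans ?_ key
    have hsub : (Ico (m : ℤ) (m + H₀)).filter BD ⊆ (Ico (m : ℤ) (m + H₀)).filter (fun h : ℤ => h ≠ 0 ∧ Adm (fun _ : Fin 1 => (-1 : ℤ)) (fun _ => h) ∧
      ¬ |(cE (-1) h N₁ N₂ : ℝ) - singT (fun _ : Fin 1 => (-1 : ℤ)) (fun _ => h) * ((N₂ : ℝ) - N₁) * Real.log L / L ^ 2| ≤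
        δ * (singT (fun _ : Fin 1 => (-1 : ℤ)) (fun _ => h) * ((N₂ : ℝ) - N₁) * Real.log L / L ^ 2)) := by
      intro h hh
      rw [mem_filter] at hh ⊢
      obtain ⟨hh1, hh2⟩ := hh
      refine ⟨hh1, ?_⟩
      rw [mem_Ico] at hh1
      obtain ⟨N, hN⟩ : ∃ N : ℕ, (N : ℤ) = h := ⟨h.toNat, Int.toNat_of_nonneg (by omega)⟩
      rw [← hN] at hh1 hh2 ⊢
      rw [hBD, Int.toNat_natCast] at hh2
      obtain ⟨hev, hbad⟩ := hh2
      have hmN : m ≤ N := by exact_mod_cast hh1.1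
      have hNm : N < m + H₀ := by exact_mod_cast hh1.2
      have hMN : M ≤ N := hMm.trans hmN
      refine ⟨by exact_mod_cast (by omega : N ≠ 0), adm_gold N hev, fun hgood => hbad ?_⟩
      rw [← SG_eq, ← hD] at hgood
      have hmul : Multipliable (fun p : ℕ => if p.Prime then lf (fun _ : Fin 1 => (-1 : ℤ)) (fun _ => (N : ℤ)) p else 1) :=
        mult_all _ _ (fun _ => by norm_num) ⟨fun _ => Int.natCast_ne_zero.2 (by omega), fun i j hij => absurd (Subsingleton.elim i j) hij⟩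
      have hSk : κ' ≤ SG N := by
        rw [SG_eq]
        exact hκ'1.trans (hsl _ hmul (adm_gold N hev))
      obtain ⟨𝔖, h𝔖⟩ : ∃ 𝔖, 𝔖 = SG N := ⟨_, rfl⟩
      rw [← h𝔖] at hgood hSk
      have h𝔖0 : 0 < 𝔖 := by linarith
      obtain ⟨sN, hsN⟩ : ∃ sN, sN = Real.log (N : ℝ) := ⟨_, rfl⟩
      have hNr : (M : ℝ) ≤ N := by exact_mod_cast hMN
      have hNr0 : (0 : ℝ) < N := by linarith
      have hNX : (N : ℝ) ≤ X := by
        have : N ≤ X := by omega
        exact_mod_cast this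
      have s1 : s ≤ sN := by rw [hs, hsN]; exact Real.log_le_log hMr0 hNr
      have s2 : sN ≤ L := by rw [hsN, hL]; exact Real.log_le_log hNr0 hNX
      obtain ⟨f1, f2⟩ := hlogs sN L (hsT.trans s1) s2 (by linarith)
      obtain ⟨f, hf⟩ : ∃ f : ℝ, f = Real.log sN / sN ^ 2 := ⟨_, rfl⟩
      obtain ⟨g, hg⟩ : ∃ g : ℝ, g = Real.log L / L ^ 2 := ⟨_, rfl⟩
      rw [← hf, ← hg] at f1 f2
      have hsN0 : 0 < sN := by linarith
      have hlsN : 1 ≤ Real.log sN := by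
        have h1 : Real.exp 1 ≤ sN := by
          have := Real.exp_one_lt_d9
          linarith
        have h2 := Real.log_le_log (Real.exp_pos 1) h1
        rwa [Real.log_exp] at h2
      have hfL : 1 / L ^ 2 ≤ f := by
        rw [hf, div_le_div_iff₀ (by positivity) (by positivity), one_mul]
        calc sN ^ 2 ≤ L ^ 2 := pow_le_pow_left₀ hsN0.le s2 2
          _ ≤ Real.log sN * L ^ 2 := le_mul_of_one_le_left (by positivity) hlsN
      have hf0 : 0 < f := lt_of_lt_of_le (by positivity) hfL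
      obtain ⟨Q, hQ⟩ : ∃ Q : ℝ, Q = (β - α) * N := ⟨_, rfl⟩
      have hQ0 : 0 < Q := by rw [hQ]; exact mul_pos (by linarith) hNr0
      obtain ⟨d1, d2⟩ := hDN N hmN hNm
      rw [← hQ] at d1 d2
      have hsmN := hsm N hMN
      rw [← hQ] at hsmN
      have hW : WG α β N = 𝔖 * Q * f := by
        unfold WG
        rw [← h𝔖, ← hQ, ← hsN, hf]
        ring
      have hW' : 𝔖 * D * Real.log L / L ^ 2 = 𝔖 * D * g := by rw [hg]; ring
      rw [hW'] at hgood
      rw [hW]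
      obtain ⟨W, hWd⟩ : ∃ W, W = 𝔖 * Q * f := ⟨_, rfl⟩
      rw [← hWd]
      have hW0 : 0 < W := by rw [hWd]; positivity
      have hHW : (H₀ : ℝ) + 2 ≤ δ * W := by
        refine hsmN.trans ?_
        apply mul_le_mul_of_nonneg_left _ hδ0.le
        rw [hWd]
        calc κ' * (Q / L ^ 2) = κ' * Q * (1 / L ^ 2) := by ring
          _ ≤ 𝔖 * Q * f := by gcongr
      have hg0 : 0 < g := lt_of_lt_of_le (mul_pos (by linarith) hf0) f1
      have w1 : 𝔖 * D * g ≤ (1 + δ) * ((1 + δ) * W) := by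
        calc 𝔖 * D * g ≤ 𝔖 * ((1 + δ) * Q) * ((1 + δ) * f) := by gcongr
          _ = (1 + δ) * ((1 + δ) * W) := by rw [hWd]; ring
      have w2 : (1 - δ) * ((1 - δ) * W) ≤ 𝔖 * D * g := by
        have h1δ : 0 ≤ 1 - δ := by linarith
        calc (1 - δ) * ((1 - δ) * W) = 𝔖 * ((1 - δ) * Q) * ((1 - δ) * f) := by rw [hWd]; ring
          _ ≤ 𝔖 * D * g := by gcongr
      have hδW : 0 ≤ δ * W := by positivity
      have hδW2 : δ * (δ * W) ≤ 1 / 16 * (δ * W) := mul_le_mul_of_nonneg_right (by linarith) hδW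
      have w3 : 𝔖 * D * g ≤ W + 3 * (δ * W) := by
        have : (1 + δ) * ((1 + δ) * W) = W + 2 * (δ * W) + δ * (δ * W) := by ring
        linarith
      have w4 : W - 2 * (δ * W) ≤ 𝔖 * D * g := by
        have : (1 - δ) * ((1 - δ) * W) = W - 2 * (δ * W) + δ * (δ * W) := by ring
        have : 0 ≤ δ * (δ * W) := by positivity
        linarith
      have w5 : δ * (𝔖 * D * g) ≤ 2 * (δ * W) := by
        have h1 : δ * (𝔖 * D * g) ≤ δ * (W + 3 * (δ * W)) := mul_le_mul_of_nonneg_left w3 hδ0.le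
        have h2 : δ * (W + 3 * (δ * W)) = δ * W + 3 * (δ * (δ * W)) := by ring
        linarith
      have w6 := (hpt N hmN hNm).1
      have w7 : 16 * (δ * W) ≤ ε * W := by
        calc 16 * (δ * W) = (16 * δ) * W := by ring
          _ ≤ ε * W := mul_le_mul_of_nonneg_right hδ1 hW0.le
      obtain ⟨g1, g2⟩ := abs_le.1 hgood
      obtain ⟨g3, g4⟩ := abs_le.1 w6
      rw [abs_le]
      constructor <;> linarith
    exact_mod_cast card_le_card hsub
  have hfin := win_split BD (M : ℤ) H H₀ hH01 hH0H (H₀ / L ^ (A + 1)) hbox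
  have hmap : ((Ico M (M + H)).filter (fun N => Even N ∧ ¬ |(RG α β N : ℝ) - WG α β N| ≤ ε * WG α β N)).card ≤
      ((Ico (M : ℤ) (M + H)).filter BD).card := by
    apply card_le_card_of_injOn (fun N : ℕ => (N : ℤ))
    · intro N hN
      rw [mem_coe, mem_filter, mem_Ico] at hN
      rw [mem_coe, mem_filter, mem_Ico, hBD, Int.toNat_natCast]
      have q1 : (M : ℤ) ≤ (N : ℤ) := by exact_mod_cast hN.1.1
      have q2 : (N : ℤ) < (M : ℤ) + (H : ℤ) := by exact_mod_cast hN.1.2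
      exact ⟨⟨q1, q2⟩, hN.2⟩
    · intro x _ y _ hxy
      have q1 : (x : ℤ) = (y : ℤ) := hxy
      exact_mod_cast q1
  have hmapr : (((Ico M (M + H)).filter (fun N => Even N ∧ ¬ |(RG α β N : ℝ) - WG α β N| ≤ ε * WG α β N)).card : ℝ) ≤
      (((Ico (M : ℤ) (M + H)).filter BD).card : ℝ) := by exact_mod_cast hmap
  refine hmapr.trans (hfin.trans ?_)
  have h1 : (H / H₀ + 1) * H₀ ≤ 2 * H := by
    have := Nat.div_mul_le_self H H₀
    rw [add_mul, one_mul]
    omega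
  have h2 : ((H / H₀ + 1 : ℕ) : ℝ) * H₀ ≤ 2 * H := by exact_mod_cast h1
  have hsA : 0 < s ^ A := by positivity
  calc ((H / H₀ + 1 : ℕ) : ℝ) * (H₀ / L ^ (A + 1)) = ((H / H₀ + 1 : ℕ) : ℝ) * H₀ / L ^ (A + 1) := by ring
    _ ≤ 2 * H / L ^ (A + 1) := by gcongr
    _ = (H / L ^ A) * (2 / L) := by rw [pow_succ]; field_simp
    _ ≤ (H / L ^ A) * 1 := by
        apply mul_le_mul_of_nonneg_left _ (by positivity)
        rw [div_le_one hL0]
        linarith
    _ = H / L ^ A := mul_one _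
    _ ≤ H / s ^ A := by
        apply div_le_div_of_nonneg_left (Nat.cast_nonneg _) hsA
        exact pow_le_pow_left₀ hs0.le hsL A

end Pool.Agent.H561.E3
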