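import Pool.Agent.H561.E3.K9
import Pool.Agent.H561.E3.U17

set_option autoImplicit false

/-! Several linear forms, products of exactly two primes: all subintervals. -/

namespace Pool.Agent.H561.E3

open Finset Filter Topology
open Pool.Agent.helper24_UT hiding om
open Pool.Agent.H561.E2

lemma CE_mono {k : ℕ} (c h : Fin k → ℤ) (a b a' b' : ℕ) (h1 : a' ≤ a) (h2 : b ≤ b') : CE c h a b ≤ CE c h a' b' := by
  classical
  unfold CE
  apply card_le_card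
  intro n hn
  rw [mem_filter, mem_Ioc] at hn ⊢
  exact ⟨⟨by omega, by omega⟩, hn.2⟩

lemma CE_le {k : ℕ} (c h : Fin k → ℤ) (a b d : ℕ) : CE c h a d ≤ CE c h b d + b := by
  classical
  unfold CE
  have hsub : (Ioc a d).filter (fun n : ℕ => n.Prime ∧ ∀ i, ∃ p q : ℕ, p.Prime ∧ q.Prime ∧ LFo c h i n = p * q) ⊆
      (Ioc b d).filter (fun n : ℕ => n.Prime ∧ ∀ i, ∃ p q : ℕ, p.Prime ∧ q.Prime ∧ LFo c h i n = p * q) ∪ Icc 1 b := by
    intro n hn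
    rw [mem_filter, mem_Ioc] at hn
    rw [mem_union, mem_filter, mem_Ioc, mem_Icc]
    by_cases h1 : n ≤ b
    · exact Or.inr ⟨hn.2.1.one_le, h1⟩
    · exact Or.inl ⟨⟨by omega, hn.1.2⟩, hn.2⟩
  refine (card_le_card hsub).trans ((card_union_le _ _).trans ?_)
  rw [Nat.card_Icc, Nat.add_sub_cancel]

open Classical in
/-- **All subintervals simultaneously.** -/
theorem e2U (k : ℕ) (hk0 : 0 < k) (c : Fin k → ℤ) (hc : ∀ i, c i ≠ 0) (ε : ℝ) (hε : 0 < ε) : ∃ η : ℝ, 0 < η ∧ η ≤ 1 / 2 ∧ ∀ A B : ℕ, ∃ X₀ : ℕ,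
    ∀ X : ℕ, X₀ ≤ X → ∀ N₁ N₂ : ℕ, N₂ ≤ X → ∀ (b : Fin k → ℤ) (H : ℕ),
    Real.exp ((Real.log X) ^ (1 - η)) ≤ H → (∀ i, ∀ n ∈ Ioc N₁ N₂, 1 ≤ c i * (n : ℤ) + b i ∧ c i * (n : ℤ) + b i + H ≤ X) →
    (((Fintype.piFinset (fun i : Fin k => Ico (b i) (b i + H))).filter (fun h => NDeg c h ∧ Adm c h ∧
      ¬ ∀ M₁ M₂ : ℕ, N₁ ≤ M₁ → M₂ ≤ N₂ → X / (Real.log X) ^ B ≤ (M₂ : ℝ) - M₁ →
        |(CE c h M₁ M₂ : ℝ) - ME c h X M₁ M₂| ≤ ε * ME c h X M₁ M₂)).card : ℝ) ≤ (H : ℝ) ^ k / (Real.log X) ^ A := by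
  obtain ⟨ε', hε'⟩ : ∃ ε' : ℝ, ε' = min ε 1 / 4 := ⟨_, rfl⟩
  have hm0 : 0 < min ε 1 := lt_min hε one_pos
  have hε'0 : 0 < ε' := by rw [hε']; positivity
  have hε'1 : 4 * ε' ≤ ε := by rw [hε']; linarith [min_le_left ε 1]
  have hε'2 : 4 * ε' ≤ 1 := by rw [hε']; linarith [min_le_right ε 1]
  obtain ⟨η, hη0, hη1, hT⟩ := e2K k hk0 c hc ε' hε'0
  refine ⟨η, hη0, hη1, fun A B => ?_⟩
  obtain ⟨X₁, hT⟩ := hT (A + 2 * B + 5) (B + 1)
  obtain ⟨X₂, hX₂⟩ := Filter.eventually_atTop.1 ((Sil2.ev_log (1000 + 1 / ε')).and (Sil2.ev_pow (B + 1) 1 8 (by norm_num)))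
  refine ⟨max (max X₁ X₂) 3, fun X hX N₁ N₂ hN2 b H hH hb => ?_⟩
  have hX1 : X₁ ≤ X := ((le_max_left _ _).trans (le_max_left _ _)).trans hX
  have hX2 : X₂ ≤ X := ((le_max_right _ _).trans (le_max_left _ _)).trans hX
  have hX3 : 3 ≤ X := (le_max_right _ _).trans hX
  obtain ⟨hL, hpw⟩ := hX₂ X hX2
  have hT := hT X hX1
  obtain ⟨L, hLd⟩ : ∃ L, L = Real.log (X : ℝ) := ⟨_, rfl⟩
  rw [← hLd] at hL hpw hT hH ⊢
  rw [Real.rpow_one] at hpw
  have hε'i : 0 < 1 / ε' := by positivity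
  have hL1000 : 1000 ≤ L := by linarith
  have hLε : 1 ≤ L * ε' := by
    have h1 : 1 / ε' ≤ L := by linarith
    rwa [div_le_iff₀ hε'0] at h1
  have hL1 : 1 ≤ L := by linarith
  have hL0 : 0 < L := by linarith
  have hXR : (3 : ℝ) ≤ X := by exact_mod_cast hX3
  have hX0 : (0 : ℝ) < X := by linarith
  have hLB0 : 0 < L ^ B := by positivity
  have hLB1 : 0 < L ^ (B + 1) := by positivity
  -- the step
  obtain ⟨s, hs⟩ : ∃ s : ℕ, s = ⌊(X : ℝ) / (4 * L ^ (B + 1))⌋₊ := ⟨_, rfl⟩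
  have hs2 : (s : ℝ) ≤ X / (4 * L ^ (B + 1)) := by rw [hs]; exact Nat.floor_le (by positivity)
  have hXs : 2 ≤ X / (4 * L ^ (B + 1)) := by
    rw [le_div_iff₀ (by positivity)]
    linarith
  have hs3 : X / (8 * L ^ (B + 1)) ≤ s := by
    have h1 : X / (4 * L ^ (B + 1)) ≤ s + 1 := by rw [hs]; exact (Nat.lt_floor_add_one _).le
    have h2 : X / (8 * L ^ (B + 1)) = (X / (4 * L ^ (B + 1))) / 2 := by
      field_simp
      norm_num
    rw [h2]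
    linarith
  have hs0r : (0 : ℝ) < s := lt_of_lt_of_le (by positivity) hs3
  have hs0 : 0 < s := by exact_mod_cast hs0r
  have h2s : 2 * (s : ℝ) ≤ (1 / (2 * L)) * (X / L ^ B) := by
    calc 2 * (s : ℝ) ≤ 2 * (X / (4 * L ^ (B + 1))) := by linarith
      _ = (1 / (2 * L)) * (X / L ^ B) := by rw [pow_succ]; field_simp; norm_num
  obtain ⟨g, hg⟩ : ∃ g : ℕ → ℕ, ∀ j, g j = min (N₁ + j * s) N₂ := ⟨fun j => min (N₁ + j * s) N₂, fun _ => rfl⟩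
  have hgN2 : ∀ j, g j ≤ N₂ := fun j => by rw [hg]; exact min_le_right _ _
  have hgN1 : N₁ ≤ N₂ → ∀ j, N₁ ≤ g j := fun h j => by rw [hg]; exact le_min (by omega) h
  obtain ⟨J, hJ⟩ : ∃ J : ℕ, J = X / s + 2 := ⟨_, rfl⟩
  have hJle : (J : ℝ) ≤ 9 * L ^ (B + 1) := by
    have h1 : ((X / s : ℕ) : ℝ) ≤ (X : ℝ) / s := Nat.cast_div_le
    have h2 : (X : ℝ) / s ≤ 8 * L ^ (B + 1) := by
      rw [div_le_iff₀ hs0r]
      rw [div_le_iff₀ (by positivity)] at hs3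
      linarith
    have h3 : L ≤ L ^ (B + 1) := le_self_pow₀ hL1 (by omega)
    rw [hJ]
    push_cast
    linarith
  obtain ⟨BX, hBX⟩ : ∃ BX : Finset (Fin k → ℤ), BX = Fintype.piFinset (fun i : Fin k => Ico (b i) (b i + H)) := ⟨_, rfl⟩
  rw [← hBX]
  obtain ⟨EX, hEX⟩ : ∃ EX : ℕ × ℕ → Finset (Fin k → ℤ), ∀ u, EX u = BX.filter (fun h => NDeg c h ∧ Adm c h ∧
    ¬ |(CE c h (g u.1) (g u.2) : ℝ) - ME c h X (g u.1) (g u.2)| ≤ ε' * ME c h X (g u.1) (g u.2)) := ⟨fun u => _, fun _ => rfl⟩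
  obtain ⟨U, hU⟩ : ∃ U : Finset (ℕ × ℕ), U = ((range J) ×ˢ (range J)).filter (fun u => g u.1 < g u.2 ∧ X / L ^ (B + 1) ≤ (g u.2 : ℝ) - g u.1) := ⟨_, rfl⟩
  have hEc : ∀ u ∈ U, ((EX u).card : ℝ) ≤ (H : ℝ) ^ k / L ^ (A + 2 * B + 5) := by
    intro u hu
    rw [hU, mem_filter] at hu
    rw [hEX, hBX]
    have h0 : N₁ ≤ N₂ := by
      by_contra hcon
      push Not at hcon
      have h1 : g u.1 = N₂ := by rw [hg]; exact min_eq_right (by omega)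
      have h2 := hgN2 u.2
      omega
    exact hT (g u.1) (g u.2) hu.2.1 ((hgN2 _).trans hN2) hu.2.2 b H hH (fun i n hn => hb i n (by
      rw [mem_Ioc] at hn ⊢
      have h1 := hgN2 u.2
      have h2 := hgN1 h0 u.1
      omega))
  have hsub : BX.filter (fun h => NDeg c h ∧ Adm c h ∧
      ¬ ∀ M₁ M₂ : ℕ, N₁ ≤ M₁ → M₂ ≤ N₂ → X / L ^ B ≤ (M₂ : ℝ) - M₁ →
        |(CE c h M₁ M₂ : ℝ) - ME c h X M₁ M₂| ≤ ε * ME c h X M₁ M₂) ⊆ U.biUnion EX := by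
    intro h hh
    rw [mem_filter] at hh
    obtain ⟨hh1, hh2, hh3, hh4⟩ := hh
    push Not at hh4
    obtain ⟨M₁, M₂, hM1, hM2, hM, hbad⟩ := hh4
    by_contra hcon
    have good : ∀ i j, i < J → j < J → g i < g j → X / L ^ (B + 1) ≤ (g j : ℝ) - g i →
        |(CE c h (g i) (g j) : ℝ) - ME c h X (g i) (g j)| ≤ ε' * ME c h X (g i) (g j) := by
      intro i j hi hj hij hlen
      by_contra hb2
      apply hcon
      rw [mem_biUnion]
      refine ⟨(i, j), ?_, ?_⟩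
      · rw [hU, mem_filter, mem_product, mem_range, mem_range]
        exact ⟨⟨hi, hj⟩, hij, hlen⟩
      · rw [hEX, mem_filter]
        exact ⟨hh1, hh2, hh3, hb2⟩
    obtain ⟨ρ, hρ⟩ : ∃ ρ : ℝ, ρ = singT c h * Real.log (Real.log X) ^ k / Real.log X ^ (k + 1) := ⟨_, rfl⟩
    have hME : ∀ a b : ℕ, ME c h X a b = ρ * ((b : ℝ) - a) := by
      intro a b
      unfold ME
      rw [hρ]
      ring
    have hlen0 : 0 < (M₂ : ℝ) - M₁ := lt_of_lt_of_le (by positivity) hM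
    have hM12 : M₁ < M₂ := by
      have : (M₁ : ℝ) < M₂ := by linarith
      exact_mod_cast this
    obtain ⟨i, hi⟩ : ∃ i, i = (M₁ - N₁) / s := ⟨_, rfl⟩
    obtain ⟨j, hj⟩ : ∃ j, j = (M₂ - N₁) / s := ⟨_, rfl⟩
    have i1 : i * s ≤ M₁ - N₁ := by rw [hi]; exact Nat.div_mul_le_self _ _
    have i2 : M₁ - N₁ < i * s + s := by rw [hi]; exact Nat.lt_div_mul_add hs0
    have j1 : j * s ≤ M₂ - N₁ := by rw [hj]; exact Nat.div_mul_le_self _ _
    have j2 : M₂ - N₁ < j * s + s := by rw [hj]; exact Nat.lt_div_mul_add hs0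
    have gi : g i ≤ M₁ ∧ M₁ ≤ g i + s := by
      rw [hg]
      rcases min_cases (N₁ + i * s) N₂ with ⟨e, e'⟩ | ⟨e, e'⟩ <;> rw [e] <;> omega
    have gi1 : M₁ ≤ g (i + 1) ∧ g (i + 1) ≤ M₁ + s := by
      rw [hg, add_mul, one_mul]
      rcases min_cases (N₁ + (i * s + s)) N₂ with ⟨e, e'⟩ | ⟨e, e'⟩ <;> rw [e] <;> omega
    have gj : g j ≤ M₂ ∧ M₂ ≤ g j + s := by
      rw [hg]
      rcases min_cases (N₁ + j * s) N₂ with ⟨e, e'⟩ | ⟨e, e'⟩ <;> rw [e] <;> omega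
    have gj1 : M₂ ≤ g (j + 1) ∧ g (j + 1) ≤ M₂ + s := by
      rw [hg, add_mul, one_mul]
      rcases min_cases (N₁ + (j * s + s)) N₂ with ⟨e, e'⟩ | ⟨e, e'⟩ <;> rw [e] <;> omega
    have hjJ : j + 1 < J := by
      rw [hJ, hj]
      have h1 : (M₂ - N₁) / s ≤ X / s := Nat.div_le_div_right (by omega)
      omega
    have hijle : i ≤ j := by
      rw [hi, hj]
      exact Nat.div_le_div_right (by omega)
    have r1 : (g i : ℝ) ≤ M₁ ∧ (M₁ : ℝ) ≤ g i + s := ⟨by exact_mod_cast gi.1, by exact_mod_cast gi.2⟩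
    have r2 : (M₁ : ℝ) ≤ g (i + 1) ∧ (g (i + 1) : ℝ) ≤ M₁ + s := ⟨by exact_mod_cast gi1.1, by exact_mod_cast gi1.2⟩
    have r3 : (g j : ℝ) ≤ M₂ ∧ (M₂ : ℝ) ≤ g j + s := ⟨by exact_mod_cast gj.1, by exact_mod_cast gj.2⟩
    have r4 : (M₂ : ℝ) ≤ g (j + 1) ∧ (g (j + 1) : ℝ) ≤ M₂ + s := ⟨by exact_mod_cast gj1.1, by exact_mod_cast gj1.2⟩
    have hlensmall : 2 * (s : ℝ) ≤ ε' * ((M₂ : ℝ) - M₁) := by
      refine h2s.trans ?_
      apply mul_le_mul _ hM (by positivity) hε'0.le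
      rw [div_le_iff₀ (by positivity)]
      linarith
    have hXLB : X / L ^ (B + 1) ≤ (1 / 1000) * ((M₂ : ℝ) - M₁) := by
      have h1 : X / L ^ (B + 1) = (1 / L) * (X / L ^ B) := by rw [pow_succ]; field_simp
      rw [h1]
      apply mul_le_mul _ hM (by positivity) (by norm_num)
      exact one_div_le_one_div_of_le (by norm_num) hL1000
    have hin0 : (1 - ε') * ((M₂ : ℝ) - M₁) ≤ (g j : ℝ) - g (i + 1) := by linarith
    have hin1 : X / L ^ (B + 1) ≤ (g j : ℝ) - g (i + 1) := by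
      have : (1 / 1000) * ((M₂ : ℝ) - M₁) ≤ (1 - ε') * ((M₂ : ℝ) - M₁) := mul_le_mul_of_nonneg_right (by linarith) hlen0.le
      linarith
    have hinpos : 0 < (g j : ℝ) - g (i + 1) := lt_of_lt_of_le (by positivity) hin1
    have hout1 : X / L ^ (B + 1) ≤ (g (j + 1) : ℝ) - g i := by linarith
    have hout0 : (g (j + 1) : ℝ) - g i ≤ (1 + ε') * ((M₂ : ℝ) - M₁) := by linarith
    have hcin := good (i + 1) j (by omega) (by omega) (by
      have : (g (i + 1) : ℝ) < g j := by linarith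
      exact_mod_cast this) hin1
    have hcout := good i (j + 1) (by omega) hjJ (by
      have h1 : (0 : ℝ) < (g (j + 1) : ℝ) - g i := by linarith
      have : (g i : ℝ) < g (j + 1) := by linarith
      exact_mod_cast this) hout1
    rw [hME] at hcin hcout hbad
    have hρ0 : 0 ≤ ρ := by
      have h1 := (abs_nonneg _).trans hcin
      have h2 : 0 ≤ ρ * ((g j : ℝ) - g (i + 1)) := by
        by_contra hneg
        push Not at hneg
        have := mul_neg_of_pos_of_neg hε'0 hneg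
        linarith
      exact (mul_nonneg_iff_of_pos_right hinpos).1 h2
    have m1 : (CE c h (g (i + 1)) (g j) : ℝ) ≤ CE c h M₁ M₂ := by exact_mod_cast CE_mono c h _ _ _ _ gi1.1 gj.1
    have m2 : (CE c h M₁ M₂ : ℝ) ≤ CE c h (g i) (g (j + 1)) := by exact_mod_cast CE_mono c h _ _ _ _ gi.1 gj1.1
    obtain ⟨l1, l2⟩ := abs_le.1 hcin
    obtain ⟨l3, l4⟩ := abs_le.1 hcout
    obtain ⟨Q, hQ⟩ : ∃ Q : ℝ, Q = ρ * ((M₂ : ℝ) - M₁) := ⟨_, rfl⟩
    have hQ0 : 0 ≤ Q := by rw [hQ]; positivity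
    have q1 : (1 - ε') * Q ≤ ρ * ((g j : ℝ) - g (i + 1)) := by
      calc (1 - ε') * Q = ρ * ((1 - ε') * ((M₂ : ℝ) - M₁)) := by rw [hQ]; ring
        _ ≤ _ := mul_le_mul_of_nonneg_left hin0 hρ0
    have q2 : ρ * ((g (j + 1) : ℝ) - g i) ≤ (1 + ε') * Q := by
      calc ρ * ((g (j + 1) : ℝ) - g i) ≤ ρ * ((1 + ε') * ((M₂ : ℝ) - M₁)) := mul_le_mul_of_nonneg_left hout0 hρ0
        _ = (1 + ε') * Q := by rw [hQ]; ring
    have q3 : (1 - ε') * ((1 - ε') * Q) ≤ (1 - ε') * (ρ * ((g j : ℝ) - g (i + 1))) := mul_le_mul_of_nonneg_left q1 (by linarith)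
    have q4 : (1 + ε') * (ρ * ((g (j + 1) : ℝ) - g i)) ≤ (1 + ε') * ((1 + ε') * Q) := mul_le_mul_of_nonneg_left q2 (by linarith)
    have q5 : (1 - ε') * ((1 - ε') * Q) = Q - 2 * (ε' * Q) + ε' * (ε' * Q) := by ring
    have q6 : (1 + ε') * ((1 + ε') * Q) = Q + 2 * (ε' * Q) + ε' * (ε' * Q) := by ring
    have q7 : 0 ≤ ε' * (ε' * Q) := by positivity
    have q8 : ε' * (ε' * Q) ≤ 1 * (ε' * Q) := mul_le_mul_of_nonneg_right (by linarith) (by positivity)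
    have q9 : 4 * ε' * Q ≤ ε * Q := mul_le_mul_of_nonneg_right hε'1 hQ0
    have q10 : 0 ≤ ε' * Q := by positivity
    rw [← hQ] at hbad
    have hfin : |(CE c h M₁ M₂ : ℝ) - Q| ≤ ε * Q := by
      rw [abs_le]
      constructor <;> linarith
    linarith
  calc ((BX.filter (fun h => NDeg c h ∧ Adm c h ∧
      ¬ ∀ M₁ M₂ : ℕ, N₁ ≤ M₁ → M₂ ≤ N₂ → X / L ^ B ≤ (M₂ : ℝ) - M₁ →
        |(CE c h M₁ M₂ : ℝ) - ME c h X M₁ M₂| ≤ ε * ME c h X M₁ M₂)).card : ℝ)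
      ≤ ((U.biUnion EX).card : ℝ) := by exact_mod_cast card_le_card hsub
    _ ≤ ((∑ u ∈ U, (EX u).card : ℕ) : ℝ) := by exact_mod_cast card_biUnion_le
    _ = ∑ u ∈ U, ((EX u).card : ℝ) := by push_cast; rfl
    _ ≤ U.card • ((H : ℝ) ^ k / L ^ (A + 2 * B + 5)) := sum_le_card_nsmul _ _ _ hEc
    _ = (U.card : ℝ) * ((H : ℝ) ^ k / L ^ (A + 2 * B + 5)) := by rw [nsmul_eq_mul]
    _ ≤ (9 * L ^ (B + 1)) ^ 2 * ((H : ℝ) ^ k / L ^ (A + 2 * B + 5)) := by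
        apply mul_le_mul_of_nonneg_right _ (by positivity)
        have h1 : U.card ≤ J * J := by
          rw [hU]
          refine (card_filter_le _ _).trans ?_
          rw [card_product, card_range]
        have h2 : (U.card : ℝ) ≤ (J : ℝ) * J := by exact_mod_cast h1
        have h3 : (J : ℝ) * J ≤ (9 * L ^ (B + 1)) * (9 * L ^ (B + 1)) := mul_le_mul hJle hJle (Nat.cast_nonneg _) (by positivity)
        rw [pow_two]
        linarith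
    _ = (H : ℝ) ^ k / L ^ A * (81 / L ^ 3) := by
        rw [mul_pow, ← pow_mul, show A + 2 * B + 5 = A + ((B + 1) * 2 + 3) by ring, pow_add L A, pow_add L ((B + 1) * 2) 3]
        field_simp
        ring
    _ ≤ (H : ℝ) ^ k / L ^ A * 1 := by
        apply mul_le_mul_of_nonneg_left _ (by positivity)
        rw [div_le_one (by positivity)]
        have : L ≤ L ^ 3 := le_self_pow₀ hL1 (by norm_num)
        linarith
    _ = _ := mul_one _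

end Pool.Agent.H561.E3
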