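import Pool.Agent.H561.E3.K10

set_option autoImplicit false

/-! Several linear forms, products of exactly two primes: all `x`. -/

namespace Pool.Agent.H561.E3

open Finset Filter Topology
open Pool.Agent.helper24_UT hiding om
open Pool.Agent.H561.E2

lemma logsK (k : ℕ) (K δ : ℝ) (hK : 0 < K) (hδ : 0 < δ) : ∃ T : ℝ, 3 ≤ T ∧ ∀ s t : ℝ, T ≤ s → s ≤ t → t ≤ s + K →
    (1 - δ) * (Real.log s ^ k / s ^ (k + 1)) ≤ Real.log t ^ k / t ^ (k + 1) ∧
    Real.log t ^ k / t ^ (k + 1) ≤ (1 + δ) * (Real.log s ^ k / s ^ (k + 1)) := by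
  refine ⟨3 + K + (k + 1) * K / δ + 3 ^ k * K / δ, ?_, fun s t hs hst hts => ?_⟩
  · have h1 : 0 ≤ (k + 1) * K / δ := by positivity
    have h2 : 0 ≤ 3 ^ k * K / δ := by positivity
    linarith
  have h1 : 0 ≤ (k + 1) * K / δ := by positivity
  have h2 : 0 ≤ 3 ^ k * K / δ := by positivity
  have hs3 : 3 ≤ s := by linarith
  have hsK : K ≤ s := by linarith
  have hs1 : (k + 1) * K / δ ≤ s := by linarith
  have hs2 : 3 ^ k * K / δ ≤ s := by linarith
  rw [div_le_iff₀ hδ] at hs1 hs2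
  have hs0 : 0 < s := by linarith
  have ht0 : 0 < t := by linarith
  have hls : 1 ≤ Real.log s := by
    have h1 : Real.exp 1 ≤ s := by
      have := Real.exp_one_lt_d9
      linarith
    have h2 := Real.log_le_log (Real.exp_pos 1) h1
    rwa [Real.log_exp] at h2
  have hls0 : 0 < Real.log s := by linarith
  have hlt : Real.log s ≤ Real.log t := Real.log_le_log hs0 hst
  have hlsk : 0 < Real.log s ^ k := by positivity
  have hu0 : 0 ≤ K / s := by positivity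
  have hu1 : K / s ≤ 1 := by rw [div_le_one hs0]; exact hsK
  constructor
  · -- the powers
    have h3 : 1 - K / s ≤ s / t := by
      have h4 : s / t = 1 - (t - s) / t := by
        field_simp
        ring
      have h5 : (t - s) / t ≤ K / s := div_le_div₀ hK.le (by linarith) hs0 hst
      linarith
    have h4 : 1 - (k + 1) * (K / s) ≤ (s / t) ^ (k + 1) := by
      have h5 := one_add_mul_le_pow (show (-2 : ℝ) ≤ -(K / s) by linarith) (k + 1)
      have h6 : (1 + -(K / s)) ^ (k + 1) ≤ (s / t) ^ (k + 1) := pow_le_pow_left₀ (by linarith) (by linarith) _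
      push_cast at h5
      linarith
    have h5 : (k + 1) * (K / s) ≤ δ := by
      rw [← mul_div_assoc, div_le_iff₀ hs0]
      linarith
    have h6 : (1 - δ) * (Real.log s ^ k / s ^ (k + 1)) ≤ (s / t) ^ (k + 1) * (Real.log s ^ k / s ^ (k + 1)) :=
      mul_le_mul_of_nonneg_right (by linarith) (by positivity)
    refine h6.trans ?_
    have h7 : (s / t) ^ (k + 1) * (Real.log s ^ k / s ^ (k + 1)) = Real.log s ^ k / t ^ (k + 1) := by
      rw [div_pow]
      field_simp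
    rw [h7]
    exact div_le_div_of_nonneg_right (pow_le_pow_left₀ hls0.le hlt k) (by positivity)
  · have h3 : Real.log t ≤ Real.log s + K / s := by
      have h4 : Real.log t ≤ Real.log (s + K) := Real.log_le_log ht0 hts
      have h5 : Real.log (s + K) = Real.log s + Real.log (1 + K / s) := by
        rw [← Real.log_mul hs0.ne' (by positivity)]
        congr 1
        field_simp
      have h6 : Real.log (1 + K / s) ≤ K / s := by
        have := Real.log_le_sub_one_of_pos (show 0 < 1 + K / s by positivity)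
        linarith
      linarith
    have h4 : Real.log t ≤ (1 + K / s) * Real.log s := by
      have h5 : K / s * 1 ≤ K / s * Real.log s := mul_le_mul_of_nonneg_left hls hu0
      linarith
    have h5 : Real.log t ^ k ≤ (1 + δ) * Real.log s ^ k := by
      calc Real.log t ^ k ≤ ((1 + K / s) * Real.log s) ^ k := pow_le_pow_left₀ (by linarith) h4 k
        _ = (1 + K / s) ^ k * Real.log s ^ k := mul_pow _ _ _
        _ ≤ (1 + 3 ^ k * (K / s)) * Real.log s ^ k := mul_le_mul_of_nonneg_right (one_add_pow_le k _ hu0 hu1) hlsk.le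
        _ ≤ (1 + δ) * Real.log s ^ k := by
            apply mul_le_mul_of_nonneg_right _ hlsk.le
            have : 3 ^ k * (K / s) ≤ δ := by
              rw [← mul_div_assoc, div_le_iff₀ hs0]
              linarith
            linarith
    rw [← mul_div_assoc]
    apply div_le_div₀ (by positivity) h5 (by positivity)
    exact pow_le_pow_left₀ hs0.le hst _

open Classical in
/-- **All `x` simultaneously.** -/
theorem e2V (k : ℕ) (hk0 : 0 < k) (c : Fin k → ℤ) (hc : ∀ i, 1 ≤ c i) (ε : ℝ) (hε : 0 < ε) : ∃ η : ℝ, 0 < η ∧ η ≤ 1 / 4 ∧ ∀ A : ℕ, ∃ H₀ : ℕ,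
    ∀ H : ℕ, H₀ ≤ H → ∀ (D : ℕ) (b : Fin k → ℤ), (∀ i, |b i| + H ≤ D) →
    (((Fintype.piFinset (fun i : Fin k => Ico (b i) (b i + H))).filter (fun h => NDeg c h ∧ Adm c h ∧
      ¬ ∀ x : ℕ, D ≤ x → D * (Real.log x) ^ (k + 2) ≤ x → Real.log x ≤ (Real.log H) ^ (1 + η) →
        |(CE c h 0 x : ℝ) - singT c h * x * Real.log (Real.log x) ^ k / (Real.log x) ^ (k + 1)| ≤
          ε * (singT c h * x * Real.log (Real.log x) ^ k / (Real.log x) ^ (k + 1)))).card : ℝ) ≤ (H : ℝ) ^ k / (Real.log H) ^ A := by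
  have hc0 : ∀ i, c i ≠ 0 := fun i h => by have := hc i; omega
  obtain ⟨ε', hε'⟩ : ∃ ε' : ℝ, ε' = min ε 1 / 8 := ⟨_, rfl⟩
  have hm0 : 0 < min ε 1 := lt_min hε one_pos
  have hε'0 : 0 < ε' := by rw [hε']; positivity
  have hε'1 : 8 * ε' ≤ ε := by rw [hε']; linarith [min_le_left ε 1]
  have hε'2 : 8 * ε' ≤ 1 := by rw [hε']; linarith [min_le_right ε 1]
  obtain ⟨η, hη0, hη1, hT⟩ := e2U k hk0 c hc0 ε' hε'0
  refine ⟨η / 2, by positivity, by linarith, fun A => ?_⟩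
  obtain ⟨X₁, hT⟩ := hT (A + 3) 1
  obtain ⟨κ, hκ, hsl⟩ := sing_lower c hc0
  obtain ⟨C, hC⟩ : ∃ C : ℕ, C = ∑ i, (c i).toNat + 2 := ⟨_, rfl⟩
  have hcC : ∀ i, c i + 1 ≤ C := by
    intro i
    have h1 : (c i).toNat ≤ ∑ i, (c i).toNat := single_le_sum (f := fun i => (c i).toNat) (fun _ _ => Nat.zero_le _) (mem_univ i)
    have h2 : (((c i).toNat : ℕ) : ℤ) = c i := Int.toNat_of_nonneg (by have := hc i; omega)
    have h3 : (((c i).toNat : ℕ) : ℤ) ≤ ((∑ i, (c i).toNat : ℕ) : ℤ) := by exact_mod_cast h1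
    rw [hC]
    push_cast at h3 ⊢
    rw [← h2]
    omega
  have hC2 : 2 ≤ C := by omega
  have hCr : (2 : ℝ) ≤ C := by exact_mod_cast hC2
  obtain ⟨T, hT3, hlogs⟩ := logsK k (2 * C) ε' (by positivity) hε'0
  have hpow2 : ∀ᶠ x : ℝ in atTop, (2 : ℝ) ≤ x ^ (η / 2) := (tendsto_rpow_atTop (show 0 < η / 2 by positivity)).eventually (eventually_ge_atTop 2)
  have hlogt : Tendsto (fun X : ℕ => Real.log (X : ℝ)) atTop atTop := Real.tendsto_log_atTop.comp tendsto_natCast_atTop_atTop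
  obtain ⟨H₁, hH₁⟩ := Filter.eventually_atTop.1 ((Sil2.ev_log (1000 + 4 * C + T + 1 / (ε' * κ) + 1 / ε')).and (hlogt.eventually hpow2))
  refine ⟨max (max H₁ X₁) 3, fun H hH D b hb => ?_⟩
  obtain ⟨hL, hL2⟩ := hH₁ H (((le_max_left _ _).trans (le_max_left _ _)).trans hH)
  have hHX1 : X₁ ≤ H := ((le_max_right _ _).trans (le_max_left _ _)).trans hH
  have hH3 : 3 ≤ H := (le_max_right _ _).trans hH
  obtain ⟨lam, hlam⟩ : ∃ lam, lam = Real.log (H : ℝ) := ⟨_, rfl⟩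
  rw [← hlam] at hL hL2 ⊢
  have i1 : 0 < 1 / (ε' * κ) := by positivity
  have i2 : 0 < 1 / ε' := by positivity
  have hl1000 : 1000 ≤ lam := by linarith
  have hlC : 4 * C ≤ lam := by linarith
  have hlT : T ≤ lam := by linarith
  have hlκ : 1 ≤ lam * (ε' * κ) := by
    have h1 : 1 / (ε' * κ) ≤ lam := by linarith
    rwa [div_le_iff₀ (by positivity)] at h1
  have hlε : 1 ≤ lam * ε' := by
    have h1 : 1 / ε' ≤ lam := by linarith
    rwa [div_le_iff₀ hε'0] at h1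
  have hl1 : 1 ≤ lam := by linarith
  have hl0 : 0 < lam := by linarith
  have hHr : (3 : ℝ) ≤ H := by exact_mod_cast hH3
  have hH0 : (0 : ℝ) < H := by linarith
  have hDH : H ≤ D := by
    have h1 := hb ⟨0, hk0⟩
    have h2 := abs_nonneg (b ⟨0, hk0⟩)
    omega
  have hDr : (H : ℝ) ≤ D := by exact_mod_cast hDH
  have hlam2 : lam ^ (1 + η / 2) ≤ lam ^ 2 := by
    rw [← Real.rpow_two]
    exact Real.rpow_le_rpow_of_exponent_le hl1 (by linarith)
  -- sizes of `x`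
  have hxs : ∀ x : ℕ, D ≤ x → lam ≤ Real.log x ∧ (3 : ℝ) ≤ x ∧ X₁ ≤ x := by
    intro x hx
    have h1 : (D : ℝ) ≤ x := by exact_mod_cast hx
    have h2 := Real.log_le_log hH0 (hDr.trans h1)
    rw [← hlam] at h2
    exact ⟨h2, by linarith, hHX1.trans (hDH.trans hx)⟩
  obtain ⟨BX, hBX⟩ : ∃ BX : Finset (Fin k → ℤ), BX = Fintype.piFinset (fun i : Fin k => Ico (b i) (b i + H)) := ⟨_, rfl⟩
  rw [← hBX]
  obtain ⟨Jm, hJm⟩ : ∃ Jm : ℕ, Jm = ⌈2 * lam ^ 2⌉₊ + 2 := ⟨_, rfl⟩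
  obtain ⟨PJ, hPJ⟩ : ∃ PJ : ℕ → Prop, ∀ j, PJ j ↔ ∃ x : ℕ, x < 2 ^ j ∧ 2 ^ j ≤ 2 * x ∧ D ≤ x ∧ Real.log x ≤ lam ^ (1 + η / 2) := ⟨_, fun _ => Iff.rfl⟩
  obtain ⟨J, hJ⟩ : ∃ J : Finset ℕ, J = (range Jm).filter PJ := ⟨_, rfl⟩
  obtain ⟨EX, hEX⟩ : ∃ EX : ℕ → Finset (Fin k → ℤ), ∀ j, EX j = BX.filter (fun h => NDeg c h ∧ Adm c h ∧
    ¬ ∀ M₁ M₂ : ℕ, D ≤ M₁ → M₂ ≤ 2 ^ j → ((C * 2 ^ j : ℕ) : ℝ) / (Real.log ((C * 2 ^ j : ℕ) : ℝ)) ^ 1 ≤ (M₂ : ℝ) - M₁ →
        |(CE c h M₁ M₂ : ℝ) - ME c h (C * 2 ^ j) M₁ M₂| ≤ ε' * ME c h (C * 2 ^ j) M₁ M₂) := ⟨fun j => _, fun _ => rfl⟩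
  -- sizes of the scales
  have hscale : ∀ (j x : ℕ), x < 2 ^ j → 2 ^ j ≤ 2 * x → D ≤ x →
      Real.log x ≤ Real.log ((C * 2 ^ j : ℕ) : ℝ) ∧ Real.log ((C * 2 ^ j : ℕ) : ℝ) ≤ Real.log x + 2 * C ∧ ((C * 2 ^ j : ℕ) : ℝ) ≤ 2 * C * x := by
    intro j x h1 h2 h3
    obtain ⟨_, hx3, _⟩ := hxs x h3
    have hx0 : (0 : ℝ) < x := by linarith
    have h4 : x ≤ C * 2 ^ j := by nlinarith
    have h5 : ((C * 2 ^ j : ℕ) : ℝ) ≤ 2 * C * x := by
      have h6 : C * 2 ^ j ≤ 2 * C * x := by nlinarith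
      exact_mod_cast h6
    have h4r : (x : ℝ) ≤ ((C * 2 ^ j : ℕ) : ℝ) := by exact_mod_cast h4
    refine ⟨Real.log_le_log hx0 h4r, ?_, h5⟩
    have h6 := Real.log_le_log (by linarith) h5
    rw [Real.log_mul (by positivity) hx0.ne'] at h6
    have h7 := Real.log_le_sub_one_of_pos (show (0 : ℝ) < 2 * C by positivity)
    linarith
  have hEc : ∀ j ∈ J, ((EX j).card : ℝ) ≤ (H : ℝ) ^ k / lam ^ (A + 3) := by
    intro j hj
    rw [hJ, mem_filter, hPJ] at hj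
    obtain ⟨_, x, x1, x2, x3, x4⟩ := hj
    obtain ⟨hx1, hx2, hx3⟩ := hxs x x3
    obtain ⟨s1, s2, s3⟩ := hscale j x x1 x2 x3
    rw [hEX, hBX]
    have hX1 : X₁ ≤ C * 2 ^ j := by
      have : x ≤ C * 2 ^ j := by nlinarith
      omega
    have hexp : Real.exp ((Real.log ((C * 2 ^ j : ℕ) : ℝ)) ^ (1 - η)) ≤ H := by
      have h1 : Real.log ((C * 2 ^ j : ℕ) : ℝ) ≤ 2 * lam ^ (1 + η / 2) := by linarith
      have h0 : 0 ≤ Real.log ((C * 2 ^ j : ℕ) : ℝ) := by linarith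
      have h2 : (Real.log ((C * 2 ^ j : ℕ) : ℝ)) ^ (1 - η) ≤ lam := by
        calc (Real.log ((C * 2 ^ j : ℕ) : ℝ)) ^ (1 - η) ≤ (2 * lam ^ (1 + η / 2)) ^ (1 - η) := Real.rpow_le_rpow h0 h1 (by linarith)
          _ = 2 ^ (1 - η) * lam ^ ((1 + η / 2) * (1 - η)) := by
              rw [Real.mul_rpow (by norm_num) (by positivity), ← Real.rpow_mul hl0.le]
          _ ≤ 2 * lam ^ (1 - η / 2) := by
              apply mul_le_mul _ _ (by positivity) (by norm_num)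
              · calc (2 : ℝ) ^ (1 - η) ≤ 2 ^ (1 : ℝ) := Real.rpow_le_rpow_of_exponent_le (by norm_num) (by linarith)
                  _ = 2 := Real.rpow_one _
              · apply Real.rpow_le_rpow_of_exponent_le hl1
                nlinarith
          _ ≤ lam ^ (η / 2) * lam ^ (1 - η / 2) := mul_le_mul_of_nonneg_right hL2 (by positivity)
          _ = lam := by
              rw [← Real.rpow_add hl0]
              norm_num
      calc Real.exp ((Real.log ((C * 2 ^ j : ℕ) : ℝ)) ^ (1 - η)) ≤ Real.exp lam := Real.exp_le_exp.2 h2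
        _ = H := by rw [hlam, Real.exp_log hH0]
    have h1 := hT (C * 2 ^ j) hX1 D (2 ^ j) (by nlinarith [Nat.one_le_two_pow (n := j)]) b H hexp (by
      intro i n hn
      rw [mem_Ioc] at hn
      have a1 := hb i
      have a2 := abs_le.1 (show |b i| ≤ (D : ℤ) - H by linarith)
      have a3 := hc i
      have a4 := hcC i
      have a5 : (n : ℤ) ≤ ((2 ^ j : ℕ) : ℤ) := by exact_mod_cast hn.2
      have a6 : (D : ℤ) + 1 ≤ n := by exact_mod_cast hn.1
      have a7 : (D : ℤ) ≤ ((2 ^ j : ℕ) : ℤ) := by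
        have : D ≤ 2 ^ j := by omega
        exact_mod_cast this
      have a8 : (0 : ℤ) ≤ (n : ℤ) := Int.natCast_nonneg _
      have a9 : (0 : ℤ) ≤ ((2 ^ j : ℕ) : ℤ) := Int.natCast_nonneg _
      have a10 : 1 * (n : ℤ) ≤ c i * n := mul_le_mul_of_nonneg_right a3 a8
      have a11 : c i * (n : ℤ) ≤ c i * ((2 ^ j : ℕ) : ℤ) := mul_le_mul_of_nonneg_left a5 (by linarith)
      have a12 : (c i + 1) * ((2 ^ j : ℕ) : ℤ) ≤ C * ((2 ^ j : ℕ) : ℤ) := mul_le_mul_of_nonneg_right a4 a9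
      have a13 : (c i + 1) * ((2 ^ j : ℕ) : ℤ) = c i * ((2 ^ j : ℕ) : ℤ) + ((2 ^ j : ℕ) : ℤ) := by ring
      have a14 : ((C * 2 ^ j : ℕ) : ℤ) = C * ((2 ^ j : ℕ) : ℤ) := by push_cast; rfl
      rw [a14]
      constructor
      · linarith [a2.1]
      · linarith [a2.2])
    refine h1.trans ?_
    apply div_le_div_of_nonneg_left (by positivity) (by positivity)
    exact pow_le_pow_left₀ hl0.le (hx1.trans s1) _
  have hsub : BX.filter (fun h => NDeg c h ∧ Adm c h ∧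
      ¬ ∀ x : ℕ, D ≤ x → D * (Real.log x) ^ (k + 2) ≤ x → Real.log x ≤ lam ^ (1 + η / 2) →
        |(CE c h 0 x : ℝ) - singT c h * x * Real.log (Real.log x) ^ k / (Real.log x) ^ (k + 1)| ≤
          ε * (singT c h * x * Real.log (Real.log x) ^ k / (Real.log x) ^ (k + 1))) ⊆ J.biUnion EX := by
    intro h hh
    rw [mem_filter] at hh
    obtain ⟨hh1, hh2, hh3, hh4⟩ := hh
    push Not at hh4
    obtain ⟨x, x1, x2, x3, hbad⟩ := hh4
    obtain ⟨hx1, hx2, hx3⟩ := hxs x x1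
    have hxpos : (0 : ℝ) < x := by linarith
    have hxn : x ≠ 0 := by
      rintro rfl
      simp at hxpos
    obtain ⟨j, hj⟩ : ∃ j, j = Nat.log 2 x + 1 := ⟨_, rfl⟩
    have j1 : x < 2 ^ j := by rw [hj]; exact Nat.lt_pow_succ_log_self (by norm_num) x
    have j2 : 2 ^ j ≤ 2 * x := by
      rw [hj, pow_succ, mul_comm]
      exact Nat.mul_le_mul_left 2 (Nat.pow_log_le_self 2 hxn)
    have j3 : j < Jm := by
      have h1 : (Nat.log 2 x : ℝ) ≤ 2 * Real.log x := Pool.Agent.H373R2.T7.natlog_le x (by omega)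
      have h2 : (j : ℝ) ≤ 2 * lam ^ 2 + 1 := by
        rw [hj]
        push_cast
        linarith
      have h3 : 2 * lam ^ 2 ≤ (⌈2 * lam ^ 2⌉₊ : ℝ) := Nat.le_ceil _
      have h4 : (j : ℝ) < Jm := by
        rw [hJm]
        push_cast
        linarith
      exact_mod_cast h4
    obtain ⟨s1, s2, s3⟩ := hscale j x j1 j2 x1
    by_contra hcon
    have hgood : ∀ M₁ M₂ : ℕ, D ≤ M₁ → M₂ ≤ 2 ^ j → ((C * 2 ^ j : ℕ) : ℝ) / (Real.log ((C * 2 ^ j : ℕ) : ℝ)) ^ 1 ≤ (M₂ : ℝ) - M₁ →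
        |(CE c h M₁ M₂ : ℝ) - ME c h (C * 2 ^ j) M₁ M₂| ≤ ε' * ME c h (C * 2 ^ j) M₁ M₂ := by
      by_contra hb2
      apply hcon
      rw [mem_biUnion]
      refine ⟨j, ?_, ?_⟩
      · rw [hJ, mem_filter, mem_range, hPJ]
        exact ⟨j3, x, j1, j2, x1, x3⟩
      · rw [hEX, mem_filter]
        exact ⟨hh1, hh2, hh3, hb2⟩
    obtain ⟨s, hs⟩ : ∃ s, s = Real.log (x : ℝ) := ⟨_, rfl⟩
    obtain ⟨t, ht⟩ : ∃ t, t = Real.log ((C * 2 ^ j : ℕ) : ℝ) := ⟨_, rfl⟩
    rw [← hs] at hx1 x2 x3 s1 s2 hbad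
    rw [← ht] at s1 s2 hgood
    have hs1 : 1 ≤ s := by linarith
    have hs0 : 0 < s := by linarith
    have hsk1 : s ≤ s ^ (k + 2) := le_self_pow₀ hs1 (by omega)
    have hsk0 : 0 < s ^ (k + 2) := by positivity
    have hDx : (D : ℝ) ≤ x / s ^ (k + 2) := by rw [le_div_iff₀ hsk0]; exact x2
    have hDx2 : (D : ℝ) ≤ x * (1 / s) := by
      refine hDx.trans ?_
      rw [mul_one_div]
      exact div_le_div_of_nonneg_left hxpos.le hs0 hsk1
    have h1s : 1 / s ≤ ε' := by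
      rw [div_le_iff₀ hs0]
      have : lam * ε' ≤ s * ε' := mul_le_mul_of_nonneg_right hx1 hε'0.le
      linarith
    have hDε : (D : ℝ) ≤ ε' * x := by
      refine hDx2.trans ?_
      rw [mul_comm ε']
      exact mul_le_mul_of_nonneg_left h1s hxpos.le
    have hlen : ((C * 2 ^ j : ℕ) : ℝ) / t ^ 1 ≤ (x : ℝ) - D := by
      rw [pow_one]
      have h1 : ((C * 2 ^ j : ℕ) : ℝ) / t ≤ x / 2 := by
        rw [div_le_iff₀ (by linarith)]
        have h2 : 4 * C ≤ t := by linarith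
        have h3 : x / 2 * (4 * C) ≤ x / 2 * t := mul_le_mul_of_nonneg_left h2 (by positivity)
        linarith
      have h2 : ε' * x ≤ 1 / 2 * x := mul_le_mul_of_nonneg_right (by linarith) hxpos.le
      linarith
    have hg := hgood D x le_rfl j1.le hlen
    obtain ⟨𝔖, h𝔖⟩ : ∃ 𝔖, 𝔖 = singT c h := ⟨_, rfl⟩
    have hSκ : κ ≤ 𝔖 := by rw [h𝔖]; exact hsl _ (mult_all c h hc0 hh2) hh3
    have h𝔖0 : 0 < 𝔖 := by linarith
    obtain ⟨l1, l2⟩ := hlogs s t (by linarith) s1 s2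
    obtain ⟨fs, hfs⟩ : ∃ fs, fs = Real.log s ^ k / s ^ (k + 1) := ⟨_, rfl⟩
    obtain ⟨ft, hft⟩ : ∃ ft, ft = Real.log t ^ k / t ^ (k + 1) := ⟨_, rfl⟩
    rw [← hfs, ← hft] at l1 l2
    have hls1 : 1 ≤ Real.log s := by
      have h1 : Real.exp 1 ≤ s := by
        have := Real.exp_one_lt_d9
        linarith
      have h2 := Real.log_le_log (Real.exp_pos 1) h1
      rwa [Real.log_exp] at h2
    have hfs1 : 1 / s ^ (k + 1) ≤ fs := by
      rw [hfs]
      exact div_le_div_of_nonneg_right (one_le_pow₀ hls1) (by positivity)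
    have hfs0 : 0 < fs := lt_of_lt_of_le (by positivity) hfs1
    have hft0 : 0 ≤ ft := by
      have : 0 ≤ (1 - ε') * fs := mul_nonneg (by linarith) hfs0.le
      linarith
    obtain ⟨Q, hQ⟩ : ∃ Q, Q = 𝔖 * x * fs := ⟨_, rfl⟩
    have hQ0 : 0 < Q := by rw [hQ]; positivity
    have e1 : singT c h * x * Real.log s ^ k / s ^ (k + 1) = Q := by
      rw [hQ, hfs, ← h𝔖]
      ring
    rw [e1] at hbad
    obtain ⟨M, hM⟩ : ∃ M, M = ME c h (C * 2 ^ j) D x := ⟨_, rfl⟩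
    have hMe : M = 𝔖 * ((x : ℝ) - D) * ft := by
      rw [hM]
      unfold ME
      rw [← ht, hft, ← h𝔖]
      ring
    rw [← hM] at hg
    have hD0 : (0 : ℝ) ≤ D := Nat.cast_nonneg _
    have hxD0 : 0 ≤ (x : ℝ) - D := by
      have : ε' * x ≤ 1 * x := mul_le_mul_of_nonneg_right (by linarith) hxpos.le
      linarith
    have m1 : M ≤ (1 + ε') * Q := by
      rw [hMe, hQ]
      calc 𝔖 * ((x : ℝ) - D) * ft ≤ 𝔖 * x * ((1 + ε') * fs) := by
            apply mul_le_mul _ l2 hft0 (by positivity)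
            exact mul_le_mul_of_nonneg_left (by linarith) h𝔖0.le
        _ = _ := by ring
    have m2 : (1 - ε') * ((1 - ε') * Q) ≤ M := by
      rw [hMe, hQ]
      calc (1 - ε') * ((1 - ε') * (𝔖 * x * fs)) = 𝔖 * ((1 - ε') * x) * ((1 - ε') * fs) := by ring
        _ ≤ 𝔖 * ((x : ℝ) - D) * ft := by
            apply mul_le_mul _ l1 (mul_nonneg (by linarith) hfs0.le) (mul_nonneg h𝔖0.le hxD0)
            exact mul_le_mul_of_nonneg_left (by linarith) h𝔖0.le
    have c1 : (CE c h D x : ℝ) ≤ CE c h 0 x := by exact_mod_cast CE_mono c h D x 0 x (Nat.zero_le _) le_rfl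
    have c2 : (CE c h 0 x : ℝ) ≤ CE c h D x + D := by exact_mod_cast CE_le c h 0 D x
    have hDQ : (D : ℝ) ≤ ε' * Q := by
      refine hDx.trans ?_
      have h1 : x / s ^ (k + 2) = (1 / s) * (x * (1 / s ^ (k + 1))) := by
        rw [show k + 2 = (k + 1) + 1 by ring, pow_succ s (k + 1)]
        field_simp
      have h2 : 1 / s ≤ ε' * κ := by
        rw [div_le_iff₀ hs0]
        have : lam * (ε' * κ) ≤ s * (ε' * κ) := mul_le_mul_of_nonneg_right hx1 (by positivity)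
        linarith
      rw [h1, hQ]
      calc (1 / s) * (x * (1 / s ^ (k + 1))) ≤ (ε' * κ) * (x * fs) := by
            apply mul_le_mul h2 _ (by positivity) (by positivity)
            exact mul_le_mul_of_nonneg_left hfs1 hxpos.le
        _ ≤ (ε' * 𝔖) * (x * fs) := by gcongr
        _ = _ := by ring
    obtain ⟨g1, g2⟩ := abs_le.1 hg
    have q1 : (1 - ε') * ((1 - ε') * ((1 - ε') * Q)) ≤ (1 - ε') * M := mul_le_mul_of_nonneg_left m2 (by linarith)
    have q2 : (1 + ε') * M ≤ (1 + ε') * ((1 + ε') * Q) := mul_le_mul_of_nonneg_left m1 (by linarith)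
    have q3 : (1 - ε') * ((1 - ε') * ((1 - ε') * Q)) = Q - 3 * (ε' * Q) + 3 * (ε' * (ε' * Q)) - ε' * (ε' * (ε' * Q)) := by ring
    have q4 : (1 + ε') * ((1 + ε') * Q) = Q + 2 * (ε' * Q) + ε' * (ε' * Q) := by ring
    have q5 : 0 ≤ ε' * (ε' * Q) := by positivity
    have q6 : ε' * (ε' * Q) ≤ 1 * (ε' * Q) := mul_le_mul_of_nonneg_right (by linarith) (by positivity)
    have q7 : ε' * (ε' * (ε' * Q)) ≤ 1 * (ε' * (ε' * Q)) := mul_le_mul_of_nonneg_right (by linarith) q5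
    have q8 : 8 * ε' * Q ≤ ε * Q := mul_le_mul_of_nonneg_right hε'1 hQ0.le
    have q9 : 0 ≤ ε' * Q := by positivity
    have hfin : |(CE c h 0 x : ℝ) - Q| ≤ ε * Q := by
      rw [abs_le]
      constructor <;> linarith
    linarith
  have hJc : (J.card : ℝ) ≤ lam ^ 3 := by
    have h1 : J.card ≤ Jm := by
      rw [hJ]
      refine (card_filter_le _ _).trans ?_
      rw [card_range]
    have h2 : (Jm : ℝ) ≤ 2 * lam ^ 2 + 3 := by
      rw [hJm]
      push_cast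
      have := (Nat.ceil_lt_add_one (show (0 : ℝ) ≤ 2 * lam ^ 2 by positivity)).le
      linarith
    have h3 : 2 * lam ^ 2 + 3 ≤ lam ^ 3 := by
      have h4 : lam ^ 3 = lam * lam ^ 2 := by ring
      have h5 : 1000 * lam ^ 2 ≤ lam * lam ^ 2 := mul_le_mul_of_nonneg_right hl1000 (by positivity)
      have h6 : 1 ≤ lam ^ 2 := one_le_pow₀ hl1
      linarith
    have h4 : (J.card : ℝ) ≤ Jm := by exact_mod_cast h1
    linarith
  calc ((BX.filter (fun h => NDeg c h ∧ Adm c h ∧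
      ¬ ∀ x : ℕ, D ≤ x → D * (Real.log x) ^ (k + 2) ≤ x → Real.log x ≤ lam ^ (1 + η / 2) →
        |(CE c h 0 x : ℝ) - singT c h * x * Real.log (Real.log x) ^ k / (Real.log x) ^ (k + 1)| ≤
          ε * (singT c h * x * Real.log (Real.log x) ^ k / (Real.log x) ^ (k + 1)))).card : ℝ)
      ≤ ((J.biUnion EX).card : ℝ) := by exact_mod_cast card_le_card hsub
    _ ≤ ((∑ u ∈ J, (EX u).card : ℕ) : ℝ) := by exact_mod_cast card_biUnion_le
    _ = ∑ u ∈ J, ((EX u).card : ℝ) := by push_cast; rfl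
    _ ≤ J.card • ((H : ℝ) ^ k / lam ^ (A + 3)) := sum_le_card_nsmul _ _ _ hEc
    _ = (J.card : ℝ) * ((H : ℝ) ^ k / lam ^ (A + 3)) := by rw [nsmul_eq_mul]
    _ ≤ lam ^ 3 * ((H : ℝ) ^ k / lam ^ (A + 3)) := mul_le_mul_of_nonneg_right hJc (by positivity)
    _ = (H : ℝ) ^ k / lam ^ A := by
        rw [pow_add]
        field_simp

end Pool.Agent.H561.E3
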