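import Pool.Agent.H561.E3.K11

set_option autoImplicit false

/-! Several linear forms, products of exactly two primes: the smaller prime factors in arbitrary sets. -/

namespace Pool.Agent.H561.E3

open Finset Filter Topology
open Pool.Agent.helper24_UT hiding om
open Pool.Agent.H373R2.T7 (pz mem_pz Vz Vz_pos)
open Pool.Agent.H561.E2

lemma prod_add_bd {ι : Type*} (s : Finset ι) (a : ι → ℝ) (ℓ τ : ℝ) (hℓ : 0 ≤ ℓ) (hτ0 : 0 ≤ τ) (hτ1 : τ ≤ 1)
    (ha : ∀ i ∈ s, 0 ≤ a i ∧ a i ≤ 2 * ℓ) : ∏ i ∈ s, (a i + τ * ℓ) ≤ ∏ i ∈ s, a i + s.card * τ * (3 * ℓ) ^ s.card := by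
  classical
  induction s using Finset.induction_on with
  | empty => simp
  | insert x s hx ih =>
    have ih' := ih (fun i hi => ha i (mem_insert_of_mem hi))
    obtain ⟨h1, h2⟩ := ha x (mem_insert_self _ _)
    rw [prod_insert hx, prod_insert hx, card_insert_of_notMem hx]
    have hP : ∏ i ∈ s, a i ≤ (3 * ℓ) ^ s.card := by
      calc ∏ i ∈ s, a i ≤ ∏ _i ∈ s, (3 * ℓ) := prod_le_prod (fun i hi => (ha i (mem_insert_of_mem hi)).1) (fun i hi => by
            have := (ha i (mem_insert_of_mem hi)).2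
            linarith)
        _ = _ := by rw [prod_const]
    have hτℓ : τ * ℓ ≤ 1 * ℓ := mul_le_mul_of_nonneg_right hτ1 hℓ
    have hτℓ0 : 0 ≤ τ * ℓ := mul_nonneg hτ0 hℓ
    have h3 : (a x + τ * ℓ) * ∏ i ∈ s, (a i + τ * ℓ) ≤ (a x + τ * ℓ) * (∏ i ∈ s, a i + s.card * τ * (3 * ℓ) ^ s.card) :=
      mul_le_mul_of_nonneg_left ih' (by linarith)
    have h5 : τ * ℓ * ∏ i ∈ s, a i ≤ τ * ℓ * (3 * ℓ) ^ s.card := mul_le_mul_of_nonneg_left hP hτℓ0
    have h6 : (a x + τ * ℓ) * (s.card * τ * (3 * ℓ) ^ s.card) ≤ (3 * ℓ) * (s.card * τ * (3 * ℓ) ^ s.card) :=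
      mul_le_mul_of_nonneg_right (by linarith) (by positivity)
    have h7 : τ * ℓ * (3 * ℓ) ^ s.card ≤ τ * (3 * ℓ) * (3 * ℓ) ^ s.card := by
      apply mul_le_mul_of_nonneg_right _ (by positivity)
      nlinarith
    push_cast
    have e1 : ((s.card : ℝ) + 1) * τ * (3 * ℓ) ^ (s.card + 1) = τ * (3 * ℓ) * (3 * ℓ) ^ s.card +
        (3 * ℓ) * (s.card * τ * (3 * ℓ) ^ s.card) := by ring
    rw [e1]
    have e2 : (a x + τ * ℓ) * (∏ i ∈ s, a i + s.card * τ * (3 * ℓ) ^ s.card) = a x * ∏ i ∈ s, a i + τ * ℓ * ∏ i ∈ s, a i +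
        (a x + τ * ℓ) * (s.card * τ * (3 * ℓ) ^ s.card) := by ring
    rw [e2] at h3
    linarith

lemma exists_sub (F : Finset ℕ) (w : ℕ → ℝ) (hw : ∀ p ∈ F, w p ≤ 1) (s : ℝ) (hs0 : 0 ≤ s) (hs : s ≤ ∑ p ∈ F, w p) :
    ∃ E ⊆ F, s ≤ ∑ p ∈ E, w p ∧ ∑ p ∈ E, w p ≤ s + 1 := by
  classical
  induction F using Finset.induction_on with
  | empty =>
    refine ⟨∅, Finset.Subset.refl _, hs, ?_⟩
    rw [sum_empty]
    linarith
  | insert x F hx ih =>
    by_cases h : s ≤ ∑ p ∈ F, w p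
    · obtain ⟨E, hE, h1, h2⟩ := ih (fun p hp => hw p (mem_insert_of_mem hp)) h
      exact ⟨E, hE.trans (subset_insert _ _), h1, h2⟩
    · push Not at h
      refine ⟨insert x F, Finset.Subset.refl _, hs, ?_⟩
      rw [sum_insert hx]
      have := hw x (mem_insert_self _ _)
      linarith

open Classical in
/-- the number of the primes `n`, `N₁ < n ≤ N₂`, for which all `c_i n + h_i` are products `p q` of primes `p ≤ q` with `p ∈ S_i` -/
noncomputable def CS {k : ℕ} (c h : Fin k → ℤ) (S : Fin k → Set ℕ) (N₁ N₂ : ℕ) : ℕ :=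
  ((Ioc N₁ N₂).filter (fun n : ℕ => n.Prime ∧ ∀ i, ∃ p q : ℕ, p.Prime ∧ q.Prime ∧ p ≤ q ∧ p ∈ S i ∧ LFo c h i n = p * q)).card

open Classical in
/-- the elements of `F` in `S` -/
noncomputable def SF (F : Finset ℕ) (S : Set ℕ) : Finset ℕ := F.filter (fun p => p ∈ S)

lemma mem_SF (F : Finset ℕ) (S : Set ℕ) (p : ℕ) : p ∈ SF F S ↔ p ∈ F ∧ p ∈ S := by
  classical
  unfold SF
  exact mem_filter

lemma small_card {k : ℕ} (c h : Fin k → ℤ) (hc : ∀ i, c i ≠ 0) (N₁ N₂ y : ℕ) (hb : ∀ i, ∀ n ∈ Ioc N₁ N₂, 1 ≤ LFo c h i n) :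
    ((univ : Finset (Fin k)).biUnion (fun i => (Ioc N₁ N₂).filter (fun n : ℕ => LFo c h i n ≤ (y : ℤ) ^ 2))).card ≤ k * y ^ 2 := by
  refine card_biUnion_le.trans ?_
  have h5 : ∀ i ∈ (univ : Finset (Fin k)), ((Ioc N₁ N₂).filter (fun n : ℕ => LFo c h i n ≤ (y : ℤ) ^ 2)).card ≤ y ^ 2 := by
    intro i _
    have h6 : ((Ioc N₁ N₂).filter (fun n : ℕ => LFo c h i n ≤ (y : ℤ) ^ 2)).card ≤ (Icc 1 (y ^ 2)).card := by
      apply card_le_card_of_injOn (fun n => (LFo c h i n).toNat)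
      · intro n hn
        rw [mem_coe, mem_filter] at hn
        have h7 := hb i n hn.1
        rw [mem_coe, mem_Icc]
        constructor
        · show 1 ≤ (LFo c h i n).toNat
          omega
        · have h8 : ((LFo c h i n).toNat : ℤ) ≤ ((y ^ 2 : ℕ) : ℤ) := by
            rw [Int.toNat_of_nonneg (by linarith)]
            push_cast
            exact hn.2
          exact_mod_cast h8
      · intro n hn m hm hnm
        rw [mem_coe, mem_filter] at hn hm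
        have h7 := hb i n hn.1
        have h8 := hb i m hm.1
        have h9 : (LFo c h i n).toNat = (LFo c h i m).toNat := hnm
        have h10 : LFo c h i n = LFo c h i m := by omega
        unfold LFo at h10
        have h11 : c i * ((n : ℤ) - m) = 0 := by linarith
        rcases mul_eq_zero.1 h11 with h12 | h12
        · exact absurd h12 (hc i)
        · omega
    rwa [Nat.card_Icc, Nat.add_sub_cancel] at h6
  refine (sum_le_card_nsmul _ _ _ h5).trans (le_of_eq ?_)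
  rw [card_univ, Fintype.card_fin, smul_eq_mul]

lemma CS_bounds {k : ℕ} (c h : Fin k → ℤ) (hc : ∀ i, c i ≠ 0) (N₁ N₂ P : ℕ) (F : Finset ℕ) (hF : ∀ p ∈ F, p.Prime ∧ p ≤ P)
    (S : Fin k → Set ℕ) (hb : ∀ i, ∀ n ∈ Ioc N₁ N₂, 1 ≤ LFo c h i n) :
    cntE c (fun i => SF F (S i)) N₁ N₂ h ≤ CS c h S N₁ N₂ + k * P ^ 2 ∧
    CS c h S N₁ N₂ + cntE c (fun _ => F) N₁ N₂ h ≤ cntE c (fun i => SF F (S i)) N₁ N₂ h + CE c h N₁ N₂ + k * P ^ 2 := by
  classical
  have hPS : ∀ n ∈ Ioc N₁ N₂, ∀ (i : Fin k) (Q : Finset ℕ), PS Q (LFo c h i n).toNat ↔ ∃ g ∈ Q, ∃ q : ℕ, q.Prime ∧ LFo c h i n = g * q := by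
    intro n hn i Q
    unfold PS
    have h1 : (((LFo c h i n).toNat : ℕ) : ℤ) = LFo c h i n := Int.toNat_of_nonneg (by linarith [hb i n hn])
    constructor
    · rintro ⟨g, hg, q, hq, he⟩
      refine ⟨g, hg, q, hq, ?_⟩
      rw [← h1, he]
      push_cast
      rfl
    · rintro ⟨g, hg, q, hq, he⟩
      refine ⟨g, hg, q, hq, ?_⟩
      rw [← h1] at he
      exact_mod_cast he
  obtain ⟨A, hA⟩ : ∃ A : Finset ℕ, A = (Ioc N₁ N₂).filter (fun n : ℕ => n.Prime ∧ ∀ i, ∃ p q : ℕ, p.Prime ∧ q.Prime ∧ p ≤ q ∧ p ∈ S i ∧ LFo c h i n = p * q) := ⟨_, rfl⟩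
  obtain ⟨Bf, hBf⟩ : ∃ Bf : Finset ℕ, Bf = (Ioc N₁ N₂).filter (fun n => n.Prime ∧ ∀ i, PS ((fun _ => F) i) (LFo c h i n).toNat) := ⟨_, rfl⟩
  obtain ⟨A', hA'⟩ : ∃ A' : Finset ℕ, A' = (Ioc N₁ N₂).filter (fun n => n.Prime ∧ ∀ i, PS ((fun i => SF F (S i)) i) (LFo c h i n).toNat) := ⟨_, rfl⟩
  obtain ⟨T, hT⟩ : ∃ T : Finset ℕ, T = (Ioc N₁ N₂).filter (fun n : ℕ => n.Prime ∧ ∀ i, ∃ p q : ℕ, p.Prime ∧ q.Prime ∧ LFo c h i n = p * q) := ⟨_, rfl⟩
  obtain ⟨Sm, hSm⟩ : ∃ Sm : Finset ℕ, Sm = (univ : Finset (Fin k)).biUnion (fun i => (Ioc N₁ N₂).filter (fun n : ℕ => LFo c h i n ≤ (P : ℤ) ^ 2)) := ⟨_, rfl⟩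
  have cA : CS c h S N₁ N₂ = A.card := by rw [hA]; rfl
  have cB : cntE c (fun _ => F) N₁ N₂ h = Bf.card := by rw [hBf]; rfl
  have cA' : cntE c (fun i => SF F (S i)) N₁ N₂ h = A'.card := by rw [hA']; rfl
  have cT : CE c h N₁ N₂ = T.card := by rw [hT]; rfl
  have cS : Sm.card ≤ k * P ^ 2 := by rw [hSm]; exact small_card c h hc N₁ N₂ P hb
  rw [cA, cB, cA', cT]
  have hprod : ∀ g q : ℕ, g ≤ P → q ≤ P → ∀ v : ℤ, v = g * q → v ≤ (P : ℤ) ^ 2 := by
    intro g q hg hq v hv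
    have h1 : ((g * q : ℕ) : ℤ) ≤ ((P ^ 2 : ℕ) : ℤ) := by
      have : g * q ≤ P ^ 2 := by
        rw [pow_two]
        exact Nat.mul_le_mul hg hq
      exact_mod_cast this
    rw [hv]
    push_cast at h1
    exact h1
  constructor
  · have hsub : A' ⊆ A ∪ Sm := by
      intro n hn
      rw [hA', mem_filter] at hn
      obtain ⟨hn1, hn2, hn3⟩ := hn
      rw [mem_union]
      by_cases h3 : ∃ i, LFo c h i n ≤ (P : ℤ) ^ 2
      · right
        obtain ⟨i, hi⟩ := h3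
        rw [hSm, mem_biUnion]
        exact ⟨i, mem_univ _, mem_filter.2 ⟨hn1, hi⟩⟩
      · left
        push Not at h3
        rw [hA, mem_filter]
        refine ⟨hn1, hn2, fun i => ?_⟩
        obtain ⟨g, hg, q, hq, he⟩ := (hPS n hn1 i _).1 (hn3 i)
        have hg' := (mem_SF _ _ _).1 hg
        refine ⟨g, q, (hF g hg'.1).1, hq, ?_, hg'.2, he⟩
        by_contra hcon
        push Not at hcon
        have h4 := hprod g q (hF g hg'.1).2 (hcon.le.trans (hF g hg'.1).2) _ he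
        linarith [h3 i]
    have h1 := card_le_card hsub
    have h2 := card_union_le A Sm
    omega
  · have hsub1 : A ∪ Bf ⊆ T := by
      intro n hn
      rw [mem_union] at hn
      rcases hn with hn | hn
      · rw [hA, mem_filter] at hn
        obtain ⟨hn1, hn2, hn3⟩ := hn
        rw [hT, mem_filter]
        refine ⟨hn1, hn2, fun i => ?_⟩
        obtain ⟨p, q, hp, hq, _, _, he⟩ := hn3 i
        exact ⟨p, q, hp, hq, he⟩
      · rw [hBf, mem_filter] at hn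
        obtain ⟨hn1, hn2, hn3⟩ := hn
        rw [hT, mem_filter]
        refine ⟨hn1, hn2, fun i => ?_⟩
        obtain ⟨g, hg, q, hq, he⟩ := (hPS n hn1 i _).1 (hn3 i)
        exact ⟨g, q, (hF g hg).1, hq, he⟩
    have hsub2 : A ∩ Bf ⊆ A' ∪ Sm := by
      intro n hn
      rw [mem_inter, hA, hBf, mem_filter, mem_filter] at hn
      obtain ⟨⟨hn1, hn2, hn3⟩, _, _, hn4⟩ := hn
      rw [mem_union]
      by_cases h3 : ∃ i, LFo c h i n ≤ (P : ℤ) ^ 2
      · right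
        obtain ⟨i, hi⟩ := h3
        rw [hSm, mem_biUnion]
        exact ⟨i, mem_univ _, mem_filter.2 ⟨hn1, hi⟩⟩
      · left
        push Not at h3
        rw [hA', mem_filter]
        refine ⟨hn1, hn2, fun i => ?_⟩
        rw [hPS n hn1 i]
        obtain ⟨p, q, hp, hq, hpq, hpS, he⟩ := hn3 i
        obtain ⟨g, hg, r, hr, he'⟩ := (hPS n hn1 i _).1 (hn4 i)
        have hgp := (hF g hg).1
        have heN : p * q = g * r := by
          have : ((p * q : ℕ) : ℤ) = ((g * r : ℕ) : ℤ) := by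
            push_cast
            rw [← he, ← he']
          exact_mod_cast this
        have hdvd : p ∣ g * r := Dvd.intro _ heN
        rcases (Nat.Prime.dvd_mul hp).1 hdvd with h6 | h6
        · have h7 := (Nat.prime_dvd_prime_iff_eq hp hgp).1 h6
          refine ⟨p, (mem_SF _ _ _).2 ⟨by rw [h7]; exact hg, hpS⟩, q, hq, he⟩
        · exfalso
          have h7 := (Nat.prime_dvd_prime_iff_eq hp hr).1 h6
          rw [← h7, mul_comm g p] at heN
          have h8 := Nat.eq_of_mul_eq_mul_left hp.pos heN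
          rw [h8] at hpq he
          have h9 := hprod p g (hpq.trans (hF g hg).2) (hF g hg).2 _ he
          linarith [h3 i]
    have h1 := card_le_card hsub1
    have h2 := card_le_card hsub2
    have h3 := card_union_le A' Sm
    have h4 := card_union_add_card_inter A Bf
    omega

/-- the sum of the reciprocals of the primes of `S` up to `y` -/
noncomputable def sg (S : Set ℕ) (y : ℕ) : ℝ := ∑ p ∈ SF (pz y) S, 1 / (p : ℝ)

/-- the expected number -/
noncomputable def MS {k : ℕ} (c h : Fin k → ℤ) (S : Fin k → Set ℕ) (X N₁ N₂ : ℕ) : ℝ :=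
  singT c h * (∏ i, sg (S i) (Nat.sqrt X)) * ((N₂ : ℝ) - N₁) / Real.log X ^ (k + 1)

end Pool.Agent.H561.E3
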