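import Pool.Agent.H561.E3.K12

set_option autoImplicit false

/-! Several linear forms, products of exactly two primes with the smaller factors in arbitrary sets: the theorem. -/

namespace Pool.Agent.H561.E3

open Finset Filter Topology
open Pool.Agent.helper24_UT hiding om
open Pool.Agent.H373R2.T7 (pz mem_pz Vz Vz_pos)
open Pool.Agent.H561.E2

lemma cntE_mono {k : ℕ} (c h : Fin k → ℤ) (Q Q' : Fin k → Finset ℕ) (hQ : ∀ i, Q i ⊆ Q' i) (N₁ N₂ : ℕ) :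
    cntE c Q N₁ N₂ h ≤ cntE c Q' N₁ N₂ h := by
  classical
  unfold cntE
  apply card_le_card
  intro n hn
  rw [mem_filter] at hn ⊢
  refine ⟨hn.1, hn.2.1, fun i => ?_⟩
  obtain ⟨g, hg, q, hq, he⟩ := hn.2.2 i
  exact ⟨g, hQ i hg, q, hq, he⟩

/-- the real-number part of the theorem -/
lemma final_bd (W ℓ ε ε' t cs c1 c2 cF ce sm Pg Pr1 Pr2 : ℝ) (lk : ℝ) (hW : 0 ≤ W) (hlk : 0 ≤ lk) (ht : 1 ≤ t) (hε' : 0 ≤ ε')
    (h16 : 16 * (t * ε') ≤ ε) (h161 : 16 * (t * ε') ≤ 1)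
    (b1 : c1 ≤ cs + sm) (b2 : cs + cF ≤ c1 + ce + sm) (m1 : c1 ≤ c2) (hsm : sm ≤ ε' * (W * lk))
    (k1 : ce ≤ (1 + ε') * (W * lk)) (k2 : (1 - 2 * ε') * (W * lk) ≤ cF) (k3 : c2 ≤ (1 + ε') * (W * Pr2))
    (p1 : Pr2 ≤ Pg + 2 * ε' * lk) (p2 : Pr2 ≤ t * lk) (hcs : 0 ≤ cs)
    (q1 : Pg ≤ Pr1 + ε' * lk)
    (hc : (1 - ε') * (W * Pr1) ≤ c1 ∧ Pr1 ≤ t * lk ∨ Pr1 ≤ ε' * lk) :
    |cs - W * Pg| ≤ ε * (W * lk) := by
  obtain ⟨Q, hQ⟩ : ∃ Q, Q = W * lk := ⟨_, rfl⟩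
  have hQ0 : 0 ≤ Q := by rw [hQ]; exact mul_nonneg hW hlk
  rw [← hQ] at hsm k1 k2 ⊢
  have e1 : W * Pr2 ≤ W * Pg + 2 * ε' * Q := by
    have := mul_le_mul_of_nonneg_left p1 hW
    rw [hQ]
    linarith
  have e2 : W * Pr2 ≤ t * Q := by
    have := mul_le_mul_of_nonneg_left p2 hW
    rw [hQ]
    linarith
  have e3 : ε' * (W * Pr2) ≤ ε' * (t * Q) := mul_le_mul_of_nonneg_left e2 hε'
  have e4 : ε' * Q ≤ ε' * (t * Q) := by
    apply mul_le_mul_of_nonneg_left _ hε'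
    exact le_mul_of_one_le_left hQ0 ht
  have e5 : 16 * (ε' * (t * Q)) ≤ ε * Q := by
    have := mul_le_mul_of_nonneg_right h16 hQ0
    linarith
  have e6 : 0 ≤ ε' * Q := mul_nonneg hε' hQ0
  have f1 : W * Pg ≤ W * Pr1 + ε' * Q := by
    have := mul_le_mul_of_nonneg_left q1 hW
    rw [hQ]
    linarith
  rw [abs_le]
  constructor
  · rcases hc with ⟨h1, h2⟩ | h1
    · have g1 : W * Pr1 ≤ t * Q := by
        have := mul_le_mul_of_nonneg_left h2 hW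
        rw [hQ]
        linarith
      have g2 : ε' * (W * Pr1) ≤ ε' * (t * Q) := mul_le_mul_of_nonneg_left g1 hε'
      linarith
    · have g1 : W * Pr1 ≤ ε' * Q := by
        have := mul_le_mul_of_nonneg_left h1 hW
        rw [hQ]
        linarith
      linarith
  · linarith

open Classical in
/-- **Products of exactly two primes in almost all systems of linear forms at the primes of an interval, the smaller prime factors
in arbitrary sets.** -/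
theorem e2S (k : ℕ) (hk0 : 0 < k) (c : Fin k → ℤ) (hc : ∀ i, c i ≠ 0) (ε : ℝ) (hε : 0 < ε) : ∃ η : ℝ, 0 < η ∧ η ≤ 1 / 2 ∧ ∀ A B : ℕ, ∃ X₀ : ℕ,
    ∀ X : ℕ, X₀ ≤ X → ∀ N₁ N₂ : ℕ, N₁ < N₂ → N₂ ≤ X → X / (Real.log X) ^ B ≤ (N₂ : ℝ) - N₁ → ∀ (b : Fin k → ℤ) (H : ℕ),
    Real.exp ((Real.log X) ^ (1 - η)) ≤ H → (∀ i, ∀ n ∈ Ioc N₁ N₂, 1 ≤ c i * (n : ℤ) + b i ∧ c i * (n : ℤ) + b i + H ≤ X) →
    ∀ S : Fin k → Set ℕ,
    (((Fintype.piFinset (fun i : Fin k => Ico (b i) (b i + H))).filter (fun h => NDeg c h ∧ Adm c h ∧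
      ¬ |(CS c h S N₁ N₂ : ℝ) - MS c h S X N₁ N₂| ≤ ε * ME c h X N₁ N₂)).card : ℝ) ≤ (H : ℝ) ^ k / (Real.log X) ^ A := by
  have h3k : (1 : ℝ) ≤ 3 ^ k := one_le_pow₀ (by norm_num)
  have h3k0 : (0 : ℝ) < 3 ^ k := by positivity
  have hkr : (1 : ℝ) ≤ k := by exact_mod_cast hk0
  have hkr0 : (0 : ℝ) < k := by linarith
  obtain ⟨ε', hε'⟩ : ∃ ε' : ℝ, ε' = min ε 1 / (16 * 3 ^ k) := ⟨_, rfl⟩
  have hm0 : 0 < min ε 1 := lt_min hε one_pos
  have hε'0 : 0 < ε' := by rw [hε']; positivity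
  have hε'm : 16 * (3 ^ k * ε') = min ε 1 := by
    rw [hε']
    field_simp
  have hε'1 : 16 * (3 ^ k * ε') ≤ ε := by rw [hε'm]; exact min_le_left ε 1
  have hε'2 : 16 * (3 ^ k * ε') ≤ 1 := by rw [hε'm]; exact min_le_right ε 1
  have hε'3 : 16 * ε' ≤ 1 := by
    have : 1 * ε' ≤ 3 ^ k * ε' := mul_le_mul_of_nonneg_right h3k hε'0.le
    linarith
  obtain ⟨η₁, hη₁0, hη₁1, hE⟩ := e2K k hk0 c hc ε' hε'0
  obtain ⟨θ₀, hθ1, hθ2, hT⟩ := cntPK k hk0 c hc (fun U => err_bigK hk0 c hc U) ε' hε'0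
  obtain ⟨δ, hδ⟩ : ∃ δ : ℝ, δ = ε' / (k * 3 ^ k) := ⟨_, rfl⟩
  have hδ0 : 0 < δ := by rw [hδ]; positivity
  have hδe : k * (3 ^ k * δ) = ε' := by
    rw [hδ]
    field_simp
  have h3δ : 0 < 3 ^ k * δ := by positivity
  have hδ1 : 3 ^ k * δ ≤ ε' := by
    have : 1 * (3 ^ k * δ) ≤ k * (3 ^ k * δ) := mul_le_mul_of_nonneg_right hkr h3δ.le
    linarith
  have hδ2 : δ ≤ ε' := (le_mul_of_one_le_left hδ0.le h3k).trans hδ1
  have hkδ : k * δ ≤ ε' := by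
    have h1 : k * δ ≤ k * (3 ^ k * δ) := mul_le_mul_of_nonneg_left (le_mul_of_one_le_left hδ0.le h3k) hkr0.le
    linarith
  obtain ⟨η₂, hη₂⟩ : ∃ η₂ : ℝ, η₂ = δ / 2 := ⟨_, rfl⟩
  have hη₂0 : 0 < η₂ := by rw [hη₂]; positivity
  have hη₂1 : η₂ ≤ 1 / 2 := by rw [hη₂]; linarith
  have hη₂2 : 2 * η₂ = δ := by rw [hη₂]; ring
  refine ⟨min η₁ (η₂ / 2), lt_min hη₁0 (by positivity), (min_le_left _ _).trans hη₁1, fun A B => ?_⟩
  obtain ⟨X₁, hE⟩ := hE (A + 2) B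
  obtain ⟨a₀, hT⟩ := hT (A + 2) B
  obtain ⟨a, ha⟩ : ∃ a, a = max a₀ 1 := ⟨_, rfl⟩
  have ha0 : a₀ ≤ a := by rw [ha]; exact le_max_left _ _
  have ha1 : 1 ≤ a := by rw [ha]; exact le_max_right _ _
  obtain ⟨G, X₂, hT⟩ := hT a ha0
  obtain ⟨X₃, hme⟩ := mertE a ha1 η₂ hη₂0 hη₂1
  rw [hη₂2] at hme
  obtain ⟨κ, hκ, hsl⟩ := sing_lower c hc
  have hlogt : Tendsto (fun X : ℕ => Real.log (X : ℝ)) atTop atTop := Real.tendsto_log_atTop.comp tendsto_natCast_atTop_atTop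
  have hlogG : ∀ᶠ x : ℝ in atTop, (G : ℝ) * Real.log x ≤ x ^ (1 - η₂) := by
    have h2 := (isLittleO_log_rpow_atTop (show 0 < 1 - η₂ by linarith)).def (show 0 < 1 / ((G : ℝ) + 1) by positivity)
    filter_upwards [h2, eventually_ge_atTop 1] with x hx hx1
    have hx0 : 0 < x := by linarith
    rw [Real.norm_eq_abs, Real.norm_eq_abs, abs_of_nonneg (Real.log_nonneg hx1), abs_of_nonneg (by positivity), div_mul_eq_mul_div, one_mul,
      le_div_iff₀ (by positivity)] at hx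
    have := Real.log_nonneg hx1
    linarith
  have hpow2 : ∀ᶠ x : ℝ in atTop, (2 : ℝ) ≤ x ^ (η₂ / 2) := (tendsto_rpow_atTop (show 0 < η₂ / 2 by positivity)).eventually (eventually_ge_atTop 2)
  have hℓδ := loglog_tendsto.eventually (eventually_ge_atTop (max 1 (1 / δ)))
  obtain ⟨X₄, hX₄⟩ := Filter.eventually_atTop.1 ((Sil2.ev_log 1000).and ((hlogt.eventually hlogG).and ((hlogt.eventually hpow2).and
    (hℓδ.and (Sil2.ev_pow (B + k + 1) (1 / 2) (k / (ε' * κ)) (by norm_num))))))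
  obtain ⟨X₅, hX₅⟩ := ev_exp η₂ hη₂0 (by linarith) θ₀ hθ1
  obtain ⟨X₆, hX₆⟩ := ev_exp η₂ hη₂0 (by linarith) (1 / 4) (by norm_num)
  refine ⟨max (max X₁ X₂) (max (max X₃ (max X₅ X₆)) (max X₄ 3)), fun X hX N₁ N₂ hN12 hN2 hNB b H hH hb S => ?_⟩
  have hX1 : X₁ ≤ X := ((le_max_left _ _).trans (le_max_left _ _)).trans hX
  have hX2 : X₂ ≤ X := ((le_max_right _ _).trans (le_max_left _ _)).trans hX
  have hX3 : X₃ ≤ X := (((le_max_left _ _).trans (le_max_left _ _)).trans (le_max_right _ _)).trans hX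
  have hXθ := hX₅ X (((((le_max_left _ _).trans (le_max_right _ _)).trans (le_max_left _ _)).trans (le_max_right _ _)).trans hX)
  have hXq := hX₆ X (((((le_max_right _ _).trans (le_max_right _ _)).trans (le_max_left _ _)).trans (le_max_right _ _)).trans hX)
  have hX4 : X₄ ≤ X := (((le_max_left _ _).trans (le_max_right _ _)).trans (le_max_right _ _)).trans hX
  have hX5 : 3 ≤ X := (((le_max_right _ _).trans (le_max_right _ _)).trans (le_max_right _ _)).trans hX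
  obtain ⟨hL, hLG, hL2, hℓδ', hpw⟩ := hX₄ X hX4
  obtain ⟨P, z, hP, hz, hP1, hzP, hPQ, hℓ2, hσ1, hσ2, hrest⟩ := hme X hX3
  have hT := hT X hX2
  obtain ⟨L, hLd⟩ : ∃ L, L = Real.log (X : ℝ) := ⟨_, rfl⟩
  have hH₁ : Real.exp (L ^ (1 - η₁)) ≤ H := by
    refine le_trans (Real.exp_le_exp.2 ?_) hH
    rw [← hLd]
    apply Real.rpow_le_rpow_of_exponent_le (by rw [hLd]; linarith)
    have := min_le_left η₁ (η₂ / 2)
    linarith
  have hH₂ : Real.exp (L ^ (1 - η₂ / 2)) ≤ H := by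
    refine le_trans (Real.exp_le_exp.2 ?_) hH
    rw [← hLd]
    apply Real.rpow_le_rpow_of_exponent_le (by rw [hLd]; linarith)
    have := min_le_right η₁ (η₂ / 2)
    linarith
  have hE := hE X hX1 N₁ N₂ hN12 hN2 hNB b H (by rw [← hLd]; exact hH₁) hb
  rw [← hLd] at hL hz hP hLG hL2 hXθ hXq hℓδ' hpw hℓ2 hσ1 hσ2 hrest hNB hT hE ⊢
  obtain ⟨ℓ, hℓ⟩ : ∃ ℓ, ℓ = Real.log L := ⟨_, rfl⟩
  rw [← hℓ] at hLG hℓδ' hℓ2 hσ1 hσ2 hrest
  have hL1 : 1 ≤ L := by linarith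
  have hL0 : 0 < L := by linarith
  have hXR : (3 : ℝ) ≤ X := by exact_mod_cast hX5
  have hX0 : (0 : ℝ) < X := by linarith
  have hX1r : (1 : ℝ) ≤ X := by linarith
  obtain ⟨D, hD⟩ : ∃ D : ℝ, D = (N₂ : ℝ) - N₁ := ⟨_, rfl⟩
  rw [← hD] at hNB
  have hD0 : 0 < D := lt_of_lt_of_le (by positivity) hNB
  have hℓ0 : 0 < ℓ := by linarith
  have hδℓ : 1 ≤ δ * ℓ := by
    have h1 := (le_max_right _ _).trans hℓδ'
    rw [div_le_iff₀ hδ0] at h1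
    linarith
  -- the set of the primes
  obtain ⟨F, hF⟩ : ∃ F : Finset ℕ, F = pz P \ pz z := ⟨_, rfl⟩
  have hFp : ∀ p ∈ F, p.Prime ∧ L ^ a < p ∧ p ≤ P := by
    intro p hp
    rw [hF, Finset.mem_sdiff] at hp
    obtain ⟨hp1, hp2⟩ := hp
    have hp' := (mem_pz.1 hp1).2
    refine ⟨hp', ?_, ?_⟩
    · have h1 : ¬ p ≤ z := fun hcon => hp2 (mem_pz.2 ⟨hcon, hp'⟩)
      rw [hz] at h1
      by_contra hcon
      push Not at hcon
      exact h1 (Nat.le_floor hcon)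
    · exact (mem_pz.1 hp1).1
  obtain ⟨σ, hσ⟩ : ∃ σ : ℝ, σ = ∑ p ∈ F, 1 / (p : ℝ) := ⟨_, rfl⟩
  have hσe : σ = ∑ p ∈ pz P, 1 / (p : ℝ) - ∑ p ∈ pz z, 1 / (p : ℝ) := by
    have h1 := sum_sdiff (f := fun p : ℕ => 1 / (p : ℝ)) (pz_mono hzP)
    rw [hσ, hF]
    linarith
  rw [← hσe] at hσ1 hσ2
  have hFQ : F ⊆ pz (Nat.sqrt X) := by
    rw [hF]
    exact Finset.sdiff_subset.trans (pz_mono hPQ)
  have hRest : ∑ g ∈ pz (Nat.sqrt X) \ F, 1 / (g : ℝ) ≤ δ * ℓ := by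
    refine le_trans ?_ hrest
    have h1 := sum_sdiff (f := fun p : ℕ => 1 / (p : ℝ)) (pz_mono hPQ)
    have h2 : ∑ p ∈ pz (Nat.sqrt X), 1 / (p : ℝ) - ∑ p ∈ pz P, 1 / (p : ℝ) = ∑ p ∈ pz (Nat.sqrt X) \ pz P, 1 / (p : ℝ) := by linarith
    rw [h2]
    have h3 : pz (Nat.sqrt X) \ F ⊆ pz z ∪ (pz (Nat.sqrt X) \ pz P) := by
      intro p hp
      rw [Finset.mem_sdiff, hF, Finset.mem_sdiff] at hp
      rw [mem_union, Finset.mem_sdiff]
      by_cases h4 : p ∈ pz P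
      · left
        by_contra h5
        exact hp.2 ⟨h4, h5⟩
      · exact Or.inr ⟨hp.1, h4⟩
    refine (sum_le_sum_of_subset_of_nonneg h3 (fun p _ _ => by positivity)).trans ?_
    have h4 : Disjoint (pz z) (pz (Nat.sqrt X) \ pz P) := by
      rw [Finset.disjoint_left]
      intro p hp hp'
      rw [Finset.mem_sdiff] at hp'
      exact hp'.2 (pz_mono hzP hp)
    rw [sum_union h4]
  have hLB : 1 ≤ L ^ B := one_le_pow₀ hL1
  have hBδ : 1 / L ^ B ≤ δ * ℓ := by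
    refine le_trans ?_ hδℓ
    rw [div_le_iff₀ (by positivity)]
    linarith
  obtain ⟨Λ, hΛ⟩ : ∃ Λ : ℝ, Λ = L ^ (1 - η₂) := ⟨_, rfl⟩
  rw [← hΛ] at hP hLG hXθ hXq
  have hPe : (P : ℝ) ≤ Real.exp Λ := by rw [hP]; exact Nat.floor_le (Real.exp_pos _).le
  have hPθ : (P : ℝ) ≤ (X : ℝ) ^ θ₀ := by
    refine hPe.trans ?_
    rw [← Real.exp_log (show 0 < (X : ℝ) ^ θ₀ by positivity), Real.log_rpow hX0, ← hLd]
    exact Real.exp_le_exp.2 hXθ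
  have hPq : (P : ℝ) ≤ (X : ℝ) ^ (1 / 4 : ℝ) := by
    refine hPe.trans ?_
    rw [← Real.exp_log (show 0 < (X : ℝ) ^ (1 / 4 : ℝ) by positivity), Real.log_rpow hX0, ← hLd]
    exact Real.exp_le_exp.2 hXq
  have hΛ0 : 0 < Λ := by rw [hΛ]; positivity
  have hPH : P * L ^ G ≤ (H : ℝ) := by
    have h1 : L ^ G = Real.exp (G * ℓ) := by
      rw [hℓ, mul_comm, Real.exp_mul, Real.exp_log hL0, Real.rpow_natCast]
    calc P * L ^ G ≤ Real.exp Λ * Real.exp Λ := by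
          rw [h1]
          exact mul_le_mul hPe (Real.exp_le_exp.2 hLG) (Real.exp_pos _).le (Real.exp_pos _).le
      _ = Real.exp (Λ * 2) := by rw [← Real.exp_add]; congr 1; ring
      _ ≤ Real.exp (L ^ (1 - η₂ / 2)) := by
          apply Real.exp_le_exp.2
          have h2 : L ^ (1 - η₂ / 2) = Λ * L ^ (η₂ / 2) := by
            rw [hΛ, ← Real.rpow_add hL0]
            congr 1
            ring
          rw [h2]
          exact mul_le_mul_of_nonneg_left hL2 hΛ0.le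
      _ ≤ H := hH₂
  -- the three families of sets
  obtain ⟨S1, hS1⟩ : ∃ S1 : Fin k → Finset ℕ, ∀ i, S1 i = SF F (S i) := ⟨_, fun _ => rfl⟩
  have hS1F : ∀ i, S1 i ⊆ F := by
    intro i p hp
    rw [hS1, mem_SF] at hp
    exact hp.1
  obtain ⟨E, hEF, hE1, hE2⟩ := exists_sub F (fun p => 1 / (p : ℝ)) (fun p hp => by
    show 1 / (p : ℝ) ≤ 1
    have h1 : (1 : ℝ) ≤ p := by exact_mod_cast (hFp p hp).1.one_le
    rw [div_le_one (by linarith)]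
    exact h1) (δ * ℓ) (by positivity) (by
      rw [← hσ]
      refine le_trans ?_ hσ1
      apply mul_le_mul_of_nonneg_right _ hℓ0.le
      linarith)
  obtain ⟨S2, hS2⟩ : ∃ S2 : Fin k → Finset ℕ, ∀ i, S2 i = S1 i ∪ E := ⟨_, fun _ => rfl⟩
  have hS2F : ∀ i, S2 i ⊆ F := by
    intro i
    rw [hS2]
    exact union_subset (hS1F i) hEF
  obtain ⟨S3, hS3F, hS3s, hS3c⟩ : ∃ S3 : Fin k → Finset ℕ, (∀ i, S3 i ⊆ F) ∧ (∀ i, δ * ℓ ≤ ∑ p ∈ S3 i, 1 / (p : ℝ)) ∧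
      (S3 = S1 ∨ ∃ j, ∑ p ∈ S1 j, 1 / (p : ℝ) ≤ δ * ℓ) := by
    by_cases h : ∀ i, δ * ℓ ≤ ∑ p ∈ S1 i, 1 / (p : ℝ)
    · exact ⟨S1, hS1F, h, Or.inl rfl⟩
    · push Not at h
      obtain ⟨j, hj⟩ := h
      exact ⟨S2, hS2F, fun i => by
        rw [hS2]
        exact hE1.trans (sum_le_sum_of_subset_of_nonneg subset_union_right (fun p _ _ => by positivity)), Or.inr ⟨j, hj.le⟩⟩
  obtain ⟨BX, hBX⟩ : ∃ BX : Finset (Fin k → ℤ), BX = Fintype.piFinset (fun i : Fin k => Ico (b i) (b i + H)) := ⟨_, rfl⟩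
  have hkey : ∀ Q : Fin k → Finset ℕ, (∀ i, Q i ⊆ F) → (∀ i, δ * ℓ ≤ ∑ p ∈ Q i, 1 / (p : ℝ)) →
      ((BX.filter (fun h => NDeg c h ∧ Adm c h ∧
      ¬ (Multipliable (fun p : ℕ => if p.Prime then lf c h p else 1) ∧ |(cntE c Q N₁ N₂ h : ℝ) - Mn c Q N₁ N₂ h / L ^ (k + 1)| ≤
      ε' * (Mn c Q N₁ N₂ h / L ^ (k + 1))))).card : ℝ) ≤ (H : ℝ) ^ k / L ^ (A + 2) := by
    intro Q hQF hQs
    rw [hBX]
    exact hT P hP1 hPθ Q (fun i p hp => hFp p (hQF i hp)) (fun i => hBδ.trans (hQs i)) H hPH N₁ N₂ b hN12 hN2 (by rw [← hD]; exact hNB) hb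
  have hkF := hkey (fun _ => F) (fun _ => Finset.Subset.refl _) (fun _ => by
    rw [← hσ]
    refine le_trans ?_ hσ1
    apply mul_le_mul_of_nonneg_right _ hℓ0.le
    linarith)
  have hk2 := hkey S2 hS2F (fun i => by
    rw [hS2]
    exact hE1.trans (sum_le_sum_of_subset_of_nonneg subset_union_right (fun p _ _ => by positivity)))
  have hk3 := hkey S3 hS3F hS3s
  obtain ⟨BF, hBF⟩ : ∃ BF : Finset (Fin k → ℤ), BF = BX.filter (fun h => NDeg c h ∧ Adm c h ∧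
      ¬ (Multipliable (fun p : ℕ => if p.Prime then lf c h p else 1) ∧ |(cntE c (fun _ => F) N₁ N₂ h : ℝ) - Mn c (fun _ => F) N₁ N₂ h / L ^ (k + 1)| ≤
      ε' * (Mn c (fun _ => F) N₁ N₂ h / L ^ (k + 1)))) := ⟨_, rfl⟩
  obtain ⟨B2, hB2⟩ : ∃ B2 : Finset (Fin k → ℤ), B2 = BX.filter (fun h => NDeg c h ∧ Adm c h ∧
      ¬ (Multipliable (fun p : ℕ => if p.Prime then lf c h p else 1) ∧ |(cntE c S2 N₁ N₂ h : ℝ) - Mn c S2 N₁ N₂ h / L ^ (k + 1)| ≤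
      ε' * (Mn c S2 N₁ N₂ h / L ^ (k + 1)))) := ⟨_, rfl⟩
  obtain ⟨B3, hB3⟩ : ∃ B3 : Finset (Fin k → ℤ), B3 = BX.filter (fun h => NDeg c h ∧ Adm c h ∧
      ¬ (Multipliable (fun p : ℕ => if p.Prime then lf c h p else 1) ∧ |(cntE c S3 N₁ N₂ h : ℝ) - Mn c S3 N₁ N₂ h / L ^ (k + 1)| ≤
      ε' * (Mn c S3 N₁ N₂ h / L ^ (k + 1)))) := ⟨_, rfl⟩
  obtain ⟨BE, hBE⟩ : ∃ BE : Finset (Fin k → ℤ), BE = BX.filter (fun h => NDeg c h ∧ Adm c h ∧
      ¬ |(CE c h N₁ N₂ : ℝ) - ME c h X N₁ N₂| ≤ ε' * ME c h X N₁ N₂) := ⟨_, rfl⟩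
  have hcE : (BE.card : ℝ) ≤ (H : ℝ) ^ k / L ^ (A + 2) := by
    rw [hBE, hBX]
    exact hE
  rw [← hBF] at hkF
  rw [← hB2] at hk2
  rw [← hB3] at hk3
  rw [← hBX]
  have hsub : (BX.filter (fun h => NDeg c h ∧ Adm c h ∧
      ¬ |(CS c h S N₁ N₂ : ℝ) - MS c h S X N₁ N₂| ≤ ε * ME c h X N₁ N₂)) ⊆ (BF ∪ B2) ∪ (B3 ∪ BE) := by
    intro h hh
    rw [mem_filter] at hh
    obtain ⟨hh1, hh2, hh3, hh4⟩ := hh
    by_contra hcon
    rw [mem_union, mem_union, mem_union] at hcon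
    push Not at hcon
    obtain ⟨⟨n1, n2⟩, n3, n4⟩ := hcon
    have g1 : Multipliable (fun p : ℕ => if p.Prime then lf c h p else 1) ∧ |(cntE c (fun _ => F) N₁ N₂ h : ℝ) - Mn c (fun _ => F) N₁ N₂ h / L ^ (k + 1)| ≤
      ε' * (Mn c (fun _ => F) N₁ N₂ h / L ^ (k + 1)) := by
      by_contra hc1
      apply n1
      rw [hBF, mem_filter]
      exact ⟨hh1, hh2, hh3, hc1⟩
    have g2 : Multipliable (fun p : ℕ => if p.Prime then lf c h p else 1) ∧ |(cntE c S2 N₁ N₂ h : ℝ) - Mn c S2 N₁ N₂ h / L ^ (k + 1)| ≤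
      ε' * (Mn c S2 N₁ N₂ h / L ^ (k + 1)) := by
      by_contra hc1
      apply n2
      rw [hB2, mem_filter]
      exact ⟨hh1, hh2, hh3, hc1⟩
    have g3 : Multipliable (fun p : ℕ => if p.Prime then lf c h p else 1) ∧ |(cntE c S3 N₁ N₂ h : ℝ) - Mn c S3 N₁ N₂ h / L ^ (k + 1)| ≤
      ε' * (Mn c S3 N₁ N₂ h / L ^ (k + 1)) := by
      by_contra hc1
      apply n3
      rw [hB3, mem_filter]
      exact ⟨hh1, hh2, hh3, hc1⟩
    have g4 : |(CE c h N₁ N₂ : ℝ) - ME c h X N₁ N₂| ≤ ε' * ME c h X N₁ N₂ := by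
      by_contra hc1
      apply n4
      rw [hBE, mem_filter]
      exact ⟨hh1, hh2, hh3, hc1⟩
    apply hh4
    obtain ⟨hmul, g1⟩ := g1
    have g2 := g2.2
    have g3 := g3.2
    have hbh : ∀ i, ∀ n ∈ Ioc N₁ N₂, 1 ≤ LFo c h i n := by
      intro i n hn
      have h1 := hb i n hn
      rw [hBX] at hh1
      have h2 := mem_Ico.1 ((Fintype.mem_piFinset.1 hh1) i)
      unfold LFo
      linarith [h1.1, h2.1]
    obtain ⟨b1, b2⟩ := CS_bounds c h hc N₁ N₂ P F (fun p hp => ⟨(hFp p hp).1, (hFp p hp).2.2⟩) S hbh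
    have hS1e : (fun i => SF F (S i)) = S1 := by
      funext i
      exact (hS1 i).symm
    rw [hS1e] at b1 b2
    have m1 := cntE_mono c h S1 S2 (fun i => by rw [hS2]; exact subset_union_left) N₁ N₂
    obtain ⟨𝔖, h𝔖⟩ : ∃ 𝔖, 𝔖 = singT c h := ⟨_, rfl⟩
    have hs : κ ≤ 𝔖 := by rw [h𝔖]; exact hsl _ hmul hh3
    have h𝔖0 : 0 < 𝔖 := by linarith
    obtain ⟨W, hW⟩ : ∃ W : ℝ, W = 𝔖 / L ^ (k + 1) * D := ⟨_, rfl⟩
    have hW0 : 0 < W := by rw [hW]; positivity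
    have hMn : ∀ Q : Fin k → Finset ℕ, Mn c Q N₁ N₂ h / L ^ (k + 1) = W * ∏ i, ∑ p ∈ Q i, 1 / (p : ℝ) := by
      intro Q
      unfold Mn
      rw [← h𝔖, ← hD, hW]
      ring
    rw [hMn] at g1 g2 g3
    have e0 : ME c h X N₁ N₂ = W * ℓ ^ k := by
      unfold ME
      rw [← h𝔖, ← hLd, ← hℓ, ← hD, hW]
      ring
    have e1 : MS c h S X N₁ N₂ = W * ∏ i, sg (S i) (Nat.sqrt X) := by
      unfold MS
      rw [← h𝔖, ← hLd, ← hD, hW]
      ring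
    rw [e0] at g4
    rw [e0, e1]
    -- sums
    have hσ2ℓ : σ ≤ 2 * ℓ := by
      have : (1 + δ) * ℓ ≤ 2 * ℓ := mul_le_mul_of_nonneg_right (by linarith) hℓ0.le
      linarith
    have hs0 : ∀ Q : Finset ℕ, 0 ≤ ∑ p ∈ Q, 1 / (p : ℝ) := fun Q => sum_nonneg fun p _ => by positivity
    have hsF : ∀ Q : Finset ℕ, Q ⊆ F → ∑ p ∈ Q, 1 / (p : ℝ) ≤ 2 * ℓ := by
      intro Q hQ
      refine le_trans ?_ hσ2ℓ
      rw [hσ]
      exact sum_le_sum_of_subset_of_nonneg hQ (fun p _ _ => by positivity)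
    have hsg1 : ∀ i, ∑ p ∈ S1 i, 1 / (p : ℝ) ≤ sg (S i) (Nat.sqrt X) := by
      intro i
      unfold sg
      apply sum_le_sum_of_subset_of_nonneg _ (fun p _ _ => by positivity)
      intro p hp
      rw [hS1, mem_SF] at hp
      rw [mem_SF]
      exact ⟨hFQ hp.1, hp.2⟩
    have hsg2 : ∀ i, sg (S i) (Nat.sqrt X) ≤ ∑ p ∈ S1 i, 1 / (p : ℝ) + δ * ℓ := by
      intro i
      have h1 : sg (S i) (Nat.sqrt X) ≤ ∑ p ∈ S1 i ∪ (pz (Nat.sqrt X) \ F), 1 / (p : ℝ) := by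
        unfold sg
        apply sum_le_sum_of_subset_of_nonneg _ (fun p _ _ => by positivity)
        intro p hp
        rw [mem_SF] at hp
        rw [mem_union, Finset.mem_sdiff, hS1, mem_SF]
        by_cases h4 : p ∈ F
        · exact Or.inl ⟨h4, hp.2⟩
        · exact Or.inr ⟨hp.1, h4⟩
      have h2 : Disjoint (S1 i) (pz (Nat.sqrt X) \ F) := by
        rw [Finset.disjoint_left]
        intro p hp hp'
        rw [Finset.mem_sdiff] at hp'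
        exact hp'.2 (hS1F i hp)
      rw [sum_union h2] at h1
      linarith
    have hsgu : ∀ i, sg (S i) (Nat.sqrt X) ≤ 2 * ℓ := by
      intro i
      have h1 : ∑ p ∈ S1 i, 1 / (p : ℝ) ≤ σ := by
        rw [hσ]
        exact sum_le_sum_of_subset_of_nonneg (hS1F i) (fun p _ _ => by positivity)
      have h2 : (1 + δ) * ℓ + δ * ℓ ≤ 2 * ℓ := by
        have : (1 + δ + δ) * ℓ ≤ 2 * ℓ := mul_le_mul_of_nonneg_right (by linarith) hℓ0.le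
        linarith
      linarith [hsg2 i]
    have hsg0 : ∀ i, 0 ≤ sg (S i) (Nat.sqrt X) := fun i => (hs0 _).trans (hsg1 i)
    have hσ2i : ∀ i, ∑ p ∈ S2 i, 1 / (p : ℝ) ≤ sg (S i) (Nat.sqrt X) + (2 * δ) * ℓ := by
      intro i
      rw [hS2]
      have h1 : ∑ p ∈ S1 i ∪ E, 1 / (p : ℝ) ≤ ∑ p ∈ S1 i, 1 / (p : ℝ) + ∑ p ∈ E, 1 / (p : ℝ) := by
        have h2 := sum_union_inter (s₁ := S1 i) (s₂ := E) (f := fun p : ℕ => 1 / (p : ℝ))
        have h3 := hs0 (S1 i ∩ E)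
        linarith
      have h2 := hsg1 i
      linarith
    have e3 : (3 * ℓ) ^ k = 3 ^ k * ℓ ^ k := mul_pow _ _ _
    have hlk : 0 < ℓ ^ k := by positivity
    -- the four products
    have p1 : ∏ i, ∑ p ∈ S2 i, 1 / (p : ℝ) ≤ ∏ i, sg (S i) (Nat.sqrt X) + 2 * ε' * ℓ ^ k := by
      have h1 : ∏ i, ∑ p ∈ S2 i, 1 / (p : ℝ) ≤ ∏ i, (sg (S i) (Nat.sqrt X) + (2 * δ) * ℓ) :=
        prod_le_prod (fun i _ => hs0 _) (fun i _ => hσ2i i)
      have h2 := prod_add_bd (univ : Finset (Fin k)) (fun i => sg (S i) (Nat.sqrt X)) ℓ (2 * δ) hℓ0.le (by positivity) (by linarith)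
        (fun i _ => ⟨hsg0 i, hsgu i⟩)
      rw [card_univ, Fintype.card_fin, e3] at h2
      have h3 : (k : ℝ) * (2 * δ) * (3 ^ k * ℓ ^ k) = 2 * (k * (3 ^ k * δ)) * ℓ ^ k := by ring
      rw [h3, hδe] at h2
      exact h1.trans h2
    have p2 : ∏ i, ∑ p ∈ S2 i, 1 / (p : ℝ) ≤ 3 ^ k * ℓ ^ k := by
      rw [← e3]
      calc ∏ i, ∑ p ∈ S2 i, 1 / (p : ℝ) ≤ ∏ _i : Fin k, (3 * ℓ) := prod_le_prod (fun i _ => hs0 _) (fun i _ => by
            have := hsF _ (hS2F i)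
            linarith)
        _ = (3 * ℓ) ^ k := by rw [prod_const, card_univ, Fintype.card_fin]
    have p3 : ∏ i, ∑ p ∈ S1 i, 1 / (p : ℝ) ≤ 3 ^ k * ℓ ^ k := by
      rw [← e3]
      calc ∏ i, ∑ p ∈ S1 i, 1 / (p : ℝ) ≤ ∏ _i : Fin k, (3 * ℓ) := prod_le_prod (fun i _ => hs0 _) (fun i _ => by
            have := hsF _ (hS1F i)
            linarith)
        _ = (3 * ℓ) ^ k := by rw [prod_const, card_univ, Fintype.card_fin]
    have q1 : ∏ i, sg (S i) (Nat.sqrt X) ≤ ∏ i, ∑ p ∈ S1 i, 1 / (p : ℝ) + ε' * ℓ ^ k := by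
      have h1 : ∏ i, sg (S i) (Nat.sqrt X) ≤ ∏ i, (∑ p ∈ S1 i, 1 / (p : ℝ) + δ * ℓ) :=
        prod_le_prod (fun i _ => hsg0 i) (fun i _ => hsg2 i)
      have h2 := prod_add_bd (univ : Finset (Fin k)) (fun i => ∑ p ∈ S1 i, 1 / (p : ℝ)) ℓ δ hℓ0.le hδ0.le (by linarith)
        (fun i _ => ⟨hs0 _, hsF _ (hS1F i)⟩)
      rw [card_univ, Fintype.card_fin, e3] at h2
      have h3 : (k : ℝ) * δ * (3 ^ k * ℓ ^ k) = (k * (3 ^ k * δ)) * ℓ ^ k := by ring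
      rw [h3, hδe] at h2
      exact h1.trans h2
    -- small values
    have hsm : ((k * P ^ 2 : ℕ) : ℝ) ≤ ε' * (W * ℓ ^ k) := by
      have h2 : (P : ℝ) ^ 2 ≤ (X : ℝ) ^ (1 / 2 : ℝ) := by
        calc (P : ℝ) ^ 2 ≤ ((X : ℝ) ^ (1 / 4 : ℝ)) ^ 2 := by gcongr
          _ = (X : ℝ) ^ (1 / 4 * 2 : ℝ) := by rw [← Real.rpow_natCast, ← Real.rpow_mul hX0.le]; norm_num
          _ ≤ _ := Real.rpow_le_rpow_of_exponent_le hX1r (by norm_num)
      have h3 : ((k * P ^ 2 : ℕ) : ℝ) ≤ k * (X : ℝ) ^ (1 / 2 : ℝ) := by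
        push_cast
        exact mul_le_mul_of_nonneg_left h2 hkr0.le
      have h4 : k * (X : ℝ) ^ (1 / 2 : ℝ) ≤ ε' * (κ * (X / L ^ (B + k + 1))) := by
        have h5 : X = (X : ℝ) ^ (1 / 2 : ℝ) * (X : ℝ) ^ (1 / 2 : ℝ) := by
          rw [← Real.rpow_add hX0]
          norm_num
        have h6 : k * L ^ (B + k + 1) ≤ (X : ℝ) ^ (1 / 2 : ℝ) * (ε' * κ) := by
          rw [div_mul_eq_mul_div, div_le_iff₀ (by positivity)] at hpw
          exact hpw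
        have h7 : ε' * (κ * (X / L ^ (B + k + 1))) = (ε' * κ * X) / L ^ (B + k + 1) := by ring
        rw [h7, le_div_iff₀ (by positivity)]
        calc k * (X : ℝ) ^ (1 / 2 : ℝ) * L ^ (B + k + 1) = (X : ℝ) ^ (1 / 2 : ℝ) * (k * L ^ (B + k + 1)) := by ring
          _ ≤ (X : ℝ) ^ (1 / 2 : ℝ) * ((X : ℝ) ^ (1 / 2 : ℝ) * (ε' * κ)) := mul_le_mul_of_nonneg_left h6 (by positivity)
          _ = ε' * κ * ((X : ℝ) ^ (1 / 2 : ℝ) * (X : ℝ) ^ (1 / 2 : ℝ)) := by ring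
          _ = ε' * κ * X := by rw [← h5]
      have h5 : κ * (X / L ^ (B + k + 1)) ≤ W := by
        rw [hW]
        calc κ * (X / L ^ (B + k + 1)) = κ / L ^ (k + 1) * (X / L ^ B) := by
              rw [show B + k + 1 = B + (k + 1) by ring, pow_add]
              field_simp
          _ ≤ 𝔖 / L ^ (k + 1) * D := by gcongr
      have h6 : W ≤ W * ℓ ^ k := le_mul_of_one_le_right hW0.le (one_le_pow₀ (by linarith))
      refine h3.trans (h4.trans ?_)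
      exact mul_le_mul_of_nonneg_left (h5.trans h6) hε'0.le
    obtain ⟨s1, s2⟩ := abs_le.1 g1
    obtain ⟨s3, s4⟩ := abs_le.1 g2
    obtain ⟨s5, s6⟩ := abs_le.1 g3
    obtain ⟨s7, s8⟩ := abs_le.1 g4
    have hσk : (1 - ε') * ℓ ^ k ≤ ∏ _i : Fin k, ∑ p ∈ F, 1 / (p : ℝ) := by
      rw [prod_const, card_univ, Fintype.card_fin, ← hσ]
      calc (1 - ε') * ℓ ^ k ≤ (1 - k * δ) * ℓ ^ k := mul_le_mul_of_nonneg_right (by linarith) hlk.le
        _ ≤ (1 - δ) ^ k * ℓ ^ k := mul_le_mul_of_nonneg_right (one_sub_pow k δ hδ0.le (by linarith)) hlk.le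
        _ = ((1 - δ) * ℓ) ^ k := (mul_pow _ _ _).symm
        _ ≤ σ ^ k := pow_le_pow_left₀ (mul_nonneg (by linarith) hℓ0.le) hσ1 k
    have k2 : (1 - 2 * ε') * (W * ℓ ^ k) ≤ (cntE c (fun _ => F) N₁ N₂ h : ℝ) := by
      have h1 : (1 - ε') * (W * ((1 - ε') * ℓ ^ k)) ≤ (1 - ε') * (W * ∏ _i : Fin k, ∑ p ∈ F, 1 / (p : ℝ)) := by
        apply mul_le_mul_of_nonneg_left _ (by linarith)
        exact mul_le_mul_of_nonneg_left hσk hW0.le
      have h2 : (1 - ε') * (W * ((1 - ε') * ℓ ^ k)) = (1 - 2 * ε') * (W * ℓ ^ k) + ε' * ε' * (W * ℓ ^ k) := by ring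
      have h3 : 0 ≤ ε' * ε' * (W * ℓ ^ k) := by positivity
      linarith
    apply final_bd W ℓ ε ε' (3 ^ k) (CS c h S N₁ N₂) (cntE c S1 N₁ N₂ h) (cntE c S2 N₁ N₂ h) (cntE c (fun _ => F) N₁ N₂ h)
      (CE c h N₁ N₂) ((k * P ^ 2 : ℕ) : ℝ) (∏ i, sg (S i) (Nat.sqrt X)) (∏ i, ∑ p ∈ S1 i, 1 / (p : ℝ)) (∏ i, ∑ p ∈ S2 i, 1 / (p : ℝ)) (ℓ ^ k)
      hW0.le hlk.le h3k hε'0.le hε'1 hε'2
    · exact_mod_cast b1
    · exact_mod_cast b2
    · exact_mod_cast m1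
    · exact hsm
    · linarith
    · exact k2
    · linarith
    · exact p1
    · exact p2
    · exact Nat.cast_nonneg _
    · exact q1
    · rcases hS3c with h5 | ⟨j, hj⟩
      · left
        rw [h5] at s5
        exact ⟨by linarith, p3⟩
      · right
        have h6 : ∏ i, ∑ p ∈ S1 i, 1 / (p : ℝ) ≤ ∏ i : Fin k, ((2 * ℓ) * (if i = j then δ else 1)) := by
          apply prod_le_prod (fun i _ => hs0 _)
          intro i _
          split_ifs with h7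
          · rw [h7]
            have : δ * ℓ ≤ 2 * ℓ * δ := by
              have : 0 ≤ δ * ℓ := by positivity
              linarith
            linarith
          · rw [mul_one]
            exact hsF _ (hS1F i)
        rw [prod_mul_distrib, prod_const, card_univ, Fintype.card_fin, prod_ite_eq' univ j (fun _ => δ), if_pos (mem_univ j)] at h6
        have h7 : (2 * ℓ) ^ k * δ ≤ (3 * ℓ) ^ k * δ := by
          apply mul_le_mul_of_nonneg_right _ hδ0.le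
          exact pow_le_pow_left₀ (by positivity) (by linarith) k
        rw [e3] at h7
        have h8 : 3 ^ k * ℓ ^ k * δ = (3 ^ k * δ) * ℓ ^ k := by ring
        have h9 : (3 ^ k * δ) * ℓ ^ k ≤ ε' * ℓ ^ k := mul_le_mul_of_nonneg_right hδ1 hlk.le
        linarith
  have hcard : ((BX.filter (fun h => NDeg c h ∧ Adm c h ∧
      ¬ |(CS c h S N₁ N₂ : ℝ) - MS c h S X N₁ N₂| ≤ ε * ME c h X N₁ N₂)).card : ℝ) ≤ BF.card + B2.card + (B3.card + BE.card) := by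
    have h1 := card_le_card hsub
    have h2 := card_union_le (BF ∪ B2) (B3 ∪ BE)
    have h3 := card_union_le BF B2
    have h4 := card_union_le B3 BE
    have h5 : (BX.filter (fun h => NDeg c h ∧ Adm c h ∧
      ¬ |(CS c h S N₁ N₂ : ℝ) - MS c h S X N₁ N₂| ≤ ε * ME c h X N₁ N₂)).card ≤ BF.card + B2.card + (B3.card + BE.card) := by omega
    exact_mod_cast h5
  have hfin : 4 * ((H : ℝ) ^ k / L ^ (A + 2)) ≤ (H : ℝ) ^ k / L ^ A := by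
    rw [pow_add]
    have h1 : (4 : ℝ) ≤ L ^ 2 := by nlinarith
    rw [← mul_div_assoc, div_le_div_iff₀ (by positivity) (by positivity)]
    have h2 : (0 : ℝ) ≤ (H : ℝ) ^ k * L ^ A := by positivity
    nlinarith
  linarith

end Pool.Agent.H561.E3
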