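import Pool.Agent.H561.E2.T9

set_option autoImplicit false

/-! Numbers of primes `n` with all `n + d_i` products of two primes, with a log-power saving: one cell. -/

namespace Pool.Agent.H561.E3

open Finset Filter Topology
open Pool.Agent.helper24_UT
open Pool.Agent.H373R2.T7 (pz mem_pz Vz Vz_pos Vz_inv_small lamz)
open Pool.Agent.H561.E2

/-- the elements `s` of `S` with `⌊R log s⌋ = j` -/
noncomputable def SJ (S : Finset ℕ) (R : ℝ) (j : ℕ) : Finset ℕ := S.filter (fun s => ⌊R * Real.log s⌋₊ = j)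

lemma num2 (l u δ : ℝ) (hl : 1 ≤ l) (hu : 1 ≤ u) (h : |u - l| ≤ δ) : |1 - u / l| ≤ δ ∧ |1 / u - 1 / l| ≤ δ := by
  have hl0 : 0 < l := by linarith
  have hu0 : 0 < u := by linarith
  have hδ0 : 0 ≤ δ := (abs_nonneg _).trans h
  constructor
  · have e : 1 - u / l = (l - u) / l := by rw [sub_div, div_self hl0.ne']
    rw [e, abs_div, abs_of_pos hl0, div_le_iff₀ hl0, abs_sub_comm]
    calc |u - l| ≤ δ := h
      _ ≤ δ * l := le_mul_of_one_le_right hδ0 hl
  · have e : 1 / u - 1 / l = (l - u) / (u * l) := by field_simp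
    rw [e, abs_div, abs_of_pos (mul_pos hu0 hl0), div_le_iff₀ (mul_pos hu0 hl0), abs_sub_comm]
    calc |u - l| ≤ δ := h
      _ ≤ δ * (u * l) := le_mul_of_one_le_right hδ0 (one_le_mul_of_one_le_of_one_le hu hl)

/-- the density of the products of an element of `S` and a prime at `n + d` -/
noncomputable def hh (S : Finset ℕ) (d : ℤ) (n : ℕ) : ℝ :=
  ∑ s ∈ S, if 2 * (s : ℤ) ≤ n + d then 1 / ((s : ℝ) * Real.log (((n : ℝ) + d) / s)) else 0

/-- its approximation in a cell -/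
noncomputable def GG (S : Finset ℕ) (R : ℝ) (m₀ : ℕ) : ℝ :=
  ∑ s ∈ S, 1 / (s : ℝ) * (1 / (Real.log (m₀ : ℝ) - (⌊R * Real.log s⌋₊ : ℝ) / R))

/-- the weight in a cell -/
noncomputable def bb (S : Finset ℕ) (R : ℝ) (J m₀ : ℕ) (d : ℤ) (n : ℕ) : ℝ :=
  ∑ j ∈ range J, be (SJ S R j) ((n : ℤ) + d).toNat * (1 / (Real.log (m₀ : ℝ) - (j : ℝ) / R))

/-- the exceptional integers -/
def Bad1 (S : Finset ℕ) (d : ℤ) (n : ℕ) : Prop := ∃ g ∈ S, g ∣ ((n : ℤ) + d).toNat ∧
    ArithmeticFunction.vonMangoldt (((n : ℤ) + d).toNat / g) ≠ 0 ∧ ¬ (((n : ℤ) + d).toNat / g).Prime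

lemma hlog (Δ : ℕ) (δ : ℝ) (a n : ℕ) (ha : 1 ≤ a) (han : a < n) (hn : (n : ℝ) ≤ a + Δ) (hΔ : (Δ : ℝ) ≤ δ * a) :
    Real.log a ≤ Real.log n ∧ Real.log n ≤ Real.log a + δ := by
  have ha' : (0 : ℝ) < a := by exact_mod_cast ha
  have han' : (a : ℝ) < n := by exact_mod_cast han
  have hn0 : (0 : ℝ) < n := by linarith
  constructor
  · exact Real.log_le_log ha' han'.le
  · have h1 : Real.log (n / a) ≤ n / a - 1 := Real.log_le_sub_one_of_pos (by positivity)
    rw [Real.log_div hn0.ne' ha'.ne'] at h1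
    have h2 : (n : ℝ) / a - 1 ≤ δ := by
      rw [sub_le_iff_le_add, div_le_iff₀ ha']
      linarith
    linarith

open Classical in
/-- one factor -/
theorem fac (S : Finset ℕ) (U : ℕ) (hS : ∀ s ∈ S, s.Prime ∧ s ≤ U) (R δ L : ℝ) (J t Δ m₀ : ℕ) (d : ℤ) (hd : (m₀ : ℤ) = t + d)
    (hR : 0 < R) (hRδ : 1 / R ≤ δ) (hδ0 : 0 ≤ δ) (hδ1 : δ ≤ 1 / 4) (hm0 : 1 ≤ m₀) (hU : U * U < m₀)
    (hU2 : ∀ s ∈ S, Real.log s + 2 ≤ Real.log m₀) (hΔm : (Δ : ℝ) ≤ δ * m₀)
    (hJ : ∀ s ∈ S, ⌊R * Real.log s⌋₊ < J) (hL' : Real.log (m₀ + Δ : ℕ) ≤ L) (hL1 : 1 ≤ L) :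
    (∀ n ∈ Ioc t (t + Δ), ¬ Bad1 S d n → (PS S ((n : ℤ) + d).toNat → |1 - bb S R J m₀ d n| ≤ δ) ∧
      (¬ PS S ((n : ℤ) + d).toNat → bb S R J m₀ d n = 0)) ∧
    (∀ n ∈ Ioc t (t + Δ), 0 ≤ bb S R J m₀ d n ∧ bb S R J m₀ d n ≤ 2 * L ^ 2 * J) ∧
    (∀ n ∈ Ioc t (t + Δ), 0 ≤ hh S d n ∧ hh S d n ≤ ∑ s ∈ S, 1 / (s : ℝ) ∧ |hh S d n - GG S R m₀| ≤ δ * ∑ s ∈ S, 1 / (s : ℝ)) ∧
    (0 ≤ GG S R m₀ ∧ GG S R m₀ ≤ ∑ s ∈ S, 1 / (s : ℝ)) ∧
    GG S R m₀ = ∑ j ∈ range J, (∑ s ∈ SJ S R j, 1 / (s : ℝ)) * (1 / (Real.log (m₀ : ℝ) - (j : ℝ) / R)) ∧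
    ∀ j, (SJ S R j).Nonempty → 1 ≤ Real.log (m₀ : ℝ) - (j : ℝ) / R := by
  obtain ⟨φ, hφ⟩ : ∃ φ : ℕ → ℕ, φ = fun n : ℕ => ((n : ℤ) + d).toNat := ⟨_, rfl⟩
  have hφn : ∀ n : ℕ, ((n : ℤ) + d).toNat = φ n := fun n => by rw [hφ]
  have hmR : (1 : ℝ) ≤ m₀ := by exact_mod_cast hm0
  have hφc : ∀ n ∈ Ioc t (t + Δ), ((φ n : ℕ) : ℤ) = n + d ∧ m₀ < φ n ∧ φ n ≤ m₀ + Δ := by
    intro n hn
    rw [mem_Ioc] at hn
    have h1 : ((φ n : ℕ) : ℤ) = n + d := by
      rw [hφ]
      apply Int.toNat_of_nonneg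
      have : (t : ℤ) < n := by exact_mod_cast hn.1
      have : (1 : ℤ) ≤ m₀ := by exact_mod_cast hm0
      linarith
    refine ⟨h1, ?_, ?_⟩
    · have : (m₀ : ℤ) < φ n := by
        rw [h1, hd]
        have : (t : ℤ) < n := by exact_mod_cast hn.1
        linarith
      exact_mod_cast this
    · have : ((φ n : ℕ) : ℤ) ≤ (m₀ + Δ : ℕ) := by
        rw [h1]
        push_cast
        rw [hd]
        have : (n : ℤ) ≤ t + Δ := by exact_mod_cast hn.2
        linarith
      exact_mod_cast this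
  obtain ⟨lam, hlam⟩ : ∃ lam : ℕ → ℝ, lam = fun j : ℕ => Real.log (m₀ : ℝ) - (j : ℝ) / R := ⟨_, rfl⟩
  have hlamj : ∀ j : ℕ, Real.log (m₀ : ℝ) - (j : ℝ) / R = lam j := fun j => by rw [hlam]
  -- the index of an element of S
  have hidx : ∀ s ∈ S, (⌊R * Real.log s⌋₊ : ℝ) / R ≤ Real.log s ∧ Real.log s ≤ (⌊R * Real.log s⌋₊ : ℝ) / R + δ := by
    intro s hs
    have h0 : 0 ≤ R * Real.log s := mul_nonneg hR.le (Real.log_nonneg (by exact_mod_cast (hS s hs).1.one_le))
    have h1 := Nat.floor_le h0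
    have h2 := (Nat.lt_floor_add_one (R * Real.log s)).le
    constructor
    · rw [div_le_iff₀ hR]
      linarith
    · have h3 : Real.log s ≤ ((⌊R * Real.log s⌋₊ : ℝ) + 1) / R := by
        rw [le_div_iff₀ hR]
        linarith
      rw [add_div] at h3
      linarith
  have hlam2 : ∀ s ∈ S, 2 ≤ lam ⌊R * Real.log s⌋₊ := by
    intro s hs
    have h1 := (hidx s hs).1
    have h2 := hU2 s hs
    rw [← hlamj]
    linarith
  have hu : ∀ n ∈ Ioc t (t + Δ), ∀ s ∈ S, 1 ≤ Real.log (φ n) - Real.log s ∧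
      |(Real.log (φ n) - Real.log s) - lam ⌊R * Real.log s⌋₊| ≤ δ := by
    intro n hn s hs
    obtain ⟨g1, g2, g3⟩ := hφc n hn
    have h2 := hlog Δ δ m₀ (φ n) hm0 g2 (by exact_mod_cast g3) hΔm
    have h3 := hidx s hs
    have h5 := hU2 s hs
    constructor
    · linarith [h2.1]
    · rw [← hlamj, abs_le]
      constructor <;> linarith [h2.1, h2.2, h3.1, h3.2]
  have hnum : ∀ n ∈ Ioc t (t + Δ), ∀ s ∈ S,
      |1 - (Real.log (φ n) - Real.log s) / lam ⌊R * Real.log s⌋₊| ≤ δ ∧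
      |1 / (Real.log (φ n) - Real.log s) - 1 / lam ⌊R * Real.log s⌋₊| ≤ δ := fun n hn s hs =>
    num2 _ _ δ (by linarith [hlam2 s hs]) (hu n hn s hs).1 (hu n hn s hs).2
  have hSJ : ∀ j, ∀ g ∈ SJ S R j, g ∈ S ∧ ⌊R * Real.log g⌋₊ = j := by
    intro j g hg
    unfold SJ at hg
    rwa [mem_filter] at hg
  have hne : ∀ j, (SJ S R j).Nonempty → 2 ≤ lam j := by
    rintro j ⟨g, hg⟩
    obtain ⟨h1, h2⟩ := hSJ j g hg
    rw [← h2]
    exact hlam2 g h1
  have hbe0 : ∀ j, ∀ n, be (SJ S R j) n ≠ 0 → 2 ≤ lam j := by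
    intro j n hne'
    unfold be at hne'
    obtain ⟨g, hg, _⟩ := exists_ne_zero_of_sum_ne_zero hne'
    exact hne j ⟨g, hg⟩
  have hσ0 : 0 ≤ ∑ s ∈ S, 1 / (s : ℝ) := sum_nonneg fun _ _ => by positivity
  refine ⟨?_, ?_, ?_, ?_, ?_, ?_⟩
  · intro n hn n2
    obtain ⟨g1, g2, g3⟩ := hφc n hn
    unfold Bad1 at n2
    rw [hφn] at n2
    unfold bb
    rw [hφn]
    simp only [hlamj]
    constructor
    · rintro ⟨s, hs, q, hq, hm⟩
      have hsp := (hS s hs).1
      have hqU : U < q := by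
        by_contra hcon
        push Not at hcon
        have h1 : s * q ≤ U * U := Nat.mul_le_mul (hS s hs).2 hcon
        omega
      have hlogq : Real.log q = Real.log (φ n) - Real.log s := by
        rw [hm]
        push_cast
        rw [Real.log_mul (by exact_mod_cast hsp.pos.ne') (by exact_mod_cast hq.pos.ne')]
        ring
      have hj0 : ⌊R * Real.log s⌋₊ ∈ range J := mem_range.2 (hJ s hs)
      rw [sum_eq_single_of_mem _ hj0]
      · have hsmem : s ∈ SJ S R ⌊R * Real.log s⌋₊ := by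
          unfold SJ
          rw [mem_filter]
          exact ⟨hs, rfl⟩
        rw [be_one (SJ S R ⌊R * Real.log s⌋₊) (fun g hg => (hS g (hSJ _ g hg).1).1) (φ n) s q hsmem hq hm
          (fun g' hg' => lt_of_le_of_lt (hS g' (hSJ _ g' hg').1).2 hqU), hlogq, mul_one_div]
        exact (hnum n hn s hs).1
      · intro j _ hj
        have h0 : be (SJ S R j) (φ n) = 0 := by
          unfold be
          apply sum_eq_zero
          intro g hg
          obtain ⟨hgS, hgj⟩ := hSJ j g hg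
          rw [if_neg]
          intro hdv
          rw [hm] at hdv
          rcases ((hS g hgS).1.dvd_mul).1 hdv with h1 | h1
          · have := (Nat.prime_dvd_prime_iff_eq (hS g hgS).1 hsp).1 h1
            subst this
            exact hj hgj.symm
          · have := (Nat.prime_dvd_prime_iff_eq (hS g hgS).1 hq).1 h1
            have := (hS g hgS).2
            omega
        rw [h0, zero_mul]
    · intro hc
      apply sum_eq_zero
      intro j _
      have h0 : be (SJ S R j) (φ n) = 0 := by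
        unfold be
        apply sum_eq_zero
        intro g hg
        obtain ⟨hgS, _⟩ := hSJ j g hg
        split_ifs with hdv
        · by_contra hcon
          apply hc
          refine ⟨g, hgS, φ n / g, ?_, (Nat.mul_div_cancel' hdv).symm⟩
          by_contra hcon2
          exact n2 ⟨g, hgS, hdv, hcon, hcon2⟩
        · rfl
      rw [h0, zero_mul]
  · intro n hn
    obtain ⟨g1, g2, g3⟩ := hφc n hn
    have hlogφ : Real.log (φ n) ≤ L := by
      refine le_trans ?_ hL'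
      apply Real.log_le_log (by exact_mod_cast (by omega : 0 < φ n))
      exact_mod_cast g3
    have hterm : ∀ j ∈ range J, 0 ≤ be (SJ S R j) (φ n) * (1 / lam j) ∧
        be (SJ S R j) (φ n) * (1 / lam j) ≤ 2 * L ^ 2 := by
      intro j _
      by_cases hb : be (SJ S R j) (φ n) = 0
      · rw [hb, zero_mul]
        exact ⟨le_rfl, by positivity⟩
      · have h1 := hbe0 j (φ n) hb
        have h2 := be_le (SJ S R j) (fun g hg => (hS g (hSJ _ g hg).1).1) (φ n) (by omega) L hlogφ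
        have h4 := be_nonneg (SJ S R j) (φ n)
        have h3 : 1 ≤ lam j := by linarith
        constructor
        · positivity
        · rw [mul_one_div]
          exact (div_le_self h4 h3).trans h2
    unfold bb
    rw [hφn]
    simp only [hlamj]
    constructor
    · exact sum_nonneg fun j hj => (hterm j hj).1
    · have := sum_le_card_nsmul _ _ _ (fun j hj => (hterm j hj).2)
      rw [card_range, nsmul_eq_mul] at this
      linarith
  · intro n hn
    obtain ⟨g1, g2, g3⟩ := hφc n hn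
    have hφ0 : (0 : ℝ) < φ n := by exact_mod_cast (by omega : 0 < φ n)
    have e2 : ((n : ℝ) + d) = φ n := by
      have : (((φ n : ℕ) : ℤ) : ℝ) = ((n : ℤ) + d : ℤ) := by rw [g1]
      push_cast at this
      exact this.symm
    have hhe : hh S d n = ∑ s ∈ S, 1 / (s : ℝ) * (1 / (Real.log (φ n) - Real.log s)) := by
      unfold hh
      apply sum_congr rfl
      intro s hs
      have hsp := (hS s hs).1
      have hs0 : (0 : ℝ) < s := by exact_mod_cast hsp.pos
      have h2 : 2 * (s : ℤ) ≤ n + d := by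
        rw [← g1]
        have h3 : s * 2 ≤ U * U := Nat.mul_le_mul (hS s hs).2 (hsp.two_le.trans (hS s hs).2)
        have h4 : 2 * s ≤ φ n := by omega
        exact_mod_cast h4
      rw [if_pos h2, e2, Real.log_div hφ0.ne' hs0.ne', one_div_mul_one_div]
    rw [hhe]
    refine ⟨?_, ?_, ?_⟩
    · apply sum_nonneg
      intro s hs
      have := (hu n hn s hs).1
      have : 0 ≤ 1 / (Real.log (φ n) - Real.log s) := div_nonneg zero_le_one (by linarith)
      positivity
    · apply sum_le_sum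
      intro s hs
      have h1 := (hu n hn s hs).1
      have h2 : 1 / (Real.log (φ n) - Real.log s) ≤ 1 := by
        rw [div_le_one (by linarith)]
        exact h1
      exact mul_le_of_le_one_right (by positivity) h2
    · unfold GG
      simp only [hlamj]
      rw [← sum_sub_distrib, mul_sum]
      refine (abs_sum_le_sum_abs _ _).trans ?_
      apply sum_le_sum
      intro s hs
      rw [← mul_sub, abs_mul, abs_of_nonneg (by positivity : 0 ≤ 1 / (s : ℝ)), mul_comm]
      exact mul_le_mul_of_nonneg_right (hnum n hn s hs).2 (by positivity)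
  · unfold GG
    simp only [hlamj]
    constructor
    · apply sum_nonneg
      intro s hs
      have := hlam2 s hs
      have : 0 ≤ 1 / lam ⌊R * Real.log s⌋₊ := div_nonneg zero_le_one (by linarith)
      positivity
    · apply sum_le_sum
      intro s hs
      have h1 := hlam2 s hs
      have h2 : 1 / lam ⌊R * Real.log s⌋₊ ≤ 1 := by
        rw [div_le_one (by linarith)]
        linarith
      exact mul_le_of_le_one_right (by positivity) h2
  · unfold GG
    rw [← sum_fiberwise_of_maps_to (s := S) (t := range J) (g := fun s : ℕ => ⌊R * Real.log s⌋₊) (fun s hs => mem_range.2 (hJ s hs))]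
    apply sum_congr rfl
    intro j _
    rw [sum_mul]
    unfold SJ
    apply sum_congr rfl
    intro s hs
    rw [mem_filter] at hs
    rw [hs.2]
  · intro j hj
    rw [hlamj]
    linarith [hne j hj]

end Pool.Agent.H561.E3
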