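import Pool.Agent.H561.E3.K14

set_option autoImplicit false

/-! Numbers of primes `n` with all `n + h_i` products of two primes: one cell, several factors. -/

namespace Pool.Agent.H561.E3

open Finset Filter Topology
open Pool.Agent.helper24_UT
open Pool.Agent.H373R2.T7 (pz mem_pz Vz Vz_pos Vz_inv_small lamz)
open Pool.Agent.H561.E2

open Classical in
/-- the integers counted -/
noncomputable def indk {k : ℕ} (S : Fin k → Finset ℕ) (h : Fin k → ℤ) (n : ℕ) : ℝ :=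
  if n.Prime ∧ ∀ i, PS (S i) ((n : ℤ) + h i).toNat then 1 else 0

/-- the density -/
noncomputable def ggk {k : ℕ} (S : Fin k → Finset ℕ) (h : Fin k → ℤ) (n : ℕ) : ℝ := (∏ i, hh (S i) (h i) n) / Real.log n

/-- the exceptional integers -/
def BadK {k : ℕ} (S : Fin k → Finset ℕ) (h : Fin k → ℤ) (n : ℕ) : Prop :=
  (ArithmeticFunction.vonMangoldt n ≠ 0 ∧ ¬ n.Prime) ∨ ∃ i, Bad1 (S i) (h i) n

lemma prod_near {ι : Type*} (T : Finset ι) (x : ι → ℝ) (δ : ℝ) (h0 : 0 ≤ δ) (h1 : δ ≤ 1) (hx : ∀ i ∈ T, |1 - x i| ≤ δ) :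
    |1 - ∏ i ∈ T, x i| ≤ (2 ^ T.card - 1) * δ := by
  classical
  induction T using Finset.induction_on with
  | empty => simp
  | insert a T ha ih =>
    rw [prod_insert ha, card_insert_of_notMem ha]
    have h2 := ih (fun i hi => hx i (mem_insert_of_mem hi))
    have h3 := hx a (mem_insert_self _ _)
    have e1 : 1 - x a * ∏ i ∈ T, x i = (1 - x a) + x a * (1 - ∏ i ∈ T, x i) := by ring
    rw [e1]
    refine (abs_add_le _ _).trans ?_
    rw [abs_mul]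
    have h4 : |x a| ≤ 2 := by
      obtain ⟨h5, h6⟩ := abs_le.1 h3
      rw [abs_le]
      constructor <;> linarith
    have h5 : |x a| * |1 - ∏ i ∈ T, x i| ≤ 2 * ((2 ^ T.card - 1) * δ) := mul_le_mul h4 h2 (abs_nonneg _) (by norm_num)
    calc |1 - x a| + |x a| * |1 - ∏ i ∈ T, x i| ≤ δ + 2 * ((2 ^ T.card - 1) * δ) := add_le_add h3 h5
      _ = (2 ^ (T.card + 1) - 1) * δ := by ring

open Classical in
/-- one cell -/
theorem cellk {k : ℕ} (S : Fin k → Finset ℕ) (U : ℕ) (hS : ∀ i, ∀ s ∈ S i, s.Prime ∧ s ≤ U) (R δ L : ℝ) (J t Δ : ℕ)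
    (m₀ : Fin k → ℕ) (h : Fin k → ℤ) (hd : ∀ i, (m₀ i : ℤ) = t + h i)
    (hR : 0 < R) (hRδ : 1 / R ≤ δ) (hδ0 : 0 ≤ δ) (hδ1 : δ ≤ 1 / 4) (ht0 : 1 ≤ t) (hm0 : ∀ i, 1 ≤ m₀ i) (hU : ∀ i, U * U < m₀ i)
    (hU2 : ∀ i, ∀ s ∈ S i, Real.log s + 2 ≤ Real.log (m₀ i)) (ht : 1 ≤ Real.log t) (hΔt : (Δ : ℝ) ≤ δ * t)
    (hΔm : ∀ i, (Δ : ℝ) ≤ δ * m₀ i) (hJ : ∀ i, ∀ s ∈ S i, ⌊R * Real.log s⌋₊ < J) (hL : Real.log (t + Δ : ℕ) ≤ L)
    (hL' : ∀ i, Real.log (m₀ i + Δ : ℕ) ≤ L) (hL1 : 1 ≤ L) (B : ℝ) (hB : 1 ≤ B) (hσ : ∀ i, ∑ s ∈ S i, 1 / (s : ℝ) ≤ B)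
    (sg err bad : ℝ) (hsg0 : 0 ≤ sg) (herr0 : 0 ≤ err)
    (herr : ∀ j : Fin k → ℕ, (∀ i, j i < J) →
      |∑ n ∈ Ioc t (t + Δ), ArithmeticFunction.vonMangoldt n * ∏ i, be (SJ (S i) R (j i)) ((n : ℤ) + h i).toNat -
      sg * (∏ i, ∑ s ∈ SJ (S i) R (j i), 1 / (s : ℝ)) * Δ| ≤ err)
    (hbad : (((Ioc t (t + Δ)).filter (fun n => BadK S h n)).card : ℝ) ≤ bad) :
    |∑ n ∈ Ioc t (t + Δ), (indk S h n - sg * ggk S h n)| ≤
      2 ^ (k + 1) * δ * Δ + bad * (1 + L * (2 * L ^ 2 * J) ^ k) + J ^ k * err + sg * ((k + 1) * B ^ (k + 1) * δ) * Δ := by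
  have hf := fun i => fac (S i) U (hS i) R δ L J t Δ (m₀ i) (h i) (hd i) hR hRδ hδ0 hδ1 (hm0 i) (hU i) (hU2 i) (hΔm i) (hJ i) (hL' i) hL1
  obtain ⟨ℓ, hℓ⟩ : ∃ ℓ, ℓ = Real.log (t : ℝ) := ⟨_, rfl⟩
  rw [← hℓ] at ht
  have hℓ0 : 0 < ℓ := by linarith
  have hlogn : ∀ n ∈ Ioc t (t + Δ), 1 ≤ Real.log n ∧ |Real.log n - ℓ| ≤ δ := by
    intro n hn
    rw [mem_Ioc] at hn
    have h1 := hlog Δ δ t n ht0 hn.1 (by exact_mod_cast hn.2) hΔt
    rw [← hℓ] at h1
    constructor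
    · linarith [h1.1]
    · rw [abs_le]
      constructor <;> linarith [h1.1, h1.2]
  obtain ⟨r, hr⟩ : ∃ r : ℕ → ℝ, r = fun n => ArithmeticFunction.vonMangoldt n / ℓ * ∏ i, bb (S i) R J (m₀ i) (h i) n := ⟨_, rfl⟩
  have hgood : ∀ n ∈ Ioc t (t + Δ), ¬ BadK S h n → |indk S h n - r n| ≤ 2 ^ (k + 1) * δ := by
    intro n hn hnb
    unfold BadK at hnb
    rw [not_or] at hnb
    obtain ⟨n1, n2⟩ := hnb
    have n2' : ∀ i, ¬ Bad1 (S i) (h i) n := fun i hi => n2 ⟨i, hi⟩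
    unfold indk
    by_cases hc : n.Prime ∧ ∀ i, PS (S i) ((n : ℤ) + h i).toNat
    · rw [if_pos hc, hr]
      simp only
      rw [ArithmeticFunction.vonMangoldt_apply_prime hc.1]
      have h1 := prod_near univ (fun i => bb (S i) R J (m₀ i) (h i) n) δ hδ0 (by linarith)
        (fun i _ => (((hf i).1 n hn (n2' i)).1 (hc.2 i)))
      rw [card_univ, Fintype.card_fin] at h1
      have h2 := (num2 ℓ (Real.log n) δ ht (hlogn n hn).1 (hlogn n hn).2).1
      have e1 : 1 - Real.log n / ℓ * ∏ i, bb (S i) R J (m₀ i) (h i) n =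
          (1 - Real.log n / ℓ) + Real.log n / ℓ * (1 - ∏ i, bb (S i) R J (m₀ i) (h i) n) := by ring
      rw [e1]
      refine (abs_add_le _ _).trans ?_
      rw [abs_mul]
      have h4 : |Real.log n / ℓ| ≤ 2 := by
        obtain ⟨h5, h6⟩ := abs_le.1 h2
        rw [abs_le]
        constructor <;> linarith
      have h5 : |Real.log n / ℓ| * |1 - ∏ i, bb (S i) R J (m₀ i) (h i) n| ≤ 2 * ((2 ^ k - 1) * δ) :=
        mul_le_mul h4 h1 (abs_nonneg _) (by norm_num)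
      have e2 : (2 : ℝ) ^ (k + 1) * δ = δ + 2 * ((2 ^ k - 1) * δ) + δ := by ring
      rw [e2]
      linarith
    · rw [if_neg hc]
      have hrn : r n = 0 := by
        rw [hr]
        simp only
        by_cases hΛ : ArithmeticFunction.vonMangoldt n = 0
        · rw [hΛ, zero_div, zero_mul]
        · have hnp : n.Prime := by
            by_contra hcon
            exact n1 ⟨hΛ, hcon⟩
          have h1 : ¬ ∀ i, PS (S i) ((n : ℤ) + h i).toNat := fun hcon => hc ⟨hnp, hcon⟩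
          push Not at h1
          obtain ⟨i, hi⟩ := h1
          rw [prod_eq_zero (mem_univ i) (((hf i).1 n hn (n2' i)).2 hi), mul_zero]
      rw [hrn, sub_zero, abs_zero]
      positivity
  have hany : ∀ n ∈ Ioc t (t + Δ), |indk S h n - r n| ≤ 1 + L * (2 * L ^ 2 * J) ^ k := by
    intro n hn
    have hn' := hn
    rw [mem_Ioc] at hn'
    have hn1 : 1 ≤ n := by omega
    have hi0 : 0 ≤ indk S h n ∧ indk S h n ≤ 1 := by
      unfold indk
      split_ifs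
      · exact ⟨zero_le_one, le_rfl⟩
      · exact ⟨le_rfl, zero_le_one⟩
    have hΛ : ArithmeticFunction.vonMangoldt n ≤ L := by
      refine ArithmeticFunction.vonMangoldt_le_log.trans (le_trans ?_ hL)
      apply Real.log_le_log (by exact_mod_cast hn1)
      exact_mod_cast hn'.2
    have hΛ0 : 0 ≤ ArithmeticFunction.vonMangoldt n := ArithmeticFunction.vonMangoldt_nonneg
    have h1 : ArithmeticFunction.vonMangoldt n / ℓ ≤ L := (div_le_self hΛ0 ht).trans hΛ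
    have h2 : 0 ≤ ∏ i, bb (S i) R J (m₀ i) (h i) n := prod_nonneg fun i _ => ((hf i).2.1 n hn).1
    have h3 : ∏ i, bb (S i) R J (m₀ i) (h i) n ≤ (2 * L ^ 2 * J) ^ k := by
      calc ∏ i, bb (S i) R J (m₀ i) (h i) n ≤ ∏ _i : Fin k, (2 * L ^ 2 * J) :=
            prod_le_prod (fun i _ => ((hf i).2.1 n hn).1) (fun i _ => ((hf i).2.1 n hn).2)
        _ = _ := by rw [prod_const, card_univ, Fintype.card_fin]
    have hr0 : 0 ≤ r n := by
      rw [hr]
      simp only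
      exact mul_nonneg (div_nonneg hΛ0 hℓ0.le) h2
    have hr1 : r n ≤ L * (2 * L ^ 2 * J) ^ k := by
      rw [hr]
      exact mul_le_mul h1 h3 h2 (by linarith)
    rw [abs_le]
    constructor <;> linarith [hi0.1, hi0.2]
  have hX0 : 0 ≤ 1 + L * (2 * L ^ 2 * J) ^ k := by positivity
  have hs1 : |∑ n ∈ Ioc t (t + Δ), (indk S h n - r n)| ≤ 2 ^ (k + 1) * δ * Δ + bad * (1 + L * (2 * L ^ 2 * J) ^ k) := by
    refine (abs_sum_le_sum_abs _ _).trans ?_
    have h1 : ∀ n ∈ Ioc t (t + Δ), |indk S h n - r n| ≤ 2 ^ (k + 1) * δ + if BadK S h n then (1 + L * (2 * L ^ 2 * J) ^ k) else 0 := by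
      intro n hn
      by_cases hb : BadK S h n
      · rw [if_pos hb]
        have := hany n hn
        have : 0 ≤ 2 ^ (k + 1) * δ := by positivity
        linarith
      · rw [if_neg hb, add_zero]
        exact hgood n hn hb
    refine (sum_le_sum h1).trans ?_
    rw [sum_add_distrib, sum_const, Nat.card_Ioc, Nat.add_sub_cancel_left, nsmul_eq_mul, ← sum_filter, sum_const, nsmul_eq_mul]
    have h2 : (((Ioc t (t + Δ)).filter (fun n => BadK S h n)).card : ℝ) * (1 + L * (2 * L ^ 2 * J) ^ k) ≤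
        bad * (1 + L * (2 * L ^ 2 * J) ^ k) := mul_le_mul_of_nonneg_right hbad hX0
    linarith
  -- the sum of the model
  have hs2 : |∑ n ∈ Ioc t (t + Δ), r n - sg * (1 / ℓ * ∏ i, GG (S i) R (m₀ i)) * Δ| ≤ J ^ k * err := by
    obtain ⟨Q, hQ⟩ : ∃ Q : (Fin k → ℕ) → ℝ, Q = fun j => 1 / ℓ * ∏ i, (1 / (Real.log (m₀ i : ℝ) - (j i : ℝ) / R)) := ⟨_, rfl⟩
    have e1 : 1 / ℓ * ∏ i, GG (S i) R (m₀ i) = ∑ j ∈ Fintype.piFinset (fun _ : Fin k => range J),
        (∏ i, ∑ s ∈ SJ (S i) R (j i), 1 / (s : ℝ)) * Q j := by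
      have h1 : ∏ i, GG (S i) R (m₀ i) = ∏ i, ∑ j ∈ range J, (∑ s ∈ SJ (S i) R j, 1 / (s : ℝ)) * (1 / (Real.log (m₀ i : ℝ) - (j : ℝ) / R)) :=
        prod_congr rfl fun i _ => (hf i).2.2.2.2.1
      rw [h1, prod_univ_sum, mul_sum]
      apply sum_congr rfl
      intro j _
      rw [prod_mul_distrib, hQ]
      ring
    have e2 : ∑ n ∈ Ioc t (t + Δ), r n = ∑ j ∈ Fintype.piFinset (fun _ : Fin k => range J),
        (∑ n ∈ Ioc t (t + Δ), ArithmeticFunction.vonMangoldt n * ∏ i, be (SJ (S i) R (j i)) ((n : ℤ) + h i).toNat) * Q j := by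
      have h1 : ∀ n ∈ Ioc t (t + Δ), r n = ∑ j ∈ Fintype.piFinset (fun _ : Fin k => range J),
          ArithmeticFunction.vonMangoldt n * (∏ i, be (SJ (S i) R (j i)) ((n : ℤ) + h i).toNat) * Q j := by
        intro n _
        rw [hr]
        unfold bb
        simp only
        rw [prod_univ_sum, mul_sum]
        apply sum_congr rfl
        intro j _
        rw [prod_mul_distrib, hQ]
        ring
      rw [sum_congr rfl h1, sum_comm]
      apply sum_congr rfl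
      intro j _
      rw [sum_mul]
    rw [e1, e2, mul_sum, sum_mul, ← sum_sub_distrib]
    refine (abs_sum_le_sum_abs _ _).trans ?_
    have h1 : ∀ j ∈ Fintype.piFinset (fun _ : Fin k => range J),
        |(∑ n ∈ Ioc t (t + Δ), ArithmeticFunction.vonMangoldt n * ∏ i, be (SJ (S i) R (j i)) ((n : ℤ) + h i).toNat) * Q j -
          sg * ((∏ i, ∑ s ∈ SJ (S i) R (j i), 1 / (s : ℝ)) * Q j) * Δ| ≤ err := by
      intro j hj
      rw [Fintype.mem_piFinset] at hj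
      have e3 : (∑ n ∈ Ioc t (t + Δ), ArithmeticFunction.vonMangoldt n * ∏ i, be (SJ (S i) R (j i)) ((n : ℤ) + h i).toNat) * Q j -
          sg * ((∏ i, ∑ s ∈ SJ (S i) R (j i), 1 / (s : ℝ)) * Q j) * Δ =
        (∑ n ∈ Ioc t (t + Δ), ArithmeticFunction.vonMangoldt n * ∏ i, be (SJ (S i) R (j i)) ((n : ℤ) + h i).toNat -
          sg * (∏ i, ∑ s ∈ SJ (S i) R (j i), 1 / (s : ℝ)) * Δ) * Q j := by ring
      rw [e3, abs_mul]
      by_cases hemp : ∃ i, SJ (S i) R (j i) = ∅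
      · obtain ⟨i, hi⟩ := hemp
        have h2 : ∏ i, ∑ s ∈ SJ (S i) R (j i), 1 / (s : ℝ) = 0 := prod_eq_zero (mem_univ i) (by rw [hi, sum_empty])
        have h3 : ∑ n ∈ Ioc t (t + Δ), ArithmeticFunction.vonMangoldt n * ∏ i, be (SJ (S i) R (j i)) ((n : ℤ) + h i).toNat = 0 := by
          apply sum_eq_zero
          intro n _
          rw [prod_eq_zero (mem_univ i) (by rw [hi]; unfold be; rw [sum_empty]), mul_zero]
        rw [h2, h3, mul_zero, zero_mul, sub_zero, abs_zero, zero_mul]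
        exact herr0
      · push Not at hemp
        have h5 : ∀ i ∈ (univ : Finset (Fin k)), 0 ≤ 1 / (Real.log (m₀ i : ℝ) - (j i : ℝ) / R) ∧
            1 / (Real.log (m₀ i : ℝ) - (j i : ℝ) / R) ≤ 1 := by
          intro i _
          have h6 := (hf i).2.2.2.2.2 (j i) (hemp i)
          exact ⟨div_nonneg zero_le_one (by linarith), by rw [div_le_one (by linarith)]; exact h6⟩
        have h6 : |Q j| ≤ 1 := by
          rw [hQ]
          simp only
          have h7 : 0 ≤ ∏ i, (1 / (Real.log (m₀ i : ℝ) - (j i : ℝ) / R)) := prod_nonneg fun i hi => (h5 i hi).1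
          have h8 : ∏ i, (1 / (Real.log (m₀ i : ℝ) - (j i : ℝ) / R)) ≤ 1 := prod_le_one (fun i hi => (h5 i hi).1) (fun i hi => (h5 i hi).2)
          rw [abs_of_nonneg (mul_nonneg (by positivity) h7)]
          have h9 : 1 / ℓ ≤ 1 := by rw [div_le_one hℓ0]; exact ht
          calc 1 / ℓ * ∏ i, (1 / (Real.log (m₀ i : ℝ) - (j i : ℝ) / R)) ≤ 1 * 1 := mul_le_mul h9 h8 h7 zero_le_one
            _ = 1 := one_mul _
        calc _ ≤ err * 1 := mul_le_mul (herr j (fun i => mem_range.1 (hj i))) h6 (abs_nonneg _) herr0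
          _ = err := mul_one _
    have h2 := sum_le_card_nsmul _ _ _ h1
    rw [Fintype.card_piFinset, prod_const, card_univ, Fintype.card_fin, card_range, nsmul_eq_mul] at h2
    push_cast at h2
    exact h2
  -- the main term
  have hB0 : 0 ≤ B := by linarith
  have hs3 : |∑ n ∈ Ioc t (t + Δ), ggk S h n - (1 / ℓ * ∏ i, GG (S i) R (m₀ i)) * Δ| ≤ ((k + 1) * B ^ (k + 1) * δ) * Δ := by
    have e1 : (1 / ℓ * ∏ i, GG (S i) R (m₀ i)) * (Δ : ℝ) = ∑ _n ∈ Ioc t (t + Δ), (1 / ℓ * ∏ i, GG (S i) R (m₀ i)) := by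
      rw [sum_const, Nat.card_Ioc, Nat.add_sub_cancel_left, nsmul_eq_mul, mul_comm]
    rw [e1, ← sum_sub_distrib]
    refine (abs_sum_le_sum_abs _ _).trans ?_
    have h1 : ∀ n ∈ Ioc t (t + Δ), |ggk S h n - 1 / ℓ * ∏ i, GG (S i) R (m₀ i)| ≤ (k + 1) * B ^ (k + 1) * δ := by
      intro n hn
      unfold ggk
      obtain ⟨P1, hP1⟩ : ∃ P1, P1 = ∏ i, hh (S i) (h i) n := ⟨_, rfl⟩
      obtain ⟨P2, hP2⟩ : ∃ P2, P2 = ∏ i, GG (S i) R (m₀ i) := ⟨_, rfl⟩
      rw [← hP1, ← hP2]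
      have e2 : P1 / Real.log n - 1 / ℓ * P2 = (P1 - P2) * (1 / Real.log n) + P2 * (1 / Real.log n - 1 / ℓ) := by ring
      rw [e2]
      refine (abs_add_le _ _).trans ?_
      rw [abs_mul, abs_mul]
      have hln := hlogn n hn
      have hln0 : 0 < Real.log n := by linarith [hln.1]
      have h2 := prod_diff univ (fun i => hh (S i) (h i) n) (fun i => GG (S i) R (m₀ i)) B hB
        (fun i _ => by rw [abs_of_nonneg ((hf i).2.2.1 n hn).1]; exact ((hf i).2.2.1 n hn).2.1.trans (hσ i))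
        (fun i _ => by rw [abs_of_nonneg (hf i).2.2.2.1.1]; exact (hf i).2.2.2.1.2.trans (hσ i))
      rw [card_univ, Fintype.card_fin, ← hP1, ← hP2] at h2
      have h3 : ∑ i : Fin k, |hh (S i) (h i) n - GG (S i) R (m₀ i)| ≤ k * (δ * B) := by
        have h4 : ∀ i ∈ (univ : Finset (Fin k)), |hh (S i) (h i) n - GG (S i) R (m₀ i)| ≤ δ * B := fun i _ =>
          ((hf i).2.2.1 n hn).2.2.trans (mul_le_mul_of_nonneg_left (hσ i) hδ0)
        have h5 := sum_le_card_nsmul _ _ _ h4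
        rwa [card_univ, Fintype.card_fin, nsmul_eq_mul] at h5
      have h4 : |P1 - P2| ≤ B ^ k * (k * (δ * B)) := h2.trans (mul_le_mul_of_nonneg_left h3 (by positivity))
      have h5 : |1 / Real.log n| ≤ 1 := by
        rw [abs_of_nonneg (by positivity), div_le_one hln0]
        exact hln.1
      have h6 : |P2| ≤ B ^ k := by
        rw [hP2, abs_of_nonneg (prod_nonneg fun i _ => (hf i).2.2.2.1.1)]
        calc ∏ i, GG (S i) R (m₀ i) ≤ ∏ _i : Fin k, B :=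
              prod_le_prod (fun i _ => (hf i).2.2.2.1.1) (fun i _ => (hf i).2.2.2.1.2.trans (hσ i))
          _ = _ := by rw [prod_const, card_univ, Fintype.card_fin]
      have h7 := (num2 ℓ (Real.log n) δ ht hln.1 hln.2).2
      have h8 : |P1 - P2| * |1 / Real.log n| ≤ B ^ k * (k * (δ * B)) * 1 := mul_le_mul h4 h5 (abs_nonneg _) (by positivity)
      have h9 : |P2| * |1 / Real.log n - 1 / ℓ| ≤ B ^ k * δ := mul_le_mul h6 h7 (abs_nonneg _) (by positivity)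
      have h10 : B ^ k * δ ≤ B ^ (k + 1) * δ := mul_le_mul_of_nonneg_right (pow_le_pow_right₀ hB (by omega)) hδ0
      calc |P1 - P2| * |1 / Real.log n| + |P2| * |1 / Real.log n - 1 / ℓ| ≤ B ^ k * (k * (δ * B)) * 1 + B ^ (k + 1) * δ := by linarith
        _ = (k + 1) * B ^ (k + 1) * δ := by ring
    have := sum_le_card_nsmul _ _ _ h1
    rw [Nat.card_Ioc, Nat.add_sub_cancel_left, nsmul_eq_mul] at this
    linarith
  -- conclusion
  have e1 : ∑ n ∈ Ioc t (t + Δ), (indk S h n - sg * ggk S h n) = ∑ n ∈ Ioc t (t + Δ), (indk S h n - r n) +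
      (∑ n ∈ Ioc t (t + Δ), r n - sg * (1 / ℓ * ∏ i, GG (S i) R (m₀ i)) * Δ) -
      sg * (∑ n ∈ Ioc t (t + Δ), ggk S h n - (1 / ℓ * ∏ i, GG (S i) R (m₀ i)) * Δ) := by
    rw [sum_sub_distrib, sum_sub_distrib, ← mul_sum]
    ring
  rw [e1]
  have h4 : |sg * (∑ n ∈ Ioc t (t + Δ), ggk S h n - (1 / ℓ * ∏ i, GG (S i) R (m₀ i)) * Δ)| ≤
      sg * ((k + 1) * B ^ (k + 1) * δ) * Δ := by
    rw [abs_mul, abs_of_nonneg hsg0]
    calc _ ≤ sg * (((k + 1) * B ^ (k + 1) * δ) * Δ) := mul_le_mul_of_nonneg_left hs3 hsg0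
      _ = _ := by ring
  refine (abs_sub _ _).trans ?_
  refine (add_le_add (abs_add_le _ _) le_rfl).trans ?_
  linarith

end Pool.Agent.H561.E3
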