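import Pool.Agent.H561.E3.K15

set_option autoImplicit false

/-! An upper bound for the singular series, trivial bounds. -/

namespace Pool.Agent.H561.E3

open Finset Filter Topology
open Pool.Agent.helper24_UT
open Pool.Agent.H373R2.T7 (pz mem_pz Vz Vz_pos Vz_inv_small lamz)
open Pool.Agent.H561.E2

lemma sing_up (k : ℕ) : ∃ X₀ : ℕ, ∀ X : ℕ, X₀ ≤ X → ∀ h : Fin k → ℤ, (∀ i, h i ≠ 0 ∧ |h i| ≤ (X : ℤ)) →
    (∀ i j, i ≠ j → DD (fun _ => 1) h i j ≠ 0) → 0 ≤ singT (fun _ => 1) h ∧ singT (fun _ => 1) h ≤ 2 * Real.log X ^ k := by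
  classical
  obtain ⟨X₃, hVinv⟩ := Vz_inv_small 4
  obtain ⟨K1, hK1⟩ : ∃ K1 : ℝ, K1 = CK k * (1 + 6 * ((k : ℝ) + k ^ 2)) := ⟨_, rfl⟩
  have hCK := CK_pos k
  have hK10 : 0 < K1 := by rw [hK1]; positivity
  obtain ⟨X₁, hX₁⟩ := Filter.eventually_atTop.1 (Sil2.ev_log (1000 + 2 * K1))
  refine ⟨max (max X₁ X₃) 3, fun X hX h hh hD => ?_⟩
  have hL := hX₁ X (((le_max_left _ _).trans (le_max_left _ _)).trans hX)
  have hX3 : X₃ ≤ X := ((le_max_right _ _).trans (le_max_left _ _)).trans hX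
  have hX3' : 3 ≤ X := (le_max_right _ _).trans hX
  obtain ⟨L, hLd⟩ : ∃ L, L = Real.log (X : ℝ) := ⟨_, rfl⟩
  obtain ⟨z, hz⟩ : ∃ z : ℕ, z = ⌈L ^ 3⌉₊ := ⟨_, rfl⟩
  have hVinv := hVinv X hX3 z
  rw [← hLd] at hL hVinv ⊢
  have hL1000 : 1000 ≤ L := by linarith
  have hL1 : 1 ≤ L := by linarith
  have hL0 : 0 < L := by linarith
  have hL3 : L ≤ L ^ 3 := le_self_pow₀ hL1 (by norm_num)
  have hz3 : L ^ 3 ≤ z := by rw [hz]; exact Nat.le_ceil _
  have hz4 : (z : ℝ) ≤ L ^ 4 := by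
    have h1 := (Nat.ceil_lt_add_one (show 0 ≤ L ^ 3 by positivity)).le
    rw [← hz] at h1
    have h2 : L ^ 4 = L * L ^ 3 := by ring
    have h3 : 2 * L ^ 3 ≤ L * L ^ 3 := mul_le_mul_of_nonneg_right (by linarith) (by positivity)
    linarith
  have hz2r : (2 : ℝ) ≤ z := by linarith
  have hz2 : 2 ≤ z := by exact_mod_cast hz2r
  have hzpos : (0 : ℝ) < z := by linarith
  have hV := hVinv (by omega) hz4
  have hV0 : 0 ≤ (Vz z)⁻¹ := inv_nonneg.2 (Vz_pos z).le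
  have hX1Z : (3 : ℤ) ≤ X := by exact_mod_cast hX3'
  have hXX : (X : ℤ) * 2 ≤ (X : ℤ) ^ 3 := by
    have h1 : (X : ℤ) * 9 ≤ X * (X * X) := by
      apply mul_le_mul_of_nonneg_left _ (by linarith)
      nlinarith
    calc (X : ℤ) * 2 ≤ X * (X * X) := by linarith
      _ = (X : ℤ) ^ 3 := by ring
  have hh3 : ∀ i, h i ≠ 0 ∧ |h i| ≤ (X : ℤ) ^ 3 := fun i => ⟨(hh i).1, by linarith [(hh i).2]⟩
  have hDb : ∀ i j, i ≠ j → DD (fun _ => 1) h i j ≠ 0 ∧ |DD (fun _ => 1) h i j| ≤ (X : ℤ) ^ 3 := by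
    intro i j hij
    refine ⟨hD i j hij, ?_⟩
    unfold DD
    rw [one_mul, one_mul]
    refine (abs_sub _ _).trans ?_
    linarith [(hh i).2, (hh j).2]
  obtain ⟨hmul, htail⟩ := tail (fun _ : Fin k => (1 : ℤ)) (fun _ => one_ne_zero) z hz2 (fun i => by simp; omega) h ((k + k ^ 2) * (6 * L))
    (fun y => bad_primes (fun _ => 1) h z L X hLd hL0.le hh3 hDb y)
  obtain ⟨PZ, hPZ⟩ : ∃ PZ, PZ = ∏ p ∈ pz z, lf (fun _ => 1) h p := ⟨_, rfl⟩
  have hPZabs : ∏ p ∈ pz z, |lf (fun _ => 1) h p| = PZ := by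
    rw [hPZ]
    apply prod_congr rfl
    intro p hp
    exact abs_of_nonneg (lf_nonneg _ h p (mem_pz.1 hp).2)
  have hPZ0 : 0 ≤ PZ := by
    rw [hPZ]
    exact prod_nonneg fun p hp => lf_nonneg _ h p (mem_pz.1 hp).2
  obtain ⟨VV, hVV⟩ : ∃ VV, VV = ∏ p ∈ pz z, (1 - (rho (fun _ => 1) h p : ℝ) / (p - 1 : ℝ)) := ⟨_, rfl⟩
  have hVV01 : 0 ≤ VV ∧ VV ≤ 1 := by
    rw [hVV]
    exact ⟨prod_nonneg fun p hp => (fac_mem _ h p (mem_pz.1 hp).2).1,
      prod_le_one (fun p hp => (fac_mem _ h p (mem_pz.1 hp).2).1) (fun p hp => (fac_mem _ h p (mem_pz.1 hp).2).2)⟩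
  have hPZV : PZ = VV * ((Vz z)⁻¹) ^ k := by rw [hPZ, hVV]; exact lf_prod _ h z
  have hVk : ((Vz z)⁻¹) ^ k ≤ L ^ k := pow_le_pow_left₀ hV0 hV k
  have hVk0 : 0 ≤ ((Vz z)⁻¹) ^ k := by positivity
  have hPZL : PZ ≤ L ^ k := by
    rw [hPZV]
    calc VV * ((Vz z)⁻¹) ^ k ≤ 1 * L ^ k := mul_le_mul hVV01.2 hVk hVk0 zero_le_one
      _ = L ^ k := one_mul _
  rw [hPZabs, ← hPZ] at htail
  have hτ : CK k * (1 + ((k : ℝ) + k ^ 2) * (6 * L)) / z ≤ 1 / 2 := by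
    rw [div_le_iff₀ hzpos]
    have h1 : CK k * (1 + ((k : ℝ) + k ^ 2) * (6 * L)) ≤ K1 * L := by
      rw [hK1]
      have : CK k * (1 + ((k : ℝ) + k ^ 2) * (6 * L)) ≤ CK k * (L + ((k : ℝ) + k ^ 2) * (6 * L)) := by gcongr
      calc _ ≤ _ := this
        _ = _ := by ring
    have h2 : K1 * L ≤ 1 / 2 * L ^ 3 := by
      have h3 : K1 ≤ 1 / 2 * L := by linarith
      have h4 : L ≤ L ^ 2 := le_self_pow₀ hL1 (by norm_num)
      calc K1 * L ≤ (1 / 2 * L) * L ^ 2 := mul_le_mul h3 h4 hL0.le (by positivity)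
        _ = _ := by ring
    linarith
  have hexp : Real.exp (CK k * (1 + ((k : ℝ) + k ^ 2) * (6 * L)) / z) - 1 ≤ 1 := by
    have h1 := Real.exp_le_exp.2 hτ
    have h3 : Real.exp (1 / 2 : ℝ) ≤ 2 := by
      have h5 : Real.exp (1 / 2 : ℝ) ^ 2 = Real.exp 1 := by
        rw [← Real.exp_nat_mul]
        norm_num
      have h6 := Real.exp_one_lt_d9
      have h7 := Real.exp_pos (1 / 2 : ℝ)
      nlinarith
    linarith
  have h1 : |singT (fun _ => 1) h - PZ| ≤ PZ * 1 := htail.trans (mul_le_mul_of_nonneg_left hexp hPZ0)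
  rw [mul_one] at h1
  obtain ⟨h2, h3⟩ := abs_le.1 h1
  constructor
  · linarith
  · linarith

lemma hh_bd (S : Finset ℕ) (hS : ∀ s ∈ S, s.Prime) (d : ℤ) (n : ℕ) : 0 ≤ hh S d n ∧ hh S d n ≤ 2 * ∑ s ∈ S, 1 / (s : ℝ) := by
  have key : ∀ s ∈ S, 0 ≤ (if 2 * (s : ℤ) ≤ n + d then 1 / ((s : ℝ) * Real.log (((n : ℝ) + d) / s)) else 0) ∧
      (if 2 * (s : ℤ) ≤ n + d then 1 / ((s : ℝ) * Real.log (((n : ℝ) + d) / s)) else 0) ≤ 2 * (1 / (s : ℝ)) := by
    intro s hs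
    have hs0 : (0 : ℝ) < s := by exact_mod_cast (hS s hs).pos
    split_ifs with h1
    · have h2 : 2 * (s : ℝ) ≤ (n : ℝ) + d := by exact_mod_cast h1
      have h3 : (2 : ℝ) ≤ ((n : ℝ) + d) / s := by rwa [le_div_iff₀ hs0]
      have h4 : Real.log 2 ≤ Real.log (((n : ℝ) + d) / s) := Real.log_le_log (by norm_num) h3
      have h5 := Real.log_two_gt_d9
      have h6 : (1 / 2 : ℝ) ≤ Real.log (((n : ℝ) + d) / s) := by linarith
      have h7 : 0 < Real.log (((n : ℝ) + d) / s) := by linarith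
      constructor
      · positivity
      · rw [← mul_one_div, mul_one_div, div_le_iff₀ (by positivity)]
        have : 2 * (1 / (s : ℝ)) * ((s : ℝ) * Real.log (((n : ℝ) + d) / s)) = 2 * Real.log (((n : ℝ) + d) / s) := by
          field_simp
        rw [this]
        linarith
    · exact ⟨le_rfl, by positivity⟩
  unfold hh
  constructor
  · exact sum_nonneg fun s hs => (key s hs).1
  · rw [mul_sum]
    exact sum_le_sum fun s hs => (key s hs).2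

lemma ggk_bd {k : ℕ} (S : Fin k → Finset ℕ) (hS : ∀ i, ∀ s ∈ S i, s.Prime) (h : Fin k → ℤ) (n : ℕ) (B : ℝ) (hB : 0 ≤ B)
    (hσ : ∀ i, ∑ s ∈ S i, 1 / (s : ℝ) ≤ B) : 0 ≤ ggk S h n ∧ ggk S h n ≤ 2 * (2 * B) ^ k := by
  unfold ggk
  have h1 : 0 ≤ ∏ i, hh (S i) (h i) n := prod_nonneg fun i _ => (hh_bd (S i) (hS i) (h i) n).1
  have h2 : ∏ i, hh (S i) (h i) n ≤ (2 * B) ^ k := by
    calc ∏ i, hh (S i) (h i) n ≤ ∏ _i : Fin k, (2 * B) := by
          apply prod_le_prod (fun i _ => (hh_bd (S i) (hS i) (h i) n).1)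
          intro i _
          have := (hh_bd (S i) (hS i) (h i) n).2
          linarith [hσ i]
      _ = _ := by rw [prod_const, card_univ, Fintype.card_fin]
  have h3 : 0 ≤ (2 * B) ^ k := by positivity
  rcases Nat.lt_or_ge n 2 with h4 | h4
  · have h5 : Real.log n = 0 := by
      interval_cases n
      · simp
      · simp
    rw [h5, div_zero]
    exact ⟨le_rfl, by positivity⟩
  · have h5 : (2 : ℝ) ≤ n := by exact_mod_cast h4
    have h6 : Real.log 2 ≤ Real.log n := Real.log_le_log (by norm_num) h5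
    have h7 := Real.log_two_gt_d9
    have h8 : (1 / 2 : ℝ) ≤ Real.log n := by linarith
    have h9 : 0 < Real.log n := by linarith
    constructor
    · positivity
    · rw [div_le_iff₀ h9]
      have : (2 * B) ^ k ≤ 2 * (2 * B) ^ k * Real.log n := by
        have : 2 * (2 * B) ^ k * (1 / 2) ≤ 2 * (2 * B) ^ k * Real.log n := mul_le_mul_of_nonneg_left h8 (by positivity)
        linarith
      linarith

lemma cntE_ind {k : ℕ} (S : Fin k → Finset ℕ) (N₁ N₂ : ℕ) (h : Fin k → ℤ) :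
    (cntE (fun _ => 1) S N₁ N₂ h : ℝ) = ∑ n ∈ Ioc N₁ N₂, indk S h n := by
  classical
  unfold cntE indk
  rw [sum_boole]
  congr 2
  apply filter_congr
  intro n _
  unfold LFo
  simp only [one_mul]

open Classical in
/-- the number of the exceptional integers -/
lemma badK_card {k : ℕ} (S : Fin k → Finset ℕ) (X E : ℕ) (L : ℝ) (hLd : L = Real.log X) (hL1 : 1 ≤ L) (hX : 2 ≤ X)
    (hS : ∀ i, ∀ p ∈ S i, p.Prime ∧ (p : ℝ) ≤ L ^ E) (h : Fin k → ℤ) (N₁ N₂ : ℕ) (hN : N₂ ≤ X)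
    (hb : ∀ i, ∀ n ∈ Ioc N₁ N₂, 1 ≤ (n : ℤ) + h i ∧ (n : ℤ) + h i ≤ X) :
    (((Ioc N₁ N₂).filter (fun n => BadK S h n)).card : ℝ) ≤ (6 * L * √X) * (1 + k * L ^ E) := by
  have hL0 : 0 < L := by linarith
  have hX0 : (0 : ℝ) < X := by exact_mod_cast (by omega : 0 < X)
  have hs1 : 1 ≤ √(X : ℝ) := Real.one_le_sqrt.2 (by exact_mod_cast (by omega : 1 ≤ X))
  have hsq : (((Nat.sqrt X + 1) * (Nat.log 2 X + 1) : ℕ) : ℝ) ≤ 6 * L * √X := by
    have h1 : (Nat.sqrt X : ℝ) ≤ √X := Real.nat_sqrt_le_real_sqrt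
    have h4 : (Nat.log 2 X : ℝ) ≤ 2 * L := by
      have h5 : (2 : ℝ) ^ (Nat.log 2 X) ≤ X := by
        exact_mod_cast Nat.pow_log_le_self 2 (by omega)
      have h6 := Real.log_le_log (by positivity) h5
      rw [Real.log_pow, ← hLd] at h6
      have := Real.log_two_gt_d9
      have h7 : (0 : ℝ) ≤ (Nat.log 2 X : ℝ) := Nat.cast_nonneg _
      nlinarith
    push_cast
    calc ((Nat.sqrt X : ℝ) + 1) * ((Nat.log 2 X : ℝ) + 1) ≤ (2 * √X) * (3 * L) := by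
          apply mul_le_mul _ _ (by positivity) (by positivity)
          · linarith
          · linarith
      _ = _ := by ring
  obtain ⟨φ, hφ⟩ : ∃ φ : Fin k → ℕ → ℕ, φ = fun (i : Fin k) (n : ℕ) => ((n : ℤ) + h i).toNat := ⟨_, rfl⟩
  have hφc : ∀ i, ∀ n ∈ Ioc N₁ N₂, ((φ i n : ℕ) : ℤ) = n + h i := by
    intro i n hn
    rw [hφ]
    exact Int.toNat_of_nonneg (by linarith [(hb i n hn).1])
  have hinj : ∀ i, ∀ n ∈ Ioc N₁ N₂, ∀ m ∈ Ioc N₁ N₂, φ i n = φ i m → n = m := by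
    intro i n hn m hm hnm
    have h1 : (n : ℤ) + h i = m + h i := by rw [← hφc i n hn, ← hφc i m hm, hnm]
    omega
  have hφb : ∀ i, ∀ n ∈ Ioc N₁ N₂, 1 ≤ φ i n ∧ φ i n ≤ X := by
    intro i n hn
    have h1 := hφc i n hn
    have h2 := hb i n hn
    constructor
    · have : (1 : ℤ) ≤ ((φ i n : ℕ) : ℤ) := by rw [h1]; exact h2.1
      exact_mod_cast this
    · have : ((φ i n : ℕ) : ℤ) ≤ X := by rw [h1]; exact h2.2
      exact_mod_cast this
  have hsub : (Ioc N₁ N₂).filter (fun n => BadK S h n) ⊆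
      (Ioc N₁ N₂).filter (fun n => ArithmeticFunction.vonMangoldt n ≠ 0 ∧ ¬ n.Prime) ∪
      (univ : Finset (Fin k)).biUnion (fun i => (Ioc N₁ N₂).filter (fun n => ∃ g ∈ S i, g ∣ φ i n ∧
        ArithmeticFunction.vonMangoldt (φ i n / g) ≠ 0 ∧ ¬ (φ i n / g).Prime)) := by
    intro n hn
    rw [mem_filter] at hn
    obtain ⟨h1, h2⟩ := hn
    rw [mem_union]
    rcases h2 with h3 | ⟨i, h3⟩
    · left
      rw [mem_filter]
      exact ⟨h1, h3⟩
    · right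
      rw [mem_biUnion]
      refine ⟨i, mem_univ _, ?_⟩
      rw [mem_filter, hφ]
      exact ⟨h1, h3⟩
  have h1 := card_le_card hsub
  have h2 := h1.trans (card_union_le _ _)
  have h3 : ((Ioc N₁ N₂).filter (fun n => ArithmeticFunction.vonMangoldt n ≠ 0 ∧ ¬ n.Prime)).card ≤ (Nat.sqrt X + 1) * (Nat.log 2 X + 1) := by
    refine le_trans (card_le_card ?_) (PP_card X)
    intro n hn
    rw [mem_filter, mem_Ioc] at hn
    unfold PP
    rw [mem_filter, mem_Icc]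
    exact ⟨⟨by omega, by omega⟩, hn.2⟩
  have h4 : ∀ i ∈ (univ : Finset (Fin k)), (((Ioc N₁ N₂).filter (fun n => ∃ g ∈ S i, g ∣ φ i n ∧
        ArithmeticFunction.vonMangoldt (φ i n / g) ≠ 0 ∧ ¬ (φ i n / g).Prime)).card : ℝ) ≤ L ^ E * (6 * L * √X) := by
    intro i _
    have h5 := bad_pp (S i) (fun g hg => (hS i g hg).1.one_le) X (Ioc N₁ N₂) (φ i) (hinj i) (hφb i)
    have h6 : (((Ioc N₁ N₂).filter (fun n => ∃ g ∈ S i, g ∣ φ i n ∧
        ArithmeticFunction.vonMangoldt (φ i n / g) ≠ 0 ∧ ¬ (φ i n / g).Prime)).card : ℝ) ≤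
        ((S i).card : ℝ) * (((Nat.sqrt X + 1) * (Nat.log 2 X + 1) : ℕ) : ℝ) := by exact_mod_cast h5
    refine h6.trans ?_
    have h7 := card_S (S i) (L ^ E) (by positivity) (fun p hp => ⟨(hS i p hp).1.one_le, (hS i p hp).2⟩)
    exact mul_le_mul h7 hsq (Nat.cast_nonneg _) (by positivity)
  have h5 : (((univ : Finset (Fin k)).biUnion (fun i => (Ioc N₁ N₂).filter (fun n => ∃ g ∈ S i, g ∣ φ i n ∧
        ArithmeticFunction.vonMangoldt (φ i n / g) ≠ 0 ∧ ¬ (φ i n / g).Prime))).card : ℝ) ≤ k * (L ^ E * (6 * L * √X)) := by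
    have h8 : (((univ : Finset (Fin k)).biUnion (fun i => (Ioc N₁ N₂).filter (fun n => ∃ g ∈ S i, g ∣ φ i n ∧
        ArithmeticFunction.vonMangoldt (φ i n / g) ≠ 0 ∧ ¬ (φ i n / g).Prime))).card : ℝ) ≤
        ∑ i : Fin k, (((Ioc N₁ N₂).filter (fun n => ∃ g ∈ S i, g ∣ φ i n ∧
        ArithmeticFunction.vonMangoldt (φ i n / g) ≠ 0 ∧ ¬ (φ i n / g).Prime)).card : ℝ) := by exact_mod_cast card_biUnion_le
    refine h8.trans ?_
    have h6 := sum_le_card_nsmul _ _ _ h4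
    rwa [card_univ, Fintype.card_fin, nsmul_eq_mul] at h6
  have h6 : (((Ioc N₁ N₂).filter (fun n => BadK S h n)).card : ℝ) ≤
      (((Ioc N₁ N₂).filter (fun n => ArithmeticFunction.vonMangoldt n ≠ 0 ∧ ¬ n.Prime)).card : ℝ) +
      (((univ : Finset (Fin k)).biUnion (fun i => (Ioc N₁ N₂).filter (fun n => ∃ g ∈ S i, g ∣ φ i n ∧
        ArithmeticFunction.vonMangoldt (φ i n / g) ≠ 0 ∧ ¬ (φ i n / g).Prime))).card : ℝ) := by exact_mod_cast h2
  have h7 : (((Ioc N₁ N₂).filter (fun n => ArithmeticFunction.vonMangoldt n ≠ 0 ∧ ¬ n.Prime)).card : ℝ) ≤ 6 * L * √X :=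
    le_trans (by exact_mod_cast h3) hsq
  calc (((Ioc N₁ N₂).filter (fun n => BadK S h n)).card : ℝ) ≤ 6 * L * √X + k * (L ^ E * (6 * L * √X)) := by linarith
    _ = _ := by ring

end Pool.Agent.H561.E3
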