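import Pool.Agent.H561.E3.K16

set_option autoImplicit false

/-! All windows from the cells. -/

namespace Pool.Agent.H561.E3

open Finset Filter Topology
open Pool.Agent.helper24_UT
open Pool.Agent.H373R2.T7 (pz mem_pz Vz Vz_pos Vz_inv_small lamz)
open Pool.Agent.H561.E2

lemma sum_inv_le (S : Finset ℕ) (E : ℕ) (L : ℝ) (hL : 1000 ≤ L) (hE : (E : ℝ) * Real.log L ≤ 1 / 8 * L)
    (hS : ∀ p ∈ S, p.Prime ∧ (p : ℝ) ≤ L ^ E) : ∑ s ∈ S, 1 / (s : ℝ) ≤ L := by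
  have hL1 : 1 ≤ L := by linarith
  obtain ⟨U, hU⟩ : ∃ U : ℕ, U = ⌊L ^ E⌋₊ := ⟨_, rfl⟩
  have h1 := sum_S S U (fun p hp => ⟨(hS p hp).1.two_le, by rw [hU]; exact Nat.le_floor (hS p hp).2⟩)
  have h2 : ∑ s ∈ S, 1 / (s : ℝ) ≤ ∑ p ∈ S, 1 / ((p : ℝ) - 1) := by
    apply sum_le_sum
    intro s hs
    have h3 : (2 : ℝ) ≤ s := by exact_mod_cast (hS s hs).1.two_le
    exact one_div_le_one_div_of_le (by linarith) (by linarith)
  have hUle : (U : ℝ) ≤ L ^ E := by rw [hU]; exact Nat.floor_le (by positivity)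
  have h3 : Real.log (U + 1 : ℕ) ≤ 1 + 1 / 8 * L := by
    have h4 : ((U + 1 : ℕ) : ℝ) ≤ 2 * L ^ E := by
      push_cast
      have : 1 ≤ L ^ E := one_le_pow₀ hL1
      linarith
    have h5 := Real.log_le_log (by positivity) h4
    rw [Real.log_mul (by norm_num) (by positivity), Real.log_pow] at h5
    have := Real.log_two_lt_d9
    linarith
  linarith

open Classical in
theorem assem {k : ℕ} (A E D₁ D₂ A' K : ℕ) (hD₁ : D₁ = A + 2 * k + 3) (hD₂ : D₂ = D₁ + D₁) (hA' : A' = A + D₂ + (D₁ + 2) * k + 3)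
    (hK : K = A + D₂ + 2 * E + (D₁ + 3) * k + 5)
    (X : ℕ) (L : ℝ) (hLd : L = Real.log X) (hC : 1000 + ((k : ℝ) + 4) * 2 ^ (2 * k + 8) ≤ L)
    (hll : ((E + D₁ + 1 : ℕ) : ℝ) * Real.log L ≤ 1 / 8 * L)
    (hpw : 8 * L ^ K ≤ √(X : ℝ)) (S : Fin k → Finset ℕ) (hS : ∀ i, ∀ p ∈ S i, p.Prime ∧ (p : ℝ) ≤ L ^ E) (H : ℕ) (b h : Fin k → ℤ)
    (hh : ∀ i, b i ≤ h i ∧ h i < b i + H) (sg : ℝ) (hsg0 : 0 ≤ sg) (hsg : sg ≤ 2 * L ^ k)
    (Δ : ℕ) (hΔ : Δ = ⌊(X : ℝ) / L ^ D₂⌋₊) (J : ℕ) (hJ : J = ⌊L ^ D₁ * L⌋₊ + 1)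
    (hcell : ∀ i : ℕ, i * Δ + Δ ≤ X → (∀ i', ∀ n ∈ Ioc (i * Δ) (i * Δ + Δ), 1 ≤ (n : ℤ) + b i' ∧ (n : ℤ) + b i' + H ≤ X) →
      ∀ j : Fin k → ℕ, (∀ i', j i' < J) → |∑ n ∈ Ioc (i * Δ) (i * Δ + Δ), ArithmeticFunction.vonMangoldt n *
        ∏ i', be (SJ (S i') (L ^ D₁) (j i')) ((n : ℤ) + h i').toNat -
        sg * (∏ i', ∑ s ∈ SJ (S i') (L ^ D₁) (j i'), 1 / (s : ℝ)) * Δ| ≤ X / L ^ A')
    (N₁ N₂ : ℕ) (hN2 : N₂ ≤ X) (hw : ∀ i, 0 ≤ (N₁ : ℤ) + b i ∧ (N₂ : ℤ) + b i + H ≤ X) :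
    |∑ n ∈ Ioc N₁ N₂, (indk S h n - sg * ggk S h n)| ≤ X / L ^ A := by
  have hk0 : (0 : ℝ) ≤ k := Nat.cast_nonneg _
  have hCp : 0 ≤ ((k : ℝ) + 4) * 2 ^ (2 * k + 8) := by positivity
  have hL1000 : 1000 ≤ L := by linarith
  have hL1 : 1 ≤ L := by linarith
  have hL0 : 0 < L := by linarith
  have hXpos : 0 < X := by
    rcases Nat.eq_zero_or_pos X with h0 | h0
    · rw [h0] at hLd
      simp at hLd
      linarith
    · exact h0
  have hX0 : (0 : ℝ) < X := by exact_mod_cast hXpos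
  have hss : √(X : ℝ) * √(X : ℝ) = X := Real.mul_self_sqrt hX0.le
  have hpow : ∀ m : ℕ, 1 ≤ L ^ m := fun m => one_le_pow₀ hL1
  have hs8 : 8 ≤ √(X : ℝ) := by
    have := hpow K
    linarith
  have hs0 : 0 < √(X : ℝ) := by linarith
  have hloglog : 0 ≤ Real.log L := Real.log_nonneg hL1
  have hllE : (E : ℝ) * Real.log L ≤ 1 / 8 * L := by
    refine le_trans ?_ hll
    apply mul_le_mul_of_nonneg_right _ hloglog
    push_cast
    have : (0 : ℝ) ≤ D₁ := Nat.cast_nonneg _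
    linarith
  have hllD : (D₁ : ℝ) * Real.log L ≤ 1 / 8 * L := by
    refine le_trans ?_ hll
    apply mul_le_mul_of_nonneg_right _ hloglog
    push_cast
    have : (0 : ℝ) ≤ E := Nat.cast_nonneg _
    linarith
  have hXK : ∀ m : ℕ, m ≤ K → 2 * L ^ m ≤ X := by
    intro m hm
    have h1 : L ^ m ≤ L ^ K := pow_le_pow_right₀ hL1 hm
    have h2 : √(X : ℝ) ≤ X := by
      calc √(X : ℝ) ≤ √(X : ℝ) * √(X : ℝ) := le_mul_of_one_le_left (by linarith) (by linarith)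
        _ = X := hss
    have := hpow m
    have := hpow K
    linarith
  -- the length of the cells
  have hLD1 : 0 < L ^ D₁ := by positivity
  have hLD2 : 0 < L ^ D₂ := by positivity
  have hΔle : (Δ : ℝ) ≤ X / L ^ D₂ := by rw [hΔ]; exact Nat.floor_le (by positivity)
  have hXD2 : 2 ≤ (X : ℝ) / L ^ D₂ := by
    rw [le_div_iff₀ hLD2]
    exact hXK D₂ (by omega)
  have hΔge : (X : ℝ) / L ^ D₂ ≤ 2 * Δ := by
    have h1 := (Nat.lt_floor_add_one ((X : ℝ) / L ^ D₂)).le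
    rw [← hΔ] at h1
    linarith
  have hΔ1 : 1 ≤ Δ := by
    have : (0 : ℝ) < Δ := by linarith
    exact_mod_cast this
  obtain ⟨Y, hY⟩ : ∃ Y : ℕ, Y = ⌈(X : ℝ) / L ^ D₁⌉₊ := ⟨_, rfl⟩
  have hYge : (X : ℝ) / L ^ D₁ ≤ Y := by rw [hY]; exact Nat.le_ceil _
  have hXD1 : 2 ≤ (X : ℝ) / L ^ D₁ := by
    rw [le_div_iff₀ hLD1]
    exact hXK D₁ (by omega)
  have hYle : (Y : ℝ) ≤ 2 * (X / L ^ D₁) := by
    have h1 := (Nat.ceil_lt_add_one (show 0 ≤ (X : ℝ) / L ^ D₁ by positivity)).le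
    rw [← hY] at h1
    linarith
  have hY1 : 1 ≤ Y := by
    have : (0 : ℝ) < Y := by linarith
    exact_mod_cast this
  have hΔY : (Δ : ℝ) ≤ 1 / L ^ D₁ * Y := by
    calc (Δ : ℝ) ≤ X / L ^ D₂ := hΔle
      _ = 1 / L ^ D₁ * (X / L ^ D₁) := by rw [hD₂, pow_add]; field_simp
      _ ≤ 1 / L ^ D₁ * Y := mul_le_mul_of_nonneg_left hYge (by positivity)
  have hlogY : 7 / 8 * L ≤ Real.log Y := by
    have h1 := Real.log_le_log (by positivity) hYge
    rw [Real.log_div hX0.ne' hLD1.ne', Real.log_pow, ← hLd] at h1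
    linarith
  have hσ : ∀ i, ∑ s ∈ S i, 1 / (s : ℝ) ≤ L := fun i => sum_inv_le (S i) E L hL1000 hllE (hS i)
  -- the trivial bound
  have hgg : ∀ n, 0 ≤ ggk S h n ∧ ggk S h n ≤ 2 * (2 * L) ^ k := fun n => ggk_bd S (fun i s hs => (hS i s hs).1) h n L hL0.le hσ
  have htriv : ∀ n, |indk S h n - sg * ggk S h n| ≤ 2 ^ (k + 3) * L ^ (2 * k) := by
    intro n
    have hi0 : 0 ≤ indk S h n ∧ indk S h n ≤ 1 := by
      unfold indk
      split_ifs
      · exact ⟨zero_le_one, le_rfl⟩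
      · exact ⟨le_rfl, zero_le_one⟩
    obtain ⟨g1, g2⟩ := hgg n
    have g3 : 0 ≤ sg * ggk S h n := mul_nonneg hsg0 g1
    have g4 : sg * ggk S h n ≤ (2 * L ^ k) * (2 * (2 * L) ^ k) := mul_le_mul hsg g2 g1 (by positivity)
    have g5 : (2 * L ^ k) * (2 * (2 * L) ^ k) = 2 ^ (k + 2) * L ^ (2 * k) := by
      rw [mul_pow]
      ring
    have g6 : 1 ≤ 2 ^ (k + 2) * L ^ (2 * k) := one_le_mul_of_one_le_of_one_le (one_le_pow₀ (by norm_num)) (hpow _)
    have g7 : (2 : ℝ) ^ (k + 3) * L ^ (2 * k) = 2 ^ (k + 2) * L ^ (2 * k) + 2 ^ (k + 2) * L ^ (2 * k) := by ring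
    rw [abs_le]
    constructor <;> linarith [hi0.1, hi0.2]
  -- the cells
  obtain ⟨GI, hGI⟩ : ∃ GI : Finset ℕ, GI = (range (X / Δ + 1)).filter (fun i => N₁ ≤ i * Δ ∧ i * Δ + Δ ≤ N₂ ∧ Y ≤ i * Δ ∧
    ∀ i', (Y : ℤ) ≤ ((i * Δ : ℕ) : ℤ) + h i') := ⟨_, rfl⟩
  obtain ⟨Cu, hCu⟩ : ∃ Cu : Finset ℕ, Cu = GI.biUnion (fun i => Ioc (i * Δ) (i * Δ + Δ)) := ⟨_, rfl⟩
  have hGIm : ∀ i ∈ GI, N₁ ≤ i * Δ ∧ i * Δ + Δ ≤ N₂ ∧ Y ≤ i * Δ ∧ ∀ i', (Y : ℤ) ≤ ((i * Δ : ℕ) : ℤ) + h i' := by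
    intro i hi
    rw [hGI, mem_filter] at hi
    exact hi.2
  have hCsub : Cu ⊆ Ioc N₁ N₂ := by
    intro n hn
    rw [hCu, mem_biUnion] at hn
    obtain ⟨i, hi, hn⟩ := hn
    have h1 := hGIm i hi
    rw [mem_Ioc] at hn ⊢
    omega
  have hdisj : Set.PairwiseDisjoint (GI : Set ℕ) (fun i => Ioc (i * Δ) (i * Δ + Δ)) := by
    intro i _ i' _ hne
    rw [Function.onFun, disjoint_left]
    intro n h1 h2
    simp only [mem_Ioc] at h1 h2
    rcases Nat.lt_or_gt_of_ne hne with h3 | h3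
    · have : (i + 1) * Δ ≤ i' * Δ := Nat.mul_le_mul_right _ h3
      rw [add_mul, one_mul] at this
      omega
    · have : (i' + 1) * Δ ≤ i * Δ := Nat.mul_le_mul_right _ h3
      rw [add_mul, one_mul] at this
      omega
  have hGcard : (GI.card : ℝ) * Δ ≤ X := by
    have h1 : Cu.card = GI.card * Δ := by
      rw [hCu, card_biUnion hdisj]
      have : ∀ i ∈ GI, (Ioc (i * Δ) (i * Δ + Δ)).card = Δ := fun i _ => by rw [Nat.card_Ioc, Nat.add_sub_cancel_left]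
      rw [sum_congr rfl this, sum_const, smul_eq_mul]
    have h2 := card_le_card hCsub
    rw [h1, Nat.card_Ioc] at h2
    have h3 : GI.card * Δ ≤ X := by omega
    exact_mod_cast h3
  have hGM : (GI.card : ℝ) ≤ 3 * L ^ D₂ := by
    have h1 : GI.card ≤ X / Δ + 1 := by
      rw [hGI]
      refine (card_filter_le _ _).trans ?_
      rw [card_range]
    have h2 : ((X / Δ : ℕ) : ℝ) ≤ 2 * L ^ D₂ := by
      have h3 : ((X / Δ : ℕ) : ℝ) ≤ (X : ℝ) / Δ := Nat.cast_div_le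
      refine h3.trans ?_
      rw [div_le_iff₀ (by exact_mod_cast hΔ1)]
      rw [div_le_iff₀ hLD2] at hΔge
      linarith
    have h3 : (GI.card : ℝ) ≤ ((X / Δ : ℕ) : ℝ) + 1 := by exact_mod_cast h1
    have := hpow D₂
    linarith
  -- outside the cells
  have hout : ((Ioc N₁ N₂ \ Cu).card : ℝ) ≤ ((k : ℝ) + 3) * (Y + Δ) := by
    obtain ⟨φ, hφ⟩ : ∃ φ : Fin k → ℕ → ℕ, φ = fun (i : Fin k) (n : ℕ) => ((n : ℤ) + h i).toNat := ⟨_, rfl⟩
    have hφc : ∀ i, ∀ n ∈ Ioc N₁ N₂, ((φ i n : ℕ) : ℤ) = n + h i := by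
      intro i n hn
      rw [mem_Ioc] at hn
      rw [hφ]
      apply Int.toNat_of_nonneg
      have h1 := (hw i).1
      have h2 := (hh i).1
      have : (N₁ : ℤ) < n := by exact_mod_cast hn.1
      linarith
    have hφ1 : ∀ i, ∀ n ∈ Ioc N₁ N₂, 1 ≤ φ i n := by
      intro i n hn
      have h3 := hφc i n hn
      rw [mem_Ioc] at hn
      have h1 := (hw i).1
      have h2 := (hh i).1
      have : (N₁ : ℤ) < n := by exact_mod_cast hn.1
      have : (1 : ℤ) ≤ φ i n := by rw [h3]; linarith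
      exact_mod_cast this
    have hφi : ∀ i, ∀ n ∈ Ioc N₁ N₂, ∀ m ∈ Ioc N₁ N₂, φ i n = φ i m → n = m := by
      intro i n hn m hm hnm
      have h1 : (n : ℤ) + h i = m + h i := by rw [← hφc i n hn, ← hφc i m hm, hnm]
      omega
    have hsub : Ioc N₁ N₂ \ Cu ⊆ ((Ioc N₁ (N₁ + Δ) ∪ Ioc (N₂ - Δ) N₂) ∪ Icc 1 (Y + Δ)) ∪
        (univ : Finset (Fin k)).biUnion (fun i => (Ioc N₁ N₂).filter (fun n => φ i n ≤ Y + Δ)) := by
      intro n hn
      rw [Finset.mem_sdiff] at hn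
      obtain ⟨hn1, hn2⟩ := hn
      have hn1' := hn1
      rw [mem_Ioc] at hn1'
      obtain ⟨i, hi⟩ : ∃ i, i = (n - 1) / Δ := ⟨_, rfl⟩
      have h1 : i * Δ ≤ n - 1 := by rw [hi]; exact Nat.div_mul_le_self _ _
      have h2 : n - 1 < i * Δ + Δ := by rw [hi]; exact Nat.lt_div_mul_add (by omega)
      have h3 : i ≤ X / Δ := by rw [hi]; exact Nat.div_le_div_right (by omega)
      have h4 : ¬ (N₁ ≤ i * Δ ∧ i * Δ + Δ ≤ N₂ ∧ Y ≤ i * Δ ∧ ∀ i', (Y : ℤ) ≤ ((i * Δ : ℕ) : ℤ) + h i') := by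
        intro hcon
        apply hn2
        rw [hCu, mem_biUnion]
        refine ⟨i, ?_, ?_⟩
        · rw [hGI, mem_filter, mem_range]
          exact ⟨by omega, hcon⟩
        · rw [mem_Ioc]
          omega
      rw [mem_union, mem_union, mem_union]
      by_cases c1 : N₁ ≤ i * Δ
      · by_cases c2 : i * Δ + Δ ≤ N₂
        · by_cases c3 : Y ≤ i * Δ
          · right
            have c4 : ¬ ∀ i', (Y : ℤ) ≤ ((i * Δ : ℕ) : ℤ) + h i' := fun hcon => h4 ⟨c1, c2, c3, hcon⟩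
            push Not at c4
            obtain ⟨i', hi'⟩ := c4
            rw [mem_biUnion]
            refine ⟨i', mem_univ _, ?_⟩
            rw [mem_filter]
            refine ⟨hn1, ?_⟩
            have h5 := hφc i' n hn1
            have h6 : (n : ℤ) ≤ ((i * Δ : ℕ) : ℤ) + Δ := by exact_mod_cast (by omega : n ≤ i * Δ + Δ)
            have h7 : ((φ i' n : ℕ) : ℤ) ≤ ((Y + Δ : ℕ) : ℤ) := by
              rw [h5]
              push_cast at h6 hi' ⊢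
              linarith
            exact_mod_cast h7
          · left
            right
            rw [mem_Icc]
            omega
        · left
          left
          right
          rw [mem_Ioc]
          omega
      · left
        left
        left
        rw [mem_Ioc]
        omega
    have h1 := card_le_card hsub
    have h2 : (Ioc N₁ (N₁ + Δ)).card = Δ := by rw [Nat.card_Ioc, Nat.add_sub_cancel_left]
    have h3 : (Ioc (N₂ - Δ) N₂).card ≤ Δ := by rw [Nat.card_Ioc]; omega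
    have h4 : (Icc 1 (Y + Δ)).card = Y + Δ := by rw [Nat.card_Icc, Nat.add_sub_cancel]
    have h5 : ((univ : Finset (Fin k)).biUnion (fun i => (Ioc N₁ N₂).filter (fun n => φ i n ≤ Y + Δ))).card ≤ k * (Y + Δ) := by
      refine card_biUnion_le.trans ?_
      have h6 := sum_le_card_nsmul (univ : Finset (Fin k)) (fun i => ((Ioc N₁ N₂).filter (fun n => φ i n ≤ Y + Δ)).card) (Y + Δ)
        (fun i _ => bad_small (Y + Δ) (Ioc N₁ N₂) (φ i) (hφi i) (hφ1 i))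
      rwa [card_univ, Fintype.card_fin, smul_eq_mul] at h6
    have h6 : (Ioc N₁ N₂ \ Cu).card ≤ Δ + Δ + (Y + Δ) + k * (Y + Δ) := by
      refine h1.trans ((card_union_le _ _).trans ?_)
      refine add_le_add ((card_union_le _ _).trans ?_) h5
      refine add_le_add ((card_union_le _ _).trans ?_) h4.le
      exact add_le_add h2.le h3
    have h7 : ((Ioc N₁ N₂ \ Cu).card : ℝ) ≤ Δ + Δ + (Y + Δ) + k * (Y + Δ) := by exact_mod_cast h6
    have h8 : (0 : ℝ) ≤ Y := Nat.cast_nonneg _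
    have h9 : (0 : ℝ) ≤ Δ := Nat.cast_nonneg _
    nlinarith
  -- the parameters of the cells
  obtain ⟨δ, hδ⟩ : ∃ δ, δ = 1 / L ^ D₁ := ⟨_, rfl⟩
  obtain ⟨U, hU⟩ : ∃ U : ℕ, U = ⌊L ^ E⌋₊ := ⟨_, rfl⟩
  have hUle : (U : ℝ) ≤ L ^ E := by rw [hU]; exact Nat.floor_le (by positivity)
  have hδ0 : 0 ≤ δ := by rw [hδ]; positivity
  have hδ4 : δ ≤ 1 / 4 := by
    rw [hδ]
    apply one_div_le_one_div_of_le (by norm_num)
    have : L ≤ L ^ D₁ := le_self_pow₀ hL1 (by omega)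
    linarith
  have hUU : U * U < Y := by
    have h1 : ((U * U : ℕ) : ℝ) ≤ L ^ (2 * E) := by
      push_cast
      calc (U : ℝ) * U ≤ L ^ E * L ^ E := mul_le_mul hUle hUle (Nat.cast_nonneg _) (by positivity)
        _ = L ^ (2 * E) := by ring
    have h2 : 2 * L ^ (2 * E) ≤ X / L ^ D₁ := by
      rw [le_div_iff₀ hLD1, mul_assoc, ← pow_add]
      exact hXK _ (by omega)
    have h3 := hpow (2 * E)
    have h4 : ((U * U : ℕ) : ℝ) < Y := by linarith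
    exact_mod_cast h4
  have hJle : (J : ℝ) ≤ 2 * L ^ (D₁ + 1) := by
    have h1 : ((⌊L ^ D₁ * L⌋₊ : ℕ) : ℝ) ≤ L ^ D₁ * L := Nat.floor_le (by positivity)
    have h2 : L ^ D₁ * L = L ^ (D₁ + 1) := by ring
    have h3 := hpow (D₁ + 1)
    rw [hJ]
    push_cast
    linarith
  have hJ0 : (0 : ℝ) ≤ J := Nat.cast_nonneg _
  obtain ⟨EC, hEC⟩ : ∃ EC : ℝ, EC = 2 ^ (k + 1) * δ * Δ + (6 * L * √(X : ℝ)) * (1 + k * L ^ E) * (1 + L * (2 * L ^ 2 * J) ^ k) +
    J ^ k * (X / L ^ A') + sg * ((k + 1) * L ^ (k + 1) * δ) * Δ := ⟨_, rfl⟩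
  have hone : ∀ i ∈ GI, |∑ n ∈ Ioc (i * Δ) (i * Δ + Δ), (indk S h n - sg * ggk S h n)| ≤ EC := by
    intro i hi
    obtain ⟨g1, g2, g3, g4⟩ := hGIm i hi
    have hm : ∀ i', (((((i * Δ : ℕ) : ℤ) + h i').toNat : ℕ) : ℤ) = ((i * Δ : ℕ) : ℤ) + h i' := fun i' =>
      Int.toNat_of_nonneg (le_trans (Int.natCast_nonneg _) (g4 i'))
    have hmY : ∀ i', Y ≤ (((i * Δ : ℕ) : ℤ) + h i').toNat := by
      intro i'
      have : (Y : ℤ) ≤ ((((i * Δ : ℕ) : ℤ) + h i').toNat : ℕ) := by rw [hm]; exact g4 i'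
      exact_mod_cast this
    have hlogm : ∀ m : ℕ, Y ≤ m → 7 / 8 * L ≤ Real.log m := by
      intro m hYm
      refine hlogY.trans (Real.log_le_log (by exact_mod_cast hY1) ?_)
      exact_mod_cast hYm
    have hwin : ∀ i', ∀ n ∈ Ioc (i * Δ) (i * Δ + Δ), 1 ≤ (n : ℤ) + b i' ∧ (n : ℤ) + b i' + H ≤ X := by
      intro i' n hn
      rw [mem_Ioc] at hn
      have h1 : (N₁ : ℤ) < n := by exact_mod_cast lt_of_le_of_lt g1 hn.1
      have h2 : (n : ℤ) ≤ N₂ := by exact_mod_cast hn.2.trans g2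
      have h3 := hw i'
      constructor <;> linarith [h3.1, h3.2]
    rw [hEC]
    apply cellk S U (fun i' s hs => ⟨(hS i' s hs).1, by rw [hU]; exact Nat.le_floor (hS i' s hs).2⟩) (L ^ D₁) δ L J (i * Δ) Δ
      (fun i' => (((i * Δ : ℕ) : ℤ) + h i').toNat) h hm hLD1 (by rw [hδ]) hδ0 hδ4 (by omega) (fun i' => hY1.trans (hmY i'))
      (fun i' => lt_of_lt_of_le hUU (hmY i')) _ _ _ _ _ _ _ hL1 L hL1 hσ sg (X / L ^ A') _ hsg0 (by positivity)
      (hcell i (g2.trans hN2) hwin) _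
    · intro i' s hs
      have h1 := hlogm _ (hmY i')
      have hsp := (hS i' s hs).1
      have h2 : Real.log s ≤ 1 / 8 * L := by
        have h3 := Real.log_le_log (by exact_mod_cast hsp.pos) (hS i' s hs).2
        rw [Real.log_pow] at h3
        linarith
      linarith
    · have := hlogm _ g3
      linarith
    · rw [hδ]
      refine hΔY.trans (mul_le_mul_of_nonneg_left ?_ (by positivity))
      exact_mod_cast g3
    · intro i'
      rw [hδ]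
      refine hΔY.trans (mul_le_mul_of_nonneg_left ?_ (by positivity))
      exact_mod_cast hmY i'
    · intro i' s hs
      rw [hJ, Nat.lt_succ_iff]
      apply Nat.floor_le_floor
      apply mul_le_mul_of_nonneg_left _ hLD1.le
      have h3 := Real.log_le_log (by exact_mod_cast (hS i' s hs).1.pos) (hS i' s hs).2
      rw [Real.log_pow] at h3
      linarith
    · rw [hLd]
      apply Real.log_le_log (by exact_mod_cast (by omega : 0 < i * Δ + Δ))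
      exact_mod_cast g2.trans hN2
    · intro i'
      rw [hLd]
      have h1 : (((i * Δ : ℕ) : ℤ) + h i').toNat + Δ ≤ X := by
        have h2 : (((((i * Δ : ℕ) : ℤ) + h i').toNat + Δ : ℕ) : ℤ) ≤ X := by
          push_cast
          have h3 := hm i'
          push_cast at h3
          rw [h3]
          have h4 : ((i : ℤ) * Δ + Δ) ≤ N₂ := by exact_mod_cast g2
          linarith [(hw i').2, (hh i').2]
        exact_mod_cast h2
      apply Real.log_le_log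
      · have := hmY i'
        exact_mod_cast (by omega : 0 < (((i * Δ : ℕ) : ℤ) + h i').toNat + Δ)
      · exact_mod_cast h1
    · apply badK_card S X E L hLd hL1 (by omega) hS h (i * Δ) (i * Δ + Δ) (g2.trans hN2)
      intro i' n hn
      have h1 := hwin i' n hn
      have h2 := hh i'
      constructor <;> linarith [h1.1, h1.2]
  -- the sum over the cells
  have hsumC : |∑ n ∈ Cu, (indk S h n - sg * ggk S h n)| ≤ GI.card * EC := by
    rw [hCu, sum_biUnion hdisj]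
    refine (abs_sum_le_sum_abs _ _).trans ?_
    have := sum_le_card_nsmul _ _ _ hone
    rwa [nsmul_eq_mul] at this
  have hsumO : |∑ n ∈ Ioc N₁ N₂ \ Cu, (indk S h n - sg * ggk S h n)| ≤ ((k : ℝ) + 3) * (Y + Δ) * (2 ^ (k + 3) * L ^ (2 * k)) := by
    refine (abs_sum_le_sum_abs _ _).trans ?_
    have h1 := sum_le_card_nsmul (Ioc N₁ N₂ \ Cu) (fun n => |indk S h n - sg * ggk S h n|) _ (fun n _ => htriv n)
    rw [nsmul_eq_mul] at h1
    exact h1.trans (mul_le_mul_of_nonneg_right hout (by positivity))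
  rw [← sum_sdiff hCsub]
  refine (abs_add_le _ _).trans ?_
  refine (add_le_add hsumO hsumC).trans ?_
  -- numbers
  have hLA : 0 < L ^ A := by positivity
  obtain ⟨W, hW⟩ : ∃ W : ℝ, W = X / L ^ A := ⟨_, rfl⟩
  have hW0 : 0 ≤ W := by rw [hW]; positivity
  rw [← hW]
  have hC2 : ((k : ℝ) + 4) * 2 ^ (2 * k + 8) ≤ L := by linarith
  have h2k : (1 : ℝ) ≤ 2 ^ k := one_le_pow₀ (by norm_num)
  have h4k : (2 : ℝ) ^ (2 * k + 8) = 256 * (2 ^ k * 2 ^ k) := by rw [pow_add, two_mul, pow_add]; norm_num; ring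
  rw [h4k] at hC2
  obtain ⟨q, hq⟩ : ∃ q : ℝ, q = 2 ^ k := ⟨_, rfl⟩
  rw [← hq] at h2k hC2
  have hqq : q ≤ q * q := le_mul_of_one_le_left (by linarith) h2k
  have hkqq : 0 ≤ (k : ℝ) * (q * q) := by positivity
  have hkq : 0 ≤ (k : ℝ) * q := by positivity
  have hkqq2 : (k : ℝ) * q ≤ k * (q * q) := mul_le_mul_of_nonneg_left hqq hk0
  have T1 : ((k : ℝ) + 3) * (Y + Δ) * (2 ^ (k + 3) * L ^ (2 * k)) ≤ W * (1 / 4) := by
    have h1 : (Y : ℝ) + Δ ≤ 3 * (X / L ^ D₁) := by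
      have h2 : (X : ℝ) / L ^ D₂ ≤ X / L ^ D₁ := by
        apply div_le_div_of_nonneg_left hX0.le hLD1
        exact pow_le_pow_right₀ hL1 (by omega)
      linarith
    have h3 : 12 * (((k : ℝ) + 3) * 2 ^ (k + 3)) ≤ L ^ 3 := by
      have h4 : (2 : ℝ) ^ (k + 3) = 8 * q := by rw [hq]; ring
      rw [h4]
      have h5 : L ≤ L ^ 3 := le_self_pow₀ hL1 (by norm_num)
      nlinarith
    calc ((k : ℝ) + 3) * (Y + Δ) * (2 ^ (k + 3) * L ^ (2 * k)) ≤ ((k : ℝ) + 3) * (3 * (X / L ^ D₁)) * (2 ^ (k + 3) * L ^ (2 * k)) := by gcongr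
      _ = W * ((12 * (((k : ℝ) + 3) * 2 ^ (k + 3))) / L ^ 3 * (1 / 4)) := by
          rw [hW, hD₁, show L ^ (A + 2 * k + 3) = L ^ A * L ^ (2 * k) * L ^ 3 by ring]
          field_simp
          ring
      _ ≤ W * (1 * (1 / 4)) := by
          apply mul_le_mul_of_nonneg_left _ hW0
          apply mul_le_mul_of_nonneg_right _ (by norm_num)
          rw [div_le_one (by positivity)]
          exact h3
      _ = W * (1 / 4) := by ring
  have P1 : (GI.card : ℝ) * (2 ^ (k + 1) * δ * Δ) ≤ W * (1 / 8) := by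
    have h3 : 8 * (2 : ℝ) ^ (k + 1) ≤ L ^ (2 * k + 3) := by
      have h4 : (2 : ℝ) ^ (k + 1) = 2 * q := by rw [hq]; ring
      rw [h4]
      have h5 : L ≤ L ^ (2 * k + 3) := le_self_pow₀ hL1 (by omega)
      nlinarith
    calc (GI.card : ℝ) * (2 ^ (k + 1) * δ * Δ) = (GI.card * Δ) * (2 ^ (k + 1) * δ) := by ring
      _ ≤ X * (2 ^ (k + 1) * δ) := by gcongr
      _ = W * ((8 * (2 : ℝ) ^ (k + 1)) / L ^ (2 * k + 3) * (1 / 8)) := by
          rw [hδ, hW, hD₁, show L ^ (A + 2 * k + 3) = L ^ A * L ^ (2 * k + 3) by ring]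
          field_simp
      _ ≤ W * (1 * (1 / 8)) := by
          apply mul_le_mul_of_nonneg_left _ hW0
          apply mul_le_mul_of_nonneg_right _ (by norm_num)
          rw [div_le_one (by positivity)]
          exact h3
      _ = W * (1 / 8) := by ring
  have P4 : (GI.card : ℝ) * (sg * ((k + 1) * L ^ (k + 1) * δ) * Δ) ≤ W * (1 / 8) := by
    have h3 : 16 * ((k : ℝ) + 1) ≤ L ^ 2 := by
      have h5 : L ≤ L ^ 2 := le_self_pow₀ hL1 (by norm_num)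
      nlinarith
    calc (GI.card : ℝ) * (sg * ((k + 1) * L ^ (k + 1) * δ) * Δ) = (GI.card * Δ) * (sg * ((k + 1) * L ^ (k + 1) * δ)) := by ring
      _ ≤ X * ((2 * L ^ k) * ((k + 1) * L ^ (k + 1) * δ)) := by gcongr
      _ = W * ((16 * ((k : ℝ) + 1)) / L ^ 2 * (1 / 8)) := by
          rw [hδ, hW, hD₁, show L ^ (A + 2 * k + 3) = L ^ A * (L ^ k * L ^ (k + 1)) * L ^ 2 by ring]
          field_simp
          ring
      _ ≤ W * (1 * (1 / 8)) := by
          apply mul_le_mul_of_nonneg_left _ hW0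
          apply mul_le_mul_of_nonneg_right _ (by norm_num)
          rw [div_le_one (by positivity)]
          exact h3
      _ = W * (1 / 8) := by ring
  have hJk : (J : ℝ) ^ k ≤ q * L ^ ((D₁ + 1) * k) := by
    calc (J : ℝ) ^ k ≤ (2 * L ^ (D₁ + 1)) ^ k := pow_le_pow_left₀ hJ0 hJle k
      _ = q * L ^ ((D₁ + 1) * k) := by rw [mul_pow, ← pow_mul, hq]
  have P3 : (GI.card : ℝ) * (J ^ k * (X / L ^ A')) ≤ W * (1 / 8) := by
    have h3 : 24 * q ≤ L ^ (k + 3) := by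
      have h5 : L ≤ L ^ (k + 3) := le_self_pow₀ hL1 (by omega)
      nlinarith
    calc (GI.card : ℝ) * (J ^ k * (X / L ^ A')) ≤ (3 * L ^ D₂) * ((q * L ^ ((D₁ + 1) * k)) * (X / L ^ A')) := by gcongr
      _ = W * ((24 * q) / L ^ (k + 3) * (1 / 8)) := by
          rw [hW, hA', show L ^ (A + D₂ + (D₁ + 2) * k + 3) = L ^ A * L ^ D₂ * L ^ ((D₁ + 1) * k) * L ^ (k + 3) by ring]
          field_simp
          ring
      _ ≤ W * (1 * (1 / 8)) := by
          apply mul_le_mul_of_nonneg_left _ hW0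
          apply mul_le_mul_of_nonneg_right _ (by norm_num)
          rw [div_le_one (by positivity)]
          exact h3
      _ = W * (1 / 8) := by ring
  have P2 : (GI.card : ℝ) * ((6 * L * √(X : ℝ)) * (1 + k * L ^ E) * (1 + L * (2 * L ^ 2 * J) ^ k)) ≤ W * (1 / 8) := by
    have h1 : 1 + (k : ℝ) * L ^ E ≤ (k + 1) * L ^ E := by
      have := hpow E
      linarith
    have h2 : (2 * L ^ 2 * J) ^ k ≤ (q * q) * L ^ ((D₁ + 3) * k) := by
      calc (2 * L ^ 2 * J) ^ k ≤ (2 * L ^ 2 * (2 * L ^ (D₁ + 1))) ^ k := by gcongr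
        _ = (2 * 2 * L ^ (D₁ + 3)) ^ k := by ring
        _ = (q * q) * L ^ ((D₁ + 3) * k) := by rw [mul_pow, mul_pow, ← pow_mul, hq]
    have h3 : 1 + L * (2 * L ^ 2 * J) ^ k ≤ 2 * (q * q) * L ^ ((D₁ + 3) * k + 1) := by
      have h4 : L * (2 * L ^ 2 * J) ^ k ≤ L * ((q * q) * L ^ ((D₁ + 3) * k)) := mul_le_mul_of_nonneg_left h2 hL0.le
      have h5 : 1 ≤ (q * q) * L ^ ((D₁ + 3) * k + 1) := one_le_mul_of_one_le_of_one_le (by nlinarith) (hpow _)
      have h6 : L * ((q * q) * L ^ ((D₁ + 3) * k)) = (q * q) * L ^ ((D₁ + 3) * k + 1) := by ring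
      linarith
    have h7 : 36 * ((k : ℝ) + 1) * (q * q) ≤ L := by nlinarith
    have h8 : (GI.card : ℝ) * ((6 * L * √(X : ℝ)) * (1 + k * L ^ E) * (1 + L * (2 * L ^ 2 * J) ^ k)) ≤
        √(X : ℝ) * L ^ (D₂ + E + (D₁ + 3) * k + 3) := by
      calc (GI.card : ℝ) * ((6 * L * √(X : ℝ)) * (1 + k * L ^ E) * (1 + L * (2 * L ^ 2 * J) ^ k))
          ≤ (3 * L ^ D₂) * ((6 * L * √(X : ℝ)) * ((k + 1) * L ^ E) * (2 * (q * q) * L ^ ((D₁ + 3) * k + 1))) := by gcongr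
        _ = (36 * ((k : ℝ) + 1) * (q * q)) * (√(X : ℝ) * L ^ (D₂ + E + (D₁ + 3) * k + 2)) := by ring
        _ ≤ L * (√(X : ℝ) * L ^ (D₂ + E + (D₁ + 3) * k + 2)) := mul_le_mul_of_nonneg_right h7 (by positivity)
        _ = _ := by ring
    refine h8.trans ?_
    rw [hW, div_mul_eq_mul_div, le_div_iff₀ hLA]
    have h9 : L ^ (D₂ + E + (D₁ + 3) * k + 3) * L ^ A ≤ L ^ K := by
      rw [← pow_add]
      exact pow_le_pow_right₀ hL1 (by omega)
    calc √(X : ℝ) * L ^ (D₂ + E + (D₁ + 3) * k + 3) * L ^ A = √(X : ℝ) * (L ^ (D₂ + E + (D₁ + 3) * k + 3) * L ^ A) := by ring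
      _ ≤ √(X : ℝ) * L ^ K := mul_le_mul_of_nonneg_left h9 hs0.le
      _ = √(X : ℝ) * (8 * L ^ K) * (1 / 8) := by ring
      _ ≤ √(X : ℝ) * √(X : ℝ) * (1 / 8) := by gcongr
      _ = X * (1 / 8) := by rw [hss]
  have hfin : (GI.card : ℝ) * EC = (GI.card : ℝ) * (2 ^ (k + 1) * δ * Δ) +
      (GI.card : ℝ) * ((6 * L * √(X : ℝ)) * (1 + k * L ^ E) * (1 + L * (2 * L ^ 2 * J) ^ k)) +
      (GI.card : ℝ) * (J ^ k * (X / L ^ A')) + (GI.card : ℝ) * (sg * ((k + 1) * L ^ (k + 1) * δ) * Δ) := by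
    rw [hEC]
    ring
  rw [hfin]
  linarith

end Pool.Agent.H561.E3
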