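import Pool.Agent.H561.E3.K17

set_option autoImplicit false

/-! Numbers of primes `n` with all `n + h_i` products of two primes: error `X / (log X) ^ A`, all windows, almost all `h`. -/

namespace Pool.Agent.H561.E3

open Finset Filter Topology
open Pool.Agent.helper24_UT
open Pool.Agent.H373R2.T7 (pz mem_pz Vz Vz_pos Vz_inv_small lamz)
open Pool.Agent.H561.E2

open Classical in
theorem sharpT (k A : ℕ) : ∃ a G : ℕ, ∀ E : ℕ, ∃ X₀ : ℕ, ∀ X : ℕ, X₀ ≤ X →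
    ∀ S : Fin k → Finset ℕ, (∀ i, ∀ p ∈ S i, p.Prime ∧ (Real.log X) ^ a < p ∧ (p : ℝ) ≤ (Real.log X) ^ E) →
    ∀ H : ℕ, (Real.log X) ^ (E + G) ≤ H → ∀ b : Fin k → ℤ,
    (((Fintype.piFinset (fun i : Fin k => Ico (b i) (b i + H))).filter (fun h => NDeg (fun _ => 1) h ∧
      ¬ ∀ N₁ N₂ : ℕ, N₂ ≤ X → (∀ i, 0 ≤ (N₁ : ℤ) + b i ∧ (N₂ : ℤ) + b i + H ≤ X) → N₁ ≤ N₂ →
        |(cntE (fun _ => 1) S N₁ N₂ h : ℝ) - singT (fun _ => 1) h * ∑ n ∈ Ioc N₁ N₂, ggk S h n| ≤ X / (Real.log X) ^ A)).card : ℝ) ≤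
      (H : ℝ) ^ k / (Real.log X) ^ A := by
  obtain ⟨D₁, hD₁⟩ : ∃ D₁, D₁ = A + 2 * k + 3 := ⟨_, rfl⟩
  obtain ⟨D₂, hD₂⟩ : ∃ D₂, D₂ = D₁ + D₁ := ⟨_, rfl⟩
  obtain ⟨A', hA'⟩ : ∃ A', A' = A + D₂ + (D₁ + 2) * k + 3 := ⟨_, rfl⟩
  obtain ⟨a, G, hT⟩ := tupI k (fun _ => 1) (fun _ => one_ne_zero) A'
  refine ⟨a, G, fun E => ?_⟩
  obtain ⟨X₁, hT⟩ := hT E
  obtain ⟨X₂, hsing⟩ := sing_up k
  obtain ⟨K, hK⟩ : ∃ K, K = A + D₂ + 2 * E + (D₁ + 3) * k + 5 := ⟨_, rfl⟩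
  obtain ⟨X₃, hll⟩ := ev_ll ((E + D₁ + 1 : ℕ) : ℝ) (1 / 8) (by norm_num)
  obtain ⟨X₄, hX₄⟩ := Filter.eventually_atTop.1 ((Sil2.ev_log (1000 + ((k : ℝ) + 4) * 2 ^ (2 * k + 8))).and
    (Sil2.ev_pow K (1 / 2) 8 (by norm_num)))
  refine ⟨max (max X₁ X₂) (max X₃ X₄), fun X hX S hS H hH b => ?_⟩
  have hX1 : X₁ ≤ X := ((le_max_left _ _).trans (le_max_left _ _)).trans hX
  have hX2 : X₂ ≤ X := ((le_max_right _ _).trans (le_max_left _ _)).trans hX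
  have hll := hll X (((le_max_left _ _).trans (le_max_right _ _)).trans hX)
  obtain ⟨hC, hpw⟩ := hX₄ X (((le_max_right _ _).trans (le_max_right _ _)).trans hX)
  have hT := hT X hX1
  have hsing := hsing X hX2
  rw [← Real.sqrt_eq_rpow] at hpw
  obtain ⟨L, hLd⟩ : ∃ L, L = Real.log (X : ℝ) := ⟨_, rfl⟩
  rw [← hLd] at hll hC hpw hT hsing hS hH ⊢
  have hCp : 0 ≤ ((k : ℝ) + 4) * 2 ^ (2 * k + 8) := by positivity
  have hL1000 : 1000 ≤ L := by linarith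
  have hL1 : 1 ≤ L := by linarith
  have hL0 : 0 < L := by linarith
  have hpow : ∀ m : ℕ, 1 ≤ L ^ m := fun m => one_le_pow₀ hL1
  have hXpos : 0 < X := by
    rcases Nat.eq_zero_or_pos X with h0 | h0
    · rw [h0] at hLd
      simp at hLd
      linarith
    · exact h0
  have hX0 : (0 : ℝ) < X := by exact_mod_cast hXpos
  obtain ⟨Δ, hΔ⟩ : ∃ Δ : ℕ, Δ = ⌊(X : ℝ) / L ^ D₂⌋₊ := ⟨_, rfl⟩
  obtain ⟨J, hJ⟩ : ∃ J : ℕ, J = ⌊L ^ D₁ * L⌋₊ + 1 := ⟨_, rfl⟩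
  have hLD2 : 0 < L ^ D₂ := by positivity
  have hss : √(X : ℝ) * √(X : ℝ) = X := Real.mul_self_sqrt hX0.le
  have hXD2 : 2 ≤ (X : ℝ) / L ^ D₂ := by
    rw [le_div_iff₀ hLD2]
    have h1 : L ^ D₂ ≤ L ^ K := pow_le_pow_right₀ hL1 (by omega)
    have h3 := hpow K
    have h2 : √(X : ℝ) ≤ X := by
      calc √(X : ℝ) ≤ √(X : ℝ) * √(X : ℝ) := le_mul_of_one_le_left (by linarith) (by linarith)
        _ = X := hss
    linarith
  have hΔge : (X : ℝ) / L ^ D₂ ≤ 2 * Δ := by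
    have h1 := (Nat.lt_floor_add_one ((X : ℝ) / L ^ D₂)).le
    rw [← hΔ] at h1
    linarith
  have hΔ1 : 1 ≤ Δ := by
    have : (0 : ℝ) < Δ := by linarith
    exact_mod_cast this
  -- the exceptional sets
  obtain ⟨V, hV⟩ : ∃ V : Finset ℕ, V = (range (X / Δ + 1)).filter (fun i => i * Δ + Δ ≤ X ∧
    ∀ i' : Fin k, ∀ n ∈ Ioc (i * Δ) (i * Δ + Δ), 1 ≤ (n : ℤ) + b i' ∧ (n : ℤ) + b i' + H ≤ X) := ⟨_, rfl⟩
  obtain ⟨Ex, hEx⟩ : ∃ Ex : ℕ → (Fin k → ℕ) → Finset (Fin k → ℤ), Ex = fun i j =>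
    (Fintype.piFinset (fun i : Fin k => Ico (b i) (b i + H))).filter (fun h => NDeg (fun _ => 1) h ∧
      ¬ |WL (fun _ => 1) (fun i' => SJ (S i') (L ^ D₁) (j i')) (i * Δ) (i * Δ + Δ) h -
        Mn (fun _ => 1) (fun i' => SJ (S i') (L ^ D₁) (j i')) (i * Δ) (i * Δ + Δ) h| ≤ X / L ^ A') := ⟨_, rfl⟩
  obtain ⟨Exc, hExc⟩ : ∃ Exc : Finset (Fin k → ℤ), Exc = (V ×ˢ Fintype.piFinset (fun _ : Fin k => range J)).biUnion
    (fun x => Ex x.1 x.2) := ⟨_, rfl⟩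
  have hExle : ∀ i ∈ V, ∀ j : Fin k → ℕ, ((Ex i j).card : ℝ) ≤ (H : ℝ) ^ k / L ^ A' := by
    intro i hi j
    rw [hV, mem_filter] at hi
    rw [hEx]
    refine hT (fun i' => SJ (S i') (L ^ D₁) (j i')) (fun i' p hp => ?_) H hH (i * Δ) (i * Δ + Δ) b (by omega) hi.2.1 (fun i' n hn => ?_)
    · unfold SJ at hp
      rw [mem_filter] at hp
      exact hS i' p hp.1
    · rw [one_mul]
      exact hi.2.2 i' n hn
  have hVc : (V.card : ℝ) ≤ 3 * L ^ D₂ := by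
    have h1 : V.card ≤ X / Δ + 1 := by
      rw [hV]
      refine (card_filter_le _ _).trans ?_
      rw [card_range]
    have h2 : ((X / Δ : ℕ) : ℝ) ≤ 2 * L ^ D₂ := by
      have h3 : ((X / Δ : ℕ) : ℝ) ≤ (X : ℝ) / Δ := Nat.cast_div_le
      refine h3.trans ?_
      rw [div_le_iff₀ (by exact_mod_cast hΔ1)]
      rw [div_le_iff₀ hLD2] at hΔge
      linarith
    have h3 : (V.card : ℝ) ≤ ((X / Δ : ℕ) : ℝ) + 1 := by exact_mod_cast h1
    have := hpow D₂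
    linarith
  have hJle : (J : ℝ) ≤ 2 * L ^ (D₁ + 1) := by
    have h1 : ((⌊L ^ D₁ * L⌋₊ : ℕ) : ℝ) ≤ L ^ D₁ * L := Nat.floor_le (by positivity)
    have h2 : L ^ D₁ * L = L ^ (D₁ + 1) := by ring
    have h3 := hpow (D₁ + 1)
    rw [hJ]
    push_cast
    linarith
  have hExccard : (Exc.card : ℝ) ≤ (H : ℝ) ^ k / L ^ A := by
    have h1 : (Exc.card : ℝ) ≤ ∑ x ∈ V ×ˢ Fintype.piFinset (fun _ : Fin k => range J), ((Ex x.1 x.2).card : ℝ) := by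
      rw [hExc]
      exact_mod_cast card_biUnion_le
    have h2 : ∀ x ∈ V ×ˢ Fintype.piFinset (fun _ : Fin k => range J), ((Ex x.1 x.2).card : ℝ) ≤ (H : ℝ) ^ k / L ^ A' := by
      intro x hx
      rw [mem_product] at hx
      exact hExle x.1 hx.1 x.2
    have h3 := sum_le_card_nsmul _ _ _ h2
    rw [card_product, Fintype.card_piFinset, prod_const, card_univ, Fintype.card_fin, card_range, nsmul_eq_mul] at h3
    push_cast at h3
    refine h1.trans (h3.trans ?_)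
    have hJk : (J : ℝ) ^ k ≤ 2 ^ k * L ^ ((D₁ + 1) * k) := by
      calc (J : ℝ) ^ k ≤ (2 * L ^ (D₁ + 1)) ^ k := pow_le_pow_left₀ (Nat.cast_nonneg _) hJle k
        _ = 2 ^ k * L ^ ((D₁ + 1) * k) := by rw [mul_pow, ← pow_mul]
    have h4 : 3 * (2 : ℝ) ^ k ≤ L := by
      have h5 : (2 : ℝ) ^ (2 * k + 8) = 256 * (2 ^ k * 2 ^ k) := by rw [pow_add, two_mul, pow_add]; norm_num; ring
      rw [h5] at hC
      have h6 : (1 : ℝ) ≤ 2 ^ k := one_le_pow₀ (by norm_num)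
      have h7 : (2 : ℝ) ^ k ≤ 2 ^ k * 2 ^ k := le_mul_of_one_le_left (by linarith) h6
      have h8 : 0 ≤ (k : ℝ) * (256 * (2 ^ k * 2 ^ k)) := by positivity
      linarith
    have hH0 : (0 : ℝ) ≤ (H : ℝ) ^ k := by positivity
    calc (V.card : ℝ) * (J : ℝ) ^ k * ((H : ℝ) ^ k / L ^ A') ≤ (3 * L ^ D₂) * (2 ^ k * L ^ ((D₁ + 1) * k)) * ((H : ℝ) ^ k / L ^ A') := by gcongr
      _ = (H : ℝ) ^ k / L ^ A * ((3 * 2 ^ k) / L ^ (k + 3)) := by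
          rw [hA', show L ^ (A + D₂ + (D₁ + 2) * k + 3) = L ^ A * L ^ D₂ * L ^ ((D₁ + 1) * k) * L ^ (k + 3) by ring]
          field_simp
      _ ≤ (H : ℝ) ^ k / L ^ A * 1 := by
          apply mul_le_mul_of_nonneg_left _ (by positivity)
          rw [div_le_one (by positivity)]
          exact h4.trans (le_self_pow₀ hL1 (by omega))
      _ = (H : ℝ) ^ k / L ^ A := mul_one _
  refine le_trans ?_ hExccard
  have hsub : (Fintype.piFinset (fun i : Fin k => Ico (b i) (b i + H))).filter (fun h => NDeg (fun _ => 1) h ∧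
      ¬ ∀ N₁ N₂ : ℕ, N₂ ≤ X → (∀ i, 0 ≤ (N₁ : ℤ) + b i ∧ (N₂ : ℤ) + b i + H ≤ X) → N₁ ≤ N₂ →
        |(cntE (fun _ => 1) S N₁ N₂ h : ℝ) - singT (fun _ => 1) h * ∑ n ∈ Ioc N₁ N₂, ggk S h n| ≤ X / L ^ A) ⊆ Exc := by
    intro h hh
    rw [mem_filter] at hh
    obtain ⟨h1, h2, h3⟩ := hh
    by_contra hcon
    apply h3
    intro N₁ N₂ hN2 hw hN
    rw [cntE_ind, mul_sum, ← sum_sub_distrib]
    have h1' := h1
    rw [Fintype.mem_piFinset] at h1'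
    have hbox : ∀ i, b i ≤ h i ∧ h i < b i + H := fun i => by
      have := h1' i
      rwa [mem_Ico] at this
    have habs : ∀ i, h i ≠ 0 ∧ |h i| ≤ (X : ℤ) := by
      intro i
      refine ⟨h2.1 i, ?_⟩
      have g1 := hw i
      have g2 := hbox i
      have g3 : (N₁ : ℤ) ≤ N₂ := by exact_mod_cast hN
      have g4 : (N₂ : ℤ) ≤ X := by exact_mod_cast hN2
      have g5 : (0 : ℤ) ≤ N₂ := Int.natCast_nonneg _
      rw [abs_le]
      constructor <;> linarith [g1.1, g1.2, g2.1, g2.2]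
    obtain ⟨s1, s2⟩ := hsing h habs h2.2
    refine assem A E D₁ D₂ A' K hD₁ hD₂ hA' hK X L hLd hC hll hpw S (fun i p hp => ⟨(hS i p hp).1, (hS i p hp).2.2⟩) H b h hbox
      (singT (fun _ => 1) h) s1 s2 Δ hΔ J hJ ?_ N₁ N₂ hN2 hw
    intro i hiX hwin j hj
    have hnot : h ∉ Ex i j := by
      intro hmem
      apply hcon
      rw [hExc, mem_biUnion]
      refine ⟨(i, j), ?_, hmem⟩
      rw [mem_product]
      refine ⟨?_, ?_⟩
      · rw [hV, mem_filter, mem_range]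
        refine ⟨?_, hiX, hwin⟩
        have h5 : i ≤ X / Δ := by
          rw [Nat.le_div_iff_mul_le (by omega)]
          omega
        omega
      · rw [Fintype.mem_piFinset]
        intro i'
        rw [mem_range]
        exact hj i'
    rw [hEx] at hnot
    simp only [mem_filter, not_and, not_not] at hnot
    have h4 := hnot h1 h2
    unfold WL Mn LFo at h4
    simp only [one_mul] at h4
    have e1 : (((i * Δ + Δ : ℕ) : ℝ) - ((i * Δ : ℕ) : ℝ)) = Δ := by push_cast; ring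
    rw [e1] at h4
    exact h4
  exact_mod_cast card_le_card hsub

end Pool.Agent.H561.E3
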