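import Pool.Agent.H561.E3.K1

set_option autoImplicit false

/-! Several linear forms: the sum over the systems of distinct large primes. -/

namespace Pool.Agent.H561.E3

open Finset
open Pool.Agent.H373R2.T7
open Pool.Agent.H561.E2 (LFo LFo_mod xg xg_nonneg xg_le' sum_S QJ QJ_perA QJ_per rho bigc classes_le yi yi_nonneg rough rough_nonneg rough_le)

/-- the sum over the `n` with `g_i ∣ L_i (n)` -/
noncomputable def Yg {k : ℕ} (c h : Fin k → ℤ) (N z : ℕ) (g : Fin k → ℕ) : ℝ :=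
  ∑ n ∈ Icc 1 N, ArithmeticFunction.vonMangoldt n * (rough c h z n * ∏ i, yi c h g i n)

open Classical in
lemma Yg_term {k : ℕ} (c h : Fin k → ℤ) (z : ℕ) (g : Fin k → ℕ) (n : ℕ) :
    ArithmeticFunction.vonMangoldt n * (rough c h z n * ∏ i, yi c h g i n) =
      if (∀ p ∈ pz z, ¬ QA c h p n) ∧ (∀ i, (g i : ℤ) ∣ LFo c h i n) then ArithmeticFunction.vonMangoldt n else 0 := by
  by_cases h1 : ∀ p ∈ pz z, ¬ QA c h p n
  · have e1 : rough c h z n = 1 := by
      unfold rough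
      rw [if_pos (fun p hp i hi => h1 p hp ⟨i, hi⟩)]
    rw [e1, one_mul]
    by_cases h2 : ∀ i, (g i : ℤ) ∣ LFo c h i n
    · have e2 : ∏ i, yi c h g i n = 1 := prod_eq_one fun i _ => by
        unfold yi
        rw [if_pos (h2 i)]
      rw [e2, mul_one, if_pos ⟨h1, h2⟩]
    · have h3 := h2
      push Not at h3
      obtain ⟨i, hi⟩ := h3
      have e2 : ∏ i, yi c h g i n = 0 := prod_eq_zero (mem_univ i) (by
        unfold yi
        rw [if_neg hi])
      rw [e2, mul_zero, if_neg (fun h4 => h2 h4.2)]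
  · have e1 : rough c h z n = 0 := by
      unfold rough
      rw [if_neg]
      intro h2
      apply h1
      rintro p hp ⟨i, hi⟩
      exact h2 p hp i hi
    rw [e1, zero_mul, mul_zero, if_neg (fun h4 => h1 h4.1)]

lemma Yg_Wt {k : ℕ} (c h : Fin k → ℤ) (N z : ℕ) (g : Fin k → ℕ) :
    |Yg c h N z g - Wt c h N z g| ≤ z * ((Nat.log 2 N + 1 : ℝ) * Real.log N) := by
  classical
  have hlN : 0 ≤ (Nat.log 2 N + 1 : ℝ) * Real.log N := by
    have := Real.log_natCast_nonneg N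
    positivity
  unfold Yg Wt
  rw [← sum_sub_distrib]
  refine (abs_sum_le_sum_abs _ _).trans ?_
  have h7 : ∀ n ∈ Icc 1 N, |ArithmeticFunction.vonMangoldt n * (rough c h z n * ∏ i, yi c h g i n) -
      (if (∀ p ∈ pz z, ¬ p ∣ n ∧ ¬ QA c h p n) ∧ (∀ i, (g i : ℤ) ∣ LFo c h i n) then ArithmeticFunction.vonMangoldt n else 0)| ≤
      ∑ p ∈ pz z, if p ∣ n then ArithmeticFunction.vonMangoldt n else 0 := by
    intro n _
    rw [Yg_term]
    have h8 : (0 : ℝ) ≤ ArithmeticFunction.vonMangoldt n := ArithmeticFunction.vonMangoldt_nonneg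
    have h9 : 0 ≤ ∑ p ∈ pz z, if p ∣ n then ArithmeticFunction.vonMangoldt n else 0 :=
      sum_nonneg fun p _ => by split_ifs <;> simp [h8]
    by_cases h10 : ∀ p ∈ pz z, ¬ p ∣ n
    · by_cases h11 : (∀ p ∈ pz z, ¬ QA c h p n) ∧ (∀ i, (g i : ℤ) ∣ LFo c h i n)
      · rw [if_pos h11, if_pos ⟨fun p hp => ⟨h10 p hp, h11.1 p hp⟩, h11.2⟩, sub_self, abs_zero]
        exact h9
      · rw [if_neg h11, if_neg (fun h12 => h11 ⟨fun p hp => (h12.1 p hp).2, h12.2⟩), sub_self, abs_zero]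
        exact h9
    · have h11 : ¬ ((∀ p ∈ pz z, ¬ p ∣ n ∧ ¬ QA c h p n) ∧ (∀ i, (g i : ℤ) ∣ LFo c h i n)) := fun h12 => h10 fun p hp => (h12.1 p hp).1
      rw [if_neg h11, sub_zero]
      push Not at h10
      obtain ⟨p, hp, hpn⟩ := h10
      have h12 : |(if (∀ p ∈ pz z, ¬ QA c h p n) ∧ (∀ i, (g i : ℤ) ∣ LFo c h i n) then ArithmeticFunction.vonMangoldt n else 0)| ≤
          ArithmeticFunction.vonMangoldt n := by
        split_ifs
        · rw [abs_of_nonneg h8]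
        · rw [abs_zero]; exact h8
      refine h12.trans ?_
      have h13 := single_le_sum (f := fun p => if p ∣ n then ArithmeticFunction.vonMangoldt n else (0 : ℝ))
        (s := pz z) (fun p _ => by split_ifs <;> simp [h8]) hp
      simp only [if_pos hpn] at h13
      exact h13
  refine (sum_le_sum h7).trans ?_
  rw [sum_comm]
  have h8 : ∀ p ∈ pz z, ∑ n ∈ Icc 1 N, (if p ∣ n then ArithmeticFunction.vonMangoldt n else 0) ≤
      (Nat.log 2 N + 1 : ℝ) * Real.log N := by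
    intro p hp
    rw [← sum_filter]
    exact lam_mult_prime N p (mem_pz.1 hp).2
  refine (sum_le_sum h8).trans ?_
  rw [sum_const, nsmul_eq_mul]
  apply mul_le_mul_of_nonneg_right _ hlN
  exact_mod_cast card_pz_le z

/-- a prime `g_i` which divides `h_i` -/
lemma Yg_bad {k : ℕ} (c h : Fin k → ℤ) (N z : ℕ) (g : Fin k → ℕ) (i : Fin k) (hg : (g i).Prime) (hgc : ¬ (g i : ℤ) ∣ c i)
    (hgh : (g i : ℤ) ∣ h i) : |Yg c h N z g| ≤ (Nat.log 2 N + 1 : ℝ) * Real.log N := by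
  classical
  unfold Yg
  have h8 : ∀ n : ℕ, (0 : ℝ) ≤ ArithmeticFunction.vonMangoldt n := fun n => ArithmeticFunction.vonMangoldt_nonneg
  rw [abs_of_nonneg (sum_nonneg fun n _ => by
    rw [Yg_term]
    split_ifs <;> simp [h8])]
  refine le_trans ?_ (lam_mult_prime N (g i) hg)
  rw [sum_filter]
  apply sum_le_sum
  intro n _
  rw [Yg_term]
  split_ifs with h1 h2 h2
  · exact le_rfl
  · exfalso
    apply h2
    have h0 := h1.2 i
    unfold LFo at h0
    have h3 : (g i : ℤ) ∣ c i * n := (Int.dvd_add_left hgh).1 h0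
    have h4 := ((Nat.prime_iff_prime_int.1 hg).dvd_or_dvd h3).resolve_left hgc
    exact_mod_cast h4
  · exact h8 n
  · exact le_rfl

lemma big_injK {k : ℕ} (z r P : ℕ) (GI : Finset (Fin k → ℕ)) (hG : ∀ g ∈ GI, Function.Injective g ∧ ∀ i, (g i).Prime ∧ z < g i ∧ g i ≤ P)
    (F : ℕ → ℝ) (hF : ∀ d, 0 ≤ F d) :
    ∑ g ∈ GI, ∑ j ∈ range (r + 1), ∑ T ∈ (pz z).powersetCard j, F ((∏ i, g i) * ∏ p ∈ T, p) ≤
      (k : ℝ) ^ k * ∑ d ∈ Icc 1 (P ^ k * (z + 1) ^ r), F d := by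
  classical
  set I := (range (r + 1)).sigma (fun j => (pz z).powersetCard j) with hI
  have hmem : ∀ x ∈ I, x.1 ≤ r ∧ x.2 ⊆ pz z ∧ x.2.card = x.1 := by
    intro x hx
    rw [hI, mem_sigma, mem_range, mem_powersetCard] at hx
    exact ⟨by omega, hx.2.1, hx.2.2⟩
  obtain ⟨f, hf⟩ : ∃ f : (Fin k → ℕ) × (Σ _ : ℕ, Finset ℕ) → ℕ, ∀ y, f y = (∏ i, y.1 i) * ∏ p ∈ y.2.2, p := ⟨_, fun _ => rfl⟩
  have e1 : ∑ g ∈ GI, ∑ j ∈ range (r + 1), ∑ T ∈ (pz z).powersetCard j, F ((∏ i, g i) * ∏ p ∈ T, p) =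
      ∑ y ∈ GI ×ˢ I, F (f y) := by
    rw [sum_product]
    apply sum_congr rfl
    intro g _
    rw [hI, sum_sigma']
    apply sum_congr rfl
    intro x _
    rw [hf]
  have hdisj : ∀ y ∈ GI ×ˢ I, Disjoint (univ.image y.1) y.2.2 := by
    intro y hy
    rw [mem_product] at hy
    rw [Finset.disjoint_left]
    intro p hp hp'
    rw [mem_image] at hp
    obtain ⟨i, _, rfl⟩ := hp
    have h1 := ((hG _ hy.1).2 i).2.1
    have h2 := (mem_pz.1 ((hmem _ hy.2).2.1 hp')).1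
    omega
  have hprodf : ∀ y ∈ GI ×ˢ I, f y = ∏ p ∈ univ.image y.1 ∪ y.2.2, p := by
    intro y hy
    rw [prod_union (hdisj y hy), prod_image (fun a _ b _ hab => (hG _ (mem_product.1 hy).1).1 hab), hf]
  have hprime : ∀ y ∈ GI ×ˢ I, ∀ p ∈ univ.image y.1 ∪ y.2.2, p.Prime := by
    intro y hy p hp
    rw [mem_product] at hy
    rw [mem_union, mem_image] at hp
    rcases hp with ⟨i, _, rfl⟩ | hp
    · exact ((hG _ hy.1).2 i).1
    · exact (mem_pz.1 ((hmem _ hy.2).2.1 hp)).2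
  have hmaps : ∀ y ∈ GI ×ˢ I, f y ∈ Icc 1 (P ^ k * (z + 1) ^ r) := by
    intro y hy
    have hy' := mem_product.1 hy
    rw [mem_Icc]
    constructor
    · rw [hprodf y hy]
      exact Nat.pos_of_ne_zero (prod_ne_zero_iff.2 fun p hp => (hprime y hy p hp).ne_zero)
    · rw [hf]
      apply Nat.mul_le_mul
      · calc ∏ i, y.1 i ≤ ∏ _i : Fin k, P := prod_le_prod' fun i _ => ((hG _ hy'.1).2 i).2.2
          _ = P ^ k := by rw [prod_const, card_univ, Fintype.card_fin]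
      · exact prod_le_pow _ z r (hmem _ hy'.2).2.1 ((hmem _ hy'.2).2.2.trans_le (hmem _ hy'.2).1)
  rw [e1, ← sum_fiberwise_of_maps_to hmaps, mul_sum]
  apply sum_le_sum
  intro d _
  have e2 : ∑ y ∈ (GI ×ˢ I).filter (fun y => f y = d), F (f y) = (((GI ×ˢ I).filter (fun y => f y = d)).card : ℝ) * F d := by
    rw [← nsmul_eq_mul, ← sum_const]
    apply sum_congr rfl
    intro y hy
    rw [(mem_filter.1 hy).2]
  rw [e2]
  apply mul_le_mul_of_nonneg_right _ (hF d)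
  have h3 : ((GI ×ˢ I).filter (fun y => f y = d)).card ≤ k ^ k := by
    rcases ((GI ×ˢ I).filter (fun y => f y = d)).eq_empty_or_nonempty with he | ⟨y0, hy0⟩
    · rw [he, card_empty]
      exact Nat.zero_le _
    · rw [mem_filter] at hy0
      obtain ⟨hy0, hy0d⟩ := hy0
      have hset : ∀ y ∈ (GI ×ˢ I).filter (fun y => f y = d), univ.image y.1 ∪ y.2.2 = univ.image y0.1 ∪ y0.2.2 := by
        intro y hy
        rw [mem_filter] at hy
        apply prod_inj _ _ (hprime y hy.1) (hprime y0 hy0)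
        rw [← hprodf y hy.1, ← hprodf y0 hy0, hy.2, hy0d]
      have hsub : ∀ y ∈ (GI ×ˢ I).filter (fun y => f y = d), ∀ p ∈ univ.image y.1, p ∈ univ.image y0.1 := by
        intro y hy p hp
        have h4 : p ∈ univ.image y0.1 ∪ y0.2.2 := by rw [← hset y hy]; exact mem_union_left _ hp
        rw [mem_union] at h4
        rcases h4 with h5 | h5
        · exact h5
        · exfalso
          rw [mem_image] at hp
          obtain ⟨i, _, rfl⟩ := hp
          have h6 := ((hG _ (mem_product.1 (mem_filter.1 hy).1).1).2 i).2.1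
          have h7 := (mem_pz.1 ((hmem _ (mem_product.1 hy0).2).2.1 h5)).1
          omega
      have hT : ∀ y ∈ (GI ×ˢ I).filter (fun y => f y = d), y.2.2 = y0.2.2 := by
        intro y hy
        have hy' := (mem_filter.1 hy).1
        ext p
        constructor
        · intro hp
          have h4 : p ∈ univ.image y0.1 ∪ y0.2.2 := by rw [← hset y hy]; exact mem_union_right _ hp
          rw [mem_union] at h4
          rcases h4 with h5 | h5
          · exfalso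
            rw [mem_image] at h5
            obtain ⟨i, _, rfl⟩ := h5
            have h6 := ((hG _ (mem_product.1 hy0).1).2 i).2.1
            have h7 := (mem_pz.1 ((hmem _ (mem_product.1 hy').2).2.1 hp)).1
            omega
          · exact h5
        · intro hp
          have h4 : p ∈ univ.image y.1 ∪ y.2.2 := by rw [hset y hy]; exact mem_union_right _ hp
          rw [mem_union] at h4
          rcases h4 with h5 | h5
          · exfalso
            rw [mem_image] at h5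
            obtain ⟨i, _, rfl⟩ := h5
            have h6 := ((hG _ (mem_product.1 hy').1).2 i).2.1
            have h7 := (mem_pz.1 ((hmem _ (mem_product.1 hy0).2).2.1 hp)).1
            omega
          · exact h5
      have h4 : ((GI ×ˢ I).filter (fun y => f y = d)).card ≤ (Fintype.piFinset (fun _ : Fin k => univ.image y0.1)).card := by
        apply card_le_card_of_injOn (fun y => y.1)
        · intro y hy
          rw [mem_coe, Fintype.mem_piFinset]
          intro i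
          exact hsub y hy (y.1 i) (mem_image_of_mem _ (mem_univ i))
        · intro y hy y' hy' hyy
          rw [mem_coe] at hy hy'
          have a1 := hT y hy
          have a2 := hT y' hy'
          have a3 : y.2.2 = y'.2.2 := by rw [a1, a2]
          have a4 : y.2.1 = y'.2.1 := by
            rw [← (hmem _ (mem_product.1 (mem_filter.1 hy).1).2).2.2, ← (hmem _ (mem_product.1 (mem_filter.1 hy').1).2).2.2, a3]
          exact Prod.ext hyy (Sigma.ext a4 (heq_of_eq a3))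
      refine h4.trans ?_
      rw [Fintype.card_piFinset, prod_const, card_univ, Fintype.card_fin]
      apply Nat.pow_le_pow_left
      exact card_image_le.trans (by rw [card_univ, Fintype.card_fin])
  exact_mod_cast h3

open Classical in
/-- the average over the systems of distinct large primes -/
theorem big_sumK {k : ℕ} (hk0 : 0 < k) (c : Fin k → ℤ) (hc : ∀ i, c i ≠ 0) (E U : ℕ) : ∃ N0 : ℕ, ∀ N : ℕ, N0 ≤ N → ∀ z P : ℕ, 1 ≤ z →
    (z : ℝ) ≤ Real.log N ^ E → P ^ (5 * k) ≤ N →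
    ∀ h : Fin k → ℤ, ∀ S : Fin k → Finset ℕ, (∀ i, ∀ g ∈ S i, g.Prime ∧ z < g ∧ g ≤ P ∧ ¬ (g : ℤ) ∣ c i) →
    |∑ g ∈ (Fintype.piFinset S).filter (fun g => Function.Injective g), Yg c h N z g -
      N * (∏ p ∈ pz z, (1 - (rho c h p : ℝ) / (p - 1 : ℝ))) *
        ∑ g ∈ (Fintype.piFinset S).filter (fun g => Function.Injective g), ∏ i, xg (g i) (h i)| ≤ N / Real.log N ^ U := by
  obtain ⟨c', hc'⟩ : ∃ c' : ℕ, c' = bigc c := ⟨_, rfl⟩
  have hc1 : 1 ≤ c' := by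
    rw [hc']
    unfold bigc
    omega
  obtain ⟨U2, hU2⟩ : ∃ U2 : ℕ, U2 = U + k + 4 := ⟨_, rfl⟩
  obtain ⟨N0, h0⟩ := choice (2 * c') E U2 16
  obtain ⟨C', hC'⟩ : ∃ C' : ℕ, C' = (3 * ((2 * c') * (1 + E)) + U2 + 1) * c' := ⟨_, rfl⟩
  obtain ⟨U1, hU1⟩ : ∃ U1 : ℕ, U1 = C' + k + U + 2 := ⟨_, rfl⟩
  obtain ⟨B, X0, hBV⟩ := H343E.unsmoothed U1
  obtain ⟨C, N1, hC, hpnt⟩ := pnt_lam (U + k + 4)
  obtain ⟨J, hJ⟩ : ∃ J : ℕ, J = B + E + U + k + 10 := ⟨_, rfl⟩
  obtain ⟨Kc, hKc⟩ : ∃ Kc : ℝ, Kc = 2 + (k : ℝ) ^ k + 12 * 3 ^ k + (C + 1) * 3 ^ k := ⟨_, rfl⟩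
  obtain ⟨n1, h1⟩ := ev_log' (8 * J) 1
  obtain ⟨n2, h2⟩ := ev_L' (Kc + C + 200 + c')
  refine ⟨max (max (max N0 ⌈X0⌉₊) (max N1 n1)) (max n2 4), fun N hN z P hz hzE hP5 h S hS => ?_⟩
  have b1 := le_trans (le_trans (le_trans (le_max_left _ _) (le_max_left _ _)) (le_max_left _ _)) hN
  have b2 := le_trans (le_trans (le_trans (le_max_right _ _) (le_max_left _ _)) (le_max_left _ _)) hN
  have b3 := le_trans (le_trans (le_trans (le_max_left _ _) (le_max_right _ _)) (le_max_left _ _)) hN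
  have b4 := le_trans (le_trans (le_trans (le_max_right _ _) (le_max_right _ _)) (le_max_left _ _)) hN
  have b5 := le_trans (le_trans (le_max_left _ _) (le_max_right _ _)) hN
  have hN4 : 4 ≤ N := le_trans (le_trans (le_max_right _ _) (le_max_right _ _)) hN
  obtain ⟨r, hr1, hr2, hr3⟩ := h0 N b1 z hzE
  have hX0 : X0 ≤ (N : ℝ) := (Nat.le_ceil _).trans (by exact_mod_cast b2)
  have hPn := hpnt N b3
  have a1 := h1 N b4
  have hL := h2 N b5
  have hNr : (4 : ℝ) ≤ N := by exact_mod_cast hN4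
  have hN0 : (0 : ℝ) < N := by linarith
  obtain ⟨L, hLd⟩ : ∃ L : ℝ, L = Real.log N := ⟨_, rfl⟩
  rw [← hLd] at hr1 hr3 hPn a1 hL hzE ⊢
  have hc0r : (0 : ℝ) ≤ c' := Nat.cast_nonneg _
  have hKc0 : 0 ≤ Kc := by rw [hKc]; positivity
  have hL200 : 200 ≤ L := by linarith
  have hL0 : 0 < L := by linarith
  have hL1 : 1 ≤ L := by linarith
  have hcL : (c' : ℝ) ≤ L := by linarith
  have hKL : Kc ≤ L := by linarith
  rw [one_mul] at a1
  have hss : √(N : ℝ) * √(N : ℝ) = N := Real.mul_self_sqrt hN0.le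
  have hs0 : 0 < √(N : ℝ) := Real.sqrt_pos.2 hN0
  obtain ⟨Q, hQd⟩ : ∃ Q : ℕ, Q = P ^ k := ⟨_, rfl⟩
  have hQ5 : Q ^ 5 ≤ N := by rw [hQd, ← pow_mul, mul_comm k 5]; exact hP5
  obtain ⟨D, hD⟩ : ∃ D : ℕ, D = Q * (z + 1) ^ r := ⟨_, rfl⟩
  obtain ⟨K, hK⟩ : ∃ K : ℝ, K = L ^ J := ⟨_, rfl⟩
  have hK1 : 1 ≤ K := by rw [hK]; exact one_le_pow₀ hL1
  have hK16 : K ^ 16 ≤ N := by
    have e : L ^ (8 * J) = K ^ 8 := by rw [hK, ← pow_mul, mul_comm J 8]
    rw [e] at a1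
    calc K ^ 16 = K ^ 8 * K ^ 8 := by ring
      _ ≤ √(N : ℝ) * √(N : ℝ) := mul_le_mul a1 a1 (by positivity) hs0.le
      _ = N := hss
  have hN1r : (1 : ℝ) ≤ N := by linarith
  have hQ2 : (Q : ℝ) ^ 2 ≤ √(N : ℝ) := by
    apply Real.le_sqrt_of_sq_le
    have h5 : Q ^ 4 ≤ Q ^ 5 := by
      rcases Nat.eq_zero_or_pos Q with h6 | h6
      · rw [h6]; norm_num
      · exact Nat.pow_le_pow_right h6 (by norm_num)
    have h6 : (Q : ℝ) ^ 4 ≤ N := by exact_mod_cast h5.trans hQ5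
    calc ((Q : ℝ) ^ 2) ^ 2 = (Q : ℝ) ^ 4 := by ring
      _ ≤ (N : ℝ) := h6
  obtain ⟨R, hR⟩ : ∃ R : ℝ, R = ((z : ℝ) + 1) ^ r := ⟨_, rfl⟩
  have hR1 : 1 ≤ R := by
    rw [hR]
    apply one_le_pow₀
    have : (0 : ℝ) ≤ z := Nat.cast_nonneg _
    linarith
  have hDr : (D : ℝ) = Q * R := by rw [hD, hR]; push_cast; ring
  have hR16 : R ^ 16 ≤ N := by rw [hR]; exact hr2
  have hR4 : R ^ 4 ≤ √(N : ℝ) := by
    apply Real.le_sqrt_of_sq_le
    calc (R ^ 4) ^ 2 = R ^ 8 := by ring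
      _ ≤ R ^ 16 := pow_le_pow_right₀ hR1 (by norm_num)
      _ ≤ N := hR16
  have hK2 : K ^ 2 ≤ √(N : ℝ) := by
    apply Real.le_sqrt_of_sq_le
    calc (K ^ 2) ^ 2 = K ^ 4 := by ring
      _ ≤ K ^ 16 := pow_le_pow_right₀ hK1 (by norm_num)
      _ ≤ N := hK16
  have hRK : R ^ 2 * K ≤ √(N : ℝ) := by
    apply Real.le_sqrt_of_sq_le
    calc (R ^ 2 * K) ^ 2 = R ^ 4 * K ^ 2 := by ring
      _ ≤ √(N : ℝ) * √(N : ℝ) := mul_le_mul hR4 hK2 (by positivity) hs0.le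
      _ = N := hss
  have hD2K : (D : ℝ) ^ 2 * K ≤ N := by
    calc (D : ℝ) ^ 2 * K = (Q : ℝ) ^ 2 * (R ^ 2 * K) := by rw [hDr]; ring
      _ ≤ √(N : ℝ) * √(N : ℝ) := mul_le_mul hQ2 hRK (by positivity) hs0.le
      _ = N := hss
  have hD0 : (0 : ℝ) ≤ D := Nat.cast_nonneg _
  have hDK : (D : ℝ) * K ≤ N := by
    rcases Nat.eq_zero_or_pos D with h5 | h5
    · rw [h5, Nat.cast_zero, zero_mul]
      exact hN0.le
    · have h6 : (1 : ℝ) ≤ D := by exact_mod_cast h5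
      refine le_trans ?_ hD2K
      apply mul_le_mul_of_nonneg_right _ (by linarith)
      nlinarith
  have hLK : ∀ j, j ≤ J → L ^ j ≤ K := fun j hj => by rw [hK]; exact pow_le_pow_right₀ hL1 hj
  obtain ⟨A, hA⟩ : ∃ A : ℝ, A = L ^ (C' + k) := ⟨_, rfl⟩
  have hA1 : 1 ≤ A := by rw [hA]; exact one_le_pow₀ hL1
  have hkA : (c' : ℝ) ^ (r + k) ≤ A := by
    have h5 := hr3 c'
    rw [← hC'] at h5
    rw [pow_add, hA, pow_add]
    exact mul_le_mul h5 (pow_le_pow_left₀ hc0r hcL k) (by positivity) (by positivity)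
  have hQ : PerA (QA c h) c' := by rw [hc']; exact QA_perA c h hc
  have hbv := hBV N hX0 A hA1 D (by
      rw [← hLd, le_div_iff₀ (by positivity)]
      exact (mul_le_mul_of_nonneg_left (hLK B (by omega)) hD0).trans hDK) (by
      rw [← hLd, le_div_iff₀ (by positivity)]
      calc (D : ℝ) ^ 2 * L ^ B ≤ (D : ℝ) ^ 2 * K := mul_le_mul_of_nonneg_left (hLK B (by omega)) (by positivity)
        _ ≤ N := hD2K
        _ ≤ A * N := le_mul_of_one_le_left hN0.le hA1) (LSA (QA c h) P (r + k)) (LSA_fam (QA c h) hQ hc1 P (r + k) A hkA)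
  rw [← hLd] at hbv
  have hEf : ∑ d ∈ Icc 1 D, EfA (QA c h) N P (r + k) d ≤ A * N / L ^ U1 := by
    refine le_trans (le_of_eq ?_) hbv
    apply sum_congr rfl
    intro d _
    unfold EfA
    apply sum_congr rfl
    intro b _
    rw [lamAP_eq, lam1_eq']
  obtain ⟨c0, hc0⟩ : ∃ c0 : ℝ, c0 = z * ((Nat.log 2 N + 1 : ℝ) * L) := ⟨_, rfl⟩
  have hlog2 : (Nat.log 2 N : ℝ) ≤ 2 * L := by rw [hLd]; exact natlog_le N (by omega)
  have hll : (Nat.log 2 N + 1 : ℝ) * L ≤ L ^ 3 := by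
    calc (Nat.log 2 N + 1 : ℝ) * L ≤ (2 * L + 1) * L := by gcongr
      _ ≤ (L * L) * L := by
          apply mul_le_mul_of_nonneg_right _ hL0.le
          nlinarith
      _ = L ^ 3 := by ring
  have hll0 : 0 ≤ (Nat.log 2 N + 1 : ℝ) * L := by
    positivity
  have hc0' : c0 ≤ L ^ (E + 3) := by
    rw [hc0, pow_add]
    exact mul_le_mul hzE hll hll0 (by positivity)
  have hc00 : 0 ≤ c0 := by rw [hc0]; positivity
  have hllc0 : (Nat.log 2 N + 1 : ℝ) * L ≤ c0 := by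
    rw [hc0]
    exact le_mul_of_one_le_left hll0 (by exact_mod_cast hz)
  obtain ⟨VV, hVV⟩ : ∃ VV, VV = ∏ p ∈ pz z, (1 - (rho c h p : ℝ) / (p - 1 : ℝ)) := ⟨_, rfl⟩
  have hVV01 : 0 ≤ VV ∧ VV ≤ 1 := by
    rw [hVV]
    exact ⟨prod_nonneg fun p hp => (E2.fac_mem c h p (mem_pz.1 hp).2).1,
      prod_le_one (fun p hp => (E2.fac_mem c h p (mem_pz.1 hp).2).1) (fun p hp => (E2.fac_mem c h p (mem_pz.1 hp).2).2)⟩
  rw [← hVV]
  have hψ := lam1_le N
  have hψ0 : 0 ≤ lam1 N := sum_nonneg fun _ _ => ArithmeticFunction.vonMangoldt_nonneg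
  obtain ⟨GI, hGI⟩ : ∃ GI, GI = (Fintype.piFinset S).filter (fun g => Function.Injective g) := ⟨_, rfl⟩
  rw [← hGI]
  have hGm : ∀ g ∈ GI, Function.Injective g ∧ ∀ i, (g i).Prime ∧ z < g i ∧ g i ≤ P ∧ ¬ (g i : ℤ) ∣ c i := by
    intro g hg
    rw [hGI, mem_filter, Fintype.mem_piFinset] at hg
    exact ⟨hg.2, fun i => hS i (g i) (hg.1 i)⟩
  have hsubG : GI ⊆ Fintype.piFinset S := by rw [hGI]; exact filter_subset _ _
  -- the number of the systems
  have hScard : ∀ i, (S i).card ≤ P := by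
    intro i
    have h5 : S i ⊆ Icc 1 P := fun g hg => mem_Icc.2 ⟨(hS i g hg).1.one_le, (hS i g hg).2.2.1⟩
    have h6 := card_le_card h5
    rwa [Nat.card_Icc, Nat.add_sub_cancel] at h6
  have hGcard : (GI.card : ℝ) ≤ Q := by
    have h5 : GI.card ≤ Q := by
      refine (card_le_card hsubG).trans ?_
      rw [Fintype.card_piFinset, hQd]
      calc ∏ i, (S i).card ≤ ∏ _i : Fin k, P := prod_le_prod' fun i _ => hScard i
        _ = P ^ k := by rw [prod_const, card_univ, Fintype.card_fin]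
    exact_mod_cast h5
  have hPN : P + 1 ≤ N := by
    rcases Nat.lt_or_ge P 2 with h8 | h8
    · omega
    · have h9 : P + 1 ≤ P ^ (5 * k) := by
        calc P + 1 ≤ P * 2 := by omega
          _ ≤ P * P := Nat.mul_le_mul_left _ h8
          _ = P ^ 2 := by ring
          _ ≤ P ^ (5 * k) := Nat.pow_le_pow_right (by omega) (by omega)
      omega
  have hσ1 : ∀ i, ∑ g ∈ S i, 1 / ((g : ℝ) - 1) ≤ 3 * L := by
    intro i
    have h5 := sum_S (S i) P (fun p hp => ⟨(hS i p hp).1.two_le, (hS i p hp).2.2.1⟩)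
    have h6 : Real.log ((P + 1 : ℕ) : ℝ) ≤ L := by
      rw [hLd]
      apply Real.log_le_log (by positivity)
      exact_mod_cast hPN
    linarith
  have hx10 : ∀ i, ∀ g ∈ S i, 0 ≤ 1 / ((g : ℝ) - 1) := by
    intro i g hg
    have h5 : (2 : ℝ) ≤ g := by exact_mod_cast (hS i g hg).1.two_le
    exact div_nonneg zero_le_one (by linarith)
  have hG1 : ∑ g ∈ GI, ∏ i, 1 / ((g i : ℝ) - 1) ≤ (3 * L) ^ k := by
    calc ∑ g ∈ GI, ∏ i, 1 / ((g i : ℝ) - 1) ≤ ∑ g ∈ Fintype.piFinset S, ∏ i, 1 / ((g i : ℝ) - 1) := by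
          apply sum_le_sum_of_subset_of_nonneg hsubG
          intro g hg _
          rw [Fintype.mem_piFinset] at hg
          exact prod_nonneg fun i _ => hx10 i _ (hg i)
      _ = ∏ i, ∑ g ∈ S i, 1 / ((g : ℝ) - 1) := (prod_univ_sum S (fun _ (p : ℕ) => 1 / ((p : ℝ) - 1))).symm
      _ ≤ ∏ _i : Fin k, (3 * L) := prod_le_prod (fun i _ => sum_nonneg fun g hg => hx10 i g hg) (fun i _ => hσ1 i)
      _ = (3 * L) ^ k := by rw [prod_const, card_univ, Fintype.card_fin]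
  have hG2 : ∑ g ∈ GI, ∏ i, xg (g i) (h i) ≤ (3 * L) ^ k := by
    refine le_trans (sum_le_sum fun g hg => ?_) hG1
    exact prod_le_prod (fun i _ => xg_nonneg _ _ ((hGm g hg).2 i).1.one_le) (fun i _ => xg_le' _ _ ((hGm g hg).2 i).1.two_le)
  have hG20 : 0 ≤ ∑ g ∈ GI, ∏ i, xg (g i) (h i) :=
    sum_nonneg fun g hg => prod_nonneg fun i _ => xg_nonneg _ _ ((hGm g hg).2 i).1.one_le
  have hQ0 : (0 : ℝ) ≤ Q := Nat.cast_nonneg _
  -- one system
  obtain ⟨EE, hEE⟩ : ∃ EE : (Fin k → ℕ) → ℝ, ∀ g, EE g = ∑ j ∈ range (r + 1), ∑ T ∈ (pz z).powersetCard j,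
    EfA (QA c h) N P (r + k) ((∏ i, g i) * ∏ p ∈ T, p) := ⟨_, fun _ => rfl⟩
  have hEE0 : ∀ g, 0 ≤ EE g := fun g => by
    rw [hEE]
    exact sum_nonneg fun _ _ => sum_nonneg fun _ _ => EfA_nonneg _ _ _ _ _
  have hone : ∀ g ∈ GI, |Yg c h N z g - lam1 N * VV * ∏ i, xg (g i) (h i)| ≤
      (c0 + ((z : ℝ) + 1) ^ r * c0) + EE g + 2 * lam1 N * (1 / L ^ U2) * ∏ i, 1 / ((g i : ℝ) - 1) := by
    intro g hg
    obtain ⟨ginj, gS⟩ := hGm g hg
    have hx0 : 0 ≤ ∏ i, 1 / ((g i : ℝ) - 1) := prod_nonneg fun i _ => by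
      have h5 : (2 : ℝ) ≤ g i := by exact_mod_cast (gS i).1.two_le
      exact div_nonneg zero_le_one (by linarith)
    have hlast : 0 ≤ 2 * lam1 N * (1 / L ^ U2) * ∏ i, 1 / ((g i : ℝ) - 1) := by positivity
    have hzr : 0 ≤ ((z : ℝ) + 1) ^ r * c0 := by positivity
    by_cases hgh : ∃ i, (g i : ℤ) ∣ h i
    · obtain ⟨i, hi⟩ := hgh
      have h5 := Yg_bad c h N z g i (gS i).1 (gS i).2.2.2 hi
      rw [← hLd] at h5
      have h6 : ∏ i, xg (g i) (h i) = 0 := prod_eq_zero (mem_univ i) (by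
        unfold xg
        rw [if_pos hi])
      rw [h6, mul_zero, sub_zero]
      have := hEE0 g
      linarith
    · push Not at hgh
      have h5 := sieve_t hk0 c h hc N z r P g ginj gS hgh
      have h6 := Yg_Wt c h N z g
      rw [← hVV, ← hEE g, ← hLd, ← hc0, ← hc'] at h5
      rw [← hLd, ← hc0] at h6
      have h7 : lam1 N * VV * ∏ i, xg (g i) (h i) = lam1 N * (∏ i, 1 / ((g i : ℝ) - 1)) * VV := by
        have : ∏ i, xg (g i) (h i) = ∏ i, 1 / ((g i : ℝ) - 1) := prod_congr rfl fun i _ => by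
          unfold xg
          rw [if_neg (hgh i)]
        rw [this]
        ring
      have h8 : Yg c h N z g - lam1 N * VV * ∏ i, xg (g i) (h i) = (Yg c h N z g - Wt c h N z g) +
          (Wt c h N z g - lam1 N * (∏ i, 1 / ((g i : ℝ) - 1)) * VV) := by
        rw [h7]
        ring
      rw [h8]
      refine (abs_add_le _ _).trans ?_
      have h9 : 2 * (lam1 N * ∏ i, 1 / ((g i : ℝ) - 1)) * Real.exp (3 * ((2 * c' : ℕ) * (1 + Real.log z)) - r) ≤
          2 * lam1 N * (1 / L ^ U2) * ∏ i, 1 / ((g i : ℝ) - 1) := by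
        calc 2 * (lam1 N * ∏ i, 1 / ((g i : ℝ) - 1)) * Real.exp (3 * ((2 * c' : ℕ) * (1 + Real.log z)) - r)
            ≤ 2 * (lam1 N * ∏ i, 1 / ((g i : ℝ) - 1)) * (1 / L ^ U2) := by
              apply mul_le_mul_of_nonneg_left hr1 (by positivity)
          _ = _ := by ring
      linarith
  have hsum : |∑ g ∈ GI, Yg c h N z g - lam1 N * VV * ∑ g ∈ GI, ∏ i, xg (g i) (h i)| ≤
      Q * (c0 + ((z : ℝ) + 1) ^ r * c0) + (k : ℝ) ^ k * (A * N / L ^ U1) + 2 * lam1 N * (1 / L ^ U2) * (3 * L) ^ k := by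
    rw [mul_sum, ← sum_sub_distrib]
    refine (abs_sum_le_sum_abs _ _).trans ((sum_le_sum hone).trans ?_)
    rw [sum_add_distrib, sum_add_distrib, ← mul_sum, sum_const, nsmul_eq_mul]
    have h5 : ∑ g ∈ GI, EE g ≤ (k : ℝ) ^ k * (A * N / L ^ U1) := by
      have h6 := big_injK z r P GI (fun g hg => ⟨(hGm g hg).1, fun i => ⟨((hGm g hg).2 i).1, ((hGm g hg).2 i).2.1, ((hGm g hg).2 i).2.2.1⟩⟩)
        (fun d => EfA (QA c h) N P (r + k) d) (fun d => EfA_nonneg _ _ _ _ _)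
      rw [← hQd, ← hD] at h6
      refine le_trans (le_of_eq ?_) (h6.trans (mul_le_mul_of_nonneg_left hEf (by positivity)))
      apply sum_congr rfl
      intro g _
      rw [hEE]
    apply add_le_add (add_le_add _ h5)
    · apply mul_le_mul_of_nonneg_left hG1 (by positivity)
    · exact mul_le_mul_of_nonneg_right hGcard (by positivity)
  -- sizes
  obtain ⟨T, hT⟩ : ∃ T : ℝ, T = N / L ^ (U + 4) := ⟨_, rfl⟩
  have hT0 : 0 < T := by rw [hT]; positivity
  have hLU : 0 < L ^ (U + 4) := by positivity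
  have g1 : Q * (c0 + ((z : ℝ) + 1) ^ r * c0) ≤ 2 * T := by
    rw [← hR]
    have h6 : Q * (c0 + R * c0) ≤ 2 * (D * c0) := by
      rw [hDr]
      have h7 : c0 ≤ R * c0 := le_mul_of_one_le_left hc00 hR1
      have h8 : (Q : ℝ) * c0 ≤ Q * (R * c0) := mul_le_mul_of_nonneg_left h7 hQ0
      calc Q * (c0 + R * c0) = Q * c0 + Q * (R * c0) := by ring
        _ ≤ Q * (R * c0) + Q * (R * c0) := by linarith
        _ = 2 * (Q * R * c0) := by ring
    have h9 : (D : ℝ) * c0 ≤ T := by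
      rw [hT, le_div_iff₀ hLU]
      calc (D : ℝ) * c0 * L ^ (U + 4) ≤ D * L ^ (E + 3) * L ^ (U + 4) := by gcongr
        _ = D * L ^ (E + 3 + (U + 4)) := by rw [mul_assoc, ← pow_add]
        _ ≤ D * K := mul_le_mul_of_nonneg_left (hLK _ (by omega)) hD0
        _ ≤ N := hDK
    linarith
  have g3 : A * N / L ^ U1 = T * L ^ 2 := by
    rw [hT, hA, hU1, show C' + k + U + 2 = (C' + k) + (U + 2) by ring, pow_add L (C' + k), pow_add L U 2, pow_add L U 4]
    field_simp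
  have hLk0 : 0 < L ^ k := by positivity
  have hsplit : L ^ (U + k + 4) = L ^ (U + 4) * L ^ k := by rw [← pow_add]; congr 1; ring
  have g4 : 2 * lam1 N * (1 / L ^ U2) * (3 * L) ^ k ≤ 12 * 3 ^ k * T := by
    rw [hT, hU2, hsplit, mul_pow]
    calc 2 * lam1 N * (1 / (L ^ (U + 4) * L ^ k)) * (3 ^ k * L ^ k) ≤ 2 * (6 * N) * (1 / (L ^ (U + 4) * L ^ k)) * (3 ^ k * L ^ k) := by gcongr
      _ = _ := by field_simp; norm_num
  have g6 : |lam1 N * VV * ∑ g ∈ GI, ∏ i, xg (g i) (h i) - N * VV * ∑ g ∈ GI, ∏ i, xg (g i) (h i)| ≤ (C + 1) * 3 ^ k * T := by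
    have h5 : lam1 N * VV * ∑ g ∈ GI, ∏ i, xg (g i) (h i) - N * VV * ∑ g ∈ GI, ∏ i, xg (g i) (h i) =
        (lam1 N - N) * (VV * ∑ g ∈ GI, ∏ i, xg (g i) (h i)) := by ring
    rw [h5, abs_mul, abs_of_nonneg (mul_nonneg hVV01.1 hG20)]
    have h6 : VV * ∑ g ∈ GI, ∏ i, xg (g i) (h i) ≤ (3 * L) ^ k := by
      calc VV * ∑ g ∈ GI, ∏ i, xg (g i) (h i) ≤ 1 * (3 * L) ^ k := mul_le_mul hVV01.2 hG2 hG20 zero_le_one
        _ = _ := one_mul _
    have h8 : (2 : ℝ) ≤ N / L ^ (U + k + 4) := by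
      rw [le_div_iff₀ (by positivity)]
      have h9 : L ^ (U + k + 5) ≤ K := hLK _ (by omega)
      have h10 : K ≤ N := by
        calc K ≤ K ^ 16 := le_self_pow₀ hK1 (by norm_num)
          _ ≤ N := hK16
      calc 2 * L ^ (U + k + 4) ≤ L * L ^ (U + k + 4) := by gcongr; linarith
        _ = L ^ (U + k + 5) := by ring
        _ ≤ N := h9.trans h10
    have h7 : |lam1 N - N| ≤ (C + 1) * (N / L ^ (U + k + 4)) := by
      refine hPn.trans ?_
      linarith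
    calc |lam1 N - N| * (VV * ∑ g ∈ GI, ∏ i, xg (g i) (h i)) ≤ ((C + 1) * (N / L ^ (U + k + 4))) * (3 * L) ^ k :=
          mul_le_mul h7 h6 (mul_nonneg hVV01.1 hG20) (by positivity)
      _ = _ := by
          rw [hsplit, mul_pow, hT]
          field_simp
  have hfin : |∑ g ∈ GI, Yg c h N z g - N * VV * ∑ g ∈ GI, ∏ i, xg (g i) (h i)| ≤
      2 * T + (k : ℝ) ^ k * (T * L ^ 2) + 12 * 3 ^ k * T + (C + 1) * 3 ^ k * T := by
    have h5 := abs_add_le (∑ g ∈ GI, Yg c h N z g - lam1 N * VV * ∑ g ∈ GI, ∏ i, xg (g i) (h i))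
      (lam1 N * VV * ∑ g ∈ GI, ∏ i, xg (g i) (h i) - N * VV * ∑ g ∈ GI, ∏ i, xg (g i) (h i))
    rw [sub_add_sub_cancel] at h5
    rw [g3] at hsum
    linarith
  refine hfin.trans ?_
  have h6 : 2 * T + (k : ℝ) ^ k * (T * L ^ 2) + 12 * 3 ^ k * T + (C + 1) * 3 ^ k * T ≤ T * L ^ 4 := by
    have h7 : 1 ≤ L ^ 2 := one_le_pow₀ hL1
    have h8 : 2 * T + (k : ℝ) ^ k * (T * L ^ 2) + 12 * 3 ^ k * T + (C + 1) * 3 ^ k * T ≤ Kc * (T * L ^ 2) := by
      have h9 : T ≤ T * L ^ 2 := le_mul_of_one_le_right hT0.le h7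
      have h10 : 12 * 3 ^ k * T ≤ 12 * 3 ^ k * (T * L ^ 2) := mul_le_mul_of_nonneg_left h9 (by positivity)
      have h11 : (C + 1) * 3 ^ k * T ≤ (C + 1) * 3 ^ k * (T * L ^ 2) := mul_le_mul_of_nonneg_left h9 (by positivity)
      have h12 : Kc * (T * L ^ 2) = 2 * (T * L ^ 2) + (k : ℝ) ^ k * (T * L ^ 2) + 12 * 3 ^ k * (T * L ^ 2) + (C + 1) * 3 ^ k * (T * L ^ 2) := by
        rw [hKc]
        ring
      linarith
    refine h8.trans ?_
    have h13 : Kc * (T * L ^ 2) ≤ L * (T * L ^ 2) := mul_le_mul_of_nonneg_right hKL (by positivity)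
    refine h13.trans ?_
    have h14 : L * (T * L ^ 2) = T * L ^ 3 := by ring
    rw [h14]
    exact mul_le_mul_of_nonneg_left (pow_le_pow_right₀ hL1 (by norm_num)) hT0.le
  refine h6.trans (le_of_eq ?_)
  rw [hT, pow_add L U 4]
  field_simp

end Pool.Agent.H561.E3
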