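import Pool.Agent.H561.E3.U6

set_option autoImplicit false

/-! Numbers of primes, `g` up to a small power. -/

namespace Pool.Agent.H561.E3

open Finset Filter Topology
open Pool.Agent.helper24_UT hiding om
open Pool.Agent.H373R2.T7 (pz mem_pz Vz Vz_pos Vz_inv_small)
open Pool.Agent.H561.E2

open Classical in
theorem cntR0 (k : ℕ) (c : Fin k → ℤ) (hc : ∀ i, c i ≠ 0) (herr : ∀ U, ErrB c R10 U) (ε : ℝ) (hε : 0 < ε) :
  ∃ θ₀ : ℝ, 0 < θ₀ ∧ θ₀ ≤ 1 / 10 ∧ ∀ (A B : ℕ), ∃ a₀ : ℕ, ∀ a : ℕ, a₀ ≤ a → ∃ G X₀ : ℕ, ∀ X : ℕ, X₀ ≤ X → ∀ P : ℕ, P ^ 10 ≤ X →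
  ∀ S : Fin k → Finset ℕ, (∀ i, ∀ p ∈ S i, p.Prime ∧ (Real.log X) ^ a < p ∧ (p : ℝ) ≤ (X : ℝ) ^ θ₀ ∧ p ≤ P) →
  (∀ i, 1 / (Real.log X) ^ B ≤ ∑ p ∈ S i, 1 / (p : ℝ)) →
  ∀ H : ℕ, 1 ≤ H → P * (Real.log X) ^ G ≤ H → 4 * H ^ 2 ≤ X → ∀ (N₁ N₂ : ℕ) (b : Fin k → ℤ), N₁ < N₂ → N₂ ≤ X →
  X / (Real.log X) ^ B ≤ (N₂ : ℝ) - N₁ →
  (∀ i, ∀ n ∈ Ioc N₁ N₂, 1 ≤ LFo c b i n ∧ LFo c b i n + H ≤ X) →
  (((Fintype.piFinset (fun _ : Fin k => range H)).filter (fun h => NDeg c (bh b h) ∧ Adm c (bh b h) ∧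
    ¬ (|(cntE c S N₁ N₂ (bh b h) : ℝ) - Mn c S N₁ N₂ (bh b h) / Real.log X ^ (k + 1)| ≤
      ε * (Mn c S N₁ N₂ (bh b h) / Real.log X ^ (k + 1))))).card : ℝ) ≤ (H : ℝ) ^ k / (Real.log X) ^ A ∧
  ∀ h ∈ Fintype.piFinset (fun _ : Fin k => range H), NDeg c (bh b h) →
    Multipliable (fun p : ℕ => if p.Prime then lf c (bh b h) p else 1) := by
  obtain ⟨δ, hδ⟩ : ∃ δ : ℝ, δ = min (ε / 4) 1 := ⟨_, rfl⟩
  have hδ0 : 0 < δ := by rw [hδ]; positivity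
  have hδ1 : δ ≤ 1 := by rw [hδ]; exact min_le_right _ _
  have hδε : δ ≤ ε / 4 := by rw [hδ]; exact min_le_left _ _
  obtain ⟨θ₀, hθ1, hθ2, hWL⟩ := count_WL2 k c hc δ hδ0
  refine ⟨θ₀, hθ1, hθ2, fun A B => ?_⟩
  obtain ⟨A', hA'⟩ : ∃ A', A' = A + (k + 1) * B + 1 := ⟨_, rfl⟩
  obtain ⟨a₀, hT⟩ := tupR c hc A' (herr _)
  obtain ⟨κ, hκ, hsl⟩ := sing_lower c hc
  refine ⟨a₀, fun a ha => ?_⟩
  obtain ⟨G, X₁, hT⟩ := hT a ha
  obtain ⟨X₂, hWL⟩ := hWL A'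
  obtain ⟨X₃, hX₃⟩ := Filter.eventually_atTop.1 (Sil2.ev_log (max 1 (12 / (κ * ε))))
  refine ⟨G, max (max X₁ X₂) (max X₃ 3), fun X hX P hP S hS hSs H hH1 hH hHX N₁ N₂ b hN12 hN2 hNB hb => ?_⟩
  have hX1 : X₁ ≤ X := ((le_max_left _ _).trans (le_max_left _ _)).trans hX
  have hX2 : X₂ ≤ X := ((le_max_right _ _).trans (le_max_left _ _)).trans hX
  have hLbig := hX₃ X (((le_max_left _ _).trans (le_max_right _ _)).trans hX)
  have hX3 : 3 ≤ X := ((le_max_right _ _).trans (le_max_right _ _)).trans hX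
  obtain ⟨hexc, hmult⟩ := hT X hX1 P hP S (fun i p hp => ⟨(hS i p hp).1, (hS i p hp).2.1, (hS i p hp).2.2.2⟩) H hH1 hH hHX N₁ N₂ b hN12 hN2 hb
  refine ⟨?_, hmult⟩
  have hWL := hWL X hX2 S (fun i p hp => ⟨(hS i p hp).1, (hS i p hp).2.2.1⟩) N₁ N₂
  obtain ⟨L, hLdef⟩ : ∃ L, L = Real.log (X : ℝ) := ⟨_, rfl⟩
  rw [← hLdef] at hLbig hexc hWL hSs hNB ⊢
  have hL1 : 1 ≤ L := (le_max_left _ _).trans hLbig
  have hLκ : 12 / (κ * ε) ≤ L := (le_max_right _ _).trans hLbig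
  have hL0 : 0 < L := by linarith
  have hXR : (3 : ℝ) ≤ X := by exact_mod_cast hX3
  have hX0' : (0 : ℝ) < X := lt_of_lt_of_le (by norm_num) hXR
  have hHk : 0 ≤ (H : ℝ) ^ k := by positivity
  have hsub : (Fintype.piFinset (fun _ : Fin k => range H)).filter (fun h => NDeg c (bh b h) ∧ Adm c (bh b h) ∧
    ¬ (|(cntE c S N₁ N₂ (bh b h) : ℝ) - Mn c S N₁ N₂ (bh b h) / L ^ (k + 1)| ≤
      ε * (Mn c S N₁ N₂ (bh b h) / L ^ (k + 1)))) ⊆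
      (Fintype.piFinset (fun _ : Fin k => range H)).filter (fun h => NDeg c (bh b h) ∧
    ¬ |WL c S N₁ N₂ (bh b h) - Mn c S N₁ N₂ (bh b h)| ≤ X / L ^ A') := by
    intro h hh
    rw [mem_filter] at hh ⊢
    obtain ⟨hh1, hnd, hadm, hbad⟩ := hh
    refine ⟨hh1, hnd, fun hgood => ?_⟩
    apply hbad
    have hm := hmult h hh1 hnd
    have hs := hsl (bh b h) hm hadm
    have hhr : ∀ i, h i < H := by
      intro i
      rw [Fintype.mem_piFinset] at hh1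
      have := hh1 i
      rwa [mem_range] at this
    have hw := hWL (bh b h) hN2 (by
      intro i n hn
      have h1 := hb i n hn
      have h2 : LFo c (bh b h) i n = LFo c b i n + (h i : ℤ) := by
        unfold LFo bh
        ring
      rw [h2]
      have h3 : (h i : ℤ) ≤ H := by exact_mod_cast (hhr i).le
      have h4 : (0 : ℤ) ≤ h i := Int.natCast_nonneg _
      constructor <;> linarith)
    obtain ⟨M, hM⟩ : ∃ M, M = Mn c S N₁ N₂ (bh b h) := ⟨_, rfl⟩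
    obtain ⟨w, hwd⟩ : ∃ w, w = WL c S N₁ N₂ (bh b h) := ⟨_, rfl⟩
    obtain ⟨N, hN⟩ : ∃ N : ℝ, N = (cntE c S N₁ N₂ (bh b h) : ℝ) := ⟨_, rfl⟩
    rw [← hM, ← hwd] at hgood
    rw [← hN, ← hwd] at hw
    rw [← hM, ← hN]
    -- a lower bound for the main term
    have hMlow : κ * (X / L ^ ((k + 1) * B)) ≤ M := by
      rw [hM]
      unfold Mn
      have h1 : (1 / L ^ B) ^ k ≤ ∏ i, ∑ p ∈ S i, 1 / (p : ℝ) := by
        calc (1 / L ^ B) ^ k = ∏ _i : Fin k, (1 / L ^ B) := by rw [prod_const, card_univ, Fintype.card_fin]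
          _ ≤ _ := prod_le_prod (fun i _ => by positivity) (fun i _ => hSs i)
      calc κ * (X / L ^ ((k + 1) * B)) = κ * (1 / L ^ B) ^ k * (X / L ^ B) := by
            rw [one_div, inv_pow, ← pow_mul, show (k + 1) * B = B * k + B by ring, pow_add]
            field_simp
        _ ≤ singT c (bh b h) * (∏ i, ∑ p ∈ S i, 1 / (p : ℝ)) * ((N₂ : ℝ) - N₁) := by
            have h2 : 0 ≤ (1 / L ^ B) ^ k := by positivity
            have h3 : 0 ≤ X / L ^ B := by positivity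
            have h4 : 0 < singT c (bh b h) := lt_of_lt_of_le hκ hs
            gcongr
    have hMpos : 0 < M := lt_of_lt_of_le (by positivity) hMlow
    have hsmall : X / L ^ A' ≤ ε / 12 * M := by
      have h1 : X / L ^ A' ≤ (X / L ^ ((k + 1) * B)) / L := by
        rw [hA', div_div, ← pow_succ]
        apply div_le_div_of_nonneg_left hX0'.le (by positivity)
        exact pow_le_pow_right₀ hL1 (by omega)
      have h2 : (X / L ^ ((k + 1) * B)) / L ≤ ε / 12 * (κ * (X / L ^ ((k + 1) * B))) := by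
        rw [div_le_iff₀ hL0]
        have h3 : 1 ≤ ε / 12 * κ * L := by
          rw [div_le_iff₀ (by positivity)] at hLκ
          linarith
        have h4 : 0 ≤ X / L ^ ((k + 1) * B) := by positivity
        nlinarith
      refine h1.trans (h2.trans ?_)
      gcongr
    have hw0 : w ≤ M + ε / 12 * M := by
      have := (abs_le.1 (hgood.trans hsmall)).2
      linarith
    have hfin : |N * L ^ (k + 1) - M| ≤ ε * M := by
      have h1 : |N * L ^ (k + 1) - M| ≤ |N * L ^ (k + 1) - w| + |w - M| := abs_sub_le _ _ _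
      have h2 : δ * w ≤ δ * (M + ε / 12 * M) := mul_le_mul_of_nonneg_left hw0 hδ0.le
      have h3 : δ * (M + ε / 12 * M) ≤ ε / 4 * M + ε / 12 * M := by
        have h4 : δ * M ≤ ε / 4 * M := mul_le_mul_of_nonneg_right hδε hMpos.le
        have h5 : δ * (ε / 12 * M) ≤ 1 * (ε / 12 * M) := mul_le_mul_of_nonneg_right hδ1 (by positivity)
        linarith
      have h6 : 0 ≤ ε * M := by positivity
      linarith [hgood.trans hsmall]
    have hLk : 0 < L ^ (k + 1) := by positivity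
    have e1 : N - M / L ^ (k + 1) = (N * L ^ (k + 1) - M) / L ^ (k + 1) := by
      field_simp
    rw [e1, abs_div, abs_of_pos hLk, ← mul_div_assoc]
    exact div_le_div_of_nonneg_right hfin hLk.le
  refine le_trans (by exact_mod_cast card_le_card hsub) (hexc.trans ?_)
  apply div_le_div_of_nonneg_left hHk (by positivity)
  exact pow_le_pow_right₀ hL1 (by omega)

open Classical in
/-- **almost all shifts: numbers of primes, `g` up to a small power of `X`, boxes of every size** -/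
theorem cntR (k : ℕ) (c : Fin k → ℤ) (hc : ∀ i, c i ≠ 0) (herr : ∀ U, ErrB c R10 U) (ε : ℝ) (hε : 0 < ε) :
  ∃ θ₀ : ℝ, 0 < θ₀ ∧ θ₀ ≤ 1 / 10 ∧ ∀ (A B : ℕ), ∃ a₀ : ℕ, ∀ a : ℕ, a₀ ≤ a → ∀ θ₁ θ : ℝ, 0 < θ₁ → θ₁ ≤ θ₀ → θ₁ < θ → ∃ X₀ : ℕ, ∀ X : ℕ, X₀ ≤ X →
  ∀ S : Fin k → Finset ℕ, (∀ i, ∀ p ∈ S i, p.Prime ∧ (Real.log X) ^ a < p ∧ (p : ℝ) ≤ (X : ℝ) ^ θ₁) →
  (∀ i, 1 / (Real.log X) ^ B ≤ ∑ p ∈ S i, 1 / (p : ℝ)) →
  ∀ H : ℕ, (X : ℝ) ^ θ ≤ H → ∀ (N₁ N₂ : ℕ) (b : Fin k → ℤ), N₁ < N₂ → N₂ ≤ X →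
  X / (Real.log X) ^ B ≤ (N₂ : ℝ) - N₁ →
  (∀ i, ∀ n ∈ Ioc N₁ N₂, 1 ≤ c i * (n : ℤ) + b i ∧ c i * (n : ℤ) + b i + H ≤ X) →
  (((Fintype.piFinset (fun i : Fin k => Ico (b i) (b i + H))).filter (fun h => NDeg c h ∧ Adm c h ∧
    ¬ (Multipliable (fun p : ℕ => if p.Prime then lf c h p else 1) ∧ |(cntE c S N₁ N₂ h : ℝ) - Mn c S N₁ N₂ h / Real.log X ^ (k + 1)| ≤
      ε * (Mn c S N₁ N₂ h / Real.log X ^ (k + 1))))).card : ℝ) ≤ (H : ℝ) ^ k / (Real.log X) ^ A := by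
  obtain ⟨θ₀, hθ1, hθ2, hT⟩ := cntR0 k c hc herr ε hε
  refine ⟨θ₀, hθ1, hθ2, fun A B => ?_⟩
  obtain ⟨a₀, hT⟩ := hT (A + k) B
  refine ⟨a₀, fun a ha θ₁ θ h1 h2 h3 => ?_⟩
  obtain ⟨G, X₁, hT⟩ := hT a ha
  obtain ⟨τ, hτ⟩ : ∃ τ : ℝ, τ = min θ (2 / 5) := ⟨_, rfl⟩
  have hτ1 : θ₁ < τ := by
    rw [hτ]
    apply lt_min h3
    linarith
  have hτ2 : τ ≤ 2 / 5 := by rw [hτ]; exact min_le_right _ _
  have hτ3 : τ ≤ θ := by rw [hτ]; exact min_le_left _ _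
  have hτ0 : 0 < τ := h1.trans hτ1
  obtain ⟨X₃, hX₃⟩ := Filter.eventually_atTop.1 ((Sil2.ev_log 1000).and
    ((Sil2.ev_pow G (τ - θ₁) 1 (by linarith)).and (Sil2.ev_pow 1 (1 / 5) 16 (by norm_num))))
  refine ⟨max (max X₁ X₃) 100, fun X hX S hS hSB H hH N₁ N₂ b hN12 hN2 hNB hb => ?_⟩
  have hX1 : X₁ ≤ X := ((le_max_left _ _).trans (le_max_left _ _)).trans hX
  obtain ⟨hL, hpw, hpw2⟩ := hX₃ X (((le_max_right _ _).trans (le_max_left _ _)).trans hX)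
  have hX100 : 100 ≤ X := (le_max_right _ _).trans hX
  have hXR : (100 : ℝ) ≤ X := by exact_mod_cast hX100
  have hX1r : (1 : ℝ) ≤ X := by linarith
  have hX0 : (0 : ℝ) < X := by linarith
  have hT := hT X hX1
  obtain ⟨L, hLd⟩ : ∃ L, L = Real.log X := ⟨_, rfl⟩
  rw [← hLd] at hL hpw hpw2 hS hSB hNB hT ⊢
  rw [one_mul] at hpw
  obtain ⟨P, hP⟩ : ∃ P : ℕ, P = ⌊(X : ℝ) ^ θ₁⌋₊ := ⟨_, rfl⟩
  have hP1 : (P : ℝ) ≤ (X : ℝ) ^ θ₁ := by rw [hP]; exact Nat.floor_le (by positivity)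
  have hP10 : P ^ 10 ≤ X := by
    have g1 : (P : ℝ) ^ 10 ≤ X := by
      calc (P : ℝ) ^ 10 ≤ ((X : ℝ) ^ θ₁) ^ 10 := pow_le_pow_left₀ (Nat.cast_nonneg _) hP1 10
        _ = (X : ℝ) ^ (θ₁ * 10) := by rw [← Real.rpow_natCast, ← Real.rpow_mul hX0.le]; norm_num
        _ ≤ (X : ℝ) ^ (1 : ℝ) := Real.rpow_le_rpow_of_exponent_le hX1r (by linarith)
        _ = X := Real.rpow_one _
    exact_mod_cast g1
  obtain ⟨H₀, hH₀⟩ : ∃ H₀ : ℕ, H₀ = ⌈(X : ℝ) ^ τ⌉₊ := ⟨_, rfl⟩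
  have hXτ1 : 1 ≤ (X : ℝ) ^ τ := Real.one_le_rpow hX1r hτ0.le
  have hH1 : (X : ℝ) ^ τ ≤ H₀ := by rw [hH₀]; exact Nat.le_ceil _
  have hH2 : (H₀ : ℝ) ≤ 2 * (X : ℝ) ^ τ := by
    have := Nat.ceil_lt_add_one (show (0 : ℝ) ≤ (X : ℝ) ^ τ by positivity)
    rw [← hH₀] at this
    linarith
  have hH0H : H₀ ≤ H := by
    rw [hH₀]
    apply Nat.ceil_le.2
    exact (Real.rpow_le_rpow_of_exponent_le hX1r hτ3).trans hH
  have hH01 : 1 ≤ H₀ := by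
    have : (1 : ℝ) ≤ H₀ := hXτ1.trans hH1
    exact_mod_cast this
  have hHX : 4 * H₀ ^ 2 ≤ X := by
    have g1 : (4 : ℝ) * (H₀ : ℝ) ^ 2 ≤ X := by
      calc (4 : ℝ) * (H₀ : ℝ) ^ 2 ≤ 4 * (2 * (X : ℝ) ^ τ) ^ 2 := by gcongr
        _ = 16 * ((X : ℝ) ^ τ) ^ 2 := by ring
        _ = 16 * (X : ℝ) ^ (τ * 2) := by
            congr 1
            rw [← Real.rpow_natCast, ← Real.rpow_mul hX0.le]
            norm_num
        _ ≤ 16 * (X : ℝ) ^ (4 / 5 : ℝ) := by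
            apply mul_le_mul_of_nonneg_left _ (by norm_num)
            exact Real.rpow_le_rpow_of_exponent_le hX1r (by linarith)
        _ ≤ (X : ℝ) ^ (1 / 5 : ℝ) * (X : ℝ) ^ (4 / 5 : ℝ) := by
            apply mul_le_mul_of_nonneg_right _ (by positivity)
            rw [pow_one] at hpw2
            linarith
        _ = (X : ℝ) ^ (1 : ℝ) := by rw [← Real.rpow_add hX0]; norm_num
        _ = X := Real.rpow_one _
    exact_mod_cast g1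
  have hPH : P * L ^ G ≤ (H₀ : ℝ) := by
    calc P * L ^ G ≤ (X : ℝ) ^ θ₁ * (X : ℝ) ^ (τ - θ₁) := mul_le_mul hP1 hpw (by positivity) (by positivity)
      _ = (X : ℝ) ^ τ := by rw [← Real.rpow_add hX0]; congr 1; ring
      _ ≤ H₀ := hH1
  obtain ⟨BD, hBD⟩ : ∃ BD : (Fin k → ℤ) → Prop, ∀ h, BD h ↔ (NDeg c h ∧ Adm c h ∧
    ¬ (Multipliable (fun p : ℕ => if p.Prime then lf c h p else 1) ∧ |(cntE c S N₁ N₂ h : ℝ) - Mn c S N₁ N₂ h / L ^ (k + 1)| ≤ ε * (Mn c S N₁ N₂ h / L ^ (k + 1)))) := ⟨_, fun _ => Iff.rfl⟩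
  have hbox : ∀ b' : Fin k → ℤ, (∀ i, b i ≤ b' i ∧ b' i + H₀ ≤ b i + H) →
      (((Fintype.piFinset (fun _ : Fin k => range H₀)).filter (fun h => BD (bh b' h))).card : ℝ) ≤ (H₀ : ℝ) ^ k / L ^ (A + k) := by
    intro b' hb'
    obtain ⟨t1, t2⟩ := hT P hP10 S (fun i p hp => by
        obtain ⟨s1, s2, s3⟩ := hS i p hp
        refine ⟨s1, s2, s3.trans (Real.rpow_le_rpow_of_exponent_le hX1r h2), ?_⟩
        rw [hP]
        exact Nat.le_floor s3) hSB H₀ hH01 hPH hHX N₁ N₂ b' hN12 hN2 hNB (by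
        intro i n hn
        have g2 := hb i n hn
        have g3 := hb' i
        unfold LFo
        constructor <;> linarith)
    refine le_trans ?_ t1
    have hs : (Fintype.piFinset (fun _ : Fin k => range H₀)).filter (fun h => BD (bh b' h)) ⊆
        (Fintype.piFinset (fun _ : Fin k => range H₀)).filter (fun h => NDeg c (bh b' h) ∧ Adm c (bh b' h) ∧
    ¬ (|(cntE c S N₁ N₂ (bh b' h) : ℝ) - Mn c S N₁ N₂ (bh b' h) / L ^ (k + 1)| ≤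
      ε * (Mn c S N₁ N₂ (bh b' h) / L ^ (k + 1)))) := by
      intro h hh
      rw [mem_filter] at hh ⊢
      obtain ⟨hh1, hh2⟩ := hh
      rw [hBD] at hh2
      exact ⟨hh1, hh2.1, hh2.2.1, fun hcon => hh2.2.2 ⟨t2 h hh1 hh2.1, hcon⟩⟩
    exact_mod_cast card_le_card hs
  have e : (Fintype.piFinset (fun i : Fin k => Ico (b i) (b i + H))).filter (fun h => NDeg c h ∧ Adm c h ∧
    ¬ (Multipliable (fun p : ℕ => if p.Prime then lf c h p else 1) ∧ |(cntE c S N₁ N₂ h : ℝ) - Mn c S N₁ N₂ h / L ^ (k + 1)| ≤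
      ε * (Mn c S N₁ N₂ h / L ^ (k + 1)))) = (Fintype.piFinset (fun i : Fin k => Ico (b i) (b i + H))).filter (fun h => BD h) := by
    apply filter_congr
    intro h _
    exact (hBD _).symm
  rw [e]
  refine (box_split BD b H H₀ hH01 hH0H _ hbox).trans ?_
  have hL0 : 0 < L := by linarith
  obtain ⟨m, hm⟩ : ∃ m, m = H / H₀ + 1 := ⟨_, rfl⟩
  rw [← hm]
  have hmH : m * H₀ ≤ 2 * H := by
    have := Nat.div_mul_le_self H H₀
    rw [hm, add_mul, one_mul]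
    omega
  have g1 : (m : ℝ) * H₀ ≤ 2 * H := by exact_mod_cast hmH
  calc (m : ℝ) ^ k * ((H₀ : ℝ) ^ k / L ^ (A + k)) = ((m : ℝ) * H₀) ^ k / L ^ (A + k) := by
        rw [mul_pow]
        ring
    _ ≤ (2 * H : ℝ) ^ k / L ^ (A + k) := by gcongr
    _ = (2 / L) ^ k * ((H : ℝ) ^ k / L ^ A) := by
        rw [pow_add, mul_pow, div_pow]
        field_simp
    _ ≤ 1 * ((H : ℝ) ^ k / L ^ A) := by
        apply mul_le_mul_of_nonneg_right _ (by positivity)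
        apply pow_le_one₀ (by positivity)
        rw [div_le_one hL0]
        linarith
    _ = (H : ℝ) ^ k / L ^ A := one_mul _

end Pool.Agent.H561.E3
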