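import Pool.Agent.H561.E3.U7
import Pool.Agent.H561.E2.T8
import Pool.Graph.R_seed8.Y959.Sv.Up
import Pool.Graph.R_seed8.W93.HD4

set_option autoImplicit false

/-! The product of the upper bound sieve against the singular series. -/

namespace Pool.Agent.H561.E3

open Finset Filter Topology
open Pool.Agent.H373R2.T7 (pz mem_pz Vz Vz_pos)
open Pool.Agent.H561.E2

theorem sing_tail {k : ℕ} (c : Fin k → ℤ) (hc : ∀ i, c i ≠ 0) : ∃ Y : ℕ, ∀ y : ℕ, Y ≤ y → ∀ h : Fin k → ℤ,
    Multipliable (fun p : ℕ => if p.Prime then lf c h p else 1) → ∏ p ∈ pz y, lf c h p ≤ 2 * singT c h := by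
  obtain ⟨Y, hY⟩ : ∃ Y : ℕ, Y = ⌈2 * CK k⌉₊ + (∏ i, (c i).natAbs) + 2 := ⟨_, rfl⟩
  have hCK := CK_pos k
  have hYr : 2 * CK k ≤ Y := by
    have h1 := Nat.le_ceil (2 * CK k)
    have h2 : ((⌈2 * CK k⌉₊ : ℕ) : ℝ) ≤ Y := by
      rw [hY]
      exact_mod_cast (by omega : ⌈2 * CK k⌉₊ ≤ ⌈2 * CK k⌉₊ + (∏ i, (c i).natAbs) + 2)
    linarith
  refine ⟨Y, fun y hy h hmul => ?_⟩
  have hyr : (Y : ℝ) ≤ y := by exact_mod_cast hy
  have hy0 : (0 : ℝ) < y := by linarith
  have hyC : 2 * CK k ≤ y := by linarith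
  have key : (∏ p ∈ pz y, lf c h p) * (1 / 2) ≤ singT c h := by
    have hlim := hmul.hasProd.tendsto_prod_nat
    apply ge_of_tendsto hlim
    filter_upwards [eventually_ge_atTop (y + 1)] with n hn
    have e1 : range n = range (y + 1) ∪ Ioc y (n - 1) := by
      ext x
      rw [mem_union, mem_range, mem_range, mem_Ioc]
      omega
    have e2 : Disjoint (range (y + 1)) (Ioc y (n - 1)) := by
      rw [Finset.disjoint_left]
      intro x hx hx'
      rw [mem_range] at hx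
      rw [mem_Ioc] at hx'
      omega
    rw [e1, prod_union e2]
    have h1 : ∏ p ∈ pz y, lf c h p = ∏ i ∈ range (y + 1), (if i.Prime then lf c h i else 1) := by
      rw [← prod_filter]
      apply prod_congr _ (fun _ _ => rfl)
      ext p
      rw [mem_pz, mem_filter, mem_range]
      constructor
      · rintro ⟨h1, h2⟩
        exact ⟨by omega, h2⟩
      · rintro ⟨h1, h2⟩
        exact ⟨by omega, h2⟩
    have h2 : (1 / 2 : ℝ) ≤ ∏ i ∈ Ioc y (n - 1), (if i.Prime then lf c h i else 1) := by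
      have h3 : ∀ i ∈ Ioc y (n - 1), 1 - CK k * (1 / (i : ℝ) ^ 2) ≤ (if i.Prime then lf c h i else 1) := by
        intro i hi
        rw [mem_Ioc] at hi
        split_ifs with hp
        · rw [mul_one_div]
          apply lf_lower c h i hp
          apply rho_card c h i hp
          intro j hd
          have h4 : i ≤ (c j).natAbs := Nat.le_of_dvd (Int.natAbs_pos.2 (hc j)) (Int.natCast_dvd.1 hd)
          have h5 := natAbs_le_bigc c hc j
          omega
        · have : 0 ≤ CK k * (1 / (i : ℝ) ^ 2) := by positivity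
          linarith
      have h0 : ∀ i ∈ Ioc y (n - 1), 0 ≤ CK k * (1 / (i : ℝ) ^ 2) := fun i _ => by positivity
      have h1' : ∀ i ∈ Ioc y (n - 1), CK k * (1 / (i : ℝ) ^ 2) ≤ 1 := by
        intro i hi
        rw [mem_Ioc] at hi
        have h5 : (y : ℝ) ≤ i := by exact_mod_cast hi.1.le
        have h6 : (1 : ℝ) ≤ i := by exact_mod_cast (by omega : 1 ≤ i)
        rw [mul_one_div, div_le_one (by positivity)]
        nlinarith
      have h4 := prod_one_sub (Ioc y (n - 1)) (fun i => CK k * (1 / (i : ℝ) ^ 2)) h0 h1'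
      have h5 : ∑ i ∈ Ioc y (n - 1), CK k * (1 / (i : ℝ) ^ 2) ≤ 1 / 2 := by
        rw [← mul_sum]
        have h6 := sum_sq_tail y (n - 1) (by omega)
        calc CK k * ∑ i ∈ Ioc y (n - 1), 1 / (i : ℝ) ^ 2 ≤ CK k * (1 / (y : ℝ)) := by gcongr
          _ ≤ 1 / 2 := by
              rw [mul_one_div, div_le_div_iff₀ hy0 (by norm_num)]
              linarith
      refine le_trans ?_ (prod_le_prod (fun i hi => by
        have := h1' i hi
        linarith) h3)
      linarith [h4.1]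
    have h3 : 0 ≤ ∏ p ∈ pz y, lf c h p := prod_nonneg fun p hp => lf_nonneg c h p (mem_pz.1 hp).2
    rw [← h1]
    exact mul_le_mul_of_nonneg_left h2 h3
  linarith

theorem sieve_prod {k : ℕ} (c : Fin k → ℤ) (hc : ∀ i, c i ≠ 0) (z0 : ℕ) : ∃ (z1 Y : ℕ) (C : ℝ), z0 ≤ z1 ∧ 0 < C ∧
    (∀ h : Fin k → ℤ, ∀ p : ℕ, p.Prime → z1 < p → omg c h p ≤ k + 1) ∧ ∀ y : ℕ, Y ≤ y → ∀ h : Fin k → ℤ,
    Multipliable (fun p : ℕ => if p.Prime then lf c h p else 1) → Adm c h → ∀ g : ℕ,
    ∏ p ∈ (pz y).filter (fun p => z1 < p ∧ p ≠ g), (1 - (omg c h p : ℝ) / p) ≤ C * (singT c h / (Real.log y) ^ (k + 1)) := by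
  obtain ⟨Y1, hY1⟩ := sing_tail c hc
  obtain ⟨CV, hCV1, hCV⟩ := Pool.Agent.W93.HD.Vz_log_le
  obtain ⟨z1, hz1⟩ : ∃ z1 : ℕ, z1 = z0 + (∏ i, (c i).natAbs) + 2 * (k + 1) := ⟨_, rfl⟩
  obtain ⟨κ1, hκ1⟩ : ∃ κ1 : ℝ, κ1 = (∏ p ∈ pz z1, 1 / (p : ℝ)) * (1 / 2) := ⟨_, rfl⟩
  have hκ0 : 0 < κ1 := by
    rw [hκ1]
    apply mul_pos _ (by norm_num)
    apply prod_pos
    intro p hp
    have : (0 : ℝ) < p := by exact_mod_cast (mem_pz.1 hp).2.pos
    positivity
  have homg : ∀ h : Fin k → ℤ, ∀ p : ℕ, p.Prime → z1 < p → omg c h p ≤ k + 1 := by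
    intro h p hp hzp
    rw [omg_rho c h p hp]
    have := rho_card c h p hp (fun i hd => by
      have h4 : p ≤ (c i).natAbs := Nat.le_of_dvd (Int.natAbs_pos.2 (hc i)) (Int.natCast_dvd.1 hd)
      have h5 := natAbs_le_bigc c hc i
      omega)
    omega
  refine ⟨z1, max Y1 3, κ1⁻¹ * (2 * CV ^ (k + 1)), by omega, by positivity, homg, fun y hy h hmul hadm g => ?_⟩
  have hy1 : Y1 ≤ y := (le_max_left _ _).trans hy
  have hy3 : 3 ≤ y := (le_max_right _ _).trans hy
  have hy3r : (3 : ℝ) ≤ y := by exact_mod_cast hy3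
  have hlog : 0 < Real.log y := Real.log_pos (by linarith)
  have hf : ∀ p : ℕ, p.Prime → 1 / (p : ℝ) ≤ 1 - (omg c h p : ℝ) / p ∧ 1 - (omg c h p : ℝ) / p ≤ 1 := by
    intro p hp
    have h1 := (adm_iff c h).1 hadm p hp
    have hp0 : (0 : ℝ) < p := by exact_mod_cast hp.pos
    have h2 : (omg c h p : ℝ) + 1 ≤ p := by exact_mod_cast h1
    constructor
    · rw [div_le_iff₀ hp0, sub_mul, div_mul_cancel₀ _ hp0.ne']
      linarith
    · have : 0 ≤ (omg c h p : ℝ) / p := by positivity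
      linarith
  have hf2 : ∀ p : ℕ, p.Prime → z1 < p → 1 / 2 ≤ 1 - (omg c h p : ℝ) / p := by
    intro p hp hzp
    have h1 := homg h p hp hzp
    have hp0 : (0 : ℝ) < p := by exact_mod_cast hp.pos
    have h2 : (omg c h p : ℝ) * 2 ≤ p := by exact_mod_cast (by omega : omg c h p * 2 ≤ p)
    rw [le_sub_iff_add_le, ← le_sub_iff_add_le', div_le_iff₀ hp0]
    linarith
  -- the comparison with the full product
  have hcomp : κ1 * ∏ p ∈ (pz y).filter (fun p => z1 < p ∧ p ≠ g), (1 - (omg c h p : ℝ) / p) ≤ ∏ p ∈ pz y, (1 - (omg c h p : ℝ) / p) := by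
    have h1 : ∏ p ∈ pz y, (((if p ≤ z1 then 1 / (p : ℝ) else 1) * (if p = g then (1 / 2 : ℝ) else 1)) *
        (if z1 < p ∧ p ≠ g then (1 - (omg c h p : ℝ) / p) else 1)) ≤ ∏ p ∈ pz y, (1 - (omg c h p : ℝ) / p) := by
      apply Finset.prod_le_prod
      · intro p hp
        have hp' := (mem_pz.1 hp).2
        have hp0 : (0 : ℝ) < p := by exact_mod_cast hp'.pos
        have := (hf p hp').1
        have h3 : 0 ≤ 1 / (p : ℝ) := by positivity
        apply mul_nonneg
        · apply mul_nonneg <;> split_ifs <;> first | positivity | norm_num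
        · split_ifs
          · linarith
          · norm_num
      · intro p hp
        have hp' := (mem_pz.1 hp).2
        have hp0 : (0 : ℝ) < p := by exact_mod_cast hp'.pos
        obtain ⟨f1, f2⟩ := hf p hp'
        have h3 : 0 ≤ 1 / (p : ℝ) := by positivity
        by_cases hz : p ≤ z1
        · rw [if_pos hz, if_neg (show ¬ (z1 < p ∧ p ≠ g) from fun hh => absurd hh.1 (by omega)), mul_one]
          refine le_trans ?_ f1
          apply mul_le_of_le_one_right h3
          split_ifs <;> norm_num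
        · rw [if_neg hz, one_mul]
          by_cases hg : p = g
          · rw [if_pos hg, if_neg (show ¬ (z1 < p ∧ p ≠ g) from fun hh => hh.2 hg), mul_one]
            exact hf2 p hp' (by omega)
          · rw [if_neg hg, if_pos ⟨by omega, hg⟩, one_mul]
    have h2 : ∏ p ∈ pz y, (((if p ≤ z1 then 1 / (p : ℝ) else 1) * (if p = g then (1 / 2 : ℝ) else 1)) *
        (if z1 < p ∧ p ≠ g then (1 - (omg c h p : ℝ) / p) else 1)) =
        ((∏ p ∈ (pz y).filter (fun p => p ≤ z1), 1 / (p : ℝ)) * ∏ p ∈ (pz y).filter (fun p => p = g), (1 / 2 : ℝ)) *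
        ∏ p ∈ (pz y).filter (fun p => z1 < p ∧ p ≠ g), (1 - (omg c h p : ℝ) / p) := by
      rw [prod_mul_distrib, prod_mul_distrib, prod_filter, prod_filter, prod_filter]
    rw [h2] at h1
    refine le_trans ?_ h1
    apply mul_le_mul_of_nonneg_right _ (prod_nonneg fun p hp => by
      have hp' := (mem_pz.1 (mem_filter.1 hp).1).2
      have hp0 : (0 : ℝ) < p := by exact_mod_cast hp'.pos
      have := (hf p hp').1
      have h3 : 0 ≤ 1 / (p : ℝ) := by positivity
      linarith)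
    rw [hκ1]
    apply mul_le_mul _ _ (by norm_num) (prod_nonneg fun p _ => by positivity)
    · have hsub : (pz y).filter (fun p => p ≤ z1) ⊆ pz z1 := by
        intro p hp
        rw [mem_filter] at hp
        exact mem_pz.2 ⟨hp.2, (mem_pz.1 hp.1).2⟩
      rw [← prod_sdiff hsub]
      apply mul_le_of_le_one_left (prod_nonneg fun p _ => by positivity)
      apply prod_le_one (fun p _ => by positivity)
      intro p hp
      have hp1 : (1 : ℝ) ≤ p := by exact_mod_cast (mem_pz.1 (mem_sdiff.1 hp).1).2.one_le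
      rw [div_le_one (by linarith)]
      exact hp1
    · rw [prod_const]
      have : ((pz y).filter (fun p => p = g)).card ≤ 1 := by
        rw [card_le_one]
        intro a ha b hb
        rw [mem_filter] at ha hb
        rw [ha.2, hb.2]
      calc (1 / 2 : ℝ) = (1 / 2 : ℝ) ^ 1 := by norm_num
        _ ≤ _ := pow_le_pow_of_le_one (by norm_num) (by norm_num) this
  have hfull : ∏ p ∈ pz y, (1 - (omg c h p : ℝ) / p) = (∏ p ∈ pz y, lf c h p) * (Vz y) ^ (k + 1) := by
    unfold Vz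
    rw [← prod_pow, ← prod_mul_distrib]
    apply prod_congr rfl
    intro p hp
    have hp' := (mem_pz.1 hp).2
    rw [lf_omg c h p hp']
    have hp2 : (2 : ℝ) ≤ p := by exact_mod_cast hp'.two_le
    have hp0 : (1 - 1 / (p : ℝ)) ≠ 0 := by
      have : 1 / (p : ℝ) ≤ 1 / 2 := one_div_le_one_div_of_le (by norm_num) hp2
      have : (0 : ℝ) < 1 - 1 / (p : ℝ) := by linarith
      exact this.ne'
    rw [inv_pow, mul_right_comm, inv_mul_cancel₀ (pow_ne_zero _ hp0), one_mul]
  have hlf0 : 0 ≤ ∏ p ∈ pz y, lf c h p := prod_nonneg fun p hp => lf_nonneg c h p (mem_pz.1 hp).2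
  have hs0 : 0 ≤ singT c h := by
    have := hY1 y hy1 h hmul
    linarith
  have hVz : Vz y ≤ CV / Real.log y := by
    rw [le_div_iff₀ hlog]
    exact hCV y hy3
  have hV0 : 0 ≤ Vz y := (Vz_pos y).le
  have h4 : ∏ p ∈ pz y, (1 - (omg c h p : ℝ) / p) ≤ 2 * CV ^ (k + 1) * (singT c h / (Real.log y) ^ (k + 1)) := by
    rw [hfull]
    calc (∏ p ∈ pz y, lf c h p) * (Vz y) ^ (k + 1) ≤ (2 * singT c h) * (CV / Real.log y) ^ (k + 1) := by
          apply mul_le_mul (hY1 y hy1 h hmul) (pow_le_pow_left₀ hV0 hVz _) (by positivity) (by positivity)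
      _ = _ := by rw [div_pow]; ring
  have h5 : ∏ p ∈ (pz y).filter (fun p => z1 < p ∧ p ≠ g), (1 - (omg c h p : ℝ) / p) ≤ κ1⁻¹ * ∏ p ∈ pz y, (1 - (omg c h p : ℝ) / p) := by
    rw [inv_mul_eq_div, le_div_iff₀ hκ0, mul_comm]
    exact hcomp
  refine h5.trans ?_
  rw [mul_assoc]
  exact mul_le_mul_of_nonneg_left h4 (inv_nonneg.2 hκ0.le)

end Pool.Agent.H561.E3
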