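import Pool.Agent.H561.E3.U8

set_option autoImplicit false

/-! Upper bounds for the number of primes `n` with `c n + h = g q`, `q` prime. -/

namespace Pool.Agent.H561.E3

open Finset Filter Topology
open Pool.Agent.H373R2.T7 (pz mem_pz Vz Vz_pos)
open Pool.Agent.H561.E2
open Pool.Agent.Y959.Sv (nu up_sieve)

lemma card_zmod (p : ℕ) [NeZero p] (Q : ℕ → Prop) (R : ZMod p → Prop) [DecidablePred Q] [DecidablePred R]
    (hQR : ∀ n : ℕ, Q n ↔ R (n : ZMod p)) :
    ((range p).filter Q).card = ((univ : Finset (ZMod p)).filter R).card := by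
  apply card_bij (fun (n : ℕ) _ => (n : ZMod p))
  · intro n hn
    rw [mem_filter] at hn ⊢
    exact ⟨mem_univ _, (hQR n).1 hn.2⟩
  · intro n hn m hm hnm
    rw [mem_filter, mem_range] at hn hm
    have := (ZMod.natCast_eq_natCast_iff' n m p).1 hnm
    rwa [Nat.mod_eq_of_lt hn.1, Nat.mod_eq_of_lt hm.1] at this
  · intro x hx
    refine ⟨x.val, ?_, ZMod.natCast_zmod_val x⟩
    rw [mem_filter, mem_range]
    exact ⟨ZMod.val_lt x, by rw [hQR, ZMod.natCast_zmod_val]; exact (mem_filter.1 hx).2⟩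

/-- the conditions -/
def QG (c h t u : ℤ) (p j : ℕ) : Prop := (p : ℤ) ∣ (t + u * j) * (c * (t + u * j) + h)

lemma QG_iff (c h t u : ℤ) (p j : ℕ) : QG c h t u p j ↔
    (((t : ZMod p) + (u : ZMod p) * (j : ZMod p)) * ((c : ZMod p) * ((t : ZMod p) + (u : ZMod p) * (j : ZMod p)) + (h : ZMod p)) = 0) := by
  unfold QG
  rw [← ZMod.intCast_zmod_eq_zero_iff_dvd]
  push_cast
  exact Iff.rfl

lemma QG_per (c h t u : ℤ) (p j : ℕ) : QG c h t u p j ↔ QG c h t u p (j % p) := by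
  rw [QG_iff, QG_iff, ZMod.natCast_mod]

open Classical in
lemma nu_QG (c h t u : ℤ) (p : ℕ) (hp : p.Prime) (hu : ¬ (p : ℤ) ∣ u) :
    nu (QG c h t u) p = omg (fun _ : Fin 1 => c) (fun _ => h) p := by
  have : Fact p.Prime := ⟨hp⟩
  have hu0 : (u : ZMod p) ≠ 0 := fun h0 => hu ((ZMod.intCast_zmod_eq_zero_iff_dvd u p).1 h0)
  have e1 : nu (QG c h t u) p = ((univ : Finset (ZMod p)).filter (fun x => ((t : ZMod p) + (u : ZMod p) * x) *
      ((c : ZMod p) * ((t : ZMod p) + (u : ZMod p) * x) + (h : ZMod p)) = 0)).card := by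
    unfold nu
    exact card_zmod p _ _ (fun j => QG_iff c h t u p j)
  have e2 : omg (fun _ : Fin 1 => c) (fun _ => h) p = ((univ : Finset (ZMod p)).filter (fun x => x * ((c : ZMod p) * x + (h : ZMod p)) = 0)).card := by
    unfold omg
    apply card_zmod p _ _
    intro j
    rw [← ZMod.intCast_zmod_eq_zero_iff_dvd, Fin.prod_univ_one]
    push_cast
    exact Iff.rfl
  rw [e1, e2]
  apply card_bij (fun (x : ZMod p) _ => (t : ZMod p) + (u : ZMod p) * x)
  · intro x hx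
    rw [mem_filter] at hx ⊢
    exact ⟨mem_univ _, hx.2⟩
  · intro x _ y _ hxy
    have h1 : (u : ZMod p) * (x - y) = 0 := by
      have := add_left_cancel hxy
      rw [mul_sub, this, sub_self]
    rcases mul_eq_zero.1 h1 with h2 | h2
    · exact absurd h2 hu0
    · exact sub_eq_zero.1 h2
  · intro x hx
    have e3 : (t : ZMod p) + (u : ZMod p) * ((u : ZMod p)⁻¹ * (x - t)) = x := by
      rw [← mul_assoc, mul_inv_cancel₀ hu0, one_mul, add_sub_cancel]
    refine ⟨(u : ZMod p)⁻¹ * (x - t), ?_, e3⟩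
    rw [mem_filter] at hx ⊢
    refine ⟨mem_univ _, ?_⟩
    rw [e3]
    exact hx.2

theorem count_u (c : ℤ) (hc : c ≠ 0) : ∃ (K Y : ℕ) (C : ℝ), 1 ≤ K ∧ 0 < C ∧ ∀ y : ℕ, Y ≤ y → ∀ h : ℤ,
    Multipliable (fun p : ℕ => if p.Prime then lf (fun _ : Fin 1 => c) (fun _ => h) p else 1) → Adm (fun _ : Fin 1 => c) (fun _ => h) →
    ∀ g u : ℕ, g.Prime → (u = 1 ∨ u = g) → ∀ N₁ N₂ : ℕ, N₁ < N₂ → y ^ K ≤ N₂ / u - N₁ / u + 1 → ∀ r : ℕ, ∀ T : Finset ℕ, T ⊆ Ioc N₁ N₂ →
    (∀ n ∈ T, n.Prime ∧ n % u = r ∧ ∃ q : ℕ, q.Prime ∧ c * (n : ℤ) + h = g * q) →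
    (T.card : ℝ) ≤ 2 * y + 2 * (((N₂ / u - N₁ / u + 1 : ℕ) : ℝ) * (C * (singT (fun _ : Fin 1 => c) (fun _ => h) / (Real.log y) ^ 2))) +
      √((N₂ / u - N₁ / u + 1 : ℕ) : ℝ) := by
  classical
  obtain ⟨K, z0, hK, hsv⟩ := up_sieve 2
  obtain ⟨z1, Y, C, hz01, hC, homg, hprod⟩ := sieve_prod (fun _ : Fin 1 => c) (fun _ => hc) z0
  refine ⟨K, max Y 3, C, hK, hC, fun y hy h hmul hadm g u hg hug N₁ N₂ hN hyK r T hT hTp => ?_⟩
  have hyY : Y ≤ y := (le_max_left _ _).trans hy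
  have hy3 : 3 ≤ y := (le_max_right _ _).trans hy
  have hu1 : 1 ≤ u := by
    rcases hug with h1 | h1
    · omega
    · rw [h1]; exact hg.one_le
  obtain ⟨M, hM⟩ : ∃ M, M = N₂ / u - N₁ / u + 1 := ⟨_, rfl⟩
  rw [← hM] at hyK ⊢
  obtain ⟨t, ht⟩ : ∃ t : ℤ, t = r + u * ((N₁ / u : ℕ) : ℤ) - u := ⟨_, rfl⟩
  have hqex : ∀ n ∈ T, ∃ q : ℕ, q.Prime ∧ c * (n : ℤ) + h = g * q := fun n hn => (hTp n hn).2.2
  have hg0 : (g : ℤ) ≠ 0 := by exact_mod_cast hg.ne_zero
  -- the three parts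
  obtain ⟨T1, hT1⟩ : ∃ T1 : Finset ℕ, T1 = T.filter (fun n : ℕ => n ≤ y) := ⟨_, rfl⟩
  obtain ⟨T2, hT2⟩ : ∃ T2 : Finset ℕ, T2 = T.filter (fun n : ℕ => ∃ q : ℕ, q ≤ y ∧ q.Prime ∧ c * (n : ℤ) + h = g * q) := ⟨_, rfl⟩
  obtain ⟨T3, hT3⟩ : ∃ T3 : Finset ℕ, T3 = T.filter (fun n : ℕ => y < n ∧ ∃ q : ℕ, y < q ∧ q.Prime ∧ c * (n : ℤ) + h = g * q) := ⟨_, rfl⟩
  have hcover : T ⊆ T1 ∪ T2 ∪ T3 := by
    intro n hn
    obtain ⟨q, hq, he⟩ := hqex n hn
    rw [mem_union, mem_union, hT1, hT2, hT3, mem_filter, mem_filter, mem_filter]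
    by_cases h1 : n ≤ y
    · exact Or.inl (Or.inl ⟨hn, h1⟩)
    · by_cases h2 : q ≤ y
      · exact Or.inl (Or.inr ⟨hn, q, h2, hq, he⟩)
      · exact Or.inr ⟨hn, by omega, q, by omega, hq, he⟩
  have c1 : T1.card ≤ y := by
    have : T1 ⊆ Icc 1 y := by
      intro n hn
      rw [hT1, mem_filter] at hn
      rw [mem_Icc]
      exact ⟨(hTp n hn.1).1.one_le, hn.2⟩
    have := card_le_card this
    rwa [Nat.card_Icc, Nat.add_sub_cancel] at this
  have c2 : T2.card ≤ y := by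
    have : T2.card ≤ (Icc 1 y).card := by
      have hex : ∀ n ∈ T2, ∃ q : ℕ, q ≤ y ∧ q.Prime ∧ c * (n : ℤ) + h = g * q := by
        intro n hn
        rw [hT2, mem_filter] at hn
        exact hn.2
      choose! f hf using hex
      apply card_le_card_of_injOn f
      · intro n hn
        have := hf n hn
        exact mem_Icc.2 ⟨this.2.1.one_le, this.1⟩
      · intro n hn m hm hnm
        have h1 := (hf n hn).2.2
        have h2 := (hf m hm).2.2
        rw [hnm] at h1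
        have h3 : c * ((n : ℤ) - m) = 0 := by linarith
        rcases mul_eq_zero.1 h3 with h4 | h4
        · exact absurd h4 hc
        · omega
    rwa [Nat.card_Icc, Nat.add_sub_cancel] at this
  have hsv := hsv y M hy3 hyK (QG c h t u) (fun p n => QG_per c h t u p n) ((pz y).filter (fun p => z1 < p ∧ p ≠ g)) (by
    intro p hp
    rw [mem_filter] at hp
    obtain ⟨hp1, hp2, hp3⟩ := hp
    have hp' := (mem_pz.1 hp1).2
    refine ⟨hp', by omega, (mem_pz.1 hp1).1, ?_⟩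
    rw [nu_QG c h t u p hp' (by
      intro hd
      have hd' : p ∣ u := Int.natCast_dvd_natCast.1 hd
      rcases hug with h1 | h1
      · rw [h1] at hd'
        exact hp'.one_lt.ne' (Nat.dvd_one.1 hd')
      · rw [h1] at hd'
        exact hp3 ((Nat.prime_dvd_prime_iff_eq hp' hg).1 hd'))]
    exact homg (fun _ => h) p hp' hp2)
  have hnu : ∏ p ∈ (pz y).filter (fun p => z1 < p ∧ p ≠ g), (1 - (nu (QG c h t u) p : ℝ) / p) =
      ∏ p ∈ (pz y).filter (fun p => z1 < p ∧ p ≠ g), (1 - (omg (fun _ : Fin 1 => c) (fun _ => h) p : ℝ) / p) := by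
    apply prod_congr rfl
    intro p hp
    rw [mem_filter] at hp
    obtain ⟨hp1, hp2, hp3⟩ := hp
    have hp' := (mem_pz.1 hp1).2
    rw [nu_QG c h t u p hp' (by
      intro hd
      have hd' : p ∣ u := Int.natCast_dvd_natCast.1 hd
      rcases hug with h1 | h1
      · rw [h1] at hd'
        exact hp'.one_lt.ne' (Nat.dvd_one.1 hd')
      · rw [h1] at hd'
        exact hp3 ((Nat.prime_dvd_prime_iff_eq hp' hg).1 hd'))]
  rw [hnu] at hsv
  have hP := hprod y hyY (fun _ => h) hmul hadm g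
  have c3 : (T3.card : ℝ) ≤ 2 * ((M : ℝ) * (C * (singT (fun _ : Fin 1 => c) (fun _ => h) / (Real.log y) ^ 2))) + √(M : ℝ) := by
    have h1 : T3.card ≤ ((Icc 1 M).filter (fun n : ℕ => ∀ p ∈ (pz y).filter (fun p => z1 < p ∧ p ≠ g), ¬ QG c h t u p n)).card := by
      have hjn : ∀ n ∈ T3, N₁ / u ≤ n / u ∧ n / u ≤ N₂ / u ∧ (u : ℤ) * ((n / u : ℕ) : ℤ) + r = n := by
        intro n hn
        rw [hT3, mem_filter] at hn
        have h2 := hT hn.1
        rw [mem_Ioc] at h2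
        refine ⟨Nat.div_le_div_right h2.1.le, Nat.div_le_div_right h2.2, ?_⟩
        have h3 := Nat.div_add_mod n u
        rw [(hTp n hn.1).2.1] at h3
        exact_mod_cast h3
      apply card_le_card_of_injOn (fun n => n / u - N₁ / u + 1)
      · intro n hn
        obtain ⟨j1, j2, j3⟩ := hjn n hn
        have hn' := hn
        rw [mem_coe, hT3, mem_filter] at hn'
        obtain ⟨hnT, hyn, q, hyq, hq, he⟩ := hn'
        rw [mem_coe, mem_filter, mem_Icc]
        have hb1 : 1 ≤ n / u - N₁ / u + 1 := by omega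
        have hb2 : n / u - N₁ / u + 1 ≤ M := by rw [hM]; omega
        refine ⟨⟨hb1, hb2⟩, fun p hp hQ => ?_⟩
        rw [mem_filter] at hp
        obtain ⟨hp1, hp2, hp3⟩ := hp
        have hp' := (mem_pz.1 hp1).2
        have hpy := (mem_pz.1 hp1).1
        unfold QG at hQ
        have e1 : t + (u : ℤ) * ((n / u - N₁ / u + 1 : ℕ) : ℤ) = n := by
          rw [← j3, ht, Nat.cast_add, Nat.cast_sub j1, Nat.cast_one]
          ring
        rw [e1, he] at hQ
        have hpI := Nat.prime_iff_prime_int.1 hp'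
        rcases hpI.dvd_or_dvd hQ with h4 | h4
        · have h5 := (Nat.prime_dvd_prime_iff_eq hp' (hTp n hnT).1).1 (Int.natCast_dvd_natCast.1 h4)
          omega
        · rcases hpI.dvd_or_dvd h4 with h5 | h5
          · exact hp3 ((Nat.prime_dvd_prime_iff_eq hp' hg).1 (Int.natCast_dvd_natCast.1 h5))
          · have h6 := (Nat.prime_dvd_prime_iff_eq hp' hq).1 (Int.natCast_dvd_natCast.1 h5)
            omega
      · intro n hn m hm hnm
        obtain ⟨j1, j2, j3⟩ := hjn n hn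
        obtain ⟨l1, l2, l3⟩ := hjn m hm
        have h5 : n / u = m / u := by
          have : n / u - N₁ / u + 1 = m / u - N₁ / u + 1 := hnm
          omega
        rw [h5] at j3
        have : (n : ℤ) = m := by rw [← j3, ← l3]
        exact_mod_cast this
    have h2 : (T3.card : ℝ) ≤ (((Icc 1 M).filter (fun n : ℕ => ∀ p ∈ (pz y).filter (fun p => z1 < p ∧ p ≠ g), ¬ QG c h t u p n)).card : ℝ) := by
      exact_mod_cast h1
    refine h2.trans (hsv.trans ?_)
    have hM0 : (0 : ℝ) ≤ M := Nat.cast_nonneg _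
    have h3 := mul_le_mul_of_nonneg_left hP hM0
    linarith
  have h1 := card_le_card hcover
  have h2 : (T1 ∪ T2 ∪ T3).card ≤ T1.card + T2.card + T3.card :=
    (card_union_le _ _).trans (Nat.add_le_add_right (card_union_le _ _) _)
  have h3 : (T.card : ℝ) ≤ T1.card + T2.card + T3.card := by exact_mod_cast h1.trans h2
  have h4 : (T1.card : ℝ) ≤ y := by exact_mod_cast c1
  have h5 : (T2.card : ℝ) ≤ y := by exact_mod_cast c2
  linarith

end Pool.Agent.H561.E3
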