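import Pool.Agent.H561.E3.K5
import Pool.Agent.H561.E3.U9

set_option autoImplicit false

/-! Upper bounds for several linear forms: the sieve. -/

namespace Pool.Agent.H561.E3

open Finset Filter Topology
open Pool.Agent.H373R2.T7 (pz mem_pz Vz Vz_pos)
open Pool.Agent.H561.E2
open Pool.Agent.Y959.Sv (nu up_sieve)

/-- the conditions -/
def QGK {k : ℕ} (c h : Fin k → ℤ) (t u : ℤ) (p j : ℕ) : Prop := (p : ℤ) ∣ (t + u * j) * ∏ i, (c i * (t + u * j) + h i)

lemma QGK_iff {k : ℕ} (c h : Fin k → ℤ) (t u : ℤ) (p j : ℕ) : QGK c h t u p j ↔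
    (((t : ZMod p) + (u : ZMod p) * (j : ZMod p)) * ∏ i, ((c i : ZMod p) * ((t : ZMod p) + (u : ZMod p) * (j : ZMod p)) + (h i : ZMod p)) = 0) := by
  unfold QGK
  rw [← ZMod.intCast_zmod_eq_zero_iff_dvd]
  push_cast
  exact Iff.rfl

lemma QGK_per {k : ℕ} (c h : Fin k → ℤ) (t u : ℤ) (p j : ℕ) : QGK c h t u p j ↔ QGK c h t u p (j % p) := by
  rw [QGK_iff, QGK_iff, ZMod.natCast_mod]

open Classical in
lemma nu_QGK {k : ℕ} (c h : Fin k → ℤ) (t u : ℤ) (p : ℕ) (hp : p.Prime) (hu : ¬ (p : ℤ) ∣ u) :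
    nu (QGK c h t u) p = omg c h p := by
  have : Fact p.Prime := ⟨hp⟩
  have hu0 : (u : ZMod p) ≠ 0 := fun h0 => hu ((ZMod.intCast_zmod_eq_zero_iff_dvd u p).1 h0)
  have e1 : nu (QGK c h t u) p = ((univ : Finset (ZMod p)).filter (fun x => ((t : ZMod p) + (u : ZMod p) * x) *
      ∏ i, ((c i : ZMod p) * ((t : ZMod p) + (u : ZMod p) * x) + (h i : ZMod p)) = 0)).card := by
    unfold nu
    exact card_zmod p _ _ (fun j => QGK_iff c h t u p j)
  have e2 : omg c h p = ((univ : Finset (ZMod p)).filter (fun x => x * ∏ i, ((c i : ZMod p) * x + (h i : ZMod p)) = 0)).card := by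
    unfold omg
    apply card_zmod p _ _
    intro j
    rw [← ZMod.intCast_zmod_eq_zero_iff_dvd]
    push_cast
    exact Iff.rfl
  rw [e1, e2]
  apply card_bij (fun (x : ZMod p) _ => (t : ZMod p) + (u : ZMod p) * x)
  · intro x hx
    rw [mem_filter] at hx ⊢
    exact ⟨mem_univ _, hx.2⟩
  · intro x _ y _ hxy
    have h1 : (u : ZMod p) * (x - y) = 0 := by
      have := add_left_cancel hxy
      rw [mul_sub, this, sub_self]
    rcases mul_eq_zero.1 h1 with h2 | h2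
    · exact absurd h2 hu0
    · exact sub_eq_zero.1 h2
  · intro x hx
    have e3 : (t : ZMod p) + (u : ZMod p) * ((u : ZMod p)⁻¹ * (x - t)) = x := by
      rw [← mul_assoc, mul_inv_cancel₀ hu0, one_mul, add_sub_cancel]
    refine ⟨(u : ZMod p)⁻¹ * (x - t), ?_, e3⟩
    rw [mem_filter] at hx ⊢
    refine ⟨mem_univ _, ?_⟩
    rw [e3]
    exact hx.2

theorem count_uK {k : ℕ} (c : Fin k → ℤ) (hc : ∀ i, c i ≠ 0) : ∃ (K Y : ℕ) (C : ℝ), 1 ≤ K ∧ 0 < C ∧ ∀ y : ℕ, Y ≤ y → ∀ h : Fin k → ℤ,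
    Multipliable (fun p : ℕ => if p.Prime then lf c h p else 1) → Adm c h →
    ∀ E : Finset ℕ, E.card ≤ k → ∀ u : ℕ, 1 ≤ u → (∀ p : ℕ, p.Prime → p ∣ u → p ∈ E) → ∀ N₁ N₂ : ℕ, N₁ < N₂ →
    y ^ K ≤ N₂ / u - N₁ / u + 1 → ∀ r : ℕ, ∀ T : Finset ℕ, T ⊆ Ioc N₁ N₂ →
    (∀ n ∈ T, n.Prime ∧ y < n ∧ n % u = r ∧ ∀ p : ℕ, p.Prime → p ≤ y → p ∉ E → ∀ i, ¬ (p : ℤ) ∣ LFo c h i n) →
    (T.card : ℝ) ≤ 2 * (((N₂ / u - N₁ / u + 1 : ℕ) : ℝ) * (C * (singT c h / (Real.log y) ^ (k + 1)))) +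
      √((N₂ / u - N₁ / u + 1 : ℕ) : ℝ) := by
  classical
  obtain ⟨K, z0, hK, hsv⟩ := up_sieve (k + 1)
  obtain ⟨z1, Y, C, hz01, hC, homg, hprod⟩ := sieve_prodK c hc z0
  refine ⟨K, max Y 3, C, hK, hC, fun y hy h hmul hadm E hE u hu1 huE N₁ N₂ hN hyK r T hT hTp => ?_⟩
  have hyY : Y ≤ y := (le_max_left _ _).trans hy
  have hy3 : 3 ≤ y := (le_max_right _ _).trans hy
  obtain ⟨M, hM⟩ : ∃ M, M = N₂ / u - N₁ / u + 1 := ⟨_, rfl⟩
  rw [← hM] at hyK ⊢
  obtain ⟨t, ht⟩ : ∃ t : ℤ, t = r + u * ((N₁ / u : ℕ) : ℤ) - u := ⟨_, rfl⟩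
  have hndu : ∀ p ∈ (pz y).filter (fun p => z1 < p ∧ p ∉ E), ¬ (p : ℤ) ∣ u := by
    intro p hp hd
    rw [mem_filter] at hp
    exact hp.2.2 (huE p (mem_pz.1 hp.1).2 (Int.natCast_dvd_natCast.1 hd))
  have hsv := hsv y M hy3 hyK (QGK c h t u) (fun p n => QGK_per c h t u p n) ((pz y).filter (fun p => z1 < p ∧ p ∉ E)) (by
    intro p hp
    have hnd := hndu p hp
    rw [mem_filter] at hp
    obtain ⟨hp1, hp2, hp3⟩ := hp
    have hp' := (mem_pz.1 hp1).2
    refine ⟨hp', by omega, (mem_pz.1 hp1).1, ?_⟩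
    rw [nu_QGK c h t u p hp' hnd]
    exact homg h p hp' hp2)
  have hnu : ∏ p ∈ (pz y).filter (fun p => z1 < p ∧ p ∉ E), (1 - (nu (QGK c h t u) p : ℝ) / p) =
      ∏ p ∈ (pz y).filter (fun p => z1 < p ∧ p ∉ E), (1 - (omg c h p : ℝ) / p) := by
    apply prod_congr rfl
    intro p hp
    have hnd := hndu p hp
    rw [mem_filter] at hp
    rw [nu_QGK c h t u p (mem_pz.1 hp.1).2 hnd]
  rw [hnu] at hsv
  have hP := hprod y hyY h hmul hadm E hE
  have h1 : T.card ≤ ((Icc 1 M).filter (fun n : ℕ => ∀ p ∈ (pz y).filter (fun p => z1 < p ∧ p ∉ E), ¬ QGK c h t u p n)).card := by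
    have hjn : ∀ n ∈ T, N₁ / u ≤ n / u ∧ n / u ≤ N₂ / u ∧ (u : ℤ) * ((n / u : ℕ) : ℤ) + r = n := by
      intro n hn
      have h2 := hT hn
      rw [mem_Ioc] at h2
      refine ⟨Nat.div_le_div_right h2.1.le, Nat.div_le_div_right h2.2, ?_⟩
      have h3 := Nat.div_add_mod n u
      rw [(hTp n hn).2.2.1] at h3
      exact_mod_cast h3
    apply card_le_card_of_injOn (fun n => n / u - N₁ / u + 1)
    · intro n hn
      obtain ⟨j1, j2, j3⟩ := hjn n hn
      obtain ⟨hn1, hn2, _, hn4⟩ := hTp n hn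
      rw [mem_coe, mem_filter, mem_Icc]
      have hb1 : 1 ≤ n / u - N₁ / u + 1 := by omega
      have hb2 : n / u - N₁ / u + 1 ≤ M := by rw [hM]; omega
      refine ⟨⟨hb1, hb2⟩, fun p hp hQ => ?_⟩
      rw [mem_filter] at hp
      obtain ⟨hp1, hp2, hp3⟩ := hp
      have hp' := (mem_pz.1 hp1).2
      have hpy := (mem_pz.1 hp1).1
      unfold QGK at hQ
      have e1 : t + (u : ℤ) * ((n / u - N₁ / u + 1 : ℕ) : ℤ) = n := by
        rw [← j3, ht, Nat.cast_add, Nat.cast_sub j1, Nat.cast_one]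
        ring
      rw [e1] at hQ
      have hpI := Nat.prime_iff_prime_int.1 hp'
      rcases hpI.dvd_or_dvd hQ with h4 | h4
      · have h5 := (Nat.prime_dvd_prime_iff_eq hp' hn1).1 (Int.natCast_dvd_natCast.1 h4)
        omega
      · rw [hpI.dvd_finsetProd_iff] at h4
        obtain ⟨i, _, hi⟩ := h4
        exact hn4 p hp' hpy hp3 i hi
    · intro n hn m hm hnm
      obtain ⟨j1, j2, j3⟩ := hjn n hn
      obtain ⟨l1, l2, l3⟩ := hjn m hm
      have h5 : n / u = m / u := by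
        have : n / u - N₁ / u + 1 = m / u - N₁ / u + 1 := hnm
        omega
      rw [h5] at j3
      have : (n : ℤ) = m := by rw [← j3, ← l3]
      exact_mod_cast this
  have h2 : (T.card : ℝ) ≤ (((Icc 1 M).filter (fun n : ℕ => ∀ p ∈ (pz y).filter (fun p => z1 < p ∧ p ∉ E), ¬ QGK c h t u p n)).card : ℝ) := by
    exact_mod_cast h1
  refine h2.trans (hsv.trans ?_)
  have hM0 : (0 : ℝ) ≤ M := Nat.cast_nonneg _
  have h3 := mul_le_mul_of_nonneg_left hP hM0
  linarith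

/-- sums over systems of products over the distinct coordinates -/
lemma sum_imageK {k : ℕ} (w : ℕ → ℝ) (hw : ∀ p, 0 ≤ w p) (hw1 : w 1 = 1) (G Bd : Finset ℕ) (h1G : 1 ∈ G) (j : Fin k) :
    ∑ g ∈ (Fintype.piFinset (fun _ : Fin k => G)).filter (fun g => g j ∈ Bd), ∏ p ∈ univ.image g, w p ≤
      (k : ℝ) ^ k * ((∑ p ∈ Bd, w p) * (∑ p ∈ G, w p) ^ (k - 1)) := by
  classical
  obtain ⟨CD, hCD⟩ : ∃ CD : (Fin k → Fin k) → (Fin k → ℕ) → Prop, ∀ ρ g, CD ρ g ↔ ((∀ i, g (ρ i) = g i) ∧ (∀ i, ρ (ρ i) = ρ i) ∧ ρ j = j) :=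
    ⟨_, fun _ _ => Iff.rfl⟩
  obtain ⟨φ, hφ⟩ : ∃ φ : (Fin k → Fin k) → (Fin k → ℕ) → (Fin k → ℕ), ∀ ρ g i, φ ρ g i = if ρ i = i then g i else 1 :=
    ⟨fun ρ g i => if ρ i = i then g i else 1, fun _ _ _ => rfl⟩
  have hprod0 : ∀ g : Fin k → ℕ, 0 ≤ ∏ i, w (g i) := fun g => prod_nonneg fun i _ => hw _
  -- every system has a choice of representatives
  have step1 : ∀ g : Fin k → ℕ, ∏ p ∈ univ.image g, w p ≤ ∑ ρ : Fin k → Fin k, if CD ρ g then ∏ i, w (φ ρ g i) else 0 := by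
    intro g
    obtain ⟨rep, hrep⟩ : ∃ rep : ℕ → Fin k, ∀ v, rep v = if v = g j then j else if h : ∃ i, g i = v then h.choose else j := ⟨_, fun _ => rfl⟩
    have hg : ∀ i, g (rep (g i)) = g i := by
      intro i
      rw [hrep]
      split_ifs with h1 h2
      · exact h1.symm
      · exact h2.choose_spec
      · exact absurd ⟨i, rfl⟩ h2
    have hcd : CD (fun i => rep (g i)) g := by
      rw [hCD]
      refine ⟨hg, fun i => ?_, ?_⟩
      · show rep (g (rep (g i))) = rep (g i)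
        rw [hg]
      · show rep (g j) = j
        rw [hrep, if_pos rfl]
    have hval : ∏ p ∈ univ.image g, w p = ∏ i, w (φ (fun i => rep (g i)) g i) := by
      have e1 : univ.image g = ((univ : Finset (Fin k)).filter (fun i => rep (g i) = i)).image g := by
        ext v
        rw [mem_image, mem_image]
        constructor
        · rintro ⟨i, _, rfl⟩
          refine ⟨rep (g i), ?_, hg i⟩
          rw [mem_filter]
          exact ⟨mem_univ _, by rw [hg]⟩
        · rintro ⟨i, _, rfl⟩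
          exact ⟨i, mem_univ _, rfl⟩
      rw [e1, prod_image, prod_filter]
      · apply prod_congr rfl
        intro i _
        rw [hφ]
        split_ifs
        · rfl
        · exact hw1.symm
      · intro a ha b hb hab
        have ha' := (mem_filter.1 (mem_coe.1 ha)).2
        have hb' := (mem_filter.1 (mem_coe.1 hb)).2
        rw [← ha', ← hb', hab]
    rw [hval]
    have h5 := single_le_sum (f := fun ρ : Fin k → Fin k => if CD ρ g then ∏ i, w (φ ρ g i) else 0) (s := univ)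
      (fun ρ _ => by
        split_ifs
        · exact hprod0 _
        · exact le_rfl) (mem_univ (fun i => rep (g i)))
    rw [if_pos hcd] at h5
    exact h5
  refine (sum_le_sum fun g _ => step1 g).trans ?_
  rw [sum_comm]
  have hs1 : 1 ≤ ∑ p ∈ G, w p := by
    calc (1 : ℝ) = w 1 := hw1.symm
      _ ≤ _ := single_le_sum (f := w) (fun p _ => hw p) h1G
  have hsb : 0 ≤ ∑ p ∈ Bd, w p := sum_nonneg fun p _ => hw p
  have step2 : ∀ ρ ∈ (univ : Finset (Fin k → Fin k)), ∑ g ∈ (Fintype.piFinset (fun _ : Fin k => G)).filter (fun g => g j ∈ Bd),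
      (if CD ρ g then ∏ i, w (φ ρ g i) else 0) ≤ (∑ p ∈ Bd, w p) * (∑ p ∈ G, w p) ^ (k - 1) := by
    intro ρ _
    rw [← sum_filter]
    have hinj : Set.InjOn (φ ρ) (((Fintype.piFinset (fun _ : Fin k => G)).filter (fun g => g j ∈ Bd)).filter (fun g => CD ρ g) : Finset (Fin k → ℕ)) := by
      intro a ha b hb hab
      have ha' := (mem_filter.1 (mem_coe.1 ha)).2
      have hb' := (mem_filter.1 (mem_coe.1 hb)).2
      rw [hCD] at ha' hb'
      funext i
      have h1 : φ ρ a (ρ i) = φ ρ b (ρ i) := by rw [hab]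
      rw [hφ, hφ, if_pos (ha'.2.1 i), if_pos (ha'.2.1 i)] at h1
      rw [← ha'.1 i, ← hb'.1 i, h1]
    have e1 : ∑ g ∈ ((Fintype.piFinset (fun _ : Fin k => G)).filter (fun g => g j ∈ Bd)).filter (fun g => CD ρ g), ∏ i, w (φ ρ g i) =
        ∑ g' ∈ (((Fintype.piFinset (fun _ : Fin k => G)).filter (fun g => g j ∈ Bd)).filter (fun g => CD ρ g)).image (φ ρ), ∏ i, w (g' i) := by
      rw [Finset.sum_image hinj]
    rw [e1]
    have h2 : (((Fintype.piFinset (fun _ : Fin k => G)).filter (fun g => g j ∈ Bd)).filter (fun g => CD ρ g)).image (φ ρ) ⊆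
        Fintype.piFinset (fun i : Fin k => if i = j then Bd else G) := by
      intro g' hg'
      rw [mem_image] at hg'
      obtain ⟨g, hg, rfl⟩ := hg'
      rw [mem_filter, mem_filter, Fintype.mem_piFinset] at hg
      obtain ⟨⟨hg1, hg2⟩, hg3⟩ := hg
      rw [hCD] at hg3
      rw [Fintype.mem_piFinset]
      intro i
      rw [hφ]
      by_cases hij : i = j
      · rw [if_pos hij, hij, if_pos hg3.2.2]
        exact hg2
      · rw [if_neg hij]
        split_ifs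
        · exact hg1 i
        · exact h1G
    refine (sum_le_sum_of_subset_of_nonneg h2 (fun g' _ _ => hprod0 g')).trans ?_
    rw [← prod_univ_sum (fun i : Fin k => if i = j then Bd else G) (fun _ p => w p), ← mul_prod_erase univ _ (mem_univ j), if_pos rfl]
    apply mul_le_mul_of_nonneg_left _ hsb
    have e3 : ∏ i ∈ univ.erase j, ∑ p ∈ (if i = j then Bd else G), w p = ∏ _i ∈ univ.erase j, ∑ p ∈ G, w p := by
      apply prod_congr rfl
      intro i hi
      rw [if_neg (mem_erase.1 hi).1]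
    rw [e3, prod_const, card_erase_of_mem (mem_univ j), card_univ, Fintype.card_fin]
  refine (sum_le_card_nsmul _ _ _ step2).trans (le_of_eq ?_)
  rw [nsmul_eq_mul, card_univ, Fintype.card_fun, Fintype.card_fin]
  push_cast
  rfl

end Pool.Agent.H561.E3
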