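import Pool.Agent.H561.E3.K6

set_option autoImplicit false

/-! Upper bounds for several linear forms: final form. -/

namespace Pool.Agent.H561.E3

open Finset Filter Topology
open Pool.Agent.helper24_UT hiding om
open Pool.Agent.H373R2.T7 (pz mem_pz Vz Vz_pos)
open Pool.Agent.H561.E2

open Classical in
/-- the primes `n` for which `g_i` divides `L_i (n)` and the cofactor is free of small primes -/
noncomputable def TGK {k : ℕ} (c h : Fin k → ℤ) (N₁ N₂ y : ℕ) (g : Fin k → ℕ) : Finset ℕ :=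
  (Ioc N₁ N₂).filter (fun n : ℕ => n.Prime ∧ y < n ∧ ∀ i, (g i : ℤ) ∣ LFo c h i n ∧
    ∀ p : ℕ, p.Prime → p ≤ y → (p : ℤ) ∣ LFo c h i n → p = g i)

/-- the weights -/
noncomputable def wt (B0 p : ℕ) : ℝ := if p = 1 then 1 else (B0 : ℝ) / p

lemma wt_nonneg (B0 p : ℕ) : 0 ≤ wt B0 p := by
  unfold wt
  split_ifs
  · norm_num
  · positivity

theorem count_gK {k : ℕ} (hk0 : 0 < k) (c : Fin k → ℤ) (hc : ∀ i, c i ≠ 0) : ∃ δ C : ℝ, 0 < δ ∧ δ ≤ 1 / 10 ∧ 0 < C ∧ ∀ B : ℕ, ∃ X₀ : ℕ,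
    ∀ X : ℕ, X₀ ≤ X → ∀ N₁ N₂ : ℕ, N₁ < N₂ → X / (Real.log X) ^ B ≤ (N₂ : ℝ) - N₁ → ∀ h : Fin k → ℤ,
    Multipliable (fun p : ℕ => if p.Prime then lf c h p else 1) → Adm c h → ∀ y : ℕ, y = ⌊(X : ℝ) ^ δ⌋₊ →
    ∀ g : Fin k → ℕ, (∀ i, g i = 1 ∨ ((g i).Prime ∧ g i ≤ y)) →
    ((TGK c h N₁ N₂ y g).card : ℝ) ≤ C * (singT c h / (Real.log X) ^ (k + 1) * ((N₂ : ℝ) - N₁)) *
      ∏ p ∈ univ.image g, wt (∏ i, (c i).natAbs) p := by
  classical
  obtain ⟨K, Y, C, hK, hC, hcu⟩ := count_uK c hc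
  obtain ⟨κ, hκ, hsl⟩ := sing_lower c hc
  have hKr : (1 : ℝ) ≤ K := by exact_mod_cast hK
  have hkr : (1 : ℝ) ≤ k := by exact_mod_cast hk0
  obtain ⟨δ, hδ⟩ : ∃ δ : ℝ, δ = 1 / (10 * K * k) := ⟨_, rfl⟩
  have hδ0 : 0 < δ := by rw [hδ]; positivity
  have hKk : (1 : ℝ) ≤ K * k := one_le_mul_of_one_le_of_one_le hKr hkr
  have hδe : δ * (K * k) = 1 / 10 := by rw [hδ]; field_simp
  have hδK : δ * K ≤ 1 / 8 := by
    have h1 : δ * K ≤ δ * (K * k) := mul_le_mul_of_nonneg_left (le_mul_of_one_le_right (by linarith) hkr) hδ0.le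
    linarith
  have hδk : δ * k ≤ 1 / 8 := by
    have h1 : δ * k ≤ δ * (K * k) := mul_le_mul_of_nonneg_left (le_mul_of_one_le_left (by linarith) hKr) hδ0.le
    linarith
  have hδ10 : δ ≤ 1 / 10 := by
    have h1 : δ * 1 ≤ δ * (K * k) := mul_le_mul_of_nonneg_left hKk hδ0.le
    linarith
  obtain ⟨B0, hB0⟩ : ∃ B0 : ℕ, B0 = ∏ i, (c i).natAbs := ⟨_, rfl⟩
  have hB01 : 1 ≤ B0 := by rw [hB0]; exact prod_pos fun i _ => Int.natAbs_pos.2 (hc i)
  rw [← hB0]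
  refine ⟨δ, 2 * (1 + 2 * C * (2 / δ) ^ (k + 1)), hδ0, hδ10, by positivity, fun B => ?_⟩
  obtain ⟨X₁, hX₁⟩ := Filter.eventually_atTop.1 ((Sil2.ev_log 1000).and ((Sil2.ev_pow B (1 / 8) 1 (by norm_num)).and
    ((Sil2.ev_pow (k + 1) (1 / 8) (1 / κ) (by norm_num)).and ((Sil2.ev_pow 0 δ (Y + 2) hδ0).and ((Sil2.ev_pow 0 (δ / 2) 2 (by positivity)).and
    (Sil2.ev_pow 0 (1 / 8) 2 (by norm_num)))))))
  refine ⟨max X₁ 3, fun X hX N₁ N₂ hN hNB h hmul hadm y hy g hg => ?_⟩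
  obtain ⟨hL, c1, c2, c3, c4, c5⟩ := hX₁ X ((le_max_left _ _).trans hX)
  have hX3 : 3 ≤ X := (le_max_right _ _).trans hX
  obtain ⟨L, hLd⟩ : ∃ L, L = Real.log (X : ℝ) := ⟨_, rfl⟩
  rw [← hLd] at hL c1 c2 c3 c4 c5 hNB ⊢
  have hL1 : 1 ≤ L := by linarith
  have hL0 : 0 < L := by linarith
  have hXR : (3 : ℝ) ≤ X := by exact_mod_cast hX3
  have hX0 : (0 : ℝ) < X := lt_of_lt_of_le (by norm_num) hXR
  have hX1r : (1 : ℝ) ≤ X := le_trans (by norm_num) hXR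
  obtain ⟨V, hV⟩ : ∃ V : ℝ, V = (X : ℝ) ^ (1 / 8 : ℝ) := ⟨_, rfl⟩
  rw [← hV] at c1 c2 c5
  rw [pow_zero, mul_one] at c3 c4 c5
  rw [one_mul] at c1
  have hV0 : 0 < V := by rw [hV]; positivity
  have hV8 : V ^ 8 = X := by
    rw [hV, ← Real.rpow_natCast ((X : ℝ) ^ (1 / 8 : ℝ)) 8, ← Real.rpow_mul hX0.le]
    norm_num
  have hV1 : 1 ≤ V := by linarith
  obtain ⟨𝔖, h𝔖⟩ : ∃ 𝔖, 𝔖 = singT c h := ⟨_, rfl⟩
  have hs : κ ≤ 𝔖 := by rw [h𝔖]; exact hsl _ hmul hadm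
  have h𝔖0 : 0 < 𝔖 := by linarith
  obtain ⟨D, hD⟩ : ∃ D : ℝ, D = (N₂ : ℝ) - N₁ := ⟨_, rfl⟩
  rw [← hD] at hNB ⊢
  rw [← h𝔖]
  have hLB0 : 0 < L ^ B := by positivity
  have hD0 : 0 < D := lt_of_lt_of_le (by positivity) hNB
  -- the sieve parameter
  have hy1 : (y : ℝ) ≤ (X : ℝ) ^ δ := by rw [hy]; exact Nat.floor_le (by positivity)
  have hy2 : (X : ℝ) ^ δ ≤ y + 1 := by rw [hy]; exact (Nat.lt_floor_add_one _).le
  have hyY : Y ≤ y := by
    have h1 : (Y : ℝ) ≤ y := by linarith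
    exact_mod_cast h1
  have hyr1 : (1 : ℝ) ≤ y := by
    have : (0 : ℝ) ≤ Y := Nat.cast_nonneg _
    linarith
  have hyKV : (y : ℝ) ^ K ≤ V := by
    calc (y : ℝ) ^ K ≤ ((X : ℝ) ^ δ) ^ K := pow_le_pow_left₀ (Nat.cast_nonneg _) hy1 K
      _ = (X : ℝ) ^ (δ * K) := by rw [← Real.rpow_natCast, ← Real.rpow_mul hX0.le]
      _ ≤ V := by rw [hV]; exact Real.rpow_le_rpow_of_exponent_le hX1r hδK
  have hykV : (y : ℝ) ^ k ≤ V := by
    calc (y : ℝ) ^ k ≤ ((X : ℝ) ^ δ) ^ k := pow_le_pow_left₀ (Nat.cast_nonneg _) hy1 k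
      _ = (X : ℝ) ^ (δ * k) := by rw [← Real.rpow_natCast, ← Real.rpow_mul hX0.le]
      _ ≤ V := by rw [hV]; exact Real.rpow_le_rpow_of_exponent_le hX1r hδk
  -- the modulus
  obtain ⟨F, hF⟩ : ∃ F : Finset ℕ, F = (univ.image g).filter (fun p => p ≠ 1 ∧ ¬ p ∣ B0) := ⟨_, rfl⟩
  have himgp : ∀ p ∈ univ.image g, p = 1 ∨ (p.Prime ∧ p ≤ y) := by
    intro p hp
    rw [mem_image] at hp
    obtain ⟨i, _, rfl⟩ := hp
    exact hg i
  have hFp : ∀ p ∈ F, p.Prime ∧ p ≤ y := by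
    intro p hp
    rw [hF, mem_filter] at hp
    exact (himgp p hp.1).resolve_left hp.2.1
  have himgc : (univ.image g).card ≤ k := card_image_le.trans (by rw [card_univ, Fintype.card_fin])
  obtain ⟨u, hu⟩ : ∃ u : ℕ, u = ∏ p ∈ F, p := ⟨_, rfl⟩
  have hu1 : 1 ≤ u := by
    rw [hu]
    exact Nat.pos_of_ne_zero (prod_ne_zero_iff.2 fun p hp => (hFp p hp).1.ne_zero)
  have hur : (1 : ℝ) ≤ u := by exact_mod_cast hu1
  have hu0 : (0 : ℝ) < u := by linarith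
  have huV : (u : ℝ) ≤ V := by
    refine le_trans ?_ hykV
    have h1 : u ≤ y ^ k := by
      rw [hu]
      calc ∏ p ∈ F, p ≤ ∏ _p ∈ F, y := prod_le_prod' fun p hp => (hFp p hp).2
        _ = y ^ F.card := by rw [prod_const]
        _ ≤ y ^ k := by
            apply Nat.pow_le_pow_right (by exact_mod_cast hyr1)
            rw [hF]
            exact (card_filter_le _ _).trans himgc
    exact_mod_cast h1
  have huw : 1 / (u : ℝ) ≤ ∏ p ∈ univ.image g, wt B0 p := by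
    have h1 : 1 / (u : ℝ) = ∏ p ∈ univ.image g, if p ≠ 1 ∧ ¬ p ∣ B0 then 1 / (p : ℝ) else 1 := by
      rw [← prod_filter, ← hF, hu]
      push_cast
      rw [prod_div_distrib, prod_const_one]
    rw [h1]
    apply Finset.prod_le_prod
    · intro p _
      split_ifs <;> positivity
    · intro p hp
      unfold wt
      by_cases hp1 : p = 1
      · rw [if_pos hp1, if_neg (fun h => h.1 hp1)]
      · rw [if_neg hp1]
        obtain ⟨hpp, _⟩ := (himgp p hp).resolve_left hp1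
        have hp0 : (0 : ℝ) < p := by exact_mod_cast hpp.pos
        have hB0r : (1 : ℝ) ≤ B0 := by exact_mod_cast hB01
        split_ifs with h3
        · exact div_le_div_of_nonneg_right hB0r hp0.le
        · rw [le_div_iff₀ hp0, one_mul]
          have h4 : p ∣ B0 := by
            by_contra h5
            exact h3 ⟨hp1, h5⟩
          exact_mod_cast Nat.le_of_dvd hB01 h4
  obtain ⟨M, hM⟩ : ∃ M : ℕ, M = N₂ / u - N₁ / u + 1 := ⟨_, rfl⟩
  have hMle : D / u ≤ M ∧ (M : ℝ) ≤ D / u + 2 := by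
    have h1 : N₁ / u ≤ N₂ / u := Nat.div_le_div_right hN.le
    have h2 : (M : ℝ) = ((N₂ / u : ℕ) : ℝ) - ((N₁ / u : ℕ) : ℝ) + 1 := by
      rw [hM, Nat.cast_add, Nat.cast_sub h1, Nat.cast_one]
    have h3 : ((N₂ / u : ℕ) : ℝ) ≤ (N₂ : ℝ) / u := Nat.cast_div_le
    have h4 : ((N₁ / u : ℕ) : ℝ) ≤ (N₁ : ℝ) / u := Nat.cast_div_le
    have h5 : (N₂ : ℝ) / u ≤ ((N₂ / u : ℕ) : ℝ) + 1 := by
      rw [div_le_iff₀ hu0]
      have := Nat.lt_div_mul_add (a := N₂) hu1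
      have h6 : N₂ ≤ (N₂ / u + 1) * u := by rw [add_mul, one_mul]; omega
      exact_mod_cast h6
    have h6 : (N₁ : ℝ) / u ≤ ((N₁ / u : ℕ) : ℝ) + 1 := by
      rw [div_le_iff₀ hu0]
      have := Nat.lt_div_mul_add (a := N₁) hu1
      have h6 : N₁ ≤ (N₁ / u + 1) * u := by rw [add_mul, one_mul]; omega
      exact_mod_cast h6
    have h7 : D / u = (N₂ : ℝ) / u - (N₁ : ℝ) / u := by rw [hD, sub_div]
    rw [h2, h7]
    constructor <;> linarith
  have hDu : V ^ 2 ≤ D / u := by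
    rw [le_div_iff₀ hu0]
    calc V ^ 2 * u ≤ V ^ 2 * V := by gcongr
      _ = V ^ 3 := by ring
      _ ≤ V ^ 6 := pow_le_pow_right₀ hV1 (by norm_num)
      _ ≤ X / L ^ B := by
          rw [le_div_iff₀ hLB0, ← hV8]
          calc V ^ 6 * L ^ B ≤ V ^ 6 * V := by gcongr
            _ = V ^ 7 := by ring
            _ ≤ V ^ 8 := pow_le_pow_right₀ hV1 (by norm_num)
      _ ≤ D := hNB
  have hMV : V ^ 2 ≤ M := hDu.trans hMle.1
  have hV2 : V ≤ V ^ 2 := le_self_pow₀ hV1 (by norm_num)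
  have hV24 : 4 ≤ V ^ 2 := by nlinarith
  have hM2 : (M : ℝ) ≤ 2 * (D / u) := by
    have := hMle.2
    linarith
  have hyK : y ^ K ≤ M := by
    have h1 : ((y ^ K : ℕ) : ℝ) ≤ M := by
      push_cast
      linarith
    exact_mod_cast h1
  have hlogy : δ / 2 * L ≤ Real.log y := by
    have h1 : (X : ℝ) ^ (δ / 2) ≤ y := by
      have h2 : (X : ℝ) ^ δ = (X : ℝ) ^ (δ / 2) * (X : ℝ) ^ (δ / 2) := by
        rw [← Real.rpow_add hX0]
        congr 1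
        ring
      have h3 : 2 * (X : ℝ) ^ (δ / 2) ≤ (X : ℝ) ^ δ := by
        rw [h2]
        exact mul_le_mul_of_nonneg_right c4 (by positivity)
      have h4 : 1 ≤ (X : ℝ) ^ (δ / 2) := by linarith
      linarith
    have h2 := Real.log_le_log (by positivity) h1
    rw [Real.log_rpow hX0, ← hLd] at h2
    exact h2
  -- the residue class
  obtain ⟨r, hr⟩ : ∃ r : ℕ, ∀ n ∈ TGK c h N₁ N₂ y g, n % u = r := by
    rcases (TGK c h N₁ N₂ y g).eq_empty_or_nonempty with he | ⟨n₀, hn₀⟩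
    · exact ⟨0, fun n hn => by rw [he] at hn; exact absurd hn (notMem_empty _)⟩
    · refine ⟨n₀ % u, fun n hn => ?_⟩
      unfold TGK at hn hn₀
      rw [mem_filter] at hn hn₀
      have h1 : (u : ℤ) ∣ (n : ℤ) - n₀ := by
        rw [hu]
        push_cast
        apply Finset.prod_dvd_of_coprime
        · intro p hp q hq hpq
          exact Nat.isCoprime_iff_coprime.2 ((Nat.coprime_primes (hFp p hp).1 (hFp q hq).1).2 hpq)
        · intro p hp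
          have hpp := (hFp p hp).1
          have hpF := hp
          rw [hF, mem_filter, mem_image] at hpF
          obtain ⟨⟨i, _, hi⟩, hp1, hpB⟩ := hpF
          have h2 := (hn.2.2.2 i).1
          have h3 := (hn₀.2.2.2 i).1
          rw [hi] at h2 h3
          unfold LFo at h2 h3
          have h4 := dvd_sub h2 h3
          have h5 : (p : ℤ) ∣ c i * ((n : ℤ) - n₀) := by
            have e : c i * ((n : ℤ) - n₀) = c i * (n : ℤ) + h i - (c i * (n₀ : ℤ) + h i) := by ring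
            rw [e]
            exact h4
          refine ((Nat.prime_iff_prime_int.1 hpp).dvd_or_dvd h5).resolve_left (fun h6 => hpB ?_)
          rw [hB0]
          exact (Int.natCast_dvd.1 h6).trans (dvd_prod_of_mem _ (mem_univ i))
      have h3 : (n₀ : ℤ) ≡ n [ZMOD u] := (Int.modEq_iff_dvd).2 h1
      exact ((Int.natCast_modEq_iff).1 h3.symm)
  have key := hcu y hyY h hmul hadm (univ.image g) himgc u hu1 (fun p hp hpu => by
      rw [hu] at hpu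
      obtain ⟨q, hq, hpq⟩ := (hp.prime.dvd_finsetProd_iff _).1 hpu
      have h1 := (Nat.prime_dvd_prime_iff_eq hp (hFp q hq).1).1 hpq
      rw [h1]
      rw [hF, mem_filter] at hq
      exact hq.1) N₁ N₂ hN (by rw [← hM]; exact hyK) r (TGK c h N₁ N₂ y g)
    (by unfold TGK; exact filter_subset _ _) (fun n hn => by
      have hn' := hn
      unfold TGK at hn'
      rw [mem_filter] at hn'
      refine ⟨hn'.2.1, hn'.2.2.1, hr n hn, fun p hp hpy hpE i hd => ?_⟩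
      apply hpE
      rw [(hn'.2.2.2 i).2 p hp hpy hd]
      exact mem_image_of_mem g (mem_univ i))
  rw [← hM, ← h𝔖] at key
  have hM0 : (0 : ℝ) < M := by linarith
  have hsqM : √(M : ℝ) ≤ M / V := by
    rw [le_div_iff₀ hV0]
    have h1 : V ≤ √(M : ℝ) := by
      apply Real.le_sqrt_of_sq_le
      exact hMV
    calc √(M : ℝ) * V ≤ √(M : ℝ) * √(M : ℝ) := mul_le_mul_of_nonneg_left h1 (Real.sqrt_nonneg _)
      _ = M := Real.mul_self_sqrt hM0.le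
  have hsmall : 1 / V ≤ 𝔖 / L ^ (k + 1) := by
    rw [div_le_div_iff₀ hV0 (by positivity)]
    rw [div_mul_eq_mul_div, div_le_iff₀ hκ] at c2
    calc 1 * L ^ (k + 1) ≤ V * κ := c2
      _ ≤ 𝔖 * V := by rw [mul_comm]; exact mul_le_mul_of_nonneg_right hs hV0.le
  have hlog2 : 𝔖 / (Real.log y) ^ (k + 1) ≤ (2 / δ) ^ (k + 1) * (𝔖 / L ^ (k + 1)) := by
    have h1 : (δ / 2 * L) ^ (k + 1) ≤ (Real.log y) ^ (k + 1) := pow_le_pow_left₀ (by positivity) hlogy _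
    calc 𝔖 / (Real.log y) ^ (k + 1) ≤ 𝔖 / (δ / 2 * L) ^ (k + 1) := div_le_div_of_nonneg_left h𝔖0.le (by positivity) h1
      _ = (2 / δ) ^ (k + 1) * (𝔖 / L ^ (k + 1)) := by rw [mul_pow, div_pow, div_pow]; field_simp
  have h1 : ((TGK c h N₁ N₂ y g).card : ℝ) ≤ M * ((1 + 2 * C * (2 / δ) ^ (k + 1)) * (𝔖 / L ^ (k + 1))) := by
    have h2 : 2 * ((M : ℝ) * (C * (𝔖 / (Real.log y) ^ (k + 1)))) ≤ 2 * ((M : ℝ) * (C * ((2 / δ) ^ (k + 1) * (𝔖 / L ^ (k + 1))))) := by gcongr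
    have h3 : (M : ℝ) * (1 / V) ≤ M * (𝔖 / L ^ (k + 1)) := mul_le_mul_of_nonneg_left hsmall hM0.le
    have h4 : (M : ℝ) * (1 / V) = M / V := by ring
    have h5 : M * ((1 + 2 * C * (2 / δ) ^ (k + 1)) * (𝔖 / L ^ (k + 1))) = M * (𝔖 / L ^ (k + 1)) +
        2 * ((M : ℝ) * (C * ((2 / δ) ^ (k + 1) * (𝔖 / L ^ (k + 1))))) := by ring
    linarith
  refine h1.trans ?_
  have h6 : 0 ≤ (1 + 2 * C * (2 / δ) ^ (k + 1)) * (𝔖 / L ^ (k + 1)) := by positivity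
  calc (M : ℝ) * ((1 + 2 * C * (2 / δ) ^ (k + 1)) * (𝔖 / L ^ (k + 1))) ≤
        (2 * (D / u)) * ((1 + 2 * C * (2 / δ) ^ (k + 1)) * (𝔖 / L ^ (k + 1))) := mul_le_mul_of_nonneg_right hM2 h6
    _ = 2 * (1 + 2 * C * (2 / δ) ^ (k + 1)) * (𝔖 / L ^ (k + 1) * D) * (1 / u) := by ring
    _ ≤ _ := by
        apply mul_le_mul_of_nonneg_left huw
        positivity

end Pool.Agent.H561.E3
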