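import Pool.Agent.H561.E3.U14

set_option autoImplicit false

/-! Products of exactly two primes: shorter windows. -/

namespace Pool.Agent.H561.E3

open Finset Filter Topology
open Pool.Agent.helper24_UT hiding om
open Pool.Agent.H373R2.T7 (pz mem_pz Vz Vz_pos)
open Pool.Agent.H561.E2

open Classical in
/-- **Products of exactly two primes in almost all shifts of the primes of an interval**, windows of length
`exp ((log X) ^ (1 - η))`. -/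
theorem e2w (c : ℤ) (hc : c ≠ 0) (ε : ℝ) (hε : 0 < ε) : ∃ η : ℝ, 0 < η ∧ η ≤ 1 / 2 ∧ ∀ A B : ℕ, ∃ X₀ : ℕ, ∀ X : ℕ, X₀ ≤ X →
    ∀ N₁ N₂ : ℕ, N₁ < N₂ → N₂ ≤ X → X / (Real.log X) ^ B ≤ (N₂ : ℝ) - N₁ → ∀ (b : ℤ) (H : ℕ), Real.exp ((Real.log X) ^ (1 - η)) ≤ H →
    (∀ n ∈ Ioc N₁ N₂, 1 ≤ c * (n : ℤ) + b ∧ c * (n : ℤ) + b + H ≤ X) →
    (((Ico b (b + H)).filter (fun h : ℤ => h ≠ 0 ∧ Adm (fun _ : Fin 1 => c) (fun _ => h) ∧
      ¬ |(cE c h N₁ N₂ : ℝ) - singT (fun _ : Fin 1 => c) (fun _ => h) * ((N₂ : ℝ) - N₁) * Real.log (Real.log X) / (Real.log X) ^ 2| ≤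
        ε * (singT (fun _ : Fin 1 => c) (fun _ => h) * ((N₂ : ℝ) - N₁) * Real.log (Real.log X) / (Real.log X) ^ 2))).card : ℝ) ≤
      H / (Real.log X) ^ A := by
  obtain ⟨ε', hε'⟩ : ∃ ε' : ℝ, ε' = min ε 1 / 8 := ⟨_, rfl⟩
  have hm0 : 0 < min ε 1 := lt_min hε one_pos
  have hε'0 : 0 < ε' := by rw [hε']; positivity
  have hε'1 : 8 * ε' ≤ ε := by rw [hε']; linarith [min_le_left ε 1]
  have hε'2 : 8 * ε' ≤ 1 := by rw [hε']; linarith [min_le_right ε 1]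
  obtain ⟨θ₀, hθ1, hθ2, hT⟩ := cntP 1 (fun _ : Fin 1 => c) (fun _ => hc) (err_big (fun _ : Fin 1 => c) (fun _ => hc)) ε' hε'0
  obtain ⟨Cg, hCg, hcg⟩ := count_g c hc
  obtain ⟨δ, hδ⟩ : ∃ δ : ℝ, δ = min ε' (ε' / Cg) := ⟨_, rfl⟩
  have hδ0 : 0 < δ := by rw [hδ]; exact lt_min hε'0 (by positivity)
  have hδ1 : δ ≤ ε' := by rw [hδ]; exact min_le_left _ _
  have hδ2 : Cg * δ ≤ ε' := by
    have : δ ≤ ε' / Cg := by rw [hδ]; exact min_le_right _ _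
    rw [le_div_iff₀ hCg] at this
    linarith
  obtain ⟨η, hη⟩ : ∃ η : ℝ, η = δ / 2 := ⟨_, rfl⟩
  have hη0 : 0 < η := by rw [hη]; positivity
  have hη1 : η ≤ 1 / 2 := by rw [hη]; linarith
  have hη2 : 2 * η = δ := by rw [hη]; ring
  refine ⟨η / 2, by positivity, by linarith, fun A B => ?_⟩
  obtain ⟨a₀, hT⟩ := hT A B
  obtain ⟨a, ha⟩ : ∃ a, a = max a₀ 1 := ⟨_, rfl⟩
  have ha0 : a₀ ≤ a := by rw [ha]; exact le_max_left _ _
  have ha1 : 1 ≤ a := by rw [ha]; exact le_max_right _ _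
  obtain ⟨G, X₁, hT⟩ := hT a ha0
  obtain ⟨X₂, hcg⟩ := hcg B
  obtain ⟨X₃, hme⟩ := mertE a ha1 η hη0 hη1
  rw [hη2] at hme
  obtain ⟨κ, hκ, hsl⟩ := sing_lower (fun _ : Fin 1 => c) (fun _ => hc)
  have hlogt : Tendsto (fun X : ℕ => Real.log (X : ℝ)) atTop atTop := Real.tendsto_log_atTop.comp tendsto_natCast_atTop_atTop
  have hlogG : ∀ᶠ x : ℝ in atTop, (G : ℝ) * Real.log x ≤ x ^ (1 - η) := by
    have h2 := (isLittleO_log_rpow_atTop (show 0 < 1 - η by linarith)).def (show 0 < 1 / ((G : ℝ) + 1) by positivity)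
    filter_upwards [h2, eventually_ge_atTop 1] with x hx hx1
    have hx0 : 0 < x := by linarith
    rw [Real.norm_eq_abs, Real.norm_eq_abs, abs_of_nonneg (Real.log_nonneg hx1), abs_of_nonneg (by positivity), div_mul_eq_mul_div, one_mul,
      le_div_iff₀ (by positivity)] at hx
    have := Real.log_nonneg hx1
    linarith
  have hpow2 : ∀ᶠ x : ℝ in atTop, (2 : ℝ) ≤ x ^ (η / 2) := (tendsto_rpow_atTop (show 0 < η / 2 by positivity)).eventually (eventually_ge_atTop 2)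
  obtain ⟨X₄, hX₄⟩ := Filter.eventually_atTop.1 ((Sil2.ev_log 1000).and ((hlogt.eventually hlogG).and (hlogt.eventually hpow2)))
  obtain ⟨X₅, hX₅⟩ := ev_exp η hη0 (by linarith) θ₀ hθ1
  refine ⟨max (max X₁ X₂) (max (max X₃ X₅) (max X₄ 3)), fun X hX N₁ N₂ hN12 hN2 hNB b H hH hb => ?_⟩
  have hX1 : X₁ ≤ X := ((le_max_left _ _).trans (le_max_left _ _)).trans hX
  have hX2 : X₂ ≤ X := ((le_max_right _ _).trans (le_max_left _ _)).trans hX
  have hX3 : X₃ ≤ X := (((le_max_left _ _).trans (le_max_left _ _)).trans (le_max_right _ _)).trans hX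
  have hXθ := hX₅ X ((((le_max_right _ _).trans (le_max_left _ _)).trans (le_max_right _ _)).trans hX)
  have hX4 : X₄ ≤ X := (((le_max_left _ _).trans (le_max_right _ _)).trans (le_max_right _ _)).trans hX
  have hX5 : 3 ≤ X := (((le_max_right _ _).trans (le_max_right _ _)).trans (le_max_right _ _)).trans hX
  obtain ⟨hL, hLG, hL2⟩ := hX₄ X hX4
  obtain ⟨P, z, hP, hz, hP1, hzP, hPQ, hℓ2, hσ1, hσ2, hrest⟩ := hme X hX3
  have hT := hT X hX1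
  have hcg := hcg X hX2 N₁ N₂ hN12 hNB
  obtain ⟨L, hLd⟩ : ∃ L, L = Real.log (X : ℝ) := ⟨_, rfl⟩
  rw [← hLd] at hL hz hP hLG hL2 hXθ hH hℓ2 hσ1 hσ2 hrest hNB hT hcg ⊢
  obtain ⟨ℓ, hℓ⟩ : ∃ ℓ, ℓ = Real.log L := ⟨_, rfl⟩
  rw [← hℓ] at hLG hℓ2 hσ1 hσ2 hrest ⊢
  have hL1 : 1 ≤ L := by linarith
  have hL0 : 0 < L := by linarith
  have hXR : (3 : ℝ) ≤ X := by exact_mod_cast hX5
  have hX0 : (0 : ℝ) < X := by linarith
  obtain ⟨D, hD⟩ : ∃ D : ℝ, D = (N₂ : ℝ) - N₁ := ⟨_, rfl⟩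
  rw [← hD] at hNB hcg ⊢
  have hD0 : 0 < D := lt_of_lt_of_le (by positivity) hNB
  -- the set of the primes
  obtain ⟨S, hS⟩ : ∃ S : Finset ℕ, S = pz P \ pz z := ⟨_, rfl⟩
  have hSp : ∀ p ∈ S, p.Prime ∧ L ^ a < p ∧ p ≤ P := by
    intro p hp
    rw [hS, Finset.mem_sdiff] at hp
    obtain ⟨hp1, hp2⟩ := hp
    have hp' := (mem_pz.1 hp1).2
    refine ⟨hp', ?_, ?_⟩
    · have h1 : ¬ p ≤ z := fun hcon => hp2 (mem_pz.2 ⟨hcon, hp'⟩)
      rw [hz] at h1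
      by_contra hcon
      push Not at hcon
      exact h1 (Nat.le_floor hcon)
    · exact (mem_pz.1 hp1).1
  obtain ⟨σ, hσ⟩ : ∃ σ : ℝ, σ = ∑ p ∈ S, 1 / (p : ℝ) := ⟨_, rfl⟩
  have hσe : σ = ∑ p ∈ pz P, 1 / (p : ℝ) - ∑ p ∈ pz z, 1 / (p : ℝ) := by
    have h1 := sum_sdiff (f := fun p : ℕ => 1 / (p : ℝ)) (pz_mono hzP)
    rw [hσ, hS]
    linarith
  rw [← hσe] at hσ1 hσ2
  have hσ0 : 1 ≤ σ := by
    have h1 : (1 / 2 : ℝ) * 2 ≤ (1 - δ) * ℓ := mul_le_mul (by linarith) hℓ2 (by norm_num) (by linarith)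
    linarith
  have hRest : ∑ g ∈ pz (Nat.sqrt X) \ S, 1 / (g : ℝ) ≤ δ * ℓ := by
    refine le_trans ?_ hrest
    have h1 := sum_sdiff (f := fun p : ℕ => 1 / (p : ℝ)) (pz_mono hPQ)
    have h2 : ∑ p ∈ pz (Nat.sqrt X), 1 / (p : ℝ) - ∑ p ∈ pz P, 1 / (p : ℝ) = ∑ p ∈ pz (Nat.sqrt X) \ pz P, 1 / (p : ℝ) := by linarith
    rw [h2]
    have h3 : pz (Nat.sqrt X) \ S ⊆ pz z ∪ (pz (Nat.sqrt X) \ pz P) := by
      intro p hp
      rw [Finset.mem_sdiff, hS, Finset.mem_sdiff] at hp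
      rw [mem_union, Finset.mem_sdiff]
      by_cases h4 : p ∈ pz P
      · left
        by_contra h5
        exact hp.2 ⟨h4, h5⟩
      · exact Or.inr ⟨hp.1, h4⟩
    refine (sum_le_sum_of_subset_of_nonneg h3 (fun p _ _ => by positivity)).trans ?_
    have h4 : Disjoint (pz z) (pz (Nat.sqrt X) \ pz P) := by
      rw [Finset.disjoint_left]
      intro p hp hp'
      rw [Finset.mem_sdiff] at hp'
      exact hp'.2 (pz_mono hzP hp)
    rw [sum_union h4]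
  have hLB : 1 ≤ L ^ B := one_le_pow₀ hL1
  obtain ⟨Λ, hΛ⟩ : ∃ Λ : ℝ, Λ = L ^ (1 - η) := ⟨_, rfl⟩
  rw [← hΛ] at hP hLG hXθ
  have hPe : (P : ℝ) ≤ Real.exp Λ := by rw [hP]; exact Nat.floor_le (Real.exp_pos _).le
  have hPθ : (P : ℝ) ≤ (X : ℝ) ^ θ₀ := by
    refine hPe.trans ?_
    rw [← Real.exp_log (show 0 < (X : ℝ) ^ θ₀ by positivity), Real.log_rpow hX0, ← hLd]
    exact Real.exp_le_exp.2 hXθ
  have hΛ0 : 0 < Λ := by rw [hΛ]; positivity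
  have hPH : P * L ^ G ≤ (H : ℝ) := by
    have h1 : L ^ G = Real.exp (G * ℓ) := by
      rw [hℓ, mul_comm, Real.exp_mul, Real.exp_log hL0, Real.rpow_natCast]
    calc P * L ^ G ≤ Real.exp Λ * Real.exp Λ := by
          rw [h1]
          exact mul_le_mul hPe (Real.exp_le_exp.2 hLG) (Real.exp_pos _).le (Real.exp_pos _).le
      _ = Real.exp (Λ * 2) := by rw [← Real.exp_add]; congr 1; ring
      _ ≤ Real.exp (L ^ (1 - η / 2)) := by
          apply Real.exp_le_exp.2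
          have h2 : L ^ (1 - η / 2) = Λ * L ^ (η / 2) := by
            rw [hΛ, ← Real.rpow_add hL0]
            congr 1
            ring
          rw [h2]
          exact mul_le_mul_of_nonneg_left hL2 hΛ0.le
      _ ≤ H := hH
  have hkey := hT P hP1 hPθ (fun _ => S) (fun _ p hp => hSp p hp) (fun _ => by
    show 1 / L ^ B ≤ ∑ p ∈ S, 1 / (p : ℝ)
    rw [← hσ, div_le_iff₀ (by positivity)]
    calc (1 : ℝ) = 1 * 1 := by norm_num
      _ ≤ σ * L ^ B := mul_le_mul hσ0 hLB zero_le_one (by linarith)) H hPH N₁ N₂ (fun _ => b) hN12 hN2 (by rw [← hD]; exact hNB) (fun _ n hn => hb n hn)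
  rw [pow_one] at hkey
  refine le_trans ?_ hkey
  have hcard : ((Ico b (b + H)).filter (fun h : ℤ => h ≠ 0 ∧ Adm (fun _ : Fin 1 => c) (fun _ => h) ∧
      ¬ |(cE c h N₁ N₂ : ℝ) - singT (fun _ : Fin 1 => c) (fun _ => h) * D * ℓ / L ^ 2| ≤
        ε * (singT (fun _ : Fin 1 => c) (fun _ => h) * D * ℓ / L ^ 2))).card ≤
      ((Fintype.piFinset (fun i : Fin 1 => Ico ((fun _ : Fin 1 => b) i) ((fun _ : Fin 1 => b) i + H))).filter (fun h => NDeg (fun _ : Fin 1 => c) h ∧ Adm (fun _ : Fin 1 => c) h ∧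
    ¬ (Multipliable (fun p : ℕ => if p.Prime then lf (fun _ : Fin 1 => c) h p else 1) ∧
      |(cntE (fun _ : Fin 1 => c) (fun _ => S) N₁ N₂ h : ℝ) - Mn (fun _ : Fin 1 => c) (fun _ => S) N₁ N₂ h / L ^ (1 + 1)| ≤
      ε' * (Mn (fun _ : Fin 1 => c) (fun _ => S) N₁ N₂ h / L ^ (1 + 1))))).card := by
    apply card_le_card_of_injOn (fun h : ℤ => (fun _ : Fin 1 => h))
    · intro h hh
      rw [mem_coe, mem_filter, mem_Ico] at hh
      obtain ⟨hh1, hh2, hh3, hh4⟩ := hh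
      rw [mem_coe, mem_filter, Fintype.mem_piFinset]
      refine ⟨fun _ => mem_Ico.2 hh1, ⟨fun _ => hh2, fun i j hij => absurd (Subsingleton.elim i j) hij⟩, hh3, ?_⟩
      rintro ⟨hmul, hg⟩
      apply hh4
      have hbh : ∀ n ∈ Ioc N₁ N₂, 1 ≤ c * (n : ℤ) + h ∧ c * (n : ℤ) + h ≤ X := by
        intro n hn
        have h1 := hb n hn
        constructor <;> linarith [h1.1, h1.2, hh1.1, hh1.2]
      obtain ⟨g1, g2⟩ := cE_bounds c h X N₁ N₂ S (fun p hp => (hSp p hp).1) hbh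
      have g1r : (cntE (fun _ : Fin 1 => c) (fun _ => S) N₁ N₂ (fun _ => h) : ℝ) ≤ cE c h N₁ N₂ := by exact_mod_cast g1
      have g2r : (cE c h N₁ N₂ : ℝ) ≤ cntE (fun _ : Fin 1 => c) (fun _ => S) N₁ N₂ (fun _ => h) +
          ∑ g ∈ (pz (Nat.sqrt X)) \ S, ((TG c h N₁ N₂ g).card : ℝ) := by exact_mod_cast g2
      obtain ⟨𝔖, h𝔖⟩ : ∃ 𝔖, 𝔖 = singT (fun _ : Fin 1 => c) (fun _ => h) := ⟨_, rfl⟩
      have hs : κ ≤ 𝔖 := by rw [h𝔖]; exact hsl _ hmul hh3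
      have h𝔖0 : 0 < 𝔖 := by linarith
      obtain ⟨W, hW⟩ : ∃ W : ℝ, W = 𝔖 / L ^ 2 * D := ⟨_, rfl⟩
      have hW0 : 0 < W := by rw [hW]; positivity
      have hup : ∑ g ∈ (pz (Nat.sqrt X)) \ S, ((TG c h N₁ N₂ g).card : ℝ) ≤ Cg * W * (δ * ℓ) := by
        have h1 : ∀ g ∈ (pz (Nat.sqrt X)) \ S, ((TG c h N₁ N₂ g).card : ℝ) ≤ Cg * W * (1 / g) := by
          intro g hg
          have hg' := mem_pz.1 (Finset.mem_sdiff.1 hg).1
          have h2 := hcg h hmul hh3 g hg'.2 (by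
            rw [pow_two]
            exact Nat.le_sqrt.1 hg'.1)
          rw [← h𝔖, ← hW] at h2
          exact h2
        refine (sum_le_sum h1).trans ?_
        rw [← mul_sum]
        exact mul_le_mul_of_nonneg_left hRest (by positivity)
      have hMn : Mn (fun _ : Fin 1 => c) (fun _ => S) N₁ N₂ (fun _ => h) / L ^ (1 + 1) = W * σ := by
        unfold Mn
        rw [Fin.prod_univ_one, ← h𝔖, ← hσ, ← hD, hW]
        ring
      rw [hMn] at hg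
      have e0 : singT (fun _ : Fin 1 => c) (fun _ => h) * D * ℓ / L ^ 2 = W * ℓ := by
        rw [← h𝔖, hW]
        ring
      rw [e0]
      obtain ⟨s1, s2⟩ := abs_le.1 hg
      have hℓ0 : 0 < ℓ := by linarith
      have w1 : W * ((1 - δ) * ℓ) ≤ W * σ := mul_le_mul_of_nonneg_left hσ1 hW0.le
      have w2 : W * σ ≤ W * ((1 + δ) * ℓ) := mul_le_mul_of_nonneg_left hσ2 hW0.le
      have hWℓ : 0 < W * ℓ := by positivity
      have w3 : ε' * (W * σ) ≤ ε' * (W * ((1 + δ) * ℓ)) := mul_le_mul_of_nonneg_left w2 hε'0.le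
      have w4 : ε' * (W * ((1 + δ) * ℓ)) ≤ 2 * ε' * (W * ℓ) := by
        have h1 : W * ((1 + δ) * ℓ) ≤ 2 * (W * ℓ) := by
          have h2 : δ * (W * ℓ) ≤ 1 * (W * ℓ) := mul_le_mul_of_nonneg_right (by linarith) hWℓ.le
          calc W * ((1 + δ) * ℓ) = W * ℓ + δ * (W * ℓ) := by ring
            _ ≤ _ := by linarith
        calc ε' * (W * ((1 + δ) * ℓ)) ≤ ε' * (2 * (W * ℓ)) := mul_le_mul_of_nonneg_left h1 hε'0.le
          _ = _ := by ring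
      have w5 : δ * (W * ℓ) ≤ ε' * (W * ℓ) := mul_le_mul_of_nonneg_right hδ1 hWℓ.le
      have w6 : Cg * W * (δ * ℓ) ≤ ε' * (W * ℓ) := by
        calc Cg * W * (δ * ℓ) = (Cg * δ) * (W * ℓ) := by ring
          _ ≤ ε' * (W * ℓ) := mul_le_mul_of_nonneg_right hδ2 hWℓ.le
      have w7 : W * ((1 - δ) * ℓ) = W * ℓ - δ * (W * ℓ) := by ring
      have w8 : W * ((1 + δ) * ℓ) = W * ℓ + δ * (W * ℓ) := by ring
      have w9 : 8 * ε' * (W * ℓ) ≤ ε * (W * ℓ) := mul_le_mul_of_nonneg_right hε'1 hWℓ.le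
      have w10 : 0 ≤ ε' * (W * ℓ) := by positivity
      rw [abs_le]
      constructor <;> linarith
    · intro x _ y _ hxy
      exact congrFun hxy 0
  exact_mod_cast hcard

end Pool.Agent.H561.E3
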