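import Pool.Agent.H561.E3.K7
import Pool.Agent.H561.E3.U15

set_option autoImplicit false

/-! Several linear forms, products of exactly two primes: the decomposition. -/

namespace Pool.Agent.H561.E3

open Finset Filter Topology
open Pool.Agent.helper24_UT hiding om
open Pool.Agent.H373R2.T7 (pz mem_pz Vz Vz_pos)
open Pool.Agent.H561.E2

open Classical in
/-- the number of the primes `n`, `N₁ < n ≤ N₂`, for which all `c_i n + h_i` are products of two primes -/
noncomputable def CE {k : ℕ} (c h : Fin k → ℤ) (N₁ N₂ : ℕ) : ℕ :=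
  ((Ioc N₁ N₂).filter (fun n : ℕ => n.Prime ∧ ∀ i, ∃ p q : ℕ, p.Prime ∧ q.Prime ∧ LFo c h i n = p * q)).card

open Classical in
/-- the count between the products with one factor in `S` and the rest -/
lemma CE_bounds {k : ℕ} (c h : Fin k → ℤ) (hc : ∀ i, c i ≠ 0) (N₁ N₂ y : ℕ) (S : Finset ℕ) (hS : ∀ p ∈ S, p.Prime)
    (hb : ∀ i, ∀ n ∈ Ioc N₁ N₂, 1 ≤ LFo c h i n) :
    cntE c (fun _ => S) N₁ N₂ h ≤ CE c h N₁ N₂ ∧
    CE c h N₁ N₂ ≤ cntE c (fun _ => S) N₁ N₂ h + (y + k * y ^ 2) + ∑ j : Fin k,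
      ∑ g ∈ (Fintype.piFinset (fun _ : Fin k => insert 1 (pz y))).filter (fun g => g j ∈ insert 1 (pz y \ S)), (TGK c h N₁ N₂ y g).card := by
  have hPS : ∀ n ∈ Ioc N₁ N₂, ∀ i, PS S (LFo c h i n).toNat ↔ ∃ g ∈ S, ∃ q : ℕ, q.Prime ∧ LFo c h i n = g * q := by
    intro n hn i
    unfold PS
    have h1 : (((LFo c h i n).toNat : ℕ) : ℤ) = LFo c h i n := Int.toNat_of_nonneg (by linarith [hb i n hn])
    constructor
    · rintro ⟨g, hg, q, hq, he⟩
      refine ⟨g, hg, q, hq, ?_⟩
      rw [← h1, he]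
      push_cast
      rfl
    · rintro ⟨g, hg, q, hq, he⟩
      refine ⟨g, hg, q, hq, ?_⟩
      rw [← h1] at he
      exact_mod_cast he
  constructor
  · unfold cntE CE
    apply card_le_card
    intro n hn
    rw [mem_filter] at hn ⊢
    obtain ⟨hn1, hn2, hn3⟩ := hn
    refine ⟨hn1, hn2, fun i => ?_⟩
    obtain ⟨g, hg, q, hq, he⟩ := (hPS n hn1 i).1 (hn3 i)
    exact ⟨g, q, hS g hg, hq, he⟩
  · unfold CE
    obtain ⟨T1, hT1⟩ : ∃ T1 : Finset ℕ, T1 = (Ioc N₁ N₂).filter (fun n => n.Prime ∧ ∀ i, PS ((fun _ => S) i) (LFo c h i n).toNat) := ⟨_, rfl⟩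
    obtain ⟨T3, hT3⟩ : ∃ T3 : Finset ℕ, T3 = (univ : Finset (Fin k)).biUnion (fun i => (Ioc N₁ N₂).filter (fun n : ℕ => LFo c h i n ≤ (y : ℤ) ^ 2)) := ⟨_, rfl⟩
    obtain ⟨T4, hT4⟩ : ∃ T4 : Finset ℕ, T4 = (univ : Finset (Fin k)).biUnion (fun j =>
      ((Fintype.piFinset (fun _ : Fin k => insert 1 (pz y))).filter (fun g => g j ∈ insert 1 (pz y \ S))).biUnion (fun g => TGK c h N₁ N₂ y g)) := ⟨_, rfl⟩
    have hsub : (Ioc N₁ N₂).filter (fun n : ℕ => n.Prime ∧ ∀ i, ∃ p q : ℕ, p.Prime ∧ q.Prime ∧ LFo c h i n = p * q) ⊆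
        T1 ∪ (Icc 1 y ∪ T3) ∪ T4 := by
      intro n hn
      rw [mem_filter] at hn
      obtain ⟨hn1, hn2, hn3⟩ := hn
      rw [mem_union, mem_union, mem_union]
      by_cases hny : n ≤ y
      · exact Or.inl (Or.inr (Or.inl (mem_Icc.2 ⟨hn2.one_le, hny⟩)))
      by_cases h3 : ∃ i, LFo c h i n ≤ (y : ℤ) ^ 2
      · left; right; right
        obtain ⟨i, hi⟩ := h3
        rw [hT3, mem_biUnion]
        exact ⟨i, mem_univ _, mem_filter.2 ⟨hn1, hi⟩⟩
      push Not at hny h3
      have hn4 : ∀ i, ∃ p q : ℕ, p.Prime ∧ q.Prime ∧ LFo c h i n = p * q ∧ y < q := by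
        intro i
        obtain ⟨p, q, hp, hq, he⟩ := hn3 i
        have key : ∀ p q : ℕ, p.Prime → q.Prime → p ≤ q → LFo c h i n = p * q → ∃ p q : ℕ, p.Prime ∧ q.Prime ∧ LFo c h i n = p * q ∧ y < q := by
          intro p q hp hq hpq he
          refine ⟨p, q, hp, hq, he, ?_⟩
          by_contra hcon
          push Not at hcon
          have h5 := h3 i
          rw [he] at h5
          have h6 : p * q ≤ y ^ 2 := by
            rw [pow_two]
            exact Nat.mul_le_mul (hpq.trans hcon) hcon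
          have h7 : ((p * q : ℕ) : ℤ) ≤ ((y ^ 2 : ℕ) : ℤ) := by exact_mod_cast h6
          push_cast at h7
          linarith
        rcases le_total p q with h1 | h1
        · exact key p q hp hq h1 he
        · exact key q p hq hp h1 (by rw [he, mul_comm])
      choose p q hp hq he hyq using hn4
      by_cases hall : ∀ i, p i ∈ S
      · left; left
        rw [hT1, mem_filter]
        exact ⟨hn1, hn2, fun i => (hPS n hn1 i).2 ⟨p i, hall i, q i, hq i, he i⟩⟩
      · right
        push Not at hall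
        obtain ⟨j, hj⟩ := hall
        obtain ⟨g, hg⟩ : ∃ g : Fin k → ℕ, ∀ i, g i = if p i ≤ y then p i else 1 := ⟨_, fun _ => rfl⟩
        rw [hT4, mem_biUnion]
        refine ⟨j, mem_univ _, ?_⟩
        rw [mem_biUnion]
        refine ⟨g, ?_, ?_⟩
        · rw [mem_filter, Fintype.mem_piFinset]
          constructor
          · intro i
            rw [hg, mem_insert]
            split_ifs with h5
            · exact Or.inr (mem_pz.2 ⟨h5, hp i⟩)
            · exact Or.inl rfl
          · rw [hg, mem_insert]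
            split_ifs with h5
            · exact Or.inr (Finset.mem_sdiff.2 ⟨mem_pz.2 ⟨h5, hp j⟩, hj⟩)
            · exact Or.inl rfl
        · unfold TGK
          rw [mem_filter]
          refine ⟨hn1, hn2, hny, fun i => ⟨?_, fun s hs hsy hsd => ?_⟩⟩
          · rw [hg, he i]
            split_ifs with h5
            · exact Dvd.intro _ rfl
            · rw [Nat.cast_one]
              exact one_dvd _
          · rw [he i] at hsd
            rcases (Nat.prime_iff_prime_int.1 hs).dvd_or_dvd hsd with h6 | h6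
            · have h7 := (Nat.prime_dvd_prime_iff_eq hs (hp i)).1 (Int.natCast_dvd_natCast.1 h6)
              rw [hg, ← h7, if_pos hsy]
            · have h7 := (Nat.prime_dvd_prime_iff_eq hs (hq i)).1 (Int.natCast_dvd_natCast.1 h6)
              have h8 := hyq i
              omega
    have c3 : T3.card ≤ k * y ^ 2 := by
      rw [hT3]
      refine card_biUnion_le.trans ?_
      have h5 : ∀ i ∈ (univ : Finset (Fin k)), ((Ioc N₁ N₂).filter (fun n : ℕ => LFo c h i n ≤ (y : ℤ) ^ 2)).card ≤ y ^ 2 := by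
        intro i _
        have h6 : ((Ioc N₁ N₂).filter (fun n : ℕ => LFo c h i n ≤ (y : ℤ) ^ 2)).card ≤ (Icc 1 (y ^ 2)).card := by
          apply card_le_card_of_injOn (fun n => (LFo c h i n).toNat)
          · intro n hn
            rw [mem_coe, mem_filter] at hn
            have h7 := hb i n hn.1
            rw [mem_coe, mem_Icc]
            constructor
            · show 1 ≤ (LFo c h i n).toNat
              omega
            · have h8 : ((LFo c h i n).toNat : ℤ) ≤ ((y ^ 2 : ℕ) : ℤ) := by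
                rw [Int.toNat_of_nonneg (by linarith)]
                push_cast
                exact hn.2
              exact_mod_cast h8
          · intro n hn m hm hnm
            rw [mem_coe, mem_filter] at hn hm
            have h7 := hb i n hn.1
            have h8 := hb i m hm.1
            have h9 : (LFo c h i n).toNat = (LFo c h i m).toNat := hnm
            have h10 : LFo c h i n = LFo c h i m := by omega
            unfold LFo at h10
            have h11 : c i * ((n : ℤ) - m) = 0 := by linarith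
            rcases mul_eq_zero.1 h11 with h12 | h12
            · exact absurd h12 (hc i)
            · omega
        rwa [Nat.card_Icc, Nat.add_sub_cancel] at h6
      refine (sum_le_card_nsmul _ _ _ h5).trans (le_of_eq ?_)
      rw [card_univ, Fintype.card_fin, smul_eq_mul]
    have c4 : T4.card ≤ ∑ j : Fin k,
      ∑ g ∈ (Fintype.piFinset (fun _ : Fin k => insert 1 (pz y))).filter (fun g => g j ∈ insert 1 (pz y \ S)), (TGK c h N₁ N₂ y g).card := by
      rw [hT4]
      exact card_biUnion_le.trans (sum_le_sum fun j _ => card_biUnion_le)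
    have c1 : T1.card = cntE c (fun _ => S) N₁ N₂ h := by
      rw [hT1]
      unfold cntE
      rfl
    have c2 : (Icc 1 y).card = y := by rw [Nat.card_Icc, Nat.add_sub_cancel]
    refine (card_le_card hsub).trans ((card_union_le _ _).trans ?_)
    have h5 := card_union_le T1 (Icc 1 y ∪ T3)
    have h6 := card_union_le (Icc 1 y) T3
    omega

/-- the sum of the upper bounds -/
lemma bad_sumK {k : ℕ} (B0 y : ℕ) (S : Finset ℕ) (j : Fin k) (s sb : ℝ) (h1 : 1 + B0 * ∑ p ∈ pz y, 1 / (p : ℝ) ≤ s)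
    (h2 : 1 + B0 * ∑ p ∈ pz y \ S, 1 / (p : ℝ) ≤ sb) :
    ∑ g ∈ (Fintype.piFinset (fun _ : Fin k => insert 1 (pz y))).filter (fun g => g j ∈ insert 1 (pz y \ S)), ∏ p ∈ univ.image g, wt B0 p ≤
      (k : ℝ) ^ k * (sb * s ^ (k - 1)) := by
  have hw1 : wt B0 1 = 1 := by
    unfold wt
    rw [if_pos rfl]
  have hpz1 : ∀ p ∈ pz y, p ≠ 1 := fun p hp h => (mem_pz.1 hp).2.one_lt.ne' h
  have hsum : ∀ T ⊆ pz y, ∑ p ∈ insert 1 T, wt B0 p = 1 + B0 * ∑ p ∈ T, 1 / (p : ℝ) := by
    intro T hT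
    rw [sum_insert (fun h => hpz1 1 (hT h) rfl), hw1, mul_sum]
    congr 1
    apply sum_congr rfl
    intro p hp
    unfold wt
    rw [if_neg (hpz1 p (hT hp))]
    ring
  have h3 := sum_imageK (wt B0) (wt_nonneg B0) hw1 (insert 1 (pz y)) (insert 1 (pz y \ S)) (mem_insert_self _ _) j
  rw [hsum _ (Finset.Subset.refl _), hsum _ Finset.sdiff_subset] at h3
  refine h3.trans ?_
  apply mul_le_mul_of_nonneg_left _ (by positivity)
  have a1 : 0 ≤ 1 + B0 * ∑ p ∈ pz y, 1 / (p : ℝ) := by positivity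
  have a2 : 0 ≤ 1 + B0 * ∑ p ∈ pz y \ S, 1 / (p : ℝ) := by positivity
  exact mul_le_mul h2 (pow_le_pow_left₀ a1 h1 _) (by positivity) (a2.trans h2)

lemma one_add_pow_le (k : ℕ) (δ : ℝ) (h0 : 0 ≤ δ) (h1 : δ ≤ 1) : (1 + δ) ^ k ≤ 1 + 3 ^ k * δ := by
  induction k with
  | zero => simp; exact h0
  | succ k ih =>
    have h3 : (1 : ℝ) ≤ 3 ^ k := one_le_pow₀ (by norm_num)
    calc (1 + δ) ^ (k + 1) = (1 + δ) ^ k * (1 + δ) := pow_succ _ _
      _ ≤ (1 + 3 ^ k * δ) * (1 + δ) := mul_le_mul_of_nonneg_right ih (by linarith)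
      _ = 1 + δ * (1 + 3 ^ k + 3 ^ k * δ) := by ring
      _ ≤ 1 + δ * (3 ^ k + 3 ^ k + 3 ^ k * 1) := by gcongr
      _ = 1 + 3 ^ (k + 1) * δ := by ring

end Pool.Agent.H561.E3
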