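import Pool.Agent.H561.E3.K8

set_option autoImplicit false

/-! Several linear forms, products of exactly two primes: the theorem. -/

namespace Pool.Agent.H561.E3

open Finset Filter Topology
open Pool.Agent.helper24_UT hiding om
open Pool.Agent.H373R2.T7 (pz mem_pz Vz Vz_pos)
open Pool.Agent.H561.E2

/-- the expected number -/
noncomputable def ME {k : ℕ} (c h : Fin k → ℤ) (X N₁ N₂ : ℕ) : ℝ :=
  singT c h * ((N₂ : ℝ) - N₁) * Real.log (Real.log X) ^ k / Real.log X ^ (k + 1)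

open Classical in
/-- **Products of exactly two primes in almost all systems of linear forms at the primes of an interval**, boxes of side
`exp ((log X) ^ (1 - η))`. -/
theorem e2K (k : ℕ) (hk0 : 0 < k) (c : Fin k → ℤ) (hc : ∀ i, c i ≠ 0) (ε : ℝ) (hε : 0 < ε) : ∃ η : ℝ, 0 < η ∧ η ≤ 1 / 2 ∧ ∀ A B : ℕ, ∃ X₀ : ℕ,
    ∀ X : ℕ, X₀ ≤ X → ∀ N₁ N₂ : ℕ, N₁ < N₂ → N₂ ≤ X → X / (Real.log X) ^ B ≤ (N₂ : ℝ) - N₁ → ∀ (b : Fin k → ℤ) (H : ℕ),
    Real.exp ((Real.log X) ^ (1 - η)) ≤ H → (∀ i, ∀ n ∈ Ioc N₁ N₂, 1 ≤ c i * (n : ℤ) + b i ∧ c i * (n : ℤ) + b i + H ≤ X) →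
    (((Fintype.piFinset (fun i : Fin k => Ico (b i) (b i + H))).filter (fun h => NDeg c h ∧ Adm c h ∧
      ¬ |(CE c h N₁ N₂ : ℝ) - ME c h X N₁ N₂| ≤ ε * ME c h X N₁ N₂)).card : ℝ) ≤ (H : ℝ) ^ k / (Real.log X) ^ A := by
  obtain ⟨ε', hε'⟩ : ∃ ε' : ℝ, ε' = min ε 1 / 8 := ⟨_, rfl⟩
  have hm0 : 0 < min ε 1 := lt_min hε one_pos
  have hε'0 : 0 < ε' := by rw [hε']; positivity
  have hε'1 : 8 * ε' ≤ ε := by rw [hε']; linarith [min_le_left ε 1]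
  have hε'2 : 8 * ε' ≤ 1 := by rw [hε']; linarith [min_le_right ε 1]
  have hkr : (1 : ℝ) ≤ k := by exact_mod_cast hk0
  obtain ⟨θ₀, hθ1, hθ2, hT⟩ := cntPK k hk0 c hc (fun U => err_bigK hk0 c hc U) ε' hε'0
  obtain ⟨δ₀, Cg, hδ₀0, hδ₀1, hCg, hcg⟩ := count_gK hk0 c hc
  obtain ⟨B0, hB0⟩ : ∃ B0 : ℕ, B0 = ∏ i, (c i).natAbs := ⟨_, rfl⟩
  have hB01 : 1 ≤ B0 := by rw [hB0]; exact prod_pos fun i _ => Int.natAbs_pos.2 (hc i)
  have hB0r : (1 : ℝ) ≤ B0 := by exact_mod_cast hB01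
  rw [← hB0] at hcg
  obtain ⟨C1, hC1⟩ : ∃ C1 : ℝ, C1 = Cg * k * (k : ℝ) ^ k * ((B0 + 1) * (4 * B0) ^ (k - 1)) := ⟨_, rfl⟩
  have hC10 : 0 < C1 := by
    rw [hC1]
    have : (0 : ℝ) < k := by linarith
    positivity
  obtain ⟨δ, hδ⟩ : ∃ δ : ℝ, δ = min (ε' / C1) (ε' / 3 ^ k) := ⟨_, rfl⟩
  have hδ0 : 0 < δ := by rw [hδ]; exact lt_min (by positivity) (by positivity)
  have hδ2 : C1 * δ ≤ ε' := by
    have : δ ≤ ε' / C1 := by rw [hδ]; exact min_le_left _ _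
    rw [le_div_iff₀ hC10] at this
    linarith
  have hδ3 : 3 ^ k * δ ≤ ε' := by
    have : δ ≤ ε' / 3 ^ k := by rw [hδ]; exact min_le_right _ _
    rw [le_div_iff₀ (by positivity)] at this
    linarith
  have h3k : (1 : ℝ) ≤ 3 ^ k := one_le_pow₀ (by norm_num)
  have hδ1 : δ ≤ ε' := (le_mul_of_one_le_left hδ0.le h3k).trans hδ3
  have hkδ : k * δ ≤ ε' := by
    refine le_trans (mul_le_mul_of_nonneg_right ?_ hδ0.le) hδ3
    have h5 : k < 3 ^ k := Nat.lt_pow_self (by norm_num)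
    exact_mod_cast h5.le
  obtain ⟨η, hη⟩ : ∃ η : ℝ, η = δ / 2 := ⟨_, rfl⟩
  have hη0 : 0 < η := by rw [hη]; positivity
  have hη1 : η ≤ 1 / 2 := by rw [hη]; linarith
  have hη2 : 2 * η = δ := by rw [hη]; ring
  refine ⟨η / 2, by positivity, by linarith, fun A B => ?_⟩
  obtain ⟨a₀, hT⟩ := hT A B
  obtain ⟨a, ha⟩ : ∃ a, a = max a₀ 1 := ⟨_, rfl⟩
  have ha0 : a₀ ≤ a := by rw [ha]; exact le_max_left _ _
  have ha1 : 1 ≤ a := by rw [ha]; exact le_max_right _ _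
  obtain ⟨G, X₁, hT⟩ := hT a ha0
  obtain ⟨X₂, hcg⟩ := hcg B
  obtain ⟨X₃, hme⟩ := mertE a ha1 η hη0 hη1
  rw [hη2] at hme
  obtain ⟨κ, hκ, hsl⟩ := sing_lower c hc
  have hlogt : Tendsto (fun X : ℕ => Real.log (X : ℝ)) atTop atTop := Real.tendsto_log_atTop.comp tendsto_natCast_atTop_atTop
  have hlogG : ∀ᶠ x : ℝ in atTop, (G : ℝ) * Real.log x ≤ x ^ (1 - η) := by
    have h2 := (isLittleO_log_rpow_atTop (show 0 < 1 - η by linarith)).def (show 0 < 1 / ((G : ℝ) + 1) by positivity)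
    filter_upwards [h2, eventually_ge_atTop 1] with x hx hx1
    have hx0 : 0 < x := by linarith
    rw [Real.norm_eq_abs, Real.norm_eq_abs, abs_of_nonneg (Real.log_nonneg hx1), abs_of_nonneg (by positivity), div_mul_eq_mul_div, one_mul,
      le_div_iff₀ (by positivity)] at hx
    have := Real.log_nonneg hx1
    linarith
  have hpow2 : ∀ᶠ x : ℝ in atTop, (2 : ℝ) ≤ x ^ (η / 2) := (tendsto_rpow_atTop (show 0 < η / 2 by positivity)).eventually (eventually_ge_atTop 2)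
  have hℓδ := loglog_tendsto.eventually (eventually_ge_atTop (max 1 (1 / δ)))
  obtain ⟨X₄, hX₄⟩ := Filter.eventually_atTop.1 ((Sil2.ev_log 1000).and ((hlogt.eventually hlogG).and ((hlogt.eventually hpow2).and
    (hℓδ.and (Sil2.ev_pow (B + k + 1) (1 / 2) ((1 + k) / (ε' * κ)) (by norm_num))))))
  obtain ⟨X₅, hX₅⟩ := ev_exp η hη0 (by linarith) θ₀ hθ1
  obtain ⟨X₆, hX₆⟩ := ev_exp η hη0 (by linarith) δ₀ hδ₀0
  refine ⟨max (max X₁ X₂) (max (max X₃ (max X₅ X₆)) (max X₄ 3)), fun X hX N₁ N₂ hN12 hN2 hNB b H hH hb => ?_⟩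
  have hX1 : X₁ ≤ X := ((le_max_left _ _).trans (le_max_left _ _)).trans hX
  have hX2 : X₂ ≤ X := ((le_max_right _ _).trans (le_max_left _ _)).trans hX
  have hX3 : X₃ ≤ X := (((le_max_left _ _).trans (le_max_left _ _)).trans (le_max_right _ _)).trans hX
  have hXθ := hX₅ X (((((le_max_left _ _).trans (le_max_right _ _)).trans (le_max_left _ _)).trans (le_max_right _ _)).trans hX)
  have hXδ := hX₆ X (((((le_max_right _ _).trans (le_max_right _ _)).trans (le_max_left _ _)).trans (le_max_right _ _)).trans hX)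
  have hX4 : X₄ ≤ X := (((le_max_left _ _).trans (le_max_right _ _)).trans (le_max_right _ _)).trans hX
  have hX5 : 3 ≤ X := (((le_max_right _ _).trans (le_max_right _ _)).trans (le_max_right _ _)).trans hX
  obtain ⟨hL, hLG, hL2, hℓδ', hpw⟩ := hX₄ X hX4
  obtain ⟨P, z, hP, hz, hP1, hzP, hPQ, hℓ2, hσ1, hσ2, hrest⟩ := hme X hX3
  have hT := hT X hX1
  have hcg := hcg X hX2 N₁ N₂ hN12 hNB
  have hlogX := hL
  obtain ⟨L, hLd⟩ : ∃ L, L = Real.log (X : ℝ) := ⟨_, rfl⟩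
  rw [← hLd] at hL hz hP hLG hL2 hXθ hXδ hℓδ' hpw hH hℓ2 hσ1 hσ2 hrest hNB hT hcg ⊢
  obtain ⟨ℓ, hℓ⟩ : ∃ ℓ, ℓ = Real.log L := ⟨_, rfl⟩
  rw [← hℓ] at hLG hℓδ' hℓ2 hσ1 hσ2 hrest
  have hL1 : 1 ≤ L := by linarith
  have hL0 : 0 < L := by linarith
  have hXR : (3 : ℝ) ≤ X := by exact_mod_cast hX5
  have hX0 : (0 : ℝ) < X := by linarith
  have hX1r : (1 : ℝ) ≤ X := by linarith
  obtain ⟨D, hD⟩ : ∃ D : ℝ, D = (N₂ : ℝ) - N₁ := ⟨_, rfl⟩
  rw [← hD] at hNB hcg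
  have hD0 : 0 < D := lt_of_lt_of_le (by positivity) hNB
  have hδℓ : 1 ≤ δ * ℓ := by
    have h1 := (le_max_right _ _).trans hℓδ'
    rw [div_le_iff₀ hδ0] at h1
    linarith
  -- the set of the primes
  obtain ⟨S, hS⟩ : ∃ S : Finset ℕ, S = pz P \ pz z := ⟨_, rfl⟩
  have hSp : ∀ p ∈ S, p.Prime ∧ L ^ a < p ∧ p ≤ P := by
    intro p hp
    rw [hS, Finset.mem_sdiff] at hp
    obtain ⟨hp1, hp2⟩ := hp
    have hp' := (mem_pz.1 hp1).2
    refine ⟨hp', ?_, ?_⟩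
    · have h1 : ¬ p ≤ z := fun hcon => hp2 (mem_pz.2 ⟨hcon, hp'⟩)
      rw [hz] at h1
      by_contra hcon
      push Not at hcon
      exact h1 (Nat.le_floor hcon)
    · exact (mem_pz.1 hp1).1
  obtain ⟨σ, hσ⟩ : ∃ σ : ℝ, σ = ∑ p ∈ S, 1 / (p : ℝ) := ⟨_, rfl⟩
  have hσe : σ = ∑ p ∈ pz P, 1 / (p : ℝ) - ∑ p ∈ pz z, 1 / (p : ℝ) := by
    have h1 := sum_sdiff (f := fun p : ℕ => 1 / (p : ℝ)) (pz_mono hzP)
    rw [hσ, hS]
    linarith
  rw [← hσe] at hσ1 hσ2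
  have hσ0 : 1 ≤ σ := by
    have h1 : (1 / 2 : ℝ) * 2 ≤ (1 - δ) * ℓ := mul_le_mul (by linarith) hℓ2 (by norm_num) (by linarith)
    linarith
  have hRest : ∑ g ∈ pz (Nat.sqrt X) \ S, 1 / (g : ℝ) ≤ δ * ℓ := by
    refine le_trans ?_ hrest
    have h1 := sum_sdiff (f := fun p : ℕ => 1 / (p : ℝ)) (pz_mono hPQ)
    have h2 : ∑ p ∈ pz (Nat.sqrt X), 1 / (p : ℝ) - ∑ p ∈ pz P, 1 / (p : ℝ) = ∑ p ∈ pz (Nat.sqrt X) \ pz P, 1 / (p : ℝ) := by linarith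
    rw [h2]
    have h3 : pz (Nat.sqrt X) \ S ⊆ pz z ∪ (pz (Nat.sqrt X) \ pz P) := by
      intro p hp
      rw [Finset.mem_sdiff, hS, Finset.mem_sdiff] at hp
      rw [mem_union, Finset.mem_sdiff]
      by_cases h4 : p ∈ pz P
      · left
        by_contra h5
        exact hp.2 ⟨h4, h5⟩
      · exact Or.inr ⟨hp.1, h4⟩
    refine (sum_le_sum_of_subset_of_nonneg h3 (fun p _ _ => by positivity)).trans ?_
    have h4 : Disjoint (pz z) (pz (Nat.sqrt X) \ pz P) := by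
      rw [Finset.disjoint_left]
      intro p hp hp'
      rw [Finset.mem_sdiff] at hp'
      exact hp'.2 (pz_mono hzP hp)
    rw [sum_union h4]
  have hLB : 1 ≤ L ^ B := one_le_pow₀ hL1
  obtain ⟨Λ, hΛ⟩ : ∃ Λ : ℝ, Λ = L ^ (1 - η) := ⟨_, rfl⟩
  rw [← hΛ] at hP hLG hXθ hXδ
  have hPe : (P : ℝ) ≤ Real.exp Λ := by rw [hP]; exact Nat.floor_le (Real.exp_pos _).le
  have hPθ : (P : ℝ) ≤ (X : ℝ) ^ θ₀ := by
    refine hPe.trans ?_
    rw [← Real.exp_log (show 0 < (X : ℝ) ^ θ₀ by positivity), Real.log_rpow hX0, ← hLd]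
    exact Real.exp_le_exp.2 hXθ
  have hΛ0 : 0 < Λ := by rw [hΛ]; positivity
  have hPH : P * L ^ G ≤ (H : ℝ) := by
    have h1 : L ^ G = Real.exp (G * ℓ) := by
      rw [hℓ, mul_comm, Real.exp_mul, Real.exp_log hL0, Real.rpow_natCast]
    calc P * L ^ G ≤ Real.exp Λ * Real.exp Λ := by
          rw [h1]
          exact mul_le_mul hPe (Real.exp_le_exp.2 hLG) (Real.exp_pos _).le (Real.exp_pos _).le
      _ = Real.exp (Λ * 2) := by rw [← Real.exp_add]; congr 1; ring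
      _ ≤ Real.exp (L ^ (1 - η / 2)) := by
          apply Real.exp_le_exp.2
          have h2 : L ^ (1 - η / 2) = Λ * L ^ (η / 2) := by
            rw [hΛ, ← Real.rpow_add hL0]
            congr 1
            ring
          rw [h2]
          exact mul_le_mul_of_nonneg_left hL2 hΛ0.le
      _ ≤ H := hH
  -- the sieve range
  obtain ⟨y, hy⟩ : ∃ y : ℕ, y = ⌊(X : ℝ) ^ δ₀⌋₊ := ⟨_, rfl⟩
  have hy1 : (y : ℝ) ≤ (X : ℝ) ^ δ₀ := by rw [hy]; exact Nat.floor_le (by positivity)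
  have hyX : (y : ℝ) ≤ (X : ℝ) ^ (1 / 10 : ℝ) := hy1.trans (Real.rpow_le_rpow_of_exponent_le hX1r hδ₀1)
  have hyQ : y ≤ Nat.sqrt X := by
    apply Nat.le_sqrt.2
    have h2 : (y : ℝ) * y ≤ X := by
      calc (y : ℝ) * y ≤ (X : ℝ) ^ (1 / 10 : ℝ) * (X : ℝ) ^ (1 / 10 : ℝ) := by gcongr
        _ = (X : ℝ) ^ (1 / 10 + 1 / 10 : ℝ) := by rw [← Real.rpow_add hX0]
        _ ≤ (X : ℝ) ^ (1 : ℝ) := Real.rpow_le_rpow_of_exponent_le hX1r (by norm_num)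
        _ = X := Real.rpow_one _
    exact_mod_cast h2
  have hby : ∑ p ∈ pz y \ S, 1 / (p : ℝ) ≤ δ * ℓ := by
    refine le_trans ?_ hRest
    apply sum_le_sum_of_subset_of_nonneg
    · exact Finset.sdiff_subset_sdiff (pz_mono hyQ) (Finset.Subset.refl S)
    · intro p _ _
      positivity
  have hay : ∑ p ∈ pz y, 1 / (p : ℝ) ≤ 3 * ℓ := by
    have h1 : ∑ p ∈ pz y, 1 / (p : ℝ) ≤ ∑ p ∈ (pz y \ S) ∪ S, 1 / (p : ℝ) := by
      apply sum_le_sum_of_subset_of_nonneg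
      · intro p hp
        rw [mem_union, Finset.mem_sdiff]
        by_cases h : p ∈ S
        · exact Or.inr h
        · exact Or.inl ⟨hp, h⟩
      · intro p _ _
        positivity
    rw [sum_union Finset.sdiff_disjoint, ← hσ] at h1
    have h2 : δ * ℓ ≤ ℓ := mul_le_of_le_one_left (by linarith) (by linarith)
    linarith
  have hkey := hT P hP1 hPθ (fun _ => S) (fun _ p hp => hSp p hp) (fun _ => by
    show 1 / L ^ B ≤ ∑ p ∈ S, 1 / (p : ℝ)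
    rw [← hσ, div_le_iff₀ (by positivity)]
    calc (1 : ℝ) = 1 * 1 := by norm_num
      _ ≤ σ * L ^ B := mul_le_mul hσ0 hLB zero_le_one (by linarith)) H hPH N₁ N₂ b hN12 hN2 (by rw [← hD]; exact hNB) hb
  refine le_trans ?_ hkey
  have hcard : ((Fintype.piFinset (fun i : Fin k => Ico (b i) (b i + H))).filter (fun h => NDeg c h ∧ Adm c h ∧
      ¬ |(CE c h N₁ N₂ : ℝ) - ME c h X N₁ N₂| ≤ ε * ME c h X N₁ N₂)) ⊆
      ((Fintype.piFinset (fun i : Fin k => Ico (b i) (b i + H))).filter (fun h => NDeg c h ∧ Adm c h ∧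
    ¬ (Multipliable (fun p : ℕ => if p.Prime then lf c h p else 1) ∧
      |(cntE c (fun _ => S) N₁ N₂ h : ℝ) - Mn c (fun _ => S) N₁ N₂ h / L ^ (k + 1)| ≤
      ε' * (Mn c (fun _ => S) N₁ N₂ h / L ^ (k + 1))))) := by
    intro h hh
    rw [mem_filter] at hh ⊢
    obtain ⟨hh1, hh2, hh3, hh4⟩ := hh
    refine ⟨hh1, hh2, hh3, ?_⟩
    rintro ⟨hmul, hg⟩
    apply hh4
    have hbh : ∀ i, ∀ n ∈ Ioc N₁ N₂, 1 ≤ LFo c h i n := by
      intro i n hn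
      have h1 := hb i n hn
      have h2 := mem_Ico.1 ((Fintype.mem_piFinset.1 hh1) i)
      unfold LFo
      linarith [h1.1, h2.1]
    obtain ⟨g1, g2⟩ := CE_bounds c h hc N₁ N₂ y S (fun p hp => (hSp p hp).1) hbh
    have g1r : (cntE c (fun _ => S) N₁ N₂ h : ℝ) ≤ CE c h N₁ N₂ := by exact_mod_cast g1
    have g2r : (CE c h N₁ N₂ : ℝ) ≤ cntE c (fun _ => S) N₁ N₂ h + ((y : ℝ) + k * (y : ℝ) ^ 2) + ∑ j : Fin k,
      ∑ g ∈ (Fintype.piFinset (fun _ : Fin k => insert 1 (pz y))).filter (fun g => g j ∈ insert 1 (pz y \ S)), ((TGK c h N₁ N₂ y g).card : ℝ) := by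
      exact_mod_cast g2
    obtain ⟨𝔖, h𝔖⟩ : ∃ 𝔖, 𝔖 = singT c h := ⟨_, rfl⟩
    have hs : κ ≤ 𝔖 := by rw [h𝔖]; exact hsl _ hmul hh3
    have h𝔖0 : 0 < 𝔖 := by linarith
    obtain ⟨W, hW⟩ : ∃ W : ℝ, W = 𝔖 / L ^ (k + 1) * D := ⟨_, rfl⟩
    have hW0 : 0 < W := by rw [hW]; positivity
    have hℓ0 : 0 < ℓ := by linarith
    obtain ⟨Q, hQ⟩ : ∃ Q : ℝ, Q = W * ℓ ^ k := ⟨_, rfl⟩
    have hℓk : 1 ≤ ℓ ^ k := one_le_pow₀ (by linarith)
    have hQ0 : 0 < Q := by rw [hQ]; positivity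
    have hup : ∑ j : Fin k,
      ∑ g ∈ (Fintype.piFinset (fun _ : Fin k => insert 1 (pz y))).filter (fun g => g j ∈ insert 1 (pz y \ S)), ((TGK c h N₁ N₂ y g).card : ℝ) ≤ ε' * Q := by
      have h1 : ∀ j ∈ (univ : Finset (Fin k)), ∑ g ∈ (Fintype.piFinset (fun _ : Fin k => insert 1 (pz y))).filter (fun g => g j ∈ insert 1 (pz y \ S)),
          ((TGK c h N₁ N₂ y g).card : ℝ) ≤ Cg * W * ((k : ℝ) ^ k * (((B0 + 1) * (δ * ℓ)) * (4 * B0 * ℓ) ^ (k - 1))) := by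
        intro j _
        have h2 : ∀ g ∈ (Fintype.piFinset (fun _ : Fin k => insert 1 (pz y))).filter (fun g => g j ∈ insert 1 (pz y \ S)),
            ((TGK c h N₁ N₂ y g).card : ℝ) ≤ Cg * W * ∏ p ∈ univ.image g, wt B0 p := by
          intro g hg
          rw [mem_filter, Fintype.mem_piFinset] at hg
          have h3 := hcg h hmul hh3 y hy g (fun i => by
            rcases mem_insert.1 (hg.1 i) with h4 | h4
            · exact Or.inl h4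
            · exact Or.inr ⟨(mem_pz.1 h4).2, (mem_pz.1 h4).1⟩)
          rw [← h𝔖, ← hW] at h3
          exact h3
        refine (sum_le_sum h2).trans ?_
        rw [← mul_sum]
        apply mul_le_mul_of_nonneg_left _ (by positivity)
        apply bad_sumK B0 y S j
        · have h5 : (B0 : ℝ) * ∑ p ∈ pz y, 1 / (p : ℝ) ≤ B0 * (3 * ℓ) := mul_le_mul_of_nonneg_left hay (by positivity)
          have h6 : 1 ≤ (B0 : ℝ) * ℓ := one_le_mul_of_one_le_of_one_le hB0r (by linarith)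
          linarith
        · have h5 : (B0 : ℝ) * ∑ p ∈ pz y \ S, 1 / (p : ℝ) ≤ B0 * (δ * ℓ) := mul_le_mul_of_nonneg_left hby (by positivity)
          linarith
      refine (sum_le_card_nsmul _ _ _ h1).trans ?_
      rw [card_univ, Fintype.card_fin, nsmul_eq_mul]
      have e1 : (k : ℝ) * (Cg * W * ((k : ℝ) ^ k * (((B0 + 1) * (δ * ℓ)) * (4 * B0 * ℓ) ^ (k - 1)))) = (C1 * δ) * Q := by
        have e2 : ℓ * ℓ ^ (k - 1) = ℓ ^ k := by rw [← pow_succ', Nat.sub_add_cancel hk0]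
        rw [hC1, hQ, ← e2, mul_pow (4 * (B0 : ℝ)) ℓ]
        ring
      rw [e1]
      exact mul_le_mul_of_nonneg_right hδ2 hQ0.le
    have hexc : (y : ℝ) + k * (y : ℝ) ^ 2 ≤ ε' * Q := by
      have h1 : (y : ℝ) ≤ (X : ℝ) ^ (1 / 2 : ℝ) := hyX.trans (Real.rpow_le_rpow_of_exponent_le hX1r (by norm_num))
      have h2 : (y : ℝ) ^ 2 ≤ (X : ℝ) ^ (1 / 2 : ℝ) := by
        calc (y : ℝ) ^ 2 ≤ ((X : ℝ) ^ (1 / 10 : ℝ)) ^ 2 := by gcongr
          _ = (X : ℝ) ^ (1 / 10 * 2 : ℝ) := by rw [← Real.rpow_natCast, ← Real.rpow_mul hX0.le]; norm_num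
          _ ≤ _ := Real.rpow_le_rpow_of_exponent_le hX1r (by norm_num)
      have h3 : (y : ℝ) + k * (y : ℝ) ^ 2 ≤ (1 + k) * (X : ℝ) ^ (1 / 2 : ℝ) := by
        have : (k : ℝ) * (y : ℝ) ^ 2 ≤ k * (X : ℝ) ^ (1 / 2 : ℝ) := mul_le_mul_of_nonneg_left h2 (by positivity)
        linarith
      have h4 : (1 + k) * (X : ℝ) ^ (1 / 2 : ℝ) ≤ ε' * (κ * (X / L ^ (B + k + 1))) := by
        have h5 : X = (X : ℝ) ^ (1 / 2 : ℝ) * (X : ℝ) ^ (1 / 2 : ℝ) := by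
          rw [← Real.rpow_add hX0]
          norm_num
        have h6 : (1 + k) * L ^ (B + k + 1) ≤ (X : ℝ) ^ (1 / 2 : ℝ) * (ε' * κ) := by
          rw [div_mul_eq_mul_div, div_le_iff₀ (by positivity)] at hpw
          exact hpw
        have h7 : ε' * (κ * (X / L ^ (B + k + 1))) = (ε' * κ * X) / L ^ (B + k + 1) := by ring
        rw [h7, le_div_iff₀ (by positivity)]
        calc (1 + k) * (X : ℝ) ^ (1 / 2 : ℝ) * L ^ (B + k + 1) = (X : ℝ) ^ (1 / 2 : ℝ) * ((1 + k) * L ^ (B + k + 1)) := by ring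
          _ ≤ (X : ℝ) ^ (1 / 2 : ℝ) * ((X : ℝ) ^ (1 / 2 : ℝ) * (ε' * κ)) := mul_le_mul_of_nonneg_left h6 (by positivity)
          _ = ε' * κ * ((X : ℝ) ^ (1 / 2 : ℝ) * (X : ℝ) ^ (1 / 2 : ℝ)) := by ring
          _ = ε' * κ * X := by rw [← h5]
      have h5 : κ * (X / L ^ (B + k + 1)) ≤ W := by
        rw [hW]
        calc κ * (X / L ^ (B + k + 1)) = κ / L ^ (k + 1) * (X / L ^ B) := by
              rw [show B + k + 1 = B + (k + 1) by ring, pow_add]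
              field_simp
          _ ≤ 𝔖 / L ^ (k + 1) * D := by gcongr
      have h6 : W ≤ Q := by rw [hQ]; exact le_mul_of_one_le_right hW0.le hℓk
      refine h3.trans (h4.trans ?_)
      exact mul_le_mul_of_nonneg_left (h5.trans h6) hε'0.le
    have hMn : Mn c (fun _ => S) N₁ N₂ h / L ^ (k + 1) = W * σ ^ k := by
      have e2 : (∏ i : Fin k, ∑ p ∈ (fun _ : Fin k => S) i, 1 / (p : ℝ)) = σ ^ k := by
        rw [hσ]
        show ∏ _i : Fin k, ∑ p ∈ S, 1 / (p : ℝ) = _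
        rw [prod_const, card_univ, Fintype.card_fin]
      unfold Mn
      rw [e2, ← h𝔖, ← hD, hW]
      ring
    rw [hMn] at hg
    have e0 : ME c h X N₁ N₂ = Q := by
      unfold ME
      rw [← h𝔖, ← hLd, ← hℓ, ← hD, hQ, hW]
      ring
    rw [e0]
    obtain ⟨s1, s2⟩ := abs_le.1 hg
    have hσpos : 0 ≤ σ := by linarith
    have w1 : W * σ ^ k ≤ (1 + ε') * Q := by
      have h1 : σ ^ k ≤ (1 + 3 ^ k * δ) * ℓ ^ k := by
        calc σ ^ k ≤ ((1 + δ) * ℓ) ^ k := pow_le_pow_left₀ hσpos hσ2 k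
          _ = (1 + δ) ^ k * ℓ ^ k := mul_pow _ _ _
          _ ≤ (1 + 3 ^ k * δ) * ℓ ^ k := mul_le_mul_of_nonneg_right (one_add_pow_le k δ hδ0.le (by linarith)) (by positivity)
      have h2 : (1 + 3 ^ k * δ) * ℓ ^ k ≤ (1 + ε') * ℓ ^ k := mul_le_mul_of_nonneg_right (by linarith) (by positivity)
      calc W * σ ^ k ≤ W * ((1 + ε') * ℓ ^ k) := mul_le_mul_of_nonneg_left (h1.trans h2) hW0.le
        _ = _ := by rw [hQ]; ring
    have w2 : (1 - ε') * Q ≤ W * σ ^ k := by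
      have h1 : (1 - k * δ) * ℓ ^ k ≤ σ ^ k := by
        calc (1 - k * δ) * ℓ ^ k ≤ (1 - δ) ^ k * ℓ ^ k := mul_le_mul_of_nonneg_right (one_sub_pow k δ hδ0.le (by linarith)) (by positivity)
          _ = ((1 - δ) * ℓ) ^ k := (mul_pow _ _ _).symm
          _ ≤ σ ^ k := pow_le_pow_left₀ (mul_nonneg (by linarith) hℓ0.le) hσ1 k
      have h2 : (1 - ε') * ℓ ^ k ≤ (1 - k * δ) * ℓ ^ k := mul_le_mul_of_nonneg_right (by linarith) (by positivity)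
      calc (1 - ε') * Q = W * ((1 - ε') * ℓ ^ k) := by rw [hQ]; ring
        _ ≤ W * σ ^ k := mul_le_mul_of_nonneg_left (h2.trans h1) hW0.le
    have hε'Q : 0 ≤ ε' * Q := by positivity
    have w3 : ε' * (W * σ ^ k) ≤ ε' * (2 * Q) := by
      apply mul_le_mul_of_nonneg_left _ hε'0.le
      refine w1.trans ?_
      apply mul_le_mul_of_nonneg_right _ hQ0.le
      linarith
    have w9 : 8 * ε' * Q ≤ ε * Q := mul_le_mul_of_nonneg_right hε'1 hQ0.le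
    rw [abs_le]
    constructor <;> linarith
  exact_mod_cast card_le_card hcard

end Pool.Agent.H561.E3
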