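import Pool.Agent.H561.E2.T9

set_option autoImplicit false

/-! Primes `n ≤ N` with `c n + h` divisible by a given large prime `g` and free of the primes up to `z`. -/

namespace Pool.Agent.H561.E3

open Finset
open Pool.Agent.H373R2.T7
open Pool.Agent.H561.E2 (LFo)

/-- the condition modulo `p` -/
def Q1 (c h : ℤ) (p n : ℕ) : Prop := (p : ℤ) ∣ c * n + h

lemma Q1_mod (c h : ℤ) (p n : ℕ) : Q1 c h p n ↔ Q1 c h p (n % p) := by
  unfold Q1
  have h3 : (n : ℤ) ≡ ((n % p : ℕ) : ℤ) [ZMOD p] := by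
    rw [Int.natCast_mod]
    exact (Int.mod_modEq _ _).symm
  exact Int.ModEq.dvd_iff ((h3.mul_left c).add_right h)

/-- the systems are admissible for the sieve -/
lemma perA (c h : ℤ) (hc : c ≠ 0) : PerA (Q1 c h) c.natAbs := by
  classical
  refine ⟨Q1_mod c h, fun p hp => ?_⟩
  by_cases hd : (p : ℤ) ∣ c
  · have h1 : p ≤ c.natAbs := Nat.le_of_dvd (Int.natAbs_pos.2 hc) (Int.natCast_dvd.1 hd)
    have h2 := rhoA_le (Q1 c h) p
    omega
  · have h1 : rhoA (Q1 c h) p ≤ 1 := by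
      unfold rhoA
      rw [card_le_one]
      intro a ha b hb
      rw [mem_filter, mem_range] at ha hb
      unfold Q1 at ha hb
      have h2 := Int.dvd_sub ha.2.2 hb.2.2
      have h3 : c * (a : ℤ) + h - (c * (b : ℤ) + h) = c * ((a : ℤ) - b) := by ring
      rw [h3] at h2
      rcases (Nat.prime_iff_prime_int.1 hp).dvd_mul.1 h2 with h4 | h4
      · exact absurd h4 hd
      · by_contra hne
        have h5 : (a : ℤ) - b ≠ 0 := by
          intro h0
          apply hne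
          omega
        have h6 := Int.le_of_dvd (abs_pos.2 h5) ((dvd_abs _ _).2 h4)
        rcases abs_cases ((a : ℤ) - b) with h7 | h7 <;> omega
    have h2 : 1 ≤ c.natAbs := Int.natAbs_pos.2 hc
    omega

/-- one class for a large prime -/
lemma rho_big (c h : ℤ) (g : ℕ) (hg : g.Prime) (hc : ¬ (g : ℤ) ∣ c) (hh : ¬ (g : ℤ) ∣ h) : rhoA (Q1 c h) g = 1 := by
  classical
  have h0 := Pool.Agent.H561.E2.class_card g hg c h hc
  unfold Pool.Agent.H561.E2.xg at h0
  rw [if_neg hh] at h0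
  have hg2 : (2 : ℝ) ≤ g := by exact_mod_cast hg.two_le
  have h1 : (g : ℝ) - 1 ≠ 0 := by
    have : (0 : ℝ) < g - 1 := by linarith
    exact this.ne'
  rw [div_eq_div_iff h1 h1] at h0
  have h2 := mul_right_cancel₀ h1 h0
  unfold rhoA Q1
  have h3 : ((range g).filter (fun r : ℕ => ¬ g ∣ r ∧ (g : ℤ) ∣ c * r + h)).card = 1 := by exact_mod_cast h2
  convert h3

open Classical in
/-- sum over the classes modulo a product of primes -/
lemma ap_sum (Q : ℕ → ℕ → Prop) {c : ℕ} (hQ : PerA Q c) (N z r : ℕ) (S : Finset ℕ) (hS : S ⊆ pz z) (hr : S.card ≤ r) :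
    |∑ n ∈ (Icc 1 N).filter (fun n : ℕ => ∀ p ∈ S, ¬ p ∣ n ∧ Q p n), ArithmeticFunction.vonMangoldt n -
      lam1 N * ∏ p ∈ S, ((rhoA Q p : ℝ) / (p - 1 : ℝ))| ≤ EfA Q N z r (∏ p ∈ S, p) := by
  have hSp : ∀ p ∈ S, p.Prime := fun p hp => (mem_pz.1 (hS hp)).2
  set d := ∏ p ∈ S, p with hd
  have hd1 : 1 ≤ d := Nat.pos_of_ne_zero (prod_ne_zero_iff.2 fun p hp => (hSp p hp).ne_zero)
  have hpd : ∀ p ∈ S, p ∣ d := fun p hp => dvd_prod_of_mem _ hp
  set W' : ℝ := ∑ n ∈ (Icc 1 N).filter (fun n : ℕ => ∀ p ∈ S, ¬ p ∣ n ∧ Q p n),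
    ArithmeticFunction.vonMangoldt n with hW'
  have h1 : W' = ∑ b ∈ LSA Q z r d, lamAP N d b := by
    rw [hW', ← sum_fiberwise_of_maps_to (t := LSA Q z r d) (g := fun n => n % d)]
    · apply sum_congr rfl
      intro b hb
      rw [hd, LSA_eq Q z r S hS hr, ← hd, mem_filter, mem_range] at hb
      unfold lamAP
      apply sum_congr _ (fun _ _ => rfl)
      ext n
      rw [mem_filter, mem_filter, mem_filter]
      constructor
      · rintro ⟨⟨h1, h2⟩, h3⟩
        refine ⟨h1, ?_⟩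
        unfold Nat.ModEq
        rw [h3, Nat.mod_eq_of_lt hb.1]
      · rintro ⟨h1, h2⟩
        unfold Nat.ModEq at h2
        rw [Nat.mod_eq_of_lt hb.1] at h2
        refine ⟨⟨h1, fun p hp => ?_⟩, h2⟩
        obtain ⟨h3, hi⟩ := hb.2 p hp
        rw [← h2] at h3 hi
        exact ⟨fun h4 => h3 ((dvd_mod_iff n d p (hpd p hp)).2 h4), (hQ.mod n d p (hpd p hp)).1 hi⟩
    · intro n hn
      rw [mem_filter] at hn
      rw [hd, LSA_eq Q z r S hS hr, ← hd, mem_filter, mem_range]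
      refine ⟨Nat.mod_lt _ hd1, fun p hp => ?_⟩
      obtain ⟨h3, hi⟩ := hn.2 p hp
      exact ⟨fun h4 => h3 ((dvd_mod_iff n d p (hpd p hp)).1 h4), (hQ.mod n d p (hpd p hp)).2 hi⟩
  have h2 : lam1 N * ∏ p ∈ S, ((rhoA Q p : ℝ) / (p - 1 : ℝ)) = ∑ b ∈ LSA Q z r d, lam1 N / (Nat.totient d : ℝ) := by
    rw [sum_const, nsmul_eq_mul, hd, LSA_card Q hQ z r S hS hr, totient_prod S hSp, prod_div_distrib]
    push_cast
    have h3 : ∏ p ∈ S, ((p - 1 : ℕ) : ℝ) = ∏ p ∈ S, ((p : ℝ) - 1) := by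
      apply prod_congr rfl
      intro p hp
      rw [Nat.cast_sub (hSp p hp).one_le]
      push_cast
      ring
    rw [h3]
    ring
  rw [h1, h2, ← sum_sub_distrib]
  exact abs_sum_le_sum_abs _ _

/-- the sifted sum with the condition modulo `g` -/
noncomputable def Wg (c h : ℤ) (N z g : ℕ) : ℝ := by
  classical exact ∑ n ∈ Icc 1 N, if (∀ p ∈ pz z, ¬ p ∣ n ∧ ¬ Q1 c h p n) ∧ Q1 c h g n then ArithmeticFunction.vonMangoldt n else 0

open Classical in
theorem sieve_g (c h : ℤ) (hc : c ≠ 0) (N z r P g : ℕ) (hg : g.Prime) (hzg : z < g) (hgP : g ≤ P) (hgc : ¬ (g : ℤ) ∣ c)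
    (hgh : ¬ (g : ℤ) ∣ h) :
    |Wg c h N z g - lam1 N / ((g : ℝ) - 1) * ∏ p ∈ pz z, (1 - (rhoA (Q1 c h) p : ℝ) / (p - 1 : ℝ))| ≤
      ((z : ℝ) + 1) ^ r * (z * ((Nat.log 2 N + 1 : ℝ) * Real.log N)) +
      ∑ j ∈ range (r + 1), ∑ S ∈ (pz z).powersetCard j, EfA (Q1 c h) N P (r + 1) (g * ∏ p ∈ S, p) +
      2 * (lam1 N / ((g : ℝ) - 1)) * Real.exp (3 * ((2 * c.natAbs : ℕ) * (1 + Real.log z)) - r) := by
  have hQ := perA c h hc
  have hg2 : (2 : ℝ) ≤ g := by exact_mod_cast hg.two_le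
  have hpp : ∀ S ⊆ pz z, ∀ p ∈ S, p.Prime := fun S hS p hp => (mem_pz.1 (hS hp)).2
  have hlN : 0 ≤ (Nat.log 2 N + 1 : ℝ) * Real.log N := by
    have := Real.log_natCast_nonneg N
    positivity
  have hψ : 0 ≤ lam1 N := sum_nonneg fun _ _ => ArithmeticFunction.vonMangoldt_nonneg
  have hψg : 0 ≤ lam1 N / ((g : ℝ) - 1) := div_nonneg hψ (by linarith)
  have hρg : (rhoA (Q1 c h) g : ℝ) = 1 := by exact_mod_cast rho_big c h g hg hgc hgh
  have hgn : ∀ n, Q1 c h g n → ¬ g ∣ n := by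
    intro n hn hd
    apply hgh
    unfold Q1 at hn
    have h1 : (g : ℤ) ∣ c * n := Dvd.dvd.mul_left (Int.natCast_dvd_natCast.2 hd) c
    exact (Int.dvd_iff_dvd_of_dvd_add hn).1 h1
  have key := sieve_gen' ((Icc 1 N).filter (fun n => ∀ p ∈ pz z, ¬ p ∣ n))
    (fun n => if Q1 c h g n then ArithmeticFunction.vonMangoldt n else 0)
    (fun n _ => by
      split_ifs
      · exact ArithmeticFunction.vonMangoldt_nonneg
      · exact le_rfl) (fun p n => Q1 c h p n) (pz z)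
    (fun p => (rhoA (Q1 c h) p : ℝ) / (p - 1 : ℝ)) (fun p hp => by
      have hp2 : (2 : ℝ) ≤ p := by exact_mod_cast (mem_pz.1 hp).2.two_le
      constructor
      · apply div_nonneg (Nat.cast_nonneg _); linarith
      · rw [div_le_one (by linarith)]
        have h1 := rhoA_le (Q1 c h) p
        have h2 : (rhoA (Q1 c h) p : ℝ) ≤ ((p - 1 : ℕ) : ℝ) := by exact_mod_cast h1
        rw [Nat.cast_sub (mem_pz.1 hp).2.one_le] at h2
        push_cast at h2
        exact h2) (lam1 N / ((g : ℝ) - 1)) hψg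
    (fun S => z * ((Nat.log 2 N + 1 : ℝ) * Real.log N) + EfA (Q1 c h) N P (r + 1) (g * ∏ p ∈ S, p)) r (by
      intro S hS hr
      have hgS : g ∉ S := fun hgS => by
        have := (mem_pz.1 (hS hgS)).1
        omega
      have hS'P : insert g S ⊆ pz P := by
        intro p hp
        rw [mem_insert] at hp
        rcases hp with rfl | hp
        · exact mem_pz.2 ⟨hgP, hg⟩
        · have := mem_pz.1 (hS hp)
          exact mem_pz.2 ⟨by omega, this.2⟩
      have hS'r : (insert g S).card ≤ r + 1 := (card_insert_le _ _).trans (by omega)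
      have h3 := ap_sum (Q1 c h) hQ N P (r + 1) (insert g S) hS'P hS'r
      rw [prod_insert hgS, prod_insert hgS, hρg] at h3
      set W' : ℝ := ∑ n ∈ (Icc 1 N).filter (fun n : ℕ => ∀ p ∈ insert g S, ¬ p ∣ n ∧ Q1 c h p n),
        ArithmeticFunction.vonMangoldt n with hW'
      set W : ℝ := ∑ n ∈ ((Icc 1 N).filter (fun n : ℕ => ∀ p ∈ pz z, ¬ p ∣ n)).filter
        (fun n : ℕ => ∀ p ∈ S, Q1 c h p n), (if Q1 c h g n then ArithmeticFunction.vonMangoldt n else 0) with hW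
      have h4 : |W - W'| ≤ z * ((Nat.log 2 N + 1 : ℝ) * Real.log N) := by
        have h5 : W = ∑ n ∈ Icc 1 N, if (∀ p ∈ pz z, ¬ p ∣ n) ∧ (∀ p ∈ S, Q1 c h p n) then
            (if Q1 c h g n then ArithmeticFunction.vonMangoldt n else 0) else 0 := by
          rw [hW, filter_filter, sum_filter]
        have h6 : W' = ∑ n ∈ Icc 1 N, if (∀ p ∈ insert g S, ¬ p ∣ n ∧ Q1 c h p n) then
            ArithmeticFunction.vonMangoldt n else 0 := by
          rw [hW', sum_filter]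
        rw [h5, h6, ← sum_sub_distrib]
        refine (abs_sum_le_sum_abs _ _).trans ?_
        have h7 : ∀ n ∈ Icc 1 N, |(if (∀ p ∈ pz z, ¬ p ∣ n) ∧ (∀ p ∈ S, Q1 c h p n) then
            (if Q1 c h g n then ArithmeticFunction.vonMangoldt n else 0) else 0) - (if (∀ p ∈ insert g S, ¬ p ∣ n ∧ Q1 c h p n) then
            ArithmeticFunction.vonMangoldt n else 0)| ≤ ∑ p ∈ pz z, if p ∣ n then ArithmeticFunction.vonMangoldt n else 0 := by
          intro n _
          have h8 : (0 : ℝ) ≤ ArithmeticFunction.vonMangoldt n := ArithmeticFunction.vonMangoldt_nonneg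
          have h9 : 0 ≤ ∑ p ∈ pz z, if p ∣ n then ArithmeticFunction.vonMangoldt n else 0 :=
            sum_nonneg fun p _ => by split_ifs <;> simp [h8]
          by_cases h10 : ∀ p ∈ pz z, ¬ p ∣ n
          · by_cases h11 : (∀ p ∈ S, Q1 c h p n) ∧ Q1 c h g n
            · rw [if_pos ⟨h10, h11.1⟩, if_pos h11.2, if_pos (fun p hp => ?_), sub_self, abs_zero]
              · exact h9
              · rw [mem_insert] at hp
                rcases hp with rfl | hp
                · exact ⟨hgn n h11.2, h11.2⟩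
                · exact ⟨h10 p (hS hp), h11.1 p hp⟩
            · have h12 : ¬ (∀ p ∈ insert g S, ¬ p ∣ n ∧ Q1 c h p n) := fun hcon =>
                h11 ⟨fun p hp => (hcon p (mem_insert_of_mem hp)).2, (hcon g (mem_insert_self _ _)).2⟩
              rw [if_neg h12]
              have h13 : (if (∀ p ∈ pz z, ¬ p ∣ n) ∧ (∀ p ∈ S, Q1 c h p n) then
                  (if Q1 c h g n then ArithmeticFunction.vonMangoldt n else 0) else 0) = 0 := by
                by_cases h14 : ∀ p ∈ S, Q1 c h p n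
                · rw [if_pos ⟨h10, h14⟩, if_neg (fun h15 => h11 ⟨h14, h15⟩)]
                · rw [if_neg (fun h15 => h14 h15.2)]
              rw [h13, sub_self, abs_zero]
              exact h9
          · rw [if_neg (fun h => h10 h.1), zero_sub, abs_neg]
            push Not at h10
            obtain ⟨p, hp, hpn⟩ := h10
            have h11 : |(if (∀ p ∈ insert g S, ¬ p ∣ n ∧ Q1 c h p n) then
              ArithmeticFunction.vonMangoldt n else 0)| ≤ ArithmeticFunction.vonMangoldt n := by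
              split_ifs
              · rw [abs_of_nonneg h8]
              · rw [abs_zero]; exact h8
            refine h11.trans ?_
            have h12 := single_le_sum (f := fun p => if p ∣ n then ArithmeticFunction.vonMangoldt n else (0 : ℝ))
              (s := pz z) (fun p _ => by split_ifs <;> simp [h8]) hp
            simp only [if_pos hpn] at h12
            exact h12
        refine (sum_le_sum h7).trans ?_
        rw [sum_comm]
        have h8 : ∀ p ∈ pz z, ∑ n ∈ Icc 1 N, (if p ∣ n then ArithmeticFunction.vonMangoldt n else 0) ≤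
            (Nat.log 2 N + 1 : ℝ) * Real.log N := by
          intro p hp
          rw [← sum_filter]
          exact lam_mult_prime N p (mem_pz.1 hp).2
        refine (sum_le_sum h8).trans ?_
        rw [sum_const, nsmul_eq_mul]
        apply mul_le_mul_of_nonneg_right _ hlN
        exact_mod_cast card_pz_le z
      have e5 : lam1 N / ((g : ℝ) - 1) * ∏ p ∈ S, ((rhoA (Q1 c h) p : ℝ) / (p - 1 : ℝ)) =
          lam1 N * (1 / ((g : ℝ) - 1) * ∏ p ∈ S, ((rhoA (Q1 c h) p : ℝ) / (p - 1 : ℝ))) := by ring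
      have h5 : W - lam1 N / ((g : ℝ) - 1) * ∏ p ∈ S, ((rhoA (Q1 c h) p : ℝ) / (p - 1 : ℝ)) =
          (W - W') + (W' - lam1 N * (1 / ((g : ℝ) - 1) * ∏ p ∈ S, ((rhoA (Q1 c h) p : ℝ) / (p - 1 : ℝ)))) := by
        rw [e5]
        ring
      rw [h5]
      exact (abs_add_le _ _).trans (add_le_add h4 h3))
  have e0 : ∑ n ∈ ((Icc 1 N).filter (fun n : ℕ => ∀ p ∈ pz z, ¬ p ∣ n)).filter
        (fun n : ℕ => ∀ p ∈ pz z, ¬ Q1 c h p n), (if Q1 c h g n then ArithmeticFunction.vonMangoldt n else 0) = Wg c h N z g := by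
    unfold Wg
    rw [filter_filter, sum_filter]
    apply sum_congr rfl
    intro n _
    by_cases h1 : (∀ p ∈ pz z, ¬ p ∣ n) ∧ (∀ p ∈ pz z, ¬ Q1 c h p n)
    · have h2 : ∀ p ∈ pz z, ¬ p ∣ n ∧ ¬ Q1 c h p n := fun p hp => ⟨h1.1 p hp, h1.2 p hp⟩
      rw [if_pos h1]
      by_cases h3 : Q1 c h g n
      · rw [if_pos h3, if_pos ⟨h2, h3⟩]
      · rw [if_neg h3, if_neg (fun h4 => h3 h4.2)]
    · rw [if_neg h1, if_neg (fun h4 => h1 ⟨fun p hp => (h4.1 p hp).1, fun p hp => (h4.1 p hp).2⟩)]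
  rw [e0] at key
  refine key.trans ?_
  have e1 : ∑ j ∈ range (r + 1), ∑ S ∈ (pz z).powersetCard j, (z * ((Nat.log 2 N + 1 : ℝ) * Real.log N) +
      EfA (Q1 c h) N P (r + 1) (g * ∏ p ∈ S, p)) =
      ((∑ j ∈ range (r + 1), ((pz z).powersetCard j).card : ℕ) : ℝ) * (z * ((Nat.log 2 N + 1 : ℝ) * Real.log N)) +
      ∑ j ∈ range (r + 1), ∑ S ∈ (pz z).powersetCard j, EfA (Q1 c h) N P (r + 1) (g * ∏ p ∈ S, p) := by
    push_cast
    rw [sum_mul, ← sum_add_distrib]
    apply sum_congr rfl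
    intro j _
    rw [sum_add_distrib, sum_const, nsmul_eq_mul]
  rw [e1]
  have h1 := card_small (pz z) r
  have h2 : (((pz z).card : ℝ) + 1) ^ r ≤ ((z : ℝ) + 1) ^ r := by
    have : ((pz z).card : ℝ) ≤ z := by exact_mod_cast card_pz_le z
    gcongr
  have h3 : ((∑ j ∈ range (r + 1), ((pz z).powersetCard j).card : ℕ) : ℝ) * (z * ((Nat.log 2 N + 1 : ℝ) * Real.log N)) ≤
      ((z : ℝ) + 1) ^ r * (z * ((Nat.log 2 N + 1 : ℝ) * Real.log N)) :=
    mul_le_mul_of_nonneg_right (h1.trans h2) (by positivity)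
  have h5 : es (fun p => (rhoA (Q1 c h) p : ℝ) / (p - 1 : ℝ)) (pz z) r ≤ Real.exp (3 * ((2 * c.natAbs : ℕ) * (1 + Real.log z)) - r) := by
    have hg : ∀ p ∈ pz z, (rhoA (Q1 c h) p : ℝ) / (p - 1 : ℝ) ≤ (2 * c.natAbs : ℕ) * (1 / (p : ℝ)) := by
      intro p hp
      have hp2 : (2 : ℝ) ≤ p := by exact_mod_cast (mem_pz.1 hp).2.two_le
      have h6 : (rhoA (Q1 c h) p : ℝ) ≤ c.natAbs := by exact_mod_cast hQ.few p (mem_pz.1 hp).2
      have hk : (0 : ℝ) ≤ (c.natAbs : ℝ) := Nat.cast_nonneg _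
      rw [mul_one_div, div_le_div_iff₀ (by linarith) (by linarith), Nat.cast_mul, Nat.cast_ofNat]
      nlinarith
    refine (es_le (fun p hp => by
      have hp2 : (2 : ℝ) ≤ p := by exact_mod_cast (mem_pz.1 hp).2.two_le
      apply div_nonneg (Nat.cast_nonneg _); linarith) r).trans ?_
    apply Real.exp_le_exp.2
    have h6 := sum_le_sum hg
    rw [← mul_sum] at h6
    have h7 := sum_pz_le z
    have h8 : ((2 * c.natAbs : ℕ) : ℝ) * ∑ p ∈ pz z, 1 / (p : ℝ) ≤ ((2 * c.natAbs : ℕ) : ℝ) * (1 + Real.log z) :=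
      mul_le_mul_of_nonneg_left h7 (Nat.cast_nonneg _)
    linarith
  have h6 : 2 * (lam1 N / ((g : ℝ) - 1)) * es (fun p => (rhoA (Q1 c h) p : ℝ) / (p - 1 : ℝ)) (pz z) r ≤
      2 * (lam1 N / ((g : ℝ) - 1)) * Real.exp (3 * ((2 * c.natAbs : ℕ) * (1 + Real.log z)) - r) :=
    mul_le_mul_of_nonneg_left h5 (by positivity)
  linarith

end Pool.Agent.H561.E3
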