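import Pool.Agent.H561.E3.U9

set_option autoImplicit false

/-! Upper bounds for the number of primes `n` with `c n + h = g q`: final form. -/

namespace Pool.Agent.H561.E3

open Finset Filter Topology
open Pool.Agent.helper24_UT hiding om
open Pool.Agent.H373R2.T7 (pz mem_pz Vz Vz_pos)
open Pool.Agent.H561.E2

open Classical in
/-- the primes `n` for which `c n + h` is `g` times a prime -/
noncomputable def TG (c h : ℤ) (N₁ N₂ g : ℕ) : Finset ℕ :=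
  (Ioc N₁ N₂).filter (fun n : ℕ => n.Prime ∧ ∃ q : ℕ, q.Prime ∧ c * (n : ℤ) + h = g * q)

theorem count_g (c : ℤ) (hc : c ≠ 0) : ∃ C : ℝ, 0 < C ∧ ∀ B : ℕ, ∃ X₀ : ℕ, ∀ X : ℕ, X₀ ≤ X → ∀ N₁ N₂ : ℕ, N₁ < N₂ →
    X / (Real.log X) ^ B ≤ (N₂ : ℝ) - N₁ → ∀ h : ℤ,
    Multipliable (fun p : ℕ => if p.Prime then lf (fun _ : Fin 1 => c) (fun _ => h) p else 1) → Adm (fun _ : Fin 1 => c) (fun _ => h) →
    ∀ g : ℕ, g.Prime → g ^ 2 ≤ X →
    ((TG c h N₁ N₂ g).card : ℝ) ≤ C * (singT (fun _ : Fin 1 => c) (fun _ => h) / (Real.log X) ^ 2 * ((N₂ : ℝ) - N₁)) * (1 / g) := by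
  classical
  obtain ⟨K, Y, C, hK, hC, hcu⟩ := count_u c hc
  obtain ⟨κ, hκ, hsl⟩ := sing_lower (fun _ : Fin 1 => c) (fun _ => hc)
  obtain ⟨δ, hδ⟩ : ∃ δ : ℝ, δ = 1 / (8 * K) := ⟨_, rfl⟩
  have hKr : (1 : ℝ) ≤ K := by exact_mod_cast hK
  have hδ0 : 0 < δ := by rw [hδ]; positivity
  have hδK : δ * K = 1 / 8 := by rw [hδ]; field_simp
  have hcn : (1 : ℝ) ≤ (c.natAbs : ℝ) := by exact_mod_cast Int.natAbs_pos.2 hc
  refine ⟨2 * (1 + 8 * C / δ ^ 2) * c.natAbs, by positivity, fun B => ?_⟩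
  obtain ⟨X₁, hX₁⟩ := Filter.eventually_atTop.1 ((Sil2.ev_log 1000).and ((Sil2.ev_pow B (1 / 8) 1 (by norm_num)).and
    ((Sil2.ev_pow 2 (1 / 8) (3 / κ) (by norm_num)).and ((Sil2.ev_pow 0 δ (Y + 2) hδ0).and ((Sil2.ev_pow 0 (δ / 2) 2 (by positivity)).and
    (Sil2.ev_pow 0 (1 / 8) 2 (by norm_num)))))))
  refine ⟨max X₁ 3, fun X hX N₁ N₂ hN hNB h hmul hadm g hg hgX => ?_⟩
  obtain ⟨hL, c1, c2, c3, c4, c5⟩ := hX₁ X ((le_max_left _ _).trans hX)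
  have hX3 : 3 ≤ X := (le_max_right _ _).trans hX
  obtain ⟨L, hLd⟩ : ∃ L, L = Real.log (X : ℝ) := ⟨_, rfl⟩
  rw [← hLd] at hL c1 c2 c3 c4 c5 hNB ⊢
  have hL1 : 1 ≤ L := by linarith
  have hL0 : 0 < L := by linarith
  have hXR : (3 : ℝ) ≤ X := by exact_mod_cast hX3
  have hX0 : (0 : ℝ) < X := lt_of_lt_of_le (by norm_num) hXR
  have hX1r : (1 : ℝ) ≤ X := le_trans (by norm_num) hXR
  obtain ⟨V, hV⟩ : ∃ V : ℝ, V = (X : ℝ) ^ (1 / 8 : ℝ) := ⟨_, rfl⟩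
  rw [← hV] at c1 c2 c5
  rw [pow_zero, mul_one] at c3 c4 c5
  rw [one_mul] at c1
  have hV0 : 0 < V := by rw [hV]; positivity
  have hV8 : V ^ 8 = X := by
    rw [hV, ← Real.rpow_natCast ((X : ℝ) ^ (1 / 8 : ℝ)) 8, ← Real.rpow_mul hX0.le]
    norm_num
  have hV1 : 1 ≤ V := by linarith
  obtain ⟨𝔖, h𝔖⟩ : ∃ 𝔖, 𝔖 = singT (fun _ : Fin 1 => c) (fun _ => h) := ⟨_, rfl⟩
  have hs : κ ≤ 𝔖 := by rw [h𝔖]; exact hsl _ hmul hadm
  have h𝔖0 : 0 < 𝔖 := by linarith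
  obtain ⟨D, hD⟩ : ∃ D : ℝ, D = (N₂ : ℝ) - N₁ := ⟨_, rfl⟩
  rw [← hD] at hNB ⊢
  rw [← h𝔖]
  have hLB0 : 0 < L ^ B := by positivity
  have hD0 : 0 < D := lt_of_lt_of_le (by positivity) hNB
  have hg0 : (0 : ℝ) < g := by exact_mod_cast hg.pos
  -- the modulus
  obtain ⟨u, hu⟩ : ∃ u : ℕ, u = if (g : ℤ) ∣ c then 1 else g := ⟨_, rfl⟩
  have hug : u = 1 ∨ u = g := by
    rw [hu]
    split_ifs
    · exact Or.inl rfl
    · exact Or.inr rfl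
  have hu1 : 1 ≤ u := by
    rcases hug with h1 | h1
    · omega
    · rw [h1]; exact hg.one_le
  have hur : (1 : ℝ) ≤ u := by exact_mod_cast hu1
  have hu0 : (0 : ℝ) < u := by linarith
  have huV : (u : ℝ) ≤ V ^ 4 := by
    have h1 : u ^ 2 ≤ X := by
      rcases hug with h1 | h1
      · rw [h1]; omega
      · rw [h1]; exact hgX
    have h2 : (u : ℝ) ^ 2 ≤ (V ^ 4) ^ 2 := by
      calc (u : ℝ) ^ 2 ≤ X := by exact_mod_cast h1
        _ = (V ^ 4) ^ 2 := by rw [← hV8]; ring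
    exact le_of_pow_le_pow_left₀ (by norm_num) (by positivity) h2
  have hug' : 1 / (u : ℝ) ≤ c.natAbs * (1 / g) := by
    rw [mul_one_div, div_le_div_iff₀ hu0 hg0, one_mul]
    rw [hu]
    split_ifs with hd
    · have h1 : g ≤ c.natAbs := Nat.le_of_dvd (Int.natAbs_pos.2 hc) (Int.natCast_dvd.1 hd)
      have h2 : (g : ℝ) ≤ c.natAbs := by exact_mod_cast h1
      rw [Nat.cast_one, mul_one]
      exact h2
    · exact le_mul_of_one_le_left hg0.le hcn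
  obtain ⟨M, hM⟩ : ∃ M : ℕ, M = N₂ / u - N₁ / u + 1 := ⟨_, rfl⟩
  have hMle : D / u ≤ M ∧ (M : ℝ) ≤ D / u + 2 := by
    have h1 : N₁ / u ≤ N₂ / u := Nat.div_le_div_right hN.le
    have h2 : (M : ℝ) = ((N₂ / u : ℕ) : ℝ) - ((N₁ / u : ℕ) : ℝ) + 1 := by
      rw [hM, Nat.cast_add, Nat.cast_sub h1, Nat.cast_one]
    have h3 : ((N₂ / u : ℕ) : ℝ) ≤ (N₂ : ℝ) / u := Nat.cast_div_le
    have h4 : ((N₁ / u : ℕ) : ℝ) ≤ (N₁ : ℝ) / u := Nat.cast_div_le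
    have h5 : (N₂ : ℝ) / u ≤ ((N₂ / u : ℕ) : ℝ) + 1 := by
      rw [div_le_iff₀ hu0]
      have := Nat.lt_div_mul_add (a := N₂) hu1
      have h6 : N₂ ≤ (N₂ / u + 1) * u := by rw [add_mul, one_mul]; omega
      exact_mod_cast h6
    have h6 : (N₁ : ℝ) / u ≤ ((N₁ / u : ℕ) : ℝ) + 1 := by
      rw [div_le_iff₀ hu0]
      have := Nat.lt_div_mul_add (a := N₁) hu1
      have h6 : N₁ ≤ (N₁ / u + 1) * u := by rw [add_mul, one_mul]; omega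
      exact_mod_cast h6
    have h7 : D / u = (N₂ : ℝ) / u - (N₁ : ℝ) / u := by rw [hD, sub_div]
    rw [h2, h7]
    constructor <;> linarith
  have hDu : V ^ 2 ≤ D / u := by
    rw [le_div_iff₀ hu0]
    calc V ^ 2 * u ≤ V ^ 2 * V ^ 4 := by gcongr
      _ = V ^ 6 := by ring
      _ ≤ X / L ^ B := by
          rw [le_div_iff₀ hLB0, ← hV8]
          calc V ^ 6 * L ^ B ≤ V ^ 6 * V := by gcongr
            _ = V ^ 7 := by ring
            _ ≤ V ^ 8 := pow_le_pow_right₀ hV1 (by norm_num)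
      _ ≤ D := hNB
  have hMV : V ^ 2 ≤ M := hDu.trans hMle.1
  have hV2 : V ≤ V ^ 2 := le_self_pow₀ hV1 (by norm_num)
  have hV24 : 4 ≤ V ^ 2 := by nlinarith
  have hM2 : (M : ℝ) ≤ 2 * (D / u) := by
    have := hMle.2
    linarith
  -- the sieve parameter
  obtain ⟨y, hy⟩ : ∃ y : ℕ, y = ⌊(X : ℝ) ^ δ⌋₊ := ⟨_, rfl⟩
  have hy1 : (y : ℝ) ≤ (X : ℝ) ^ δ := by rw [hy]; exact Nat.floor_le (by positivity)
  have hy2 : (X : ℝ) ^ δ ≤ y + 1 := by rw [hy]; exact (Nat.lt_floor_add_one _).le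
  have hyY : Y ≤ y := by
    have h1 : (Y : ℝ) ≤ y := by linarith
    exact_mod_cast h1
  have hyr1 : (1 : ℝ) ≤ y := by
    have : (0 : ℝ) ≤ Y := Nat.cast_nonneg _
    linarith
  have hyKV : (y : ℝ) ^ K ≤ V := by
    calc (y : ℝ) ^ K ≤ ((X : ℝ) ^ δ) ^ K := pow_le_pow_left₀ (Nat.cast_nonneg _) hy1 K
      _ = (X : ℝ) ^ (δ * K) := by rw [← Real.rpow_natCast, ← Real.rpow_mul hX0.le]
      _ = V := by rw [hδK, hV]
  have hyV : (y : ℝ) ≤ V := (le_self_pow₀ hyr1 (by omega)).trans hyKV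
  have hyK : y ^ K ≤ M := by
    have h1 : ((y ^ K : ℕ) : ℝ) ≤ M := by
      push_cast
      linarith
    exact_mod_cast h1
  have hlogy : δ / 2 * L ≤ Real.log y := by
    have h1 : (X : ℝ) ^ (δ / 2) ≤ y := by
      have h2 : (X : ℝ) ^ δ = (X : ℝ) ^ (δ / 2) * (X : ℝ) ^ (δ / 2) := by
        rw [← Real.rpow_add hX0]
        congr 1
        ring
      have h3 : 2 * (X : ℝ) ^ (δ / 2) ≤ (X : ℝ) ^ δ := by
        rw [h2]
        exact mul_le_mul_of_nonneg_right c4 (by positivity)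
      linarith
    have h2 := Real.log_le_log (by positivity) h1
    rw [Real.log_rpow hX0, ← hLd] at h2
    exact h2
  -- the residue class
  obtain ⟨r, hr⟩ : ∃ r : ℕ, ∀ n ∈ TG c h N₁ N₂ g, n % u = r := by
    by_cases hd : (g : ℤ) ∣ c
    · refine ⟨0, fun n _ => ?_⟩
      rw [hu, if_pos hd, Nat.mod_one]
    · rcases (TG c h N₁ N₂ g).eq_empty_or_nonempty with he | ⟨n₀, hn₀⟩
      · exact ⟨0, fun n hn => by rw [he] at hn; exact absurd hn (notMem_empty _)⟩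
      · refine ⟨n₀ % u, fun n hn => ?_⟩
        rw [hu, if_neg hd]
        unfold TG at hn hn₀
        rw [mem_filter] at hn hn₀
        obtain ⟨_, _, q, _, hq⟩ := hn
        obtain ⟨_, _, q₀, _, hq₀⟩ := hn₀
        have h1 : (g : ℤ) ∣ c * ((n : ℤ) - n₀) := ⟨(q : ℤ) - q₀, by linarith⟩
        have h2 := ((Nat.prime_iff_prime_int.1 hg).dvd_or_dvd h1).resolve_left hd
        have h3 : (n₀ : ℤ) ≡ n [ZMOD g] := (Int.modEq_iff_dvd).2 h2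
        exact ((Int.natCast_modEq_iff).1 h3.symm)
  have key := hcu y hyY h hmul hadm g u hg hug N₁ N₂ hN (by rw [← hM]; exact hyK) r (TG c h N₁ N₂ g)
    (by unfold TG; exact filter_subset _ _) (fun n hn => by
      have hn' := hn
      unfold TG at hn'
      rw [mem_filter] at hn'
      exact ⟨hn'.2.1, hr n hn, hn'.2.2⟩)
  rw [← hM, ← h𝔖] at key
  have hM0 : (0 : ℝ) < M := by linarith
  have hsqM : √(M : ℝ) ≤ M / V := by
    rw [le_div_iff₀ hV0]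
    have h1 : V ≤ √(M : ℝ) := by
      apply Real.le_sqrt_of_sq_le
      exact hMV
    calc √(M : ℝ) * V ≤ √(M : ℝ) * √(M : ℝ) := mul_le_mul_of_nonneg_left h1 (Real.sqrt_nonneg _)
      _ = M := Real.mul_self_sqrt hM0.le
  have hVM : 2 * (y : ℝ) ≤ 2 * (M / V) := by
    have h1 : V ≤ M / V := by
      rw [le_div_iff₀ hV0]
      calc V * V = V ^ 2 := by ring
        _ ≤ M := hMV
    linarith
  have hsmall : 3 / V ≤ 𝔖 / L ^ 2 := by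
    rw [div_le_div_iff₀ hV0 (by positivity)]
    rw [div_mul_eq_mul_div, div_le_iff₀ hκ] at c2
    calc 3 * L ^ 2 ≤ V * κ := c2
      _ ≤ 𝔖 * V := by rw [mul_comm]; exact mul_le_mul_of_nonneg_right hs hV0.le
  have hlog2 : 𝔖 / (Real.log y) ^ 2 ≤ 4 / δ ^ 2 * (𝔖 / L ^ 2) := by
    have h1 : (δ / 2 * L) ^ 2 ≤ (Real.log y) ^ 2 := pow_le_pow_left₀ (by positivity) hlogy 2
    calc 𝔖 / (Real.log y) ^ 2 ≤ 𝔖 / (δ / 2 * L) ^ 2 := div_le_div_of_nonneg_left h𝔖0.le (by positivity) h1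
      _ = 4 / δ ^ 2 * (𝔖 / L ^ 2) := by field_simp; norm_num
  have h1 : ((TG c h N₁ N₂ g).card : ℝ) ≤ M * ((1 + 8 * C / δ ^ 2) * (𝔖 / L ^ 2)) := by
    have h2 : 2 * ((M : ℝ) * (C * (𝔖 / (Real.log y) ^ 2))) ≤ 2 * ((M : ℝ) * (C * (4 / δ ^ 2 * (𝔖 / L ^ 2)))) := by gcongr
    have h3 : (M : ℝ) * (3 / V) ≤ M * (𝔖 / L ^ 2) := mul_le_mul_of_nonneg_left hsmall hM0.le
    have h4 : (M : ℝ) * (3 / V) = 2 * (M / V) + M / V := by ring
    have h5 : M * ((1 + 8 * C / δ ^ 2) * (𝔖 / L ^ 2)) = M * (𝔖 / L ^ 2) + 2 * ((M : ℝ) * (C * (4 / δ ^ 2 * (𝔖 / L ^ 2)))) := by ring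
    linarith
  refine h1.trans ?_
  have h6 : 0 ≤ (1 + 8 * C / δ ^ 2) * (𝔖 / L ^ 2) := by positivity
  calc (M : ℝ) * ((1 + 8 * C / δ ^ 2) * (𝔖 / L ^ 2)) ≤ (2 * (D / u)) * ((1 + 8 * C / δ ^ 2) * (𝔖 / L ^ 2)) :=
        mul_le_mul_of_nonneg_right hM2 h6
    _ = 2 * D * ((1 + 8 * C / δ ^ 2) * (𝔖 / L ^ 2)) * (1 / u) := by ring
    _ ≤ 2 * D * ((1 + 8 * C / δ ^ 2) * (𝔖 / L ^ 2)) * (c.natAbs * (1 / g)) := by
        apply mul_le_mul_of_nonneg_left hug'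
        positivity
    _ = _ := by ring

end Pool.Agent.H561.E3
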