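import Pool.Agent.H561.E3.U10
import Pool.Graph.R_seed8.Helper256.KM.Mertens

set_option autoImplicit false

/-! Products of exactly two primes: assembly. -/

namespace Pool.Agent.H561.E3

open Finset Filter Topology
open Pool.Agent.helper24_UT hiding om
open Pool.Agent.H373R2.T7 (pz mem_pz Vz Vz_pos)
open Pool.Agent.H561.E2

open Classical in
/-- the number of the primes `n`, `N₁ < n ≤ N₂`, for which `c n + h` is the product of two primes -/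
noncomputable def cE (c h : ℤ) (N₁ N₂ : ℕ) : ℕ :=
  ((Ioc N₁ N₂).filter (fun n : ℕ => n.Prime ∧ ∃ p q : ℕ, p.Prime ∧ q.Prime ∧ c * (n : ℤ) + h = p * q)).card

lemma pz_mono {a b : ℕ} (h : a ≤ b) : pz a ⊆ pz b := fun p hp => mem_pz.2 ⟨(mem_pz.1 hp).1.trans h, (mem_pz.1 hp).2⟩

lemma loglog_tendsto : Tendsto (fun X : ℕ => Real.log (Real.log X)) atTop atTop :=
  Real.tendsto_log_atTop.comp (Real.tendsto_log_atTop.comp tendsto_natCast_atTop_atTop)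

/-- the primes up to `X ^ θ₁` against the others -/
theorem mert (a : ℕ) (ha : 1 ≤ a) (θ₁ : ℝ) (h0 : 0 < θ₁) (h1 : θ₁ ≤ 1 / 10) (δ : ℝ) (hδ : 0 < δ) : ∃ X₀ : ℕ, ∀ X : ℕ, X₀ ≤ X →
    ∃ P z : ℕ, P = ⌊(X : ℝ) ^ θ₁⌋₊ ∧ z = ⌊(Real.log X) ^ a⌋₊ ∧ z ≤ P ∧ P ≤ Nat.sqrt X ∧ 1 ≤ Real.log (Real.log X) ∧
    (1 - δ) * Real.log (Real.log X) ≤ ∑ p ∈ pz P, 1 / (p : ℝ) - ∑ p ∈ pz z, 1 / (p : ℝ) ∧
    ∑ p ∈ pz P, 1 / (p : ℝ) - ∑ p ∈ pz z, 1 / (p : ℝ) ≤ (1 + δ) * Real.log (Real.log X) ∧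
    ∑ p ∈ pz z, 1 / (p : ℝ) + (∑ p ∈ pz (Nat.sqrt X), 1 / (p : ℝ) - ∑ p ∈ pz P, 1 / (p : ℝ)) ≤ δ * Real.log (Real.log X) := by
  obtain ⟨CM, hCM⟩ := Pool.Agent.Helper256.KM.mertens_inv
  have hCM0 : 0 ≤ CM := (abs_nonneg _).trans (hCM 3 le_rfl)
  obtain ⟨C1, hC1⟩ : ∃ C1 : ℝ, C1 = Real.log a + 3 * CM - Real.log (θ₁ / 2) := ⟨_, rfl⟩
  have hlt : Real.log (θ₁ / 2) ≤ 0 := Real.log_nonpos (by positivity) (by linarith)
  have hla : 0 ≤ Real.log a := Real.log_nonneg (by exact_mod_cast ha)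
  have hC10 : 0 ≤ C1 := by rw [hC1]; linarith
  have hlo : ∀ᶠ x : ℝ in atTop, Real.log x ≤ δ / 2 * x := by
    have h2 := Real.isLittleO_log_id_atTop.def (show 0 < δ / 2 by positivity)
    filter_upwards [h2, eventually_ge_atTop 1] with x hx hx1
    rw [Real.norm_eq_abs, Real.norm_eq_abs, id, abs_of_nonneg (Real.log_nonneg hx1), abs_of_nonneg (by linarith)] at hx
    exact hx
  have e1 := loglog_tendsto.eventually hlo
  have e2 := loglog_tendsto.eventually (eventually_ge_atTop (max 1 (2 * C1 / δ)))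
  obtain ⟨X₁, hX₁⟩ := Filter.eventually_atTop.1 (e1.and (e2.and ((Sil2.ev_log 1000).and ((Sil2.ev_pow a θ₁ 1 h0).and
    ((Sil2.ev_pow 0 (θ₁ / 2) 4 (by positivity)).and (Sil2.ev_pow 0 (1 / 2 - θ₁) 2 (by linarith)))))))
  refine ⟨max X₁ 9, fun X hX => ⟨_, _, rfl, rfl, ?_⟩⟩
  obtain ⟨u1, u2, hL, c1, c2, c3⟩ := hX₁ X ((le_max_left _ _).trans hX)
  have hX9 : 9 ≤ X := (le_max_right _ _).trans hX
  obtain ⟨L, hLd⟩ : ∃ L, L = Real.log (X : ℝ) := ⟨_, rfl⟩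
  rw [← hLd] at u1 u2 hL c1 ⊢
  rw [pow_zero, mul_one] at c2 c3
  rw [one_mul] at c1
  have hL1 : 1 ≤ L := by linarith
  have hL0 : 0 < L := by linarith
  have hXR : (9 : ℝ) ≤ X := by exact_mod_cast hX9
  have hX0 : (0 : ℝ) < X := by linarith
  have hX1r : (1 : ℝ) ≤ X := by linarith
  obtain ⟨ℓ, hℓ⟩ : ∃ ℓ, ℓ = Real.log L := ⟨_, rfl⟩
  rw [← hℓ] at u1 u2 ⊢
  have hℓ1 : 1 ≤ ℓ := (le_max_left _ _).trans u2
  have hℓC : C1 ≤ δ / 2 * ℓ := by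
    have h2 := (le_max_right _ _).trans u2
    rw [div_le_iff₀ hδ] at h2
    linarith
  obtain ⟨P, hP⟩ : ∃ P : ℕ, P = ⌊(X : ℝ) ^ θ₁⌋₊ := ⟨_, rfl⟩
  obtain ⟨z, hz⟩ : ∃ z : ℕ, z = ⌊L ^ a⌋₊ := ⟨_, rfl⟩
  rw [← hP, ← hz]
  have hLa : 0 < L ^ a := by positivity
  have hzP : z ≤ P := by rw [hz, hP]; exact Nat.floor_le_floor c1
  have hP1 : (P : ℝ) ≤ (X : ℝ) ^ θ₁ := by rw [hP]; exact Nat.floor_le (by positivity)
  have hP2 : (X : ℝ) ^ θ₁ ≤ P + 1 := by rw [hP]; exact (Nat.lt_floor_add_one _).le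
  have hz1 : (z : ℝ) ≤ L ^ a := by rw [hz]; exact Nat.floor_le (by positivity)
  have hLL : L ≤ L ^ a := le_self_pow₀ hL1 (by omega)
  have hz3 : 3 ≤ z := by
    rw [hz]
    apply Nat.le_floor
    push_cast
    linarith
  have hz3r : (3 : ℝ) ≤ z := by exact_mod_cast hz3
  have hP3 : 3 ≤ P := hz3.trans hzP
  have hsq : ((Nat.sqrt X : ℕ) : ℝ) ≤ √(X : ℝ) := Real.nat_sqrt_le_real_sqrt
  have hsX : √(X : ℝ) = (X : ℝ) ^ (1 / 2 : ℝ) := Real.sqrt_eq_rpow _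
  have hPQ : P ≤ Nat.sqrt X := by
    apply Nat.le_sqrt.2
    have h2 : (P : ℝ) * P ≤ X := by
      calc (P : ℝ) * P ≤ (X : ℝ) ^ θ₁ * (X : ℝ) ^ θ₁ := by gcongr
        _ = (X : ℝ) ^ (θ₁ + θ₁) := by rw [Real.rpow_add hX0]
        _ ≤ (X : ℝ) ^ (1 : ℝ) := Real.rpow_le_rpow_of_exponent_le hX1r (by linarith)
        _ = X := Real.rpow_one _
    exact_mod_cast h2
  refine ⟨hzP, hPQ, hℓ1, ?_⟩
  have hQ3 : 3 ≤ Nat.sqrt X := hP3.trans hPQ
  -- Mertens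
  have m1 := abs_le.1 (hCM P hP3)
  have m2 := abs_le.1 (hCM z hz3)
  have m3 := abs_le.1 (hCM (Nat.sqrt X) hQ3)
  have eP : ∑ p ∈ (Finset.Icc 1 P).filter Nat.Prime, (1 : ℝ) / p = ∑ p ∈ pz P, 1 / (p : ℝ) := rfl
  have ez : ∑ p ∈ (Finset.Icc 1 z).filter Nat.Prime, (1 : ℝ) / p = ∑ p ∈ pz z, 1 / (p : ℝ) := rfl
  have eQ : ∑ p ∈ (Finset.Icc 1 (Nat.sqrt X)).filter Nat.Prime, (1 : ℝ) / p = ∑ p ∈ pz (Nat.sqrt X), 1 / (p : ℝ) := rfl
  rw [eP] at m1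
  rw [ez] at m2
  rw [eQ] at m3
  have hP0 : (0 : ℝ) < P := by exact_mod_cast (by omega : 0 < P)
  have hlogP : θ₁ / 2 * L ≤ Real.log P ∧ Real.log P ≤ L := by
    constructor
    · have h3 : (X : ℝ) ^ (θ₁ / 2) ≤ P := by
        have h2 : (X : ℝ) ^ θ₁ = (X : ℝ) ^ (θ₁ / 2) * (X : ℝ) ^ (θ₁ / 2) := by
          rw [← Real.rpow_add hX0]
          congr 1
          ring
        have h3 : 4 * (X : ℝ) ^ (θ₁ / 2) ≤ (X : ℝ) ^ θ₁ := by
          rw [h2]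
          exact mul_le_mul_of_nonneg_right c2 (by positivity)
        have h4 : 0 < (X : ℝ) ^ (θ₁ / 2) := by positivity
        linarith
      have h4 := Real.log_le_log (by positivity) h3
      rw [Real.log_rpow hX0, ← hLd] at h4
      exact h4
    · rw [hLd]
      apply Real.log_le_log hP0
      have : P ≤ X := hPQ.trans (Nat.sqrt_le_self X)
      exact_mod_cast this
  have hll1 : Real.log (θ₁ / 2) + ℓ ≤ Real.log (Real.log P) := by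
    rw [hℓ, ← Real.log_mul (by positivity) hL0.ne']
    exact Real.log_le_log (by positivity) hlogP.1
  have hlP0 : 0 < Real.log P := lt_of_lt_of_le (by positivity) hlogP.1
  have hll2 : Real.log (Real.log P) ≤ ℓ := by
    rw [hℓ]
    exact Real.log_le_log hlP0 hlogP.2
  have hlz : Real.log (Real.log z) ≤ Real.log a + Real.log ℓ := by
    have h3 : Real.log z ≤ a * ℓ := by
      have h4 := Real.log_le_log (by linarith) hz1
      rw [Real.log_pow, ← hℓ] at h4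
      exact h4
    have h4 : 0 < Real.log z := Real.log_pos (by linarith)
    have h5 := Real.log_le_log h4 h3
    rw [Real.log_mul (by positivity) (by linarith)] at h5
    exact h5
  have hlz0 : 0 ≤ Real.log (Real.log z) := by
    apply Real.log_nonneg
    have h3 : Real.exp 1 ≤ z := by
      have := Real.exp_one_lt_d9
      linarith
    have h4 := Real.log_le_log (Real.exp_pos 1) h3
    rwa [Real.log_exp] at h4
  have hlQ : Real.log (Real.log (Nat.sqrt X)) ≤ ℓ := by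
    rw [hℓ]
    have hQ0 : (3 : ℝ) ≤ ((Nat.sqrt X : ℕ) : ℝ) := by exact_mod_cast hQ3
    apply Real.log_le_log (Real.log_pos (by linarith))
    rw [hLd]
    apply Real.log_le_log (by linarith)
    exact_mod_cast Nat.sqrt_le_self X
  have hδℓ : 0 ≤ δ / 2 * ℓ := by positivity
  have hC1' : Real.log a + 3 * CM - Real.log (θ₁ / 2) ≤ δ / 2 * ℓ := by rw [← hC1]; exact hℓC
  refine ⟨?_, ?_, ?_⟩
  · linarith [m1.1, m2.2]
  · linarith [m1.2, m2.1]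
  · linarith [m1.1, m2.2, m3.2]

end Pool.Agent.H561.E3
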