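import Pool.Agent.H561.E3.U7

set_option autoImplicit false

/-! Numbers of primes, `g ≤ P`, windows of every size at least `P (log X) ^ G`. -/

namespace Pool.Agent.H561.E3

open Finset Filter Topology
open Pool.Agent.helper24_UT hiding om
open Pool.Agent.H373R2.T7 (pz mem_pz Vz Vz_pos Vz_inv_small)
open Pool.Agent.H561.E2

open Classical in
/-- **almost all shifts: numbers of primes, `g` up to a small power of `X`, boxes of every size** -/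
theorem cntP (k : ℕ) (c : Fin k → ℤ) (hc : ∀ i, c i ≠ 0) (herr : ∀ U, ErrB c R10 U) (ε : ℝ) (hε : 0 < ε) :
  ∃ θ₀ : ℝ, 0 < θ₀ ∧ θ₀ ≤ 1 / 10 ∧ ∀ (A B : ℕ), ∃ a₀ : ℕ, ∀ a : ℕ, a₀ ≤ a → ∃ G X₀ : ℕ, ∀ X : ℕ, X₀ ≤ X → ∀ P : ℕ, 1 ≤ P → (P : ℝ) ≤ (X : ℝ) ^ θ₀ →
  ∀ S : Fin k → Finset ℕ, (∀ i, ∀ p ∈ S i, p.Prime ∧ (Real.log X) ^ a < p ∧ p ≤ P) →
  (∀ i, 1 / (Real.log X) ^ B ≤ ∑ p ∈ S i, 1 / (p : ℝ)) →
  ∀ H : ℕ, P * (Real.log X) ^ G ≤ H → ∀ (N₁ N₂ : ℕ) (b : Fin k → ℤ), N₁ < N₂ → N₂ ≤ X →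
  X / (Real.log X) ^ B ≤ (N₂ : ℝ) - N₁ →
  (∀ i, ∀ n ∈ Ioc N₁ N₂, 1 ≤ c i * (n : ℤ) + b i ∧ c i * (n : ℤ) + b i + H ≤ X) →
  (((Fintype.piFinset (fun i : Fin k => Ico (b i) (b i + H))).filter (fun h => NDeg c h ∧ Adm c h ∧
    ¬ (Multipliable (fun p : ℕ => if p.Prime then lf c h p else 1) ∧ |(cntE c S N₁ N₂ h : ℝ) - Mn c S N₁ N₂ h / Real.log X ^ (k + 1)| ≤
      ε * (Mn c S N₁ N₂ h / Real.log X ^ (k + 1))))).card : ℝ) ≤ (H : ℝ) ^ k / (Real.log X) ^ A := by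
  obtain ⟨θ₀, hθ1, hθ2, hT⟩ := cntR0 k c hc herr ε hε
  refine ⟨θ₀, hθ1, hθ2, fun A B => ?_⟩
  obtain ⟨a₀, hT⟩ := hT (A + k) B
  refine ⟨a₀, fun a ha => ?_⟩
  obtain ⟨G, X₁, hT⟩ := hT a ha
  obtain ⟨X₃, hX₃⟩ := Filter.eventually_atTop.1 ((Sil2.ev_log 1000).and
    ((Sil2.ev_pow G (1 / 10) 1 (by norm_num)).and (Sil2.ev_pow 0 (1 / 5) 16 (by norm_num))))
  refine ⟨G, max (max X₁ X₃) 100, fun X hX P hP1 hPθ S hS hSB H hH N₁ N₂ b hN12 hN2 hNB hb => ?_⟩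
  have hX1 : X₁ ≤ X := ((le_max_left _ _).trans (le_max_left _ _)).trans hX
  obtain ⟨hL, hpw, hpw2⟩ := hX₃ X (((le_max_right _ _).trans (le_max_left _ _)).trans hX)
  have hX100 : 100 ≤ X := (le_max_right _ _).trans hX
  have hXR : (100 : ℝ) ≤ X := by exact_mod_cast hX100
  have hX1r : (1 : ℝ) ≤ X := by linarith
  have hX0 : (0 : ℝ) < X := by linarith
  have hT := hT X hX1
  obtain ⟨L, hLd⟩ : ∃ L, L = Real.log X := ⟨_, rfl⟩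
  rw [← hLd] at hL hpw hpw2 hS hSB hNB hT hH ⊢
  rw [one_mul] at hpw
  have hPr : (1 : ℝ) ≤ P := by exact_mod_cast hP1
  have hP10 : P ^ 10 ≤ X := by
    have g1 : (P : ℝ) ^ 10 ≤ X := by
      calc (P : ℝ) ^ 10 ≤ ((X : ℝ) ^ θ₀) ^ 10 := pow_le_pow_left₀ (Nat.cast_nonneg _) hPθ 10
        _ = (X : ℝ) ^ (θ₀ * 10) := by rw [← Real.rpow_natCast, ← Real.rpow_mul hX0.le]; norm_num
        _ ≤ (X : ℝ) ^ (1 : ℝ) := Real.rpow_le_rpow_of_exponent_le hX1r (by linarith)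
        _ = X := Real.rpow_one _
    exact_mod_cast g1
  have hLG1 : 1 ≤ L ^ G := one_le_pow₀ (by linarith)
  obtain ⟨H₀, hH₀⟩ : ∃ H₀ : ℕ, H₀ = ⌈P * L ^ G⌉₊ := ⟨_, rfl⟩
  have hPL1 : 1 ≤ P * L ^ G := by
    calc (1 : ℝ) = 1 * 1 := by norm_num
      _ ≤ P * L ^ G := mul_le_mul hPr hLG1 zero_le_one (by linarith)
  have hPH : P * L ^ G ≤ (H₀ : ℝ) := by rw [hH₀]; exact Nat.le_ceil _
  have hH2 : (H₀ : ℝ) ≤ 2 * (P * L ^ G) := by
    have := Nat.ceil_lt_add_one (show (0 : ℝ) ≤ P * L ^ G by positivity)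
    rw [← hH₀] at this
    linarith
  have hH0H : H₀ ≤ H := by
    rw [hH₀]
    exact Nat.ceil_le.2 hH
  have hH01 : 1 ≤ H₀ := by
    have : (1 : ℝ) ≤ H₀ := hPL1.trans hPH
    exact_mod_cast this
  have hHX : 4 * H₀ ^ 2 ≤ X := by
    have g1 : (4 : ℝ) * (H₀ : ℝ) ^ 2 ≤ X := by
      have g2 : P * L ^ G ≤ (X : ℝ) ^ (2 / 5 : ℝ) := by
        calc P * L ^ G ≤ (X : ℝ) ^ θ₀ * (X : ℝ) ^ (1 / 10 : ℝ) := mul_le_mul hPθ hpw (by positivity) (by positivity)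
          _ = (X : ℝ) ^ (θ₀ + 1 / 10) := by rw [← Real.rpow_add hX0]
          _ ≤ (X : ℝ) ^ (2 / 5 : ℝ) := Real.rpow_le_rpow_of_exponent_le hX1r (by linarith)
      calc (4 : ℝ) * (H₀ : ℝ) ^ 2 ≤ 4 * (2 * (P * L ^ G)) ^ 2 := by gcongr
        _ = 16 * (P * L ^ G) ^ 2 := by ring
        _ ≤ 16 * ((X : ℝ) ^ (2 / 5 : ℝ)) ^ 2 := by gcongr
        _ = 16 * (X : ℝ) ^ (4 / 5 : ℝ) := by
            congr 1
            rw [← Real.rpow_natCast, ← Real.rpow_mul hX0.le]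
            norm_num
        _ ≤ (X : ℝ) ^ (1 / 5 : ℝ) * (X : ℝ) ^ (4 / 5 : ℝ) := by
            apply mul_le_mul_of_nonneg_right _ (by positivity)
            rw [pow_zero, mul_one] at hpw2
            exact hpw2
        _ = (X : ℝ) ^ (1 : ℝ) := by rw [← Real.rpow_add hX0]; norm_num
        _ = X := Real.rpow_one _
    exact_mod_cast g1
  obtain ⟨BD, hBD⟩ : ∃ BD : (Fin k → ℤ) → Prop, ∀ h, BD h ↔ (NDeg c h ∧ Adm c h ∧
    ¬ (Multipliable (fun p : ℕ => if p.Prime then lf c h p else 1) ∧ |(cntE c S N₁ N₂ h : ℝ) - Mn c S N₁ N₂ h / L ^ (k + 1)| ≤ ε * (Mn c S N₁ N₂ h / L ^ (k + 1)))) := ⟨_, fun _ => Iff.rfl⟩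
  have hbox : ∀ b' : Fin k → ℤ, (∀ i, b i ≤ b' i ∧ b' i + H₀ ≤ b i + H) →
      (((Fintype.piFinset (fun _ : Fin k => range H₀)).filter (fun h => BD (bh b' h))).card : ℝ) ≤ (H₀ : ℝ) ^ k / L ^ (A + k) := by
    intro b' hb'
    obtain ⟨t1, t2⟩ := hT P hP10 S (fun i p hp => by
        obtain ⟨s1, s2, s3⟩ := hS i p hp
        have s4 : (p : ℝ) ≤ P := by exact_mod_cast s3
        exact ⟨s1, s2, s4.trans hPθ, s3⟩) hSB H₀ hH01 hPH hHX N₁ N₂ b' hN12 hN2 hNB (by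
        intro i n hn
        have g2 := hb i n hn
        have g3 := hb' i
        unfold LFo
        constructor <;> linarith)
    refine le_trans ?_ t1
    have hs : (Fintype.piFinset (fun _ : Fin k => range H₀)).filter (fun h => BD (bh b' h)) ⊆
        (Fintype.piFinset (fun _ : Fin k => range H₀)).filter (fun h => NDeg c (bh b' h) ∧ Adm c (bh b' h) ∧
    ¬ (|(cntE c S N₁ N₂ (bh b' h) : ℝ) - Mn c S N₁ N₂ (bh b' h) / L ^ (k + 1)| ≤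
      ε * (Mn c S N₁ N₂ (bh b' h) / L ^ (k + 1)))) := by
      intro h hh
      rw [mem_filter] at hh ⊢
      obtain ⟨hh1, hh2⟩ := hh
      rw [hBD] at hh2
      exact ⟨hh1, hh2.1, hh2.2.1, fun hcon => hh2.2.2 ⟨t2 h hh1 hh2.1, hcon⟩⟩
    exact_mod_cast card_le_card hs
  have e : (Fintype.piFinset (fun i : Fin k => Ico (b i) (b i + H))).filter (fun h => NDeg c h ∧ Adm c h ∧
    ¬ (Multipliable (fun p : ℕ => if p.Prime then lf c h p else 1) ∧ |(cntE c S N₁ N₂ h : ℝ) - Mn c S N₁ N₂ h / L ^ (k + 1)| ≤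
      ε * (Mn c S N₁ N₂ h / L ^ (k + 1)))) = (Fintype.piFinset (fun i : Fin k => Ico (b i) (b i + H))).filter (fun h => BD h) := by
    apply filter_congr
    intro h _
    exact (hBD _).symm
  rw [e]
  refine (box_split BD b H H₀ hH01 hH0H _ hbox).trans ?_
  have hL0 : 0 < L := by linarith
  obtain ⟨m, hm⟩ : ∃ m, m = H / H₀ + 1 := ⟨_, rfl⟩
  rw [← hm]
  have hmH : m * H₀ ≤ 2 * H := by
    have := Nat.div_mul_le_self H H₀
    rw [hm, add_mul, one_mul]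
    omega
  have g1 : (m : ℝ) * H₀ ≤ 2 * H := by exact_mod_cast hmH
  calc (m : ℝ) ^ k * ((H₀ : ℝ) ^ k / L ^ (A + k)) = ((m : ℝ) * H₀) ^ k / L ^ (A + k) := by
        rw [mul_pow]
        ring
    _ ≤ (2 * H : ℝ) ^ k / L ^ (A + k) := by gcongr
    _ = (2 / L) ^ k * ((H : ℝ) ^ k / L ^ A) := by
        rw [pow_add, mul_pow, div_pow]
        field_simp
    _ ≤ 1 * ((H : ℝ) ^ k / L ^ A) := by
        apply mul_le_mul_of_nonneg_right _ (by positivity)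
        apply pow_le_one₀ (by positivity)
        rw [div_le_one hL0]
        linarith
    _ = (H : ℝ) ^ k / L ^ A := one_mul _

end Pool.Agent.H561.E3
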