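import Pool.Agent.H561.E3.U12
import Pool.Agent.H561.E3.U13

set_option autoImplicit false

/-! Shorter windows. -/

namespace Pool.Agent.H561.E3

open Finset Filter Topology
open Pool.Agent.helper24_UT hiding om
open Pool.Agent.H373R2.T7 (pz mem_pz Vz Vz_pos)
open Pool.Agent.H561.E2

/-- sizes of `exp ((log X) ^ (1 - η))` -/
lemma ev_exp (η : ℝ) (hη : 0 < η) (hη1 : η < 1) (δ : ℝ) (hδ : 0 < δ) : ∃ X₀ : ℕ, ∀ X : ℕ, X₀ ≤ X → (Real.log X) ^ (1 - η) ≤ δ * Real.log X := by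
  have h1 : Tendsto (fun X : ℕ => Real.log (X : ℝ)) atTop atTop := Real.tendsto_log_atTop.comp tendsto_natCast_atTop_atTop
  have h2 : Tendsto (fun x : ℝ => x ^ η) atTop atTop := tendsto_rpow_atTop hη
  obtain ⟨X₀, hX₀⟩ := Filter.eventually_atTop.1 (((h2.comp h1).eventually (eventually_ge_atTop (1 / δ))).and (h1.eventually (eventually_ge_atTop 1)))
  refine ⟨X₀, fun X hX => ?_⟩
  obtain ⟨u1, u2⟩ := hX₀ X hX
  obtain ⟨L, hL⟩ : ∃ L, L = Real.log (X : ℝ) := ⟨_, rfl⟩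
  simp only [Function.comp] at u1
  rw [← hL] at u1 u2 ⊢
  have hL0 : 0 < L := by linarith
  have h3 : L ^ (1 - η) * L ^ η = L := by
    rw [← Real.rpow_add hL0]
    norm_num
  have h4 : 0 < L ^ (1 - η) := by positivity
  rw [div_le_iff₀ hδ] at u1
  calc L ^ (1 - η) = L ^ (1 - η) * 1 := (mul_one _).symm
    _ ≤ L ^ (1 - η) * (L ^ η * δ) := mul_le_mul_of_nonneg_left u1 h4.le
    _ = δ * (L ^ (1 - η) * L ^ η) := by ring
    _ = δ * L := by rw [h3]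

/-- the primes up to `exp ((log X) ^ (1 - η))` against the others -/
theorem mertE (a : ℕ) (ha : 1 ≤ a) (η : ℝ) (h0 : 0 < η) (h1 : η ≤ 1 / 2) : ∃ X₀ : ℕ, ∀ X : ℕ, X₀ ≤ X →
    ∃ P z : ℕ, P = ⌊Real.exp ((Real.log X) ^ (1 - η))⌋₊ ∧ z = ⌊(Real.log X) ^ a⌋₊ ∧ 1 ≤ P ∧ z ≤ P ∧ P ≤ Nat.sqrt X ∧ 2 ≤ Real.log (Real.log X) ∧
    (1 - 2 * η) * Real.log (Real.log X) ≤ ∑ p ∈ pz P, 1 / (p : ℝ) - ∑ p ∈ pz z, 1 / (p : ℝ) ∧
    ∑ p ∈ pz P, 1 / (p : ℝ) - ∑ p ∈ pz z, 1 / (p : ℝ) ≤ (1 + 2 * η) * Real.log (Real.log X) ∧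
    ∑ p ∈ pz z, 1 / (p : ℝ) + (∑ p ∈ pz (Nat.sqrt X), 1 / (p : ℝ) - ∑ p ∈ pz P, 1 / (p : ℝ)) ≤ 2 * η * Real.log (Real.log X) := by
  obtain ⟨CM, hCM⟩ := Pool.Agent.Helper256.KM.mertens_inv
  have hCM0 : 0 ≤ CM := (abs_nonneg _).trans (hCM 3 le_rfl)
  obtain ⟨C1, hC1⟩ : ∃ C1 : ℝ, C1 = Real.log a + 3 * CM + 1 := ⟨_, rfl⟩
  have hla : 0 ≤ Real.log a := Real.log_nonneg (by exact_mod_cast ha)
  have hC10 : 0 ≤ C1 := by rw [hC1]; linarith
  have hlo : ∀ᶠ x : ℝ in atTop, Real.log x ≤ η / 2 * x := by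
    have h2 := Real.isLittleO_log_id_atTop.def (show 0 < η / 2 by positivity)
    filter_upwards [h2, eventually_ge_atTop 1] with x hx hx1
    rw [Real.norm_eq_abs, Real.norm_eq_abs, id, abs_of_nonneg (Real.log_nonneg hx1), abs_of_nonneg (by linarith)] at hx
    exact hx
  have e1 := loglog_tendsto.eventually hlo
  have e2 := loglog_tendsto.eventually (eventually_ge_atTop (max 2 (2 * C1 / η)))
  have hloga : ∀ᶠ x : ℝ in atTop, (a : ℝ) * Real.log x ≤ x ^ (1 - η) := by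
    have h2 := (isLittleO_log_rpow_atTop (show 0 < 1 - η by linarith)).def (show 0 < 1 / ((a : ℝ) + 1) by positivity)
    filter_upwards [h2, eventually_ge_atTop 1] with x hx hx1
    have hx0 : 0 < x := by linarith
    rw [Real.norm_eq_abs, Real.norm_eq_abs, abs_of_nonneg (Real.log_nonneg hx1), abs_of_nonneg (by positivity), div_mul_eq_mul_div, one_mul,
      le_div_iff₀ (by positivity)] at hx
    have := Real.log_nonneg hx1
    linarith
  have hlogt : Tendsto (fun X : ℕ => Real.log (X : ℝ)) atTop atTop := Real.tendsto_log_atTop.comp tendsto_natCast_atTop_atTop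
  obtain ⟨X₁, hX₁⟩ := Filter.eventually_atTop.1 (e1.and (e2.and ((Sil2.ev_log 1000).and (hlogt.eventually hloga))))
  obtain ⟨X₂, hX₂⟩ := ev_exp η h0 (by linarith) (1 / 4) (by norm_num)
  refine ⟨max (max X₁ X₂) 9, fun X hX => ⟨_, _, rfl, rfl, ?_⟩⟩
  obtain ⟨u1, u2, hL, c1⟩ := hX₁ X (((le_max_left _ _).trans (le_max_left _ _)).trans hX)
  have c2 := hX₂ X (((le_max_right _ _).trans (le_max_left _ _)).trans hX)
  have hX9 : 9 ≤ X := (le_max_right _ _).trans hX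
  obtain ⟨L, hLd⟩ : ∃ L, L = Real.log (X : ℝ) := ⟨_, rfl⟩
  rw [← hLd] at u1 u2 hL c1 c2 ⊢
  have hL1 : 1 ≤ L := by linarith
  have hL0 : 0 < L := by linarith
  have hXR : (9 : ℝ) ≤ X := by exact_mod_cast hX9
  have hX0 : (0 : ℝ) < X := by linarith
  have hX1r : (1 : ℝ) ≤ X := by linarith
  obtain ⟨ℓ, hℓ⟩ : ∃ ℓ, ℓ = Real.log L := ⟨_, rfl⟩
  rw [← hℓ] at u1 u2 c1 ⊢
  have hℓ2 : 2 ≤ ℓ := (le_max_left _ _).trans u2
  have hℓC : C1 ≤ η / 2 * ℓ := by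
    have h2 := (le_max_right _ _).trans u2
    rw [div_le_iff₀ h0] at h2
    linarith
  obtain ⟨Λ, hΛ⟩ : ∃ Λ : ℝ, Λ = L ^ (1 - η) := ⟨_, rfl⟩
  rw [← hΛ] at c1 c2 ⊢
  have hΛ0 : 0 < Λ := by rw [hΛ]; positivity
  have hlogΛ : Real.log Λ = (1 - η) * ℓ := by rw [hΛ, Real.log_rpow hL0, ← hℓ]
  have hΛ2 : 2 ≤ Λ := by
    have h2 : (1 : ℝ) * ℓ ≤ a * ℓ := mul_le_mul_of_nonneg_right (by exact_mod_cast ha) (by linarith)
    linarith
  obtain ⟨P, hP⟩ : ∃ P : ℕ, P = ⌊Real.exp Λ⌋₊ := ⟨_, rfl⟩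
  obtain ⟨z, hz⟩ : ∃ z : ℕ, z = ⌊L ^ a⌋₊ := ⟨_, rfl⟩
  rw [← hP, ← hz]
  have hLa : 0 < L ^ a := by positivity
  have hLaexp : L ^ a ≤ Real.exp Λ := by
    have h2 : L ^ a = Real.exp (a * ℓ) := by
      rw [hℓ, mul_comm, Real.exp_mul, Real.exp_log hL0, Real.rpow_natCast]
    rw [h2]
    exact Real.exp_le_exp.2 c1
  have hzP : z ≤ P := by rw [hz, hP]; exact Nat.floor_le_floor hLaexp
  have hP1 : (P : ℝ) ≤ Real.exp Λ := by rw [hP]; exact Nat.floor_le (Real.exp_pos _).le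
  have hP2 : Real.exp Λ ≤ P + 1 := by rw [hP]; exact (Nat.lt_floor_add_one _).le
  have hz1 : (z : ℝ) ≤ L ^ a := by rw [hz]; exact Nat.floor_le (by positivity)
  have hLL : L ≤ L ^ a := le_self_pow₀ hL1 (by omega)
  have hz3 : 3 ≤ z := by
    rw [hz]
    apply Nat.le_floor
    push_cast
    linarith
  have hz3r : (3 : ℝ) ≤ z := by exact_mod_cast hz3
  have hP3 : 3 ≤ P := hz3.trans hzP
  have hP3r : (3 : ℝ) ≤ P := by exact_mod_cast hP3
  have hPQ : P ≤ Nat.sqrt X := by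
    apply Nat.le_sqrt.2
    have h2 : (P : ℝ) * P ≤ X := by
      calc (P : ℝ) * P ≤ Real.exp Λ * Real.exp Λ := by gcongr
        _ = Real.exp (Λ + Λ) := by rw [Real.exp_add]
        _ ≤ Real.exp L := Real.exp_le_exp.2 (by linarith)
        _ = X := by rw [hLd, Real.exp_log hX0]
    exact_mod_cast h2
  refine ⟨by omega, hzP, hPQ, hℓ2, ?_⟩
  have hQ3 : 3 ≤ Nat.sqrt X := hP3.trans hPQ
  -- Mertens
  have m1 := abs_le.1 (hCM P hP3)
  have m2 := abs_le.1 (hCM z hz3)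
  have m3 := abs_le.1 (hCM (Nat.sqrt X) hQ3)
  have eP : ∑ p ∈ (Finset.Icc 1 P).filter Nat.Prime, (1 : ℝ) / p = ∑ p ∈ pz P, 1 / (p : ℝ) := rfl
  have ez : ∑ p ∈ (Finset.Icc 1 z).filter Nat.Prime, (1 : ℝ) / p = ∑ p ∈ pz z, 1 / (p : ℝ) := rfl
  have eQ : ∑ p ∈ (Finset.Icc 1 (Nat.sqrt X)).filter Nat.Prime, (1 : ℝ) / p = ∑ p ∈ pz (Nat.sqrt X), 1 / (p : ℝ) := rfl
  rw [eP] at m1
  rw [ez] at m2
  rw [eQ] at m3
  have hP0 : (0 : ℝ) < P := by linarith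
  have hlogP : Λ / 2 ≤ Real.log P ∧ Real.log P ≤ Λ := by
    constructor
    · have h3 : Real.exp Λ ≤ (P : ℝ) * 2 := by linarith
      have h4 := Real.log_le_log (Real.exp_pos _) h3
      rw [Real.log_exp, Real.log_mul hP0.ne' (by norm_num)] at h4
      have := Real.log_two_lt_d9
      linarith
    · have h4 := Real.log_le_log hP0 hP1
      rwa [Real.log_exp] at h4
  have hlog2 := Real.log_two_lt_d9
  have hll1 : (1 - η) * ℓ - 1 ≤ Real.log (Real.log P) := by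
    have h3 := Real.log_le_log (by positivity) hlogP.1
    rw [Real.log_div hΛ0.ne' (by norm_num), hlogΛ] at h3
    linarith
  have hlP0 : 0 < Real.log P := lt_of_lt_of_le (by positivity) hlogP.1
  have hll2 : Real.log (Real.log P) ≤ ℓ := by
    have h3 := Real.log_le_log hlP0 hlogP.2
    rw [hlogΛ] at h3
    have : 0 ≤ η * ℓ := by positivity
    linarith
  have hlz : Real.log (Real.log z) ≤ Real.log a + Real.log ℓ := by
    have h3 : Real.log z ≤ a * ℓ := by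
      have h4 := Real.log_le_log (by linarith) hz1
      rw [Real.log_pow, ← hℓ] at h4
      exact h4
    have h4 : 0 < Real.log z := Real.log_pos (by linarith)
    have h5 := Real.log_le_log h4 h3
    rw [Real.log_mul (by positivity) (by linarith)] at h5
    exact h5
  have hlz0 : 0 ≤ Real.log (Real.log z) := by
    apply Real.log_nonneg
    have h3 : Real.exp 1 ≤ z := by
      have := Real.exp_one_lt_d9
      linarith
    have h4 := Real.log_le_log (Real.exp_pos 1) h3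
    rwa [Real.log_exp] at h4
  have hlQ : Real.log (Real.log (Nat.sqrt X)) ≤ ℓ := by
    rw [hℓ]
    have hQ0 : (3 : ℝ) ≤ ((Nat.sqrt X : ℕ) : ℝ) := by exact_mod_cast hQ3
    apply Real.log_le_log (Real.log_pos (by linarith))
    rw [hLd]
    apply Real.log_le_log (by linarith)
    exact_mod_cast Nat.sqrt_le_self X
  have hδℓ : 0 ≤ η / 2 * ℓ := by positivity
  have hC1' : Real.log a + 3 * CM + 1 ≤ η / 2 * ℓ := by rw [← hC1]; exact hℓC
  have hηℓ : 0 ≤ η * ℓ := by positivity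
  refine ⟨?_, ?_, ?_⟩
  · linarith [m1.1, m2.2]
  · linarith [m1.2, m2.1]
  · linarith [m1.1, m2.2, m3.2]

end Pool.Agent.H561.E3
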