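import Pool.Agent.H561.E3.U15

set_option autoImplicit false

/-! Splitting of windows and change of logarithms. -/

namespace Pool.Agent.H561.E3

open Finset Filter Topology

/-- the exceptional elements of a long window, from the short windows -/
lemma win_split (BD : ℤ → Prop) [DecidablePred BD] (b : ℤ) (H H₀ : ℕ) (h01 : 1 ≤ H₀) (h0H : H₀ ≤ H) (K : ℝ)
    (hbox : ∀ b' : ℤ, b ≤ b' → b' + H₀ ≤ b + H → (((Ico b' (b' + H₀)).filter BD).card : ℝ) ≤ K) :
    (((Ico b (b + H)).filter BD).card : ℝ) ≤ ((H / H₀ + 1 : ℕ) : ℝ) * K := by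
  classical
  obtain ⟨m, hm⟩ : ∃ m, m = H / H₀ + 1 := ⟨_, rfl⟩
  obtain ⟨sh, hsh⟩ : ∃ sh : ℕ → ℕ, ∀ j, sh j = min (j * H₀) (H - H₀) := ⟨fun j => min (j * H₀) (H - H₀), fun _ => rfl⟩
  have hshH : ∀ j, sh j + H₀ ≤ H := by
    intro j
    have : sh j ≤ H - H₀ := by rw [hsh]; exact min_le_right _ _
    omega
  have hsub : (Ico b (b + H)).filter BD ⊆ (range m).biUnion (fun j => (Ico (b + sh j) (b + sh j + H₀)).filter BD) := by
    intro h hh
    rw [mem_filter, mem_Ico] at hh
    obtain ⟨⟨h1, h2⟩, h3⟩ := hh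
    obtain ⟨j, hj, h4, h5⟩ := Pool.Agent.H561.E2.cover1 H H₀ h01 h0H (h - b).toNat (by omega)
    rw [mem_biUnion]
    refine ⟨j, by rw [mem_range, hm]; exact hj, ?_⟩
    rw [mem_filter, mem_Ico, hsh]
    have h6 := Int.toNat_of_nonneg (show 0 ≤ h - b by omega)
    refine ⟨⟨?_, ?_⟩, h3⟩
    · have h7 : ((min (j * H₀) (H - H₀) : ℕ) : ℤ) ≤ h - b := by
        rw [← h6]
        exact_mod_cast h4
      linarith
    · have h7 : h - b < ((min (j * H₀) (H - H₀) : ℕ) : ℤ) + H₀ := by
        rw [← h6]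
        exact_mod_cast h5
      linarith
  calc (((Ico b (b + H)).filter BD).card : ℝ)
      ≤ (((range m).biUnion (fun j => (Ico (b + sh j) (b + sh j + H₀)).filter BD)).card : ℝ) := by exact_mod_cast card_le_card hsub
    _ ≤ ((∑ j ∈ range m, ((Ico (b + sh j) (b + sh j + H₀)).filter BD).card : ℕ) : ℝ) := by exact_mod_cast card_biUnion_le
    _ = ∑ j ∈ range m, (((Ico (b + sh j) (b + sh j + H₀)).filter BD).card : ℝ) := by push_cast; rfl
    _ ≤ ∑ _j ∈ range m, K := by
        apply sum_le_sum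
        intro j _
        apply hbox
        · have : (0 : ℤ) ≤ (sh j : ℕ) := Int.natCast_nonneg _
          linarith
        · have h1 := hshH j
          have h2 : ((sh j : ℕ) : ℤ) + H₀ ≤ H := by exact_mod_cast h1
          linarith
    _ = ((H / H₀ + 1 : ℕ) : ℝ) * K := by rw [sum_const, nsmul_eq_mul, card_range, hm]

lemma logs (δ : ℝ) (hδ : 0 < δ) : ∃ T : ℝ, 3 ≤ T ∧ ∀ s t : ℝ, T ≤ s → s ≤ t → t ≤ s + 2 →
    (1 - δ) * (Real.log s / s ^ 2) ≤ Real.log t / t ^ 2 ∧ Real.log t / t ^ 2 ≤ (1 + δ) * (Real.log s / s ^ 2) := by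
  refine ⟨max 3 (8 / δ), le_max_left _ _, fun s t hs hst hts => ?_⟩
  have hs3 : 3 ≤ s := (le_max_left _ _).trans hs
  have hs8 : 8 / δ ≤ s := (le_max_right _ _).trans hs
  rw [div_le_iff₀ hδ] at hs8
  have hs0 : 0 < s := by linarith
  have ht0 : 0 < t := by linarith
  have hls : 1 ≤ Real.log s := by
    have h1 : Real.exp 1 ≤ s := by
      have := Real.exp_one_lt_d9
      linarith
    have h2 := Real.log_le_log (Real.exp_pos 1) h1
    rwa [Real.log_exp] at h2
  have hlt : Real.log s ≤ Real.log t := Real.log_le_log hs0 hst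
  constructor
  · have h1 : (1 - δ) * t ^ 2 ≤ s ^ 2 := by
      rcases le_or_gt 1 δ with h2 | h2
      · have : (1 - δ) * t ^ 2 ≤ 0 := mul_nonpos_of_nonpos_of_nonneg (by linarith) (by positivity)
        nlinarith [sq_nonneg s]
      · have h3 : t ^ 2 ≤ (s + 2) ^ 2 := pow_le_pow_left₀ ht0.le hts 2
        have h4 : (1 - δ) * t ^ 2 ≤ (1 - δ) * (s + 2) ^ 2 := mul_le_mul_of_nonneg_left h3 (by linarith)
        have h5 : (1 - δ) * (s + 2) ^ 2 ≤ s ^ 2 := by
          have h6 : (s + 2) ^ 2 ≤ s ^ 2 + 8 * s := by nlinarith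
          have h7 : (1 - δ) * (s + 2) ^ 2 ≤ (1 - δ) * (s ^ 2 + 8 * s) := mul_le_mul_of_nonneg_left h6 (by linarith)
          have h8 : 8 * s ≤ δ * s ^ 2 := by nlinarith
          have h9 : 0 ≤ δ * s := by positivity
          nlinarith
        linarith
    rw [← mul_div_assoc, div_le_div_iff₀ (by positivity) (by positivity)]
    calc (1 - δ) * Real.log s * t ^ 2 = Real.log s * ((1 - δ) * t ^ 2) := by ring
      _ ≤ Real.log s * s ^ 2 := mul_le_mul_of_nonneg_left h1 (by linarith)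
      _ ≤ Real.log t * s ^ 2 := mul_le_mul_of_nonneg_right hlt (by positivity)
  · have h1 : Real.log t ≤ (1 + δ) * Real.log s := by
      have h2 : Real.log t ≤ Real.log (s + 2) := Real.log_le_log ht0 hts
      have h3 : Real.log (s + 2) = Real.log s + Real.log (1 + 2 / s) := by
        rw [← Real.log_mul hs0.ne' (by positivity)]
        congr 1
        field_simp
      have h4 : Real.log (1 + 2 / s) ≤ 2 / s := by
        have := Real.log_le_sub_one_of_pos (show 0 < 1 + 2 / s by positivity)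
        linarith
      have h5 : 2 / s ≤ δ * Real.log s := by
        rw [div_le_iff₀ hs0]
        nlinarith
      linarith
    rw [← mul_div_assoc]
    apply div_le_div₀ _ h1 (by positivity) _
    · have : 0 ≤ δ * Real.log s := by positivity
      linarith
    · exact pow_le_pow_left₀ hs0.le hst 2

end Pool.Agent.H561.E3
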