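import Pool.Agent.H561.E3.U1

set_option autoImplicit false

/-! The sum over the large primes `g`. -/

namespace Pool.Agent.H561.E3

open Finset
open Pool.Agent.H373R2.T7
open Pool.Agent.H561.E2 (LFo xg xg_nonneg xg_le' sum_S)

lemma big_inj (z r P : ℕ) (S : Finset ℕ) (hS : ∀ g ∈ S, g.Prime ∧ z < g ∧ g ≤ P) (F : ℕ → ℝ) (hF : ∀ d, 0 ≤ F d) :
    ∑ g ∈ S, ∑ j ∈ range (r + 1), ∑ T ∈ (pz z).powersetCard j, F (g * ∏ p ∈ T, p) ≤ ∑ d ∈ Icc 1 (P * (z + 1) ^ r), F d := by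
  classical
  set I := (range (r + 1)).sigma (fun j => (pz z).powersetCard j) with hI
  have hmem : ∀ x ∈ I, x.1 ≤ r ∧ x.2 ⊆ pz z ∧ x.2.card = x.1 := by
    intro x hx
    rw [hI, mem_sigma, mem_range, mem_powersetCard] at hx
    exact ⟨by omega, hx.2.1, hx.2.2⟩
  have hprime : ∀ x ∈ I, ∀ p ∈ x.2, p.Prime := fun x hx p hp => (mem_pz.1 ((hmem x hx).2.1 hp)).2
  have e1 : ∑ g ∈ S, ∑ j ∈ range (r + 1), ∑ T ∈ (pz z).powersetCard j, F (g * ∏ p ∈ T, p) =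
      ∑ y ∈ S ×ˢ I, F (y.1 * ∏ p ∈ y.2.2, p) := by
    rw [sum_product]
    apply sum_congr rfl
    intro g _
    rw [hI, sum_sigma']
  have hnot : ∀ g ∈ S, ∀ x ∈ I, g ∉ x.2 := by
    intro g hg x hx hgx
    have h1 := (mem_pz.1 ((hmem x hx).2.1 hgx)).1
    have h2 := (hS g hg).2.1
    omega
  have h1 : ∑ y ∈ S ×ˢ I, F (y.1 * ∏ p ∈ y.2.2, p) = ∑ d ∈ (S ×ˢ I).image (fun y => y.1 * ∏ p ∈ y.2.2, p), F d := by
    rw [sum_image]
    intro x hx' y hy' h'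
    have hx : x.1 ∈ S ∧ x.2 ∈ I := mem_product.1 (mem_coe.1 hx')
    have hy : y.1 ∈ S ∧ y.2 ∈ I := mem_product.1 (mem_coe.1 hy')
    have h : x.1 * ∏ p ∈ x.2.2, p = y.1 * ∏ p ∈ y.2.2, p := h'
    rw [← prod_insert (f := fun p : ℕ => p) (hnot _ hx.1 _ hx.2), ← prod_insert (f := fun p : ℕ => p) (hnot _ hy.1 _ hy.2)] at h
    have h2 : insert x.1 x.2.2 = insert y.1 y.2.2 := by
      apply prod_inj _ _ _ _ h
      · intro p hp
        rw [mem_insert] at hp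
        rcases hp with rfl | hp
        · exact (hS _ hx.1).1
        · exact hprime _ hx.2 p hp
      · intro p hp
        rw [mem_insert] at hp
        rcases hp with rfl | hp
        · exact (hS _ hy.1).1
        · exact hprime _ hy.2 p hp
    have h3 : x.1 = y.1 := by
      have h4 : x.1 ∈ insert y.1 y.2.2 := by rw [← h2]; exact mem_insert_self _ _
      rw [mem_insert] at h4
      rcases h4 with h5 | h5
      · exact h5
      · have h6 := (mem_pz.1 ((hmem _ hy.2).2.1 h5)).1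
        have h7 := (hS _ hx.1).2.1
        omega
    have h4 : x.2.2 = y.2.2 := by
      have h5 : (insert x.1 x.2.2).erase x.1 = (insert y.1 y.2.2).erase x.1 := by rw [h2]
      rw [erase_insert (hnot _ hx.1 _ hx.2), h3, erase_insert (hnot _ hy.1 _ hy.2)] at h5
      exact h5
    have h5 : x.2.1 = y.2.1 := by rw [← (hmem _ hx.2).2.2, ← (hmem _ hy.2).2.2, h4]
    exact Prod.ext h3 (Sigma.ext h5 (heq_of_eq h4))
  rw [e1, h1]
  apply sum_le_sum_of_subset_of_nonneg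
  · intro d hd
    rw [mem_image] at hd
    obtain ⟨x, hx, rfl⟩ := hd
    rw [mem_product] at hx
    rw [mem_Icc]
    refine ⟨Nat.mul_pos (hS _ hx.1).1.pos (Nat.pos_of_ne_zero (prod_ne_zero_iff.2 fun p hp => (hprime _ hx.2 p hp).ne_zero)), ?_⟩
    exact Nat.mul_le_mul (hS _ hx.1).2.2 (prod_le_pow _ z r (hmem _ hx.2).2.1 ((hmem _ hx.2).2.2.trans_le (hmem _ hx.2).1))
  · intro d _ _
    exact hF d

/-- the sifted sum with the condition modulo `g`, all `n` -/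
noncomputable def Wh (c h : ℤ) (N z g : ℕ) : ℝ := by
  classical exact ∑ n ∈ Icc 1 N, if (∀ p ∈ pz z, ¬ Q1 c h p n) ∧ Q1 c h g n then ArithmeticFunction.vonMangoldt n else 0

lemma Wh_Wg (c h : ℤ) (N z g : ℕ) : |Wh c h N z g - Wg c h N z g| ≤ z * ((Nat.log 2 N + 1 : ℝ) * Real.log N) := by
  classical
  have hlN : 0 ≤ (Nat.log 2 N + 1 : ℝ) * Real.log N := by
    have := Real.log_natCast_nonneg N
    positivity
  unfold Wh Wg
  rw [← sum_sub_distrib]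
  refine (abs_sum_le_sum_abs _ _).trans ?_
  have h7 : ∀ n ∈ Icc 1 N, |(if (∀ p ∈ pz z, ¬ Q1 c h p n) ∧ Q1 c h g n then ArithmeticFunction.vonMangoldt n else 0) -
      (if (∀ p ∈ pz z, ¬ p ∣ n ∧ ¬ Q1 c h p n) ∧ Q1 c h g n then ArithmeticFunction.vonMangoldt n else 0)| ≤
      ∑ p ∈ pz z, if p ∣ n then ArithmeticFunction.vonMangoldt n else 0 := by
    intro n _
    have h8 : (0 : ℝ) ≤ ArithmeticFunction.vonMangoldt n := ArithmeticFunction.vonMangoldt_nonneg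
    have h9 : 0 ≤ ∑ p ∈ pz z, if p ∣ n then ArithmeticFunction.vonMangoldt n else 0 :=
      sum_nonneg fun p _ => by split_ifs <;> simp [h8]
    by_cases h10 : ∀ p ∈ pz z, ¬ p ∣ n
    · by_cases h11 : (∀ p ∈ pz z, ¬ Q1 c h p n) ∧ Q1 c h g n
      · rw [if_pos h11, if_pos ⟨fun p hp => ⟨h10 p hp, h11.1 p hp⟩, h11.2⟩, sub_self, abs_zero]
        exact h9
      · rw [if_neg h11, if_neg (fun h12 => h11 ⟨fun p hp => (h12.1 p hp).2, h12.2⟩), sub_self, abs_zero]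
        exact h9
    · have h11 : ¬ ((∀ p ∈ pz z, ¬ p ∣ n ∧ ¬ Q1 c h p n) ∧ Q1 c h g n) := fun h12 => h10 fun p hp => (h12.1 p hp).1
      rw [if_neg h11, sub_zero]
      push Not at h10
      obtain ⟨p, hp, hpn⟩ := h10
      have h12 : |(if (∀ p ∈ pz z, ¬ Q1 c h p n) ∧ Q1 c h g n then ArithmeticFunction.vonMangoldt n else 0)| ≤
          ArithmeticFunction.vonMangoldt n := by
        split_ifs
        · rw [abs_of_nonneg h8]
        · rw [abs_zero]; exact h8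
      refine h12.trans ?_
      have h13 := single_le_sum (f := fun p => if p ∣ n then ArithmeticFunction.vonMangoldt n else (0 : ℝ))
        (s := pz z) (fun p _ => by split_ifs <;> simp [h8]) hp
      simp only [if_pos hpn] at h13
      exact h13
  refine (sum_le_sum h7).trans ?_
  rw [sum_comm]
  have h8 : ∀ p ∈ pz z, ∑ n ∈ Icc 1 N, (if p ∣ n then ArithmeticFunction.vonMangoldt n else 0) ≤
      (Nat.log 2 N + 1 : ℝ) * Real.log N := by
    intro p hp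
    rw [← sum_filter]
    exact lam_mult_prime N p (mem_pz.1 hp).2
  refine (sum_le_sum h8).trans ?_
  rw [sum_const, nsmul_eq_mul]
  apply mul_le_mul_of_nonneg_right _ hlN
  exact_mod_cast card_pz_le z

/-- the primes `g` which divide `h` -/
lemma Wh_bad (c h : ℤ) (N z g : ℕ) (hg : g.Prime) (hgc : ¬ (g : ℤ) ∣ c) (hgh : (g : ℤ) ∣ h) :
    |Wh c h N z g| ≤ (Nat.log 2 N + 1 : ℝ) * Real.log N := by
  classical
  unfold Wh
  have h8 : ∀ n : ℕ, (0 : ℝ) ≤ ArithmeticFunction.vonMangoldt n := fun n => ArithmeticFunction.vonMangoldt_nonneg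
  rw [abs_of_nonneg (sum_nonneg fun n _ => by split_ifs <;> simp [h8])]
  refine le_trans ?_ (lam_mult_prime N g hg)
  rw [sum_filter]
  apply sum_le_sum
  intro n _
  split_ifs with h1 h2 h2
  · exact le_rfl
  · exfalso
    apply h2
    have h3 : (g : ℤ) ∣ c * n := (Int.dvd_add_left hgh).1 h1.2
    have h4 := ((Nat.prime_iff_prime_int.1 hg).dvd_or_dvd h3).resolve_left hgc
    exact_mod_cast h4
  · exact h8 n
  · exact le_rfl

open Classical in
/-- the average over the large primes, all residue classes -/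
theorem big_sum (c : ℤ) (hc : c ≠ 0) (E U : ℕ) : ∃ N0 : ℕ, ∀ N : ℕ, N0 ≤ N → ∀ z P : ℕ, 1 ≤ z → (z : ℝ) ≤ Real.log N ^ E → P ^ 5 ≤ N →
    ∀ h : ℤ, ∀ S : Finset ℕ, (∀ g ∈ S, g.Prime ∧ z < g ∧ g ≤ P ∧ ¬ (g : ℤ) ∣ c) →
    |∑ g ∈ S, Wh c h N z g - N * (∏ p ∈ pz z, (1 - (rhoA (Q1 c h) p : ℝ) / (p - 1 : ℝ))) * ∑ g ∈ S, xg g h| ≤ N / Real.log N ^ U := by
  obtain ⟨c', hc'⟩ : ∃ c' : ℕ, c' = c.natAbs := ⟨_, rfl⟩
  have hc1 : 1 ≤ c' := by rw [hc']; exact Int.natAbs_pos.2 hc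
  obtain ⟨U2, hU2⟩ : ∃ U2 : ℕ, U2 = U + 4 := ⟨_, rfl⟩
  obtain ⟨N0, h0⟩ := choice (2 * c') E U2 16
  obtain ⟨C', hC'⟩ : ∃ C' : ℕ, C' = (3 * ((2 * c') * (1 + E)) + U2 + 1) * c' := ⟨_, rfl⟩
  obtain ⟨U1, hU1⟩ : ∃ U1 : ℕ, U1 = C' + c' + U + 2 := ⟨_, rfl⟩
  obtain ⟨B, X0, hBV⟩ := H343E.unsmoothed U1
  obtain ⟨C, N1, hC, hpnt⟩ := pnt_lam (U + 4)
  obtain ⟨J, hJ⟩ : ∃ J : ℕ, J = B + E + U + 10 := ⟨_, rfl⟩
  obtain ⟨n1, h1⟩ := ev_log' (8 * J) 1
  obtain ⟨n2, h2⟩ := ev_L' (C + 200 + c')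
  refine ⟨max (max (max N0 ⌈X0⌉₊) (max N1 n1)) (max n2 4), fun N hN z P hz hzE hP5 h S hS => ?_⟩
  have b1 := le_trans (le_trans (le_trans (le_max_left _ _) (le_max_left _ _)) (le_max_left _ _)) hN
  have b2 := le_trans (le_trans (le_trans (le_max_right _ _) (le_max_left _ _)) (le_max_left _ _)) hN
  have b3 := le_trans (le_trans (le_trans (le_max_left _ _) (le_max_right _ _)) (le_max_left _ _)) hN
  have b4 := le_trans (le_trans (le_trans (le_max_right _ _) (le_max_right _ _)) (le_max_left _ _)) hN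
  have b5 := le_trans (le_trans (le_max_left _ _) (le_max_right _ _)) hN
  have hN4 : 4 ≤ N := le_trans (le_trans (le_max_right _ _) (le_max_right _ _)) hN
  obtain ⟨r, hr1, hr2, hr3⟩ := h0 N b1 z hzE
  have hX0 : X0 ≤ (N : ℝ) := (Nat.le_ceil _).trans (by exact_mod_cast b2)
  have hPn := hpnt N b3
  have a1 := h1 N b4
  have hL := h2 N b5
  have hNr : (4 : ℝ) ≤ N := by exact_mod_cast hN4
  have hN0 : (0 : ℝ) < N := by linarith
  obtain ⟨L, hLd⟩ : ∃ L : ℝ, L = Real.log N := ⟨_, rfl⟩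
  rw [← hLd] at hr1 hr3 hPn a1 hL hzE ⊢
  have hc0r : (0 : ℝ) ≤ c' := Nat.cast_nonneg _
  have hL200 : 200 ≤ L := by linarith
  have hL0 : 0 < L := by linarith
  have hL1 : 1 ≤ L := by linarith
  have hcL : (c' : ℝ) ≤ L := by linarith
  have hCL : C + 200 ≤ L := by linarith
  rw [one_mul] at a1
  have hss : √(N : ℝ) * √(N : ℝ) = N := Real.mul_self_sqrt hN0.le
  have hs0 : 0 < √(N : ℝ) := Real.sqrt_pos.2 hN0
  obtain ⟨D, hD⟩ : ∃ D : ℕ, D = P * (z + 1) ^ r := ⟨_, rfl⟩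
  obtain ⟨K, hK⟩ : ∃ K : ℝ, K = L ^ J := ⟨_, rfl⟩
  have hK1 : 1 ≤ K := by rw [hK]; exact one_le_pow₀ hL1
  have hK16 : K ^ 16 ≤ N := by
    have e : L ^ (8 * J) = K ^ 8 := by rw [hK, ← pow_mul, mul_comm J 8]
    rw [e] at a1
    calc K ^ 16 = K ^ 8 * K ^ 8 := by ring
      _ ≤ √(N : ℝ) * √(N : ℝ) := mul_le_mul a1 a1 (by positivity) hs0.le
      _ = N := hss
  have hN1r : (1 : ℝ) ≤ N := by linarith
  have hP2 : (P : ℝ) ^ 2 ≤ √(N : ℝ) := by
    apply Real.le_sqrt_of_sq_le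
    have h5 : P ^ 4 ≤ P ^ 5 := by
      rcases Nat.eq_zero_or_pos P with h6 | h6
      · rw [h6]; norm_num
      · exact Nat.pow_le_pow_right h6 (by norm_num)
    have h6 : (P : ℝ) ^ 4 ≤ N := by exact_mod_cast h5.trans hP5
    calc ((P : ℝ) ^ 2) ^ 2 = (P : ℝ) ^ 4 := by ring
      _ ≤ (N : ℝ) := h6
  obtain ⟨R, hR⟩ : ∃ R : ℝ, R = ((z : ℝ) + 1) ^ r := ⟨_, rfl⟩
  have hR1 : 1 ≤ R := by
    rw [hR]
    apply one_le_pow₀
    have : (0 : ℝ) ≤ z := Nat.cast_nonneg _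
    linarith
  have hDr : (D : ℝ) = P * R := by rw [hD, hR]; push_cast; ring
  have hR16 : R ^ 16 ≤ N := by rw [hR]; exact hr2
  have hR4 : R ^ 4 ≤ √(N : ℝ) := by
    apply Real.le_sqrt_of_sq_le
    calc (R ^ 4) ^ 2 = R ^ 8 := by ring
      _ ≤ R ^ 16 := pow_le_pow_right₀ hR1 (by norm_num)
      _ ≤ N := hR16
  have hK2 : K ^ 2 ≤ √(N : ℝ) := by
    apply Real.le_sqrt_of_sq_le
    calc (K ^ 2) ^ 2 = K ^ 4 := by ring
      _ ≤ K ^ 16 := pow_le_pow_right₀ hK1 (by norm_num)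
      _ ≤ N := hK16
  have hRK : R ^ 2 * K ≤ √(N : ℝ) := by
    apply Real.le_sqrt_of_sq_le
    calc (R ^ 2 * K) ^ 2 = R ^ 4 * K ^ 2 := by ring
      _ ≤ √(N : ℝ) * √(N : ℝ) := mul_le_mul hR4 hK2 (by positivity) hs0.le
      _ = N := hss
  have hD2K : (D : ℝ) ^ 2 * K ≤ N := by
    calc (D : ℝ) ^ 2 * K = (P : ℝ) ^ 2 * (R ^ 2 * K) := by rw [hDr]; ring
      _ ≤ √(N : ℝ) * √(N : ℝ) := mul_le_mul hP2 hRK (by positivity) hs0.le
      _ = N := hss
  have hD0 : (0 : ℝ) ≤ D := Nat.cast_nonneg _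
  have hDK : (D : ℝ) * K ≤ N := by
    rcases Nat.eq_zero_or_pos D with h5 | h5
    · rw [h5, Nat.cast_zero, zero_mul]
      exact hN0.le
    · have h6 : (1 : ℝ) ≤ D := by exact_mod_cast h5
      refine le_trans ?_ hD2K
      apply mul_le_mul_of_nonneg_right _ (by linarith)
      nlinarith
  have hLK : ∀ j, j ≤ J → L ^ j ≤ K := fun j hj => by rw [hK]; exact pow_le_pow_right₀ hL1 hj
  obtain ⟨A, hA⟩ : ∃ A : ℝ, A = L ^ (C' + c') := ⟨_, rfl⟩
  have hA1 : 1 ≤ A := by rw [hA]; exact one_le_pow₀ hL1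
  have hkA : (c' : ℝ) ^ (r + 1) ≤ A := by
    have h5 := hr3 c'
    rw [← hC'] at h5
    rw [pow_succ, hA, pow_add]
    apply mul_le_mul h5 _ hc0r (by positivity)
    exact hcL.trans (le_self_pow₀ hL1 (by omega))
  have hQ : PerA (Q1 c h) c' := by rw [hc']; exact perA c h hc
  have hbv := hBV N hX0 A hA1 D (by
      rw [← hLd, le_div_iff₀ (by positivity)]
      exact (mul_le_mul_of_nonneg_left (hLK B (by omega)) hD0).trans hDK) (by
      rw [← hLd, le_div_iff₀ (by positivity)]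
      calc (D : ℝ) ^ 2 * L ^ B ≤ (D : ℝ) ^ 2 * K := mul_le_mul_of_nonneg_left (hLK B (by omega)) (by positivity)
        _ ≤ N := hD2K
        _ ≤ A * N := le_mul_of_one_le_left hN0.le hA1) (LSA (Q1 c h) P (r + 1)) (LSA_fam (Q1 c h) hQ hc1 P (r + 1) A hkA)
  rw [← hLd] at hbv
  have hEf : ∑ d ∈ Icc 1 D, EfA (Q1 c h) N P (r + 1) d ≤ A * N / L ^ U1 := by
    refine le_trans (le_of_eq ?_) hbv
    apply sum_congr rfl
    intro d _
    unfold EfA
    apply sum_congr rfl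
    intro b _
    rw [lamAP_eq, lam1_eq']
  obtain ⟨c0, hc0⟩ : ∃ c0 : ℝ, c0 = z * ((Nat.log 2 N + 1 : ℝ) * L) := ⟨_, rfl⟩
  have hlog2 : (Nat.log 2 N : ℝ) ≤ 2 * L := by rw [hLd]; exact natlog_le N (by omega)
  have hll : (Nat.log 2 N + 1 : ℝ) * L ≤ L ^ 3 := by
    calc (Nat.log 2 N + 1 : ℝ) * L ≤ (2 * L + 1) * L := by gcongr
      _ ≤ (L * L) * L := by
          apply mul_le_mul_of_nonneg_right _ hL0.le
          nlinarith
      _ = L ^ 3 := by ring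
  have hll0 : 0 ≤ (Nat.log 2 N + 1 : ℝ) * L := by
    positivity
  have hc0' : c0 ≤ L ^ (E + 3) := by
    rw [hc0, pow_add]
    exact mul_le_mul hzE hll hll0 (by positivity)
  have hc00 : 0 ≤ c0 := by rw [hc0]; positivity
  have hllc0 : (Nat.log 2 N + 1 : ℝ) * L ≤ c0 := by
    rw [hc0]
    exact le_mul_of_one_le_left hll0 (by exact_mod_cast hz)
  obtain ⟨VV, hVV⟩ : ∃ VV, VV = ∏ p ∈ pz z, (1 - (rhoA (Q1 c h) p : ℝ) / (p - 1 : ℝ)) := ⟨_, rfl⟩
  have hVV01 : 0 ≤ VV ∧ VV ≤ 1 := by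
    have hh : ∀ p ∈ pz z, 0 ≤ 1 - (rhoA (Q1 c h) p : ℝ) / (p - 1 : ℝ) ∧ 1 - (rhoA (Q1 c h) p : ℝ) / (p - 1 : ℝ) ≤ 1 := by
      intro p hp
      have hp2 : (2 : ℝ) ≤ p := by exact_mod_cast (mem_pz.1 hp).2.two_le
      have h5 := rhoA_le (Q1 c h) p
      have h6 : (rhoA (Q1 c h) p : ℝ) ≤ ((p - 1 : ℕ) : ℝ) := by exact_mod_cast h5
      rw [Nat.cast_sub (mem_pz.1 hp).2.one_le] at h6
      push_cast at h6
      have h7 : (rhoA (Q1 c h) p : ℝ) / (p - 1 : ℝ) ≤ 1 := by rw [div_le_one (by linarith)]; exact h6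
      have h8 : 0 ≤ (rhoA (Q1 c h) p : ℝ) / (p - 1 : ℝ) := div_nonneg (Nat.cast_nonneg _) (by linarith)
      constructor <;> linarith
    rw [hVV]
    exact ⟨prod_nonneg fun p hp => (hh p hp).1, prod_le_one (fun p hp => (hh p hp).1) (fun p hp => (hh p hp).2)⟩
  rw [← hVV]
  have hψ := lam1_le N
  have hψ0 : 0 ≤ lam1 N := sum_nonneg fun _ _ => ArithmeticFunction.vonMangoldt_nonneg
  -- the size of `S`
  have hScard : (S.card : ℝ) ≤ P := by
    have h5 : S ⊆ Icc 1 P := fun g hg => mem_Icc.2 ⟨(hS g hg).1.one_le, (hS g hg).2.2.1⟩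
    have h6 := card_le_card h5
    rw [Nat.card_Icc, Nat.add_sub_cancel] at h6
    exact_mod_cast h6
  have hσ1 : ∑ g ∈ S, 1 / ((g : ℝ) - 1) ≤ 3 * L := by
    have h5 := sum_S S P (fun p hp => ⟨(hS p hp).1.two_le, (hS p hp).2.2.1⟩)
    have h6 : Real.log ((P + 1 : ℕ) : ℝ) ≤ L := by
      rw [hLd]
      apply Real.log_le_log (by positivity)
      have h7 : P + 1 ≤ N := by
        rcases Nat.lt_or_ge P 2 with h8 | h8
        · omega
        · have h9 : P + 1 ≤ P ^ 5 := by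
            calc P + 1 ≤ P * 2 := by omega
              _ ≤ P * P ^ 4 := Nat.mul_le_mul_left _ (by
                  calc 2 ≤ 2 ^ 4 := by norm_num
                    _ ≤ P ^ 4 := Nat.pow_le_pow_left h8 4)
              _ = P ^ 5 := by ring
          omega
      exact_mod_cast h7
    linarith
  have hσ10 : ∀ g ∈ S, 0 ≤ 1 / ((g : ℝ) - 1) := by
    intro g hg
    have h5 : (2 : ℝ) ≤ g := by exact_mod_cast (hS g hg).1.two_le
    exact div_nonneg zero_le_one (by linarith)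
  have hσ' : ∑ g ∈ S, xg g h ≤ 3 * L :=
    (sum_le_sum fun g hg => xg_le' g h (hS g hg).1.two_le).trans hσ1
  have hσ'0 : 0 ≤ ∑ g ∈ S, xg g h := sum_nonneg fun g hg => xg_nonneg g h (hS g hg).1.one_le
  have hP0 : (0 : ℝ) ≤ P := Nat.cast_nonneg _
  -- one prime
  obtain ⟨EE, hEE⟩ : ∃ EE : ℕ → ℝ, ∀ g, EE g = ∑ j ∈ range (r + 1), ∑ T ∈ (pz z).powersetCard j, EfA (Q1 c h) N P (r + 1) (g * ∏ p ∈ T, p) :=
    ⟨_, fun _ => rfl⟩
  have hEE0 : ∀ g, 0 ≤ EE g := fun g => by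
    rw [hEE]
    exact sum_nonneg fun _ _ => sum_nonneg fun _ _ => EfA_nonneg _ _ _ _ _
  have hone : ∀ g ∈ S, |Wh c h N z g - lam1 N * VV * xg g h| ≤
      (c0 + ((z : ℝ) + 1) ^ r * c0) + EE g + 2 * lam1 N * (1 / L ^ U2) * (1 / ((g : ℝ) - 1)) := by
    intro g hg
    obtain ⟨g1, g2, g3, g4⟩ := hS g hg
    have hx0 := hσ10 g hg
    have hlast : 0 ≤ 2 * lam1 N * (1 / L ^ U2) * (1 / ((g : ℝ) - 1)) := by positivity
    have hzr : 0 ≤ ((z : ℝ) + 1) ^ r * c0 := by positivity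
    by_cases hgh : (g : ℤ) ∣ h
    · have h5 := Wh_bad c h N z g g1 g4 hgh
      rw [← hLd] at h5
      unfold xg
      rw [if_pos hgh, mul_zero, sub_zero]
      have := hEE0 g
      linarith
    · have h5 := sieve_g c h hc N z r P g g1 g2 g3 g4 hgh
      have h6 := Wh_Wg c h N z g
      rw [← hVV, ← hEE g, ← hLd, ← hc0, ← hc'] at h5
      rw [← hLd, ← hc0] at h6
      have h7 : lam1 N * VV * xg g h = lam1 N / ((g : ℝ) - 1) * VV := by
        unfold xg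
        rw [if_neg hgh]
        ring
      have h8 : Wh c h N z g - lam1 N * VV * xg g h = (Wh c h N z g - Wg c h N z g) + (Wg c h N z g - lam1 N / ((g : ℝ) - 1) * VV) := by
        rw [h7]
        ring
      rw [h8]
      refine (abs_add_le _ _).trans ?_
      have h9 : 2 * (lam1 N / ((g : ℝ) - 1)) * Real.exp (3 * ((2 * c' : ℕ) * (1 + Real.log z)) - r) ≤
          2 * lam1 N * (1 / L ^ U2) * (1 / ((g : ℝ) - 1)) := by
        have h10 : 2 * (lam1 N / ((g : ℝ) - 1)) = 2 * lam1 N * (1 / ((g : ℝ) - 1)) := by ring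
        rw [h10]
        calc 2 * lam1 N * (1 / ((g : ℝ) - 1)) * Real.exp (3 * ((2 * c' : ℕ) * (1 + Real.log z)) - r)
            ≤ 2 * lam1 N * (1 / ((g : ℝ) - 1)) * (1 / L ^ U2) := by
              apply mul_le_mul_of_nonneg_left hr1 (by positivity)
          _ = _ := by ring
      linarith
  have hsum : |∑ g ∈ S, Wh c h N z g - lam1 N * VV * ∑ g ∈ S, xg g h| ≤
      P * (c0 + ((z : ℝ) + 1) ^ r * c0) + A * N / L ^ U1 + 2 * lam1 N * (1 / L ^ U2) * (3 * L) := by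
    rw [mul_sum, ← sum_sub_distrib]
    refine (abs_sum_le_sum_abs _ _).trans ((sum_le_sum hone).trans ?_)
    rw [sum_add_distrib, sum_add_distrib, ← mul_sum, sum_const, nsmul_eq_mul]
    have h5 : ∑ g ∈ S, EE g ≤ A * N / L ^ U1 := by
      refine le_trans ?_ hEf
      have h6 := big_inj z r P S (fun g hg => ⟨(hS g hg).1, (hS g hg).2.1, (hS g hg).2.2.1⟩) (fun d => EfA (Q1 c h) N P (r + 1) d)
        (fun d => EfA_nonneg _ _ _ _ _)
      rw [← hD] at h6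
      refine le_trans (le_of_eq ?_) h6
      apply sum_congr rfl
      intro g _
      rw [hEE]
    apply add_le_add (add_le_add _ h5)
    · apply mul_le_mul_of_nonneg_left hσ1 (by positivity)
    · exact mul_le_mul_of_nonneg_right hScard (by positivity)
  -- sizes
  obtain ⟨T, hT⟩ : ∃ T : ℝ, T = N / L ^ (U + 4) := ⟨_, rfl⟩
  have hT0 : 0 < T := by rw [hT]; positivity
  have hLU : 0 < L ^ (U + 4) := by positivity
  have g1 : P * (c0 + ((z : ℝ) + 1) ^ r * c0) ≤ 2 * T := by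
    rw [← hR]
    have h6 : P * (c0 + R * c0) ≤ 2 * (D * c0) := by
      rw [hDr]
      have h7 : c0 ≤ R * c0 := le_mul_of_one_le_left hc00 hR1
      have h8 : (P : ℝ) * c0 ≤ P * (R * c0) := mul_le_mul_of_nonneg_left h7 hP0
      calc P * (c0 + R * c0) = P * c0 + P * (R * c0) := by ring
        _ ≤ P * (R * c0) + P * (R * c0) := by linarith
        _ = 2 * (P * R * c0) := by ring
    have h9 : (D : ℝ) * c0 ≤ T := by
      rw [hT, le_div_iff₀ hLU]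
      calc (D : ℝ) * c0 * L ^ (U + 4) ≤ D * L ^ (E + 3) * L ^ (U + 4) := by gcongr
        _ = D * L ^ (E + 3 + (U + 4)) := by rw [mul_assoc, ← pow_add]
        _ ≤ D * K := mul_le_mul_of_nonneg_left (hLK _ (by omega)) hD0
        _ ≤ N := hDK
    linarith
  have g3 : A * N / L ^ U1 = T * L ^ 2 := by
    rw [hT, hA, hU1, show C' + c' + U + 2 = (C' + c') + (U + 2) by ring, pow_add L (C' + c'), pow_add L U 2, pow_add L U 4]
    field_simp
  have g4 : 2 * lam1 N * (1 / L ^ U2) * (3 * L) ≤ 36 * (T * L) := by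
    rw [hT, hU2]
    calc 2 * lam1 N * (1 / L ^ (U + 4)) * (3 * L) ≤ 2 * (6 * N) * (1 / L ^ (U + 4)) * (3 * L) := by gcongr
      _ = _ := by ring
  have g5 : (2 : ℝ) ≤ T := by
    rw [hT, le_div_iff₀ hLU]
    have h5 : L ^ (U + 5) ≤ K := hLK _ (by omega)
    have h6 : K ≤ N := by
      calc K ≤ K ^ 16 := le_self_pow₀ hK1 (by norm_num)
        _ ≤ N := hK16
    calc 2 * L ^ (U + 4) ≤ L * L ^ (U + 4) := by gcongr; linarith
      _ = L ^ (U + 5) := by ring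
      _ ≤ N := h5.trans h6
  have g6 : |lam1 N * VV * ∑ g ∈ S, xg g h - N * VV * ∑ g ∈ S, xg g h| ≤ (C + 1) * (3 * (T * L)) := by
    have h5 : lam1 N * VV * ∑ g ∈ S, xg g h - N * VV * ∑ g ∈ S, xg g h = (lam1 N - N) * (VV * ∑ g ∈ S, xg g h) := by ring
    rw [h5, abs_mul, abs_of_nonneg (mul_nonneg hVV01.1 hσ'0)]
    have h6 : VV * ∑ g ∈ S, xg g h ≤ 3 * L := by
      calc VV * ∑ g ∈ S, xg g h ≤ 1 * (3 * L) := mul_le_mul hVV01.2 hσ' hσ'0 zero_le_one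
        _ = _ := one_mul _
    have h7 : |lam1 N - N| ≤ (C + 1) * T := by
      refine hPn.trans ?_
      rw [← hT]
      linarith
    calc |lam1 N - N| * (VV * ∑ g ∈ S, xg g h) ≤ ((C + 1) * T) * (3 * L) :=
          mul_le_mul h7 h6 (mul_nonneg hVV01.1 hσ'0) (by positivity)
      _ = _ := by ring
  have hfin : |∑ g ∈ S, Wh c h N z g - N * VV * ∑ g ∈ S, xg g h| ≤ 2 * T + T * L ^ 2 + 36 * (T * L) + (C + 1) * (3 * (T * L)) := by
    have h5 := abs_add_le (∑ g ∈ S, Wh c h N z g - lam1 N * VV * ∑ g ∈ S, xg g h) (lam1 N * VV * ∑ g ∈ S, xg g h - N * VV * ∑ g ∈ S, xg g h)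
    rw [sub_add_sub_cancel] at h5
    linarith
  refine hfin.trans ?_
  have h5 : 2 * T + T * L ^ 2 + 36 * (T * L) + (C + 1) * (3 * (T * L)) = T * (2 + L ^ 2 + 36 * L + 3 * (C + 1) * L) := by ring
  rw [h5]
  have h6 : 2 + L ^ 2 + 36 * L + 3 * (C + 1) * L ≤ L ^ 4 := by
    have h7 : 3 * (C + 1) * L ≤ 3 * L * L := by nlinarith
    have h8 : 36 * L ≤ L * L := by nlinarith
    have h9 : 2 + L ^ 2 + 36 * L + 3 * (C + 1) * L ≤ 6 * L ^ 2 := by nlinarith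
    have h10 : 6 * L ^ 2 ≤ L ^ 2 * L ^ 2 := by
      have : 6 ≤ L ^ 2 := by nlinarith
      nlinarith
    calc _ ≤ 6 * L ^ 2 := h9
      _ ≤ L ^ 2 * L ^ 2 := h10
      _ = L ^ 4 := by ring
  calc T * (2 + L ^ 2 + 36 * L + 3 * (C + 1) * L) ≤ T * L ^ 4 := mul_le_mul_of_nonneg_left h6 hT0.le
    _ = N / L ^ U := by
        rw [hT, pow_add L U 4]
        field_simp

end Pool.Agent.H561.E3
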