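import Pool.Agent.H561.E3.U3

set_option autoImplicit false

/-! The error terms for one linear form. -/

namespace Pool.Agent.H561.E3

open Finset Filter Topology
open Pool.Agent.helper24_UT hiding om
open Pool.Agent.H373R2.T7 (pz mem_pz rhoA PerA rhoA_le sys_main Vz Vz_pos Vz_inv_small lam1 lam1_le)
open Pool.Agent.H561.E2

lemma rho_one (c h : Fin 1 → ℤ) (p : ℕ) : rho c h p = rhoA (Q1 (c 0) (h 0)) p := by
  classical
  unfold rho rhoA
  congr 1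
  apply filter_congr
  intro r _
  have : (∃ i : Fin 1, (p : ℤ) ∣ LFo c h i r) ↔ Q1 (c 0) (h 0) p r := by
    rw [Fin.exists_fin_one]
    unfold LFo Q1
    exact Iff.rfl
  rw [this]

lemma sum_Wh (c h : Fin 1 → ℤ) (S : Fin 1 → Finset ℕ) (z N : ℕ) :
    ∑ n ∈ Icc 1 N, ArithmeticFunction.vonMangoldt n * (rough c h z n * ∏ i, om c h S i n) = ∑ g ∈ S 0, Wh (c 0) (h 0) N z g := by
  classical
  unfold Wh
  rw [sum_comm]
  apply sum_congr rfl
  intro n _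
  rw [Fin.prod_univ_one]
  unfold om
  rw [mul_sum, mul_sum]
  apply sum_congr rfl
  intro g _
  unfold rough
  have h1 : (∀ p ∈ pz z, ∀ i : Fin 1, ¬ (p : ℤ) ∣ LFo c h i n) ↔ ∀ p ∈ pz z, ¬ Q1 (c 0) (h 0) p n := by
    apply forall_congr'
    intro p
    apply imp_congr_right
    intro _
    rw [Fin.forall_fin_one]
    exact Iff.rfl
  have h2 : ((g : ℤ) ∣ LFo c h 0 n) ↔ Q1 (c 0) (h 0) g n := Iff.rfl
  by_cases h3 : ∀ p ∈ pz z, ¬ Q1 (c 0) (h 0) p n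
  · rw [if_pos (h1.2 h3)]
    by_cases h4 : Q1 (c 0) (h 0) g n
    · rw [if_pos (h2.2 h4), if_pos (show (∀ p ∈ pz z, ¬ Q1 (c 0) (h 0) p n) ∧ Q1 (c 0) (h 0) g n from ⟨h3, h4⟩), mul_one, mul_one]
    · rw [if_neg (show ¬ ((g : ℤ) ∣ LFo c h 0 n) from fun h5 => h4 (h2.1 h5)),
        if_neg (show ¬ ((∀ p ∈ pz z, ¬ Q1 (c 0) (h 0) p n) ∧ Q1 (c 0) (h 0) g n) from fun h5 => h4 h5.2), mul_zero, mul_zero]
  · rw [if_neg (show ¬ (∀ p ∈ pz z, ∀ i : Fin 1, ¬ (p : ℤ) ∣ LFo c h i n) from fun h5 => h3 (h1.1 h5)), zero_mul, mul_zero,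
      if_neg (show ¬ ((∀ p ∈ pz z, ¬ Q1 (c 0) (h 0) p n) ∧ Q1 (c 0) (h 0) g n) from fun h5 => h3 h5.1)]

/-- all the primes are at most `X^(1/10)` -/
def R10 {k : ℕ} (X : ℕ) (S : Fin k → Finset ℕ) : Prop := ∃ P : ℕ, P ^ 10 ≤ X ∧ ∀ i, ∀ p ∈ S i, p ≤ P

theorem err_big (c : Fin 1 → ℤ) (hc : ∀ i, c i ≠ 0) (U : ℕ) : ErrB c R10 U := by
  classical
  refine ⟨1, fun a ha => ?_⟩
  obtain ⟨N0, hbig⟩ := big_sum (c 0) (hc 0) (a + 1) (U + 1)
  obtain ⟨Cc, hCc⟩ : ∃ Cc : ℝ, Cc = 1000 + 2 * 2 ^ a + 2 ^ (U + 1) + ((c 0).natAbs : ℝ) := ⟨_, rfl⟩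
  obtain ⟨X₁, hX₁⟩ := Filter.eventually_atTop.1 ((Sil2.ev_log Cc).and (Sil2.ev_pow (U + 1) (1 / 10) 12 (by norm_num)))
  refine ⟨max X₁ (N0 ^ 2 + 3), fun X hX z hz hza S hS hR h hh hD => ?_⟩
  obtain ⟨hL, c1⟩ := hX₁ X ((le_max_left _ _).trans hX)
  have hX0 : N0 ^ 2 + 3 ≤ X := (le_max_right _ _).trans hX
  obtain ⟨L, hLd⟩ : ∃ L, L = Real.log (X : ℝ) := ⟨_, rfl⟩
  rw [← hLd] at hL c1 hza hS ⊢
  have ha2 : (0 : ℝ) < 2 ^ a := by positivity
  have hU2 : (0 : ℝ) < 2 ^ (U + 1) := by positivity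
  have hcn : (0 : ℝ) ≤ ((c 0).natAbs : ℝ) := Nat.cast_nonneg _
  have hL1000 : 1000 ≤ L := by rw [hCc] at hL; linarith
  have hLa2 : 2 * 2 ^ a ≤ L := by rw [hCc] at hL; linarith
  have hLU2 : 2 ^ (U + 1) ≤ L := by rw [hCc] at hL; linarith
  have hLc : ((c 0).natAbs : ℝ) ≤ L := by rw [hCc] at hL; linarith
  have hL1 : 1 ≤ L := by linarith
  have hL0 : 0 < L := by linarith
  have hXR : (3 : ℝ) ≤ X := by exact_mod_cast (by omega : 3 ≤ X)
  have hX0' : (0 : ℝ) < X := lt_of_lt_of_le (by norm_num) hXR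
  obtain ⟨V, hV⟩ : ∃ V : ℝ, V = (X : ℝ) ^ (1 / 10 : ℝ) := ⟨_, rfl⟩
  rw [← hV] at c1
  have hV0 : 0 < V := by rw [hV]; positivity
  have hV10 : V ^ 10 = X := by
    rw [hV, ← Real.rpow_natCast ((X : ℝ) ^ (1 / 10 : ℝ)) 10, ← Real.rpow_mul hX0'.le]
    norm_num
  have hLU1 : 1 ≤ L ^ (U + 1) := one_le_pow₀ hL1
  have hV12 : 12 ≤ V := by linarith
  have hV1 : 1 ≤ V := by linarith
  obtain ⟨P, hP10, hSP⟩ := hR
  have hPV : (P : ℝ) ≤ V := by
    have h1 : (P : ℝ) ^ 10 ≤ V ^ 10 := by rw [hV10]; exact_mod_cast hP10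
    exact le_of_pow_le_pow_left₀ (by norm_num) hV0.le h1
  have hSc : ∀ i, ((S i).card : ℝ) ≤ V := fun i => card_S (S i) V hV0.le (fun p hp => ⟨(hS i p hp).1.one_le, by
    have : (p : ℝ) ≤ P := by exact_mod_cast hSP i p hp
    linarith⟩)
  have hσ : ∀ i, ∑ p ∈ S i, xg p (h i) ≤ 6 * L := by
    intro i
    have h5 := sum_S (S i) P (fun p hp => ⟨(hS i p hp).1.two_le, hSP i p hp⟩)
    have h6 : Real.log ((P + 1 : ℕ) : ℝ) ≤ L := by
      rw [hLd]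
      apply Real.log_le_log (by positivity)
      push_cast
      have h8 : V ≤ V ^ 10 / 2 := by
        have h9 : V * 2 ≤ V ^ 2 := by nlinarith
        have h10 : V ^ 2 ≤ V ^ 10 := pow_le_pow_right₀ hV1 (by norm_num)
        linarith
      linarith
    have h7 : ∑ p ∈ S i, xg p (h i) ≤ ∑ p ∈ S i, 1 / ((p : ℝ) - 1) :=
      sum_le_sum fun p hp => xg_le' p (h i) (hS i p hp).1.two_le
    linarith
  refine ⟨hσ, fun N hN => ?_⟩
  have hNX : (N : ℝ) ≤ X := by exact_mod_cast hN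
  have hN0r : (0 : ℝ) ≤ N := Nat.cast_nonneg _
  have hσ0 : 0 ≤ ∏ i, ∑ p ∈ S i, xg p (h i) := prod_nonneg fun i _ => sum_nonneg fun p hp => xg_nonneg _ _ (hS i p hp).1.one_le
  have hσ6 : ∏ i, ∑ p ∈ S i, xg p (h i) ≤ 6 * L := by rw [Fin.prod_univ_one]; exact hσ 0
  obtain ⟨VV, hVV⟩ : ∃ VV, VV = ∏ p ∈ pz z, (1 - (rho c h p : ℝ) / (p - 1 : ℝ)) := ⟨_, rfl⟩
  have hVV01 : 0 ≤ VV ∧ VV ≤ 1 := by
    rw [hVV]
    exact ⟨prod_nonneg fun p hp => (fac_mem c h p (mem_pz.1 hp).2).1,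
      prod_le_one (fun p hp => (fac_mem c h p (mem_pz.1 hp).2).1) (fun p hp => (fac_mem c h p (mem_pz.1 hp).2).2)⟩
  have hLU0 : 0 < L ^ U := by positivity
  rcases lt_or_ge ((N : ℝ)) (V ^ 5) with hsm | hlg
  · rw [← hVV]
    have t1 : |∑ n ∈ Icc 1 N, ArithmeticFunction.vonMangoldt n * (rough c h z n * ∏ i, om c h S i n)| ≤ 6 * N * V := by
      refine (abs_sum_le_sum_abs _ _).trans ?_
      have h1 : ∀ n ∈ Icc 1 N, |ArithmeticFunction.vonMangoldt n * (rough c h z n * ∏ i, om c h S i n)| ≤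
          ArithmeticFunction.vonMangoldt n * V := by
        intro n _
        rw [Fin.prod_univ_one, abs_mul, abs_of_nonneg ArithmeticFunction.vonMangoldt_nonneg,
          abs_of_nonneg (mul_nonneg (rough_nonneg c h z n) (om_nonneg c h S 0 n))]
        apply mul_le_mul_of_nonneg_left _ ArithmeticFunction.vonMangoldt_nonneg
        have h2 : om c h S 0 n ≤ V := by
          rw [om_card]
          have h3 : (((S 0).filter (fun p : ℕ => (p : ℤ) ∣ LFo c h 0 n)).card : ℝ) ≤ ((S 0).card : ℝ) := by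
            exact_mod_cast card_filter_le _ _
          exact h3.trans (hSc 0)
        calc rough c h z n * om c h S 0 n ≤ 1 * V := mul_le_mul (rough_le c h z n) h2 (om_nonneg c h S 0 n) zero_le_one
          _ = V := one_mul _
      refine (sum_le_sum h1).trans ?_
      rw [← sum_mul]
      have h2 := lam1_le N
      unfold lam1 at h2
      exact mul_le_mul_of_nonneg_right h2 hV0.le
    have t2 : |(N : ℝ) * VV * ∏ i, ∑ p ∈ S i, xg p (h i)| ≤ N * (6 * L) := by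
      rw [abs_of_nonneg (mul_nonneg (mul_nonneg hN0r hVV01.1) hσ0)]
      calc (N : ℝ) * VV * ∏ i, ∑ p ∈ S i, xg p (h i) ≤ N * 1 * (6 * L) :=
            mul_le_mul (mul_le_mul_of_nonneg_left hVV01.2 hN0r) hσ6 hσ0 (by positivity)
        _ = _ := by ring
    refine (abs_sub _ _).trans ((add_le_add t1 t2).trans ?_)
    rw [le_div_iff₀ hLU0]
    have hVL : L ^ (U + 1) ≤ V := by linarith
    have h1 : (6 * (N : ℝ) * V + N * (6 * L)) * L ^ U ≤ 12 * (V ^ 5 * V) * V := by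
      have h2 : 6 * (N : ℝ) * V + N * (6 * L) ≤ 12 * (V ^ 5 * V) * L := by
        have h3 : (N : ℝ) * V ≤ V ^ 5 * V := mul_le_mul_of_nonneg_right hsm.le hV0.le
        have h4 : (N : ℝ) * L ≤ V ^ 5 * V * L := by
          apply mul_le_mul_of_nonneg_right _ hL0.le
          nlinarith
        have h5 : V ^ 5 * V ≤ V ^ 5 * V * L := le_mul_of_one_le_right (by positivity) hL1
        linarith
      calc (6 * (N : ℝ) * V + N * (6 * L)) * L ^ U ≤ 12 * (V ^ 5 * V) * L * L ^ U := mul_le_mul_of_nonneg_right h2 hLU0.le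
        _ = 12 * (V ^ 5 * V) * L ^ (U + 1) := by ring
        _ ≤ _ := mul_le_mul_of_nonneg_left hVL (by positivity)
    refine h1.trans ?_
    calc 12 * (V ^ 5 * V) * V = 12 * V ^ 7 := by ring
      _ ≤ V * V ^ 7 := mul_le_mul_of_nonneg_right hV12 (by positivity)
      _ = V ^ 8 := by ring
      _ ≤ V ^ 10 := pow_le_pow_right₀ hV1 (by norm_num)
      _ = X := hV10
  · -- large N
    have hNN : N0 ≤ N := by
      have h1 : ((N0 : ℝ)) ^ 2 ≤ (N : ℝ) ^ 2 := by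
        have h2 : ((N0 : ℝ)) ^ 2 ≤ X := by exact_mod_cast (by omega : N0 ^ 2 ≤ X)
        calc ((N0 : ℝ)) ^ 2 ≤ X := h2
          _ = (V ^ 5) ^ 2 := by rw [← hV10]; ring
          _ ≤ (N : ℝ) ^ 2 := pow_le_pow_left₀ (by positivity) hlg 2
      have h3 : (N0 : ℝ) ≤ N := le_of_pow_le_pow_left₀ (by norm_num) hN0r h1
      exact_mod_cast h3
    have hN1 : (1 : ℝ) ≤ N := (one_le_pow₀ hV1).trans hlg
    obtain ⟨M, hM⟩ : ∃ M, M = Real.log (N : ℝ) := ⟨_, rfl⟩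
    have hML : L ≤ 2 * M := by
      have h1 : (X : ℝ) ≤ (N : ℝ) ^ 2 := by
        calc (X : ℝ) = (V ^ 5) ^ 2 := by rw [← hV10]; ring
          _ ≤ (N : ℝ) ^ 2 := pow_le_pow_left₀ (by positivity) hlg 2
      have h2 := Real.log_le_log hX0' h1
      rw [Real.log_pow] at h2
      rw [hLd, hM]
      exact_mod_cast h2
    have hM0 : 0 < M := by linarith
    have hzM : (z : ℝ) ≤ M ^ (a + 1) := by
      calc (z : ℝ) ≤ L ^ a := hza
        _ ≤ (2 * M) ^ a := pow_le_pow_left₀ hL0.le hML a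
        _ = 2 ^ a * M ^ a := mul_pow _ _ _
        _ ≤ M * M ^ a := by
            apply mul_le_mul_of_nonneg_right _ (by positivity)
            linarith
        _ = M ^ (a + 1) := by ring
    have hP5N : P ^ 5 ≤ N := by
      have h1 : (P : ℝ) ^ 5 ≤ N := (pow_le_pow_left₀ (Nat.cast_nonneg _) hPV 5).trans hlg
      exact_mod_cast h1
    have hza' : ∀ p ∈ S 0, (z : ℝ) < p := fun p hp => lt_of_le_of_lt hza (hS 0 p hp).2
    have h1 := hbig N hNN z P (by omega) (by rw [← hM]; exact hzM) hP5N (h 0) (S 0) (fun g hg => by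
      refine ⟨(hS 0 g hg).1, by exact_mod_cast hza' g hg, hSP 0 g hg, fun hgc => ?_⟩
      have h2 : g ≤ (c 0).natAbs := Nat.le_of_dvd (Int.natAbs_pos.2 (hc 0)) (Int.natCast_dvd.1 hgc)
      have h3 : (g : ℝ) ≤ ((c 0).natAbs : ℝ) := by exact_mod_cast h2
      have h4 := (hS 0 g hg).2
      have h5 : L ≤ L ^ a := le_self_pow₀ hL1 (by omega)
      linarith)
    rw [sum_Wh, Fin.prod_univ_one]
    have e1 : ∏ p ∈ pz z, (1 - (rho c h p : ℝ) / (p - 1 : ℝ)) = ∏ p ∈ pz z, (1 - (rhoA (Q1 (c 0) (h 0)) p : ℝ) / (p - 1 : ℝ)) := by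
      apply prod_congr rfl
      intro p _
      rw [rho_one]
    rw [e1]
    refine h1.trans ?_
    rw [← hM]
    have h6 : L ^ U ≤ M ^ (U + 1) := by
      have h7 : L ^ (U + 1) ≤ (2 * M) ^ (U + 1) := pow_le_pow_left₀ hL0.le hML _
      rw [mul_pow, pow_succ L U] at h7
      have h8 : L ^ U * 2 ^ (U + 1) ≤ 2 ^ (U + 1) * M ^ (U + 1) :=
        (mul_le_mul_of_nonneg_left hLU2 hLU0.le).trans h7
      have h9 : 2 ^ (U + 1) * L ^ U ≤ 2 ^ (U + 1) * M ^ (U + 1) := by linarith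
      exact le_of_mul_le_mul_left h9 hU2
    exact div_le_div₀ hX0'.le hNX hLU0 h6

end Pool.Agent.H561.E3
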