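import Pool.Agent.H561.E3.U4
import Pool.Agent.H561.E2.T9
import Pool.Agent.H561.E2.T6

set_option autoImplicit false

/-! Almost all shifts, primes `g` up to a small power. -/

namespace Pool.Agent.H561.E3

open Finset Filter Topology
open Pool.Agent.helper24_UT hiding om
open Pool.Agent.H373R2.T7 (pz mem_pz Vz Vz_pos Vz_inv_small)
open Pool.Agent.H561.E2
open Pool.Agent.helper24_UT.Ch (t_AL)

/-- the correlations -/
theorem tel : S_TEL := t_TEL (t_COR (t_STAR2 (t_STAR (t_MAJ (t_SIG2 (t_SIG Pool.Agent.helper24_UT.Win.main (t_FRG (t_LF t_AL))))))))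

open Classical in
theorem tupR {k : ℕ} (c : Fin k → ℤ) (hc : ∀ i, c i ≠ 0) (A : ℕ) (herr : ErrB c R10 (A + 1 + k + 2)) :
  ∃ a₀ : ℕ, ∀ a : ℕ, a₀ ≤ a → ∃ G X₀ : ℕ, ∀ X : ℕ, X₀ ≤ X → ∀ P : ℕ, P ^ 10 ≤ X →
  ∀ S : Fin k → Finset ℕ, (∀ i, ∀ p ∈ S i, p.Prime ∧ (Real.log X) ^ a < p ∧ p ≤ P) →
  ∀ H : ℕ, 1 ≤ H → P * (Real.log X) ^ G ≤ H → 4 * H ^ 2 ≤ X → ∀ (N₁ N₂ : ℕ) (b : Fin k → ℤ), N₁ < N₂ → N₂ ≤ X →
  (∀ i, ∀ n ∈ Ioc N₁ N₂, 1 ≤ LFo c b i n ∧ LFo c b i n + H ≤ X) →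
  (((Fintype.piFinset (fun _ : Fin k => range H)).filter (fun h => NDeg c (bh b h) ∧
    ¬ |WL c S N₁ N₂ (bh b h) - Mn c S N₁ N₂ (bh b h)| ≤ X / (Real.log X) ^ A)).card : ℝ) ≤ (H : ℝ) ^ k / (Real.log X) ^ A ∧
  ∀ h ∈ Fintype.piFinset (fun _ : Fin k => range H), NDeg c (bh b h) →
    Multipliable (fun p : ℕ => if p.Prime then lf c (bh b h) p else 1) := by
  obtain ⟨a₁, G, B₀, hT⟩ := tel k (3 * A + 3)
  obtain ⟨Z₀, hmain⟩ := main_of c hc (A + 1) R10 herr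
  obtain ⟨Z, hZ⟩ : ∃ Z, Z = max (max B₀ Z₀) 1 := ⟨_, rfl⟩
  obtain ⟨a₀, hmain⟩ := hmain Z (by rw [hZ]; exact (le_max_right _ _).trans (le_max_left _ _))
  refine ⟨max (max a₁ a₀) (Z + 1), fun a ha => ?_⟩
  have ha1 : a₁ ≤ a := ((le_max_left _ _).trans (le_max_left _ _)).trans ha
  have ha0 : a₀ ≤ a := ((le_max_right _ _).trans (le_max_left _ _)).trans ha
  have haZ : Z + 1 ≤ a := (le_max_right _ _).trans ha
  have hBZ : B₀ ≤ Z := by rw [hZ]; exact (le_max_left _ _).trans (le_max_left _ _)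
  have hZ1 : 1 ≤ Z := by rw [hZ]; exact le_max_right _ _
  obtain ⟨X₁, hT⟩ := hT (Z + 1)
  obtain ⟨X₂, hmain⟩ := hmain a ha0
  obtain ⟨X₃, hX₃⟩ := Filter.eventually_atTop.1 ((Sil2.ev_log 1000).and
    (Sil2.ev_pow 0 1 (4 * (((∏ i, (c i).natAbs : ℕ) : ℝ) + 2)) (by norm_num)))
  refine ⟨G, max (max X₁ X₂) (max X₃ 3), fun X hX P hP10 S hS H hH1 hH hHX N₁ N₂ b hN12 hN2 hb => ?_⟩
  have hX1 : X₁ ≤ X := ((le_max_left _ _).trans (le_max_left _ _)).trans hX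
  have hX2 : X₂ ≤ X := ((le_max_right _ _).trans (le_max_left _ _)).trans hX
  obtain ⟨hLbig, c2⟩ := hX₃ X (((le_max_left _ _).trans (le_max_right _ _)).trans hX)
  have hX3 : 3 ≤ X := ((le_max_right _ _).trans (le_max_right _ _)).trans hX
  have hT := hT X hX1
  have hmain := hmain X hX2
  obtain ⟨L, hLdef⟩ : ∃ L, L = Real.log (X : ℝ) := ⟨_, rfl⟩
  rw [← hLdef] at hLbig c2 hT hmain hS hH ⊢
  have hL1 : 1 ≤ L := by linarith
  have hL0 : 0 < L := by linarith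
  have hXR : (3 : ℝ) ≤ X := by exact_mod_cast hX3
  have hX0' : (0 : ℝ) < X := lt_of_lt_of_le (by norm_num) hXR
  have hX1r : (1 : ℝ) ≤ X := le_trans (by norm_num) hXR
  rw [Real.rpow_one, pow_zero, mul_one] at c2
  -- the sieve range
  have hLZ1 : 1 ≤ L ^ Z := one_le_pow₀ hL1
  obtain ⟨z, hz⟩ : ∃ z, z = ⌈L ^ Z⌉₊ := ⟨_, rfl⟩
  have hz1 : L ^ Z ≤ z := by rw [hz]; exact Nat.le_ceil _
  have hz2 : (z : ℝ) ≤ L ^ (Z + 1) := by
    have h1 := (Nat.ceil_lt_add_one (show 0 ≤ L ^ Z by positivity)).le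
    rw [← hz] at h1
    rw [pow_succ]
    nlinarith
  have hzB : L ^ B₀ ≤ z := (pow_le_pow_right₀ hL1 hBZ).trans hz1
  have hza : (z : ℝ) ≤ L ^ a := hz2.trans (pow_le_pow_right₀ hL1 haZ)
  have hP5 : P ^ 5 ≤ X := by
    refine le_trans ?_ hP10
    rcases Nat.eq_zero_or_pos P with h1 | h1
    · rw [h1]; norm_num
    · exact Nat.pow_le_pow_right h1 (by norm_num)
  -- the positions
  obtain ⟨φ, hφ⟩ : ∃ φ : Fin k → ℕ → ℕ, φ = fun i n => (LFo c b i n).toNat := ⟨_, rfl⟩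
  have hφc : ∀ i, ∀ n ∈ Ioc N₁ N₂, ((φ i n : ℕ) : ℤ) = LFo c b i n := by
    intro i n hn
    rw [hφ]
    exact Int.toNat_of_nonneg (by linarith [(hb i n hn).1])
  have hinj : ∀ i, ∀ n ∈ Ioc N₁ N₂, ∀ m ∈ Ioc N₁ N₂, φ i n = φ i m → n = m := by
    intro i n hn m hm hnm
    have h1 : LFo c b i n = LFo c b i m := by rw [← hφc i n hn, ← hφc i m hm, hnm]
    unfold LFo at h1
    have h2 : c i * ((n : ℤ) - m) = 0 := by linarith
    rcases mul_eq_zero.1 h2 with h3 | h3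
    · exact absurd h3 (hc i)
    · omega
  have hφb : ∀ i, ∀ n ∈ Ioc N₁ N₂, 1 ≤ φ i n ∧ φ i n + H ≤ X := by
    intro i n hn
    have h1 := hφc i n hn
    have h2 := hb i n hn
    constructor
    · have : (1 : ℤ) ≤ ((φ i n : ℕ) : ℤ) := by rw [h1]; exact h2.1
      exact_mod_cast this
    · have : ((φ i n : ℕ) : ℤ) + H ≤ X := by rw [h1]; exact h2.2
      exact_mod_cast this
  have htel := hT z hzB hz2 P hP5 S (fun i p hp => ⟨(hS i p hp).1, by
    have h1 := (hS i p hp).2.1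
    have : (z : ℝ) < p := by linarith
    exact_mod_cast this⟩) (fun i p hp => ⟨lt_of_le_of_lt (pow_le_pow_right₀ hL1 ha1) (hS i p hp).2.1, (hS i p hp).2.2⟩) H hH1 hH hHX N₁ N₂ φ hN2 hinj hφb
  -- sizes of the shifts
  have hbX : ∀ i, |b i| + H ≤ (X : ℤ) ^ 2 := by
    intro i
    have h1 := hb i N₂ (by rw [mem_Ioc]; exact ⟨hN12, le_rfl⟩)
    unfold LFo at h1
    have h2 : |c i| * 4 + 8 ≤ (X : ℤ) := by
      have h3 := natAbs_le_bigc c hc i
      have h4 : ((c i).natAbs : ℝ) ≤ ((∏ i, (c i).natAbs : ℕ) : ℝ) := by exact_mod_cast h3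
      have h5 : ((c i).natAbs : ℝ) * 4 + 8 ≤ X := by linarith
      rw [Int.abs_eq_natAbs]
      exact_mod_cast h5
    have h3 : |c i * (N₂ : ℤ)| ≤ |c i| * X := by
      rw [abs_mul, Nat.abs_cast]
      apply mul_le_mul_of_nonneg_left _ (abs_nonneg _)
      exact_mod_cast hN2
    have h4 : |b i| ≤ |c i| * X + X := by
      have h5 := abs_le.1 h3
      have h6 : (0 : ℤ) ≤ H := Int.natCast_nonneg _
      rw [abs_le]
      constructor <;> linarith
    have h5 : (H : ℤ) ≤ X := by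
      have h6 : H ≤ X := by
        have : H ≤ H ^ 2 := Nat.le_self_pow (by norm_num) H
        omega
      exact_mod_cast h6
    have h6 : (0 : ℤ) ≤ X := Int.natCast_nonneg _
    have h7 : (0 : ℤ) ≤ |c i| := abs_nonneg _
    nlinarith
  have hbh : ∀ h ∈ Fintype.piFinset (fun _ : Fin k => range H), ∀ i, |bh b h i| ≤ (X : ℤ) ^ 2 := by
    intro h hh i
    rw [Fintype.mem_piFinset] at hh
    have h1 := hh i
    rw [mem_range] at h1
    unfold bh
    have h2 : |b i + (h i : ℤ)| ≤ |b i| + |(h i : ℤ)| := abs_add_le _ _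
    rw [Nat.abs_cast] at h2
    have h3 : (h i : ℤ) ≤ H := by exact_mod_cast h1.le
    have := hbX i
    linarith
  -- pointwise relation
  have hWL : ∀ h ∈ Fintype.piFinset (fun _ : Fin k => range H), WL c S N₁ N₂ (bh b h) =
      Der S z φ N₁ N₂ h + ∑ n ∈ Ioc N₁ N₂, ArithmeticFunction.vonMangoldt n * ∏ i, bt (S i) z (LFo c (bh b h) i n) := by
    intro h _
    unfold WL Der
    rw [← sum_add_distrib]
    apply sum_congr rfl
    intro n hn
    have h1 : ∀ i, LFo c (bh b h) i n = ((φ i n + h i : ℕ) : ℤ) := by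
      intro i
      push_cast
      rw [hφc i n hn]
      unfold LFo bh
      ring
    have h2 : ∏ i, be (S i) (LFo c (bh b h) i n).toNat = ∏ i, be (S i) (φ i n + h i) := by
      apply prod_congr rfl
      intro i _
      rw [h1 i, Int.toNat_natCast]
    have h3 : ∏ i, bt (S i) z (LFo c (bh b h) i n) = ∏ i, bt (S i) z ((φ i n + h i : ℕ) : ℤ) := by
      apply prod_congr rfl
      intro i _
      rw [h1 i]
    rw [h2, h3]
    ring
  have hmt : ∀ h ∈ Fintype.piFinset (fun _ : Fin k => range H), NDeg c (bh b h) →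
      Multipliable (fun p : ℕ => if p.Prime then lf c (bh b h) p else 1) ∧
      |∑ n ∈ Ioc N₁ N₂, ArithmeticFunction.vonMangoldt n * ∏ i, bt (S i) z (LFo c (bh b h) i n) - Mn c S N₁ N₂ (bh b h)| ≤ X / L ^ (A + 1) := by
    intro h hh hnd
    obtain ⟨h1, h2⟩ := hmain z hz1 hz2 S (fun i p hp => ⟨(hS i p hp).1, (hS i p hp).2.1⟩) ⟨P, hP10, fun i p hp => (hS i p hp).2.2⟩ (bh b h) (fun i => ⟨hnd.1 i, hbh h hh i⟩) hnd.2
    exact ⟨h1, h2 N₁ N₂ hN12.le hN2⟩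
  refine ⟨?_, fun h hh hnd => (hmt h hh hnd).1⟩
  have hLA : 0 < L ^ A := by positivity
  have hsub : (Fintype.piFinset (fun _ : Fin k => range H)).filter (fun h => NDeg c (bh b h) ∧
    ¬ |WL c S N₁ N₂ (bh b h) - Mn c S N₁ N₂ (bh b h)| ≤ X / L ^ A) ⊆
      (Fintype.piFinset (fun _ : Fin k => range H)).filter (fun h => (X / (2 * L ^ A)) ^ 2 ≤ (Der S z φ N₁ N₂ h) ^ 2) := by
    intro h hh
    rw [mem_filter] at hh ⊢
    obtain ⟨hh1, hnd, hbad⟩ := hh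
    refine ⟨hh1, ?_⟩
    have h1 := (hmt h hh1 hnd).2
    rw [hWL h hh1] at hbad
    by_contra hcon
    push Not at hcon
    have h2 : |Der S z φ N₁ N₂ h| < X / (2 * L ^ A) := by
      have := abs_lt_of_sq_lt_sq hcon (by positivity)
      exact this
    apply hbad
    have h3 : X / L ^ (A + 1) ≤ X / (2 * L ^ A) := by
      apply div_le_div_of_nonneg_left hX0'.le (by positivity)
      rw [pow_succ]
      nlinarith
    have h4 : X / L ^ A = X / (2 * L ^ A) + X / (2 * L ^ A) := by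
      field_simp
      ring
    have h5 := abs_add_le (Der S z φ N₁ N₂ h) (∑ n ∈ Ioc N₁ N₂, ArithmeticFunction.vonMangoldt n * ∏ i, bt (S i) z (LFo c (bh b h) i n) - Mn c S N₁ N₂ (bh b h))
    rw [← add_sub_assoc] at h5
    linarith
  have hcount : (((Fintype.piFinset (fun _ : Fin k => range H)).filter (fun h => (X / (2 * L ^ A)) ^ 2 ≤ (Der S z φ N₁ N₂ h) ^ 2)).card : ℝ) *
      (X / (2 * L ^ A)) ^ 2 ≤ (H : ℝ) ^ k * (X : ℝ) ^ 2 / L ^ (3 * A + 3) := by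
    refine le_trans ?_ htel
    rw [← nsmul_eq_mul]
    refine (card_nsmul_le_sum _ (fun h => (Der S z φ N₁ N₂ h) ^ 2) _ (fun h hh => (mem_filter.1 hh).2)).trans ?_
    apply sum_le_sum_of_subset_of_nonneg (filter_subset _ _)
    intro _ _ _
    positivity
  have h1 : (((Fintype.piFinset (fun _ : Fin k => range H)).filter (fun h => NDeg c (bh b h) ∧
    ¬ |WL c S N₁ N₂ (bh b h) - Mn c S N₁ N₂ (bh b h)| ≤ X / L ^ A)).card : ℝ) ≤
      (((Fintype.piFinset (fun _ : Fin k => range H)).filter (fun h => (X / (2 * L ^ A)) ^ 2 ≤ (Der S z φ N₁ N₂ h) ^ 2)).card : ℝ) := by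
    exact_mod_cast card_le_card hsub
  refine h1.trans ?_
  have hpos : 0 < (X / (2 * L ^ A)) ^ 2 := by positivity
  rw [← le_div_iff₀ hpos] at hcount
  refine hcount.trans ?_
  have e1 : (H : ℝ) ^ k * (X : ℝ) ^ 2 / L ^ (3 * A + 3) / (X / (2 * L ^ A)) ^ 2 = (H : ℝ) ^ k / L ^ A * (4 / L ^ 3) := by
    rw [show L ^ (3 * A + 3) = L ^ A * (L ^ A) ^ 2 * L ^ 3 by ring]
    field_simp
    norm_num
  rw [e1]
  calc (H : ℝ) ^ k / L ^ A * (4 / L ^ 3) ≤ (H : ℝ) ^ k / L ^ A * 1 := by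
        apply mul_le_mul_of_nonneg_left _ (by positivity)
        rw [div_le_one (by positivity)]
        have : L ≤ L ^ 3 := le_self_pow₀ hL1 (by norm_num)
        linarith
    _ = _ := mul_one _

end Pool.Agent.H561.E3
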